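import Mathlib

/-!
# Counting predicate

`Bd S r` : the set `S` is finite and has at most `r` elements (`r` real).
-/

namespace Pool.Agent.H11.PP

/-- `S` is finite with at most `r` elements. -/
def Bd {X : Type*} (S : Set X) (r : ℝ) : Prop := S.Finite ∧ (S.ncard : ℝ) ≤ r

namespace Bd

variable {X Y : Type*}

lemma nonneg {S : Set X} {r : ℝ} (h : Bd S r) : 0 ≤ r :=
  le_trans (by positivity) h.2

lemma mono {S T : Set X} {r s : ℝ} (hT : Bd T r) (hST : S ⊆ T) (hrs : r ≤ s) : Bd S s := by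
  refine ⟨hT.1.subset hST, ?_⟩
  have : (S.ncard : ℝ) ≤ T.ncard := by exact_mod_cast Set.ncard_le_ncard hST hT.1
  linarith [hT.2]

lemma empty {r : ℝ} (hr : 0 ≤ r) : Bd (∅ : Set X) r := by
  refine ⟨Set.finite_empty, ?_⟩
  simpa using hr

lemma singleton (x : X) {r : ℝ} (hr : 1 ≤ r) : Bd ({x} : Set X) r := by
  refine ⟨Set.finite_singleton x, ?_⟩
  simpa using hr

lemma of_subsingleton {S : Set X} (hS : S.Subsingleton) {r : ℝ} (hr : 1 ≤ r) : Bd S r := by
  refine ⟨hS.finite, ?_⟩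
  have : S.ncard ≤ 1 := by
    rw [Set.ncard_le_one hS.finite]
    exact hS
  have : (S.ncard : ℝ) ≤ 1 := by exact_mod_cast this
  linarith

lemma union {S T : Set X} {r s : ℝ} (hS : Bd S r) (hT : Bd T s) : Bd (S ∪ T) (r + s) := by
  refine ⟨hS.1.union hT.1, ?_⟩
  have : ((S ∪ T).ncard : ℝ) ≤ S.ncard + T.ncard := by exact_mod_cast Set.ncard_union_le S T
  linarith [hS.2, hT.2]

lemma image {S : Set X} {r : ℝ} (hS : Bd S r) (f : X → Y) : Bd (f '' S) r := by
  refine ⟨hS.1.image f, ?_⟩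
  have : ((f '' S).ncard : ℝ) ≤ S.ncard := by exact_mod_cast Set.ncard_image_le hS.1
  linarith [hS.2]

/-- injective preimages -/
lemma of_injOn {S : Set X} {T : Set Y} {r : ℝ} (hT : Bd T r) (f : X → Y)
    (hf : Set.MapsTo f S T) (hi : Set.InjOn f S) : Bd S r := by
  have hfin : S.Finite := Set.Finite.of_injOn hf hi hT.1
  refine ⟨hfin, ?_⟩
  have : (S.ncard : ℝ) ≤ T.ncard := by
    exact_mod_cast Set.ncard_le_ncard_of_injOn f hf hi hT.1
  linarith [hT.2]

lemma biUnion {ι : Type*} (I : Finset ι) (S : ι → Set X) (r : ι → ℝ)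
    (h : ∀ i ∈ I, Bd (S i) (r i)) : Bd (⋃ i ∈ I, S i) (∑ i ∈ I, r i) := by
  classical
  induction I using Finset.induction_on with
  | empty => simpa using Bd.empty (X := X) le_rfl
  | insert a I ha ih =>
    rw [Finset.set_biUnion_insert, Finset.sum_insert ha]
    exact (h a (Finset.mem_insert_self a I)).union
      (ih fun i hi => h i (Finset.mem_insert_of_mem hi))

/-- dependent product bound -/
lemma bind {A : Set X} {a b : ℝ} (hA : Bd A a) (S : X → Set Y) (hb : 0 ≤ b)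
    (hS : ∀ x ∈ A, Bd (S x) b) : Bd (⋃ x ∈ A, S x) (a * b) := by
  classical
  have h1 : Bd (⋃ x ∈ hA.1.toFinset, S x) (∑ _x ∈ hA.1.toFinset, b) :=
    biUnion _ _ _ fun x hx => hS x (by simpa using hx)
  refine h1.mono (by simp) ?_
  rw [Finset.sum_const, nsmul_eq_mul]
  have : (hA.1.toFinset.card : ℝ) ≤ a := by
    rw [← Set.ncard_eq_toFinset_card A hA.1]
    exact hA.2
  exact mul_le_mul_of_nonneg_right this hb

lemma sum_range {S : ℕ → Set X} {r : ℕ → ℝ} (n : ℕ) (h : ∀ i < n, Bd (S i) (r i)) :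
    Bd {x | ∃ i < n, x ∈ S i} (∑ i ∈ Finset.range n, r i) := by
  refine (biUnion (Finset.range n) S r fun i hi => h i (Finset.mem_range.1 hi)).mono ?_ le_rfl
  rintro x ⟨i, hi, hx⟩
  simp only [Set.mem_iUnion, Finset.mem_range]
  exact ⟨i, hi, hx⟩

lemma card_le {S : Set X} {r : ℝ} (h : Bd S r) : (S.ncard : ℝ) ≤ r := h.2

end Bd

end Pool.Agent.H11.PP
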