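import Pool.Agent.H11.PP.LynMul

/-!
# Blocks over a Lyndon word

For a word `u` the *block alphabet* `Blk u` consists of the pairs `(L, c)` with `L < |u|` and
`u[L] < c`; the block `(L, c)` stands for the word `u[0,L) c` (`Blk.ex`).  The order is:
`L` descending, then `c` ascending.  It is a strictly SL-increasing code:
`x < y → SL x.ex y.ex`.

Proofs (paper).
* `SL_ex` : `x = (L,c) < y = (L',c')`.  If `L' < L` : `x.ex` has at position `L'` the letter
  `u[L']`, and `y.ex` has there `c' > u[L']`, the first `L'` letters agree.  If `L = L'`, `c < c'` :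
  clear.
* `SL_exw` : `X = p a s`, `Y = p b t`, `a < b`; `exw` is multiplicative, use `SL_ex`,
  `SL.append`, `SL.append_left`.
* `exw_injective` : `SL_trichotomy X Y`; if `X` is a prefix of `Y`, `Y = X ++ Z`,
  `exw Z = []` so `Z = []` (each `ex` is nonempty); if `SL X Y` then `SL (exw X) (exw Y)`,
  contradiction with `SL_irrefl`.
* key computation `SL_suffix` : `u` Lyndon, `x = (L,c) : Blk u`, `0 < o ≤ L`.  Let
  `s = (u.take L).drop o ++ c :: r` (suffix of the block followed by anything).  Then for every
  word `w` whose first `L - o + 1` letters agree with those of `u`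
  (`u.take (L - o + 1) <+: w`), `SL w s`.
  Proof: `u` is Lyndon so `SL u (u.drop o)` : first mismatch at `q`, `u[q] < u[o+q]`,
  `u[i] = u[o+i]` for `i < q`.  If `q < L - o` : then `SL w s` with mismatch at `q`.  Otherwise
  `q ≥ L - o`; the first `L - o` letters of `w` and `s` agree, `w[L-o] = u[L-o] ≤ u[L] < c`
  (equality or `<` according to `q > L-o` or `q = L-o`).
* `Lyn_exw` : `X = x₁ … x_n` Lyndon over `Blk u`.  A proper suffix of `exw X` starts at a block
  boundary (`SL X X'` then `SL_exw`), or inside a block `x_i = (L,c)` at offset `0 < o ≤ L`.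
  As `X` is Lyndon, `x₁ ≤ x_i`, so `L₁ ≥ L`, and `exw X` starts with `u.take L₁`, and
  `L - o + 1 ≤ L ≤ L₁`; use `SL_suffix`.
* `Lyn_append_exw` : proper suffixes of `u ++ exw T` : those starting inside `u` (at an offset
  `> 0`) : `SL u (u.drop y)`, extend; those starting at a block boundary : `SL u (u[0,L) c …)` by
  `u[L] < c`; those starting inside a block : `SL_suffix` with `w = u ++ exw T`.
-/

namespace Pool.Agent.H11.PP

variable {α : Type*} [LinearOrder α]

/-- the block alphabet over `u` -/
def Blk (u : List α) : Type _ := {x : ℕ × α // ∃ h : x.1 < u.length, u[x.1] < x.2}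

namespace Blk

variable {u : List α}

/-- length of the copied prefix -/
def L (x : Blk u) : ℕ := x.1.1
/-- the new letter -/
def c (x : Blk u) : α := x.1.2

lemma hL (x : Blk u) : x.L < u.length := x.2.1
lemma hc (x : Blk u) : u[x.L]'x.hL < x.c := x.2.2

lemma ext' {x y : Blk u} (h1 : x.L = y.L) (h2 : x.c = y.c) : x = y :=
  Subtype.ext (Prod.ext h1 h2)

instance : LinearOrder (Blk u) :=
  LinearOrder.lift' (fun x => toLex (OrderDual.toDual x.L, x.c)) (by
    intro x y h
    have h' := toLex.injective h
    simp only [Prod.mk.injEq, OrderDual.toDual_inj] at h'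
    exact ext' h'.1 h'.2)

lemma lt_iff (x y : Blk u) : x < y ↔ y.L < x.L ∨ (x.L = y.L ∧ x.c < y.c) := by
  have : x < y ↔ toLex (OrderDual.toDual x.L, x.c) < toLex (OrderDual.toDual y.L, y.c) :=
    Iff.rfl
  rw [this, Prod.Lex.toLex_lt_toLex]
  simp

/-- the word of a block -/
def ex (x : Blk u) : List α := u.take x.L ++ [x.c]

lemma ex_ne_nil (x : Blk u) : x.ex ≠ [] := by simp [ex]

end Blk

/-- the word of a word of blocks -/
def exw {u : List α} (X : List (Blk u)) : List α := (X.map Blk.ex).flatten

@[simp] lemma exw_nil {u : List α} : exw ([] : List (Blk u)) = [] := rfl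

@[simp] lemma exw_cons {u : List α} (x : Blk u) (X : List (Blk u)) :
    exw (x :: X) = x.ex ++ exw X := by simp [exw]

@[simp] lemma exw_append {u : List α} (X Y : List (Blk u)) :
    exw (X ++ Y) = exw X ++ exw Y := by simp [exw]

/-- weight of a block -/
def wtB (wt : α → ℕ) (u : List α) (x : Blk u) : ℕ := wl wt x.ex

lemma wl_exw (wt : α → ℕ) (u : List α) (X : List (Blk u)) :
    wl wt (exw X) = wl (wtB wt u) X := by
  induction X with
  | nil => simp
  | cons x X ih => simp [ih, wtB]

lemma one_le_wtB {wt : α → ℕ} (hwt : ∀ a, 1 ≤ wt a) (u : List α) (x : Blk u) :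
    1 ≤ wtB wt u x := wl_pos hwt x.ex_ne_nil

lemma exw_flatten {u : List α} (L : List (List (Blk u))) :
    exw L.flatten = (L.map exw).flatten := by
  induction L with
  | nil => simp
  | cons x X ih => simp [ih]

lemma take_eq_take_append_cons {u : List α} {l L : ℕ} (h : l < L) (hL : L ≤ u.length) :
    u.take L = u.take l ++ u[l]'(lt_of_lt_of_le h hL) :: (u.take L).drop (l + 1) := by
  have h1 : u.take l = (u.take L).take l := by
    rw [List.take_take, min_eq_left h.le]
  have h2 : l < (u.take L).length := by
    rw [List.length_take, min_eq_left hL]; exact h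
  have h3 : u[l]'(lt_of_lt_of_le h hL) = (u.take L)[l]'h2 := by
    rw [List.getElem_take]
  rw [h1, h3, List.getElem_cons_drop, List.take_append_drop]

lemma eq_take_append_cons {u : List α} {l : ℕ} (h : l < u.length) :
    u = u.take l ++ u[l] :: u.drop (l + 1) := by
  rw [List.getElem_cons_drop, List.take_append_drop]

lemma SL_ex {u : List α} {x y : Blk u} (h : x < y) : SL x.ex y.ex := by
  rw [Blk.lt_iff] at h
  rcases h with h | ⟨h1, h2⟩
  · refine ⟨u.take y.L, u[y.L]'y.hL, y.c, (u.take x.L).drop (y.L + 1) ++ [x.c], [], y.hc, ?_,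
      rfl⟩
    have := take_eq_take_append_cons (u := u) h x.hL.le
    unfold Blk.ex
    rw [← List.cons_append, ← List.append_assoc, ← this]
  · exact ⟨u.take x.L, x.c, y.c, [], [], h2, rfl, by unfold Blk.ex; rw [h1]⟩

lemma SL_exw {u : List α} {X Y : List (Blk u)} (h : SL X Y) : SL (exw X) (exw Y) := by
  obtain ⟨p, a, b, s, t, hab, rfl, rfl⟩ := h
  rw [exw_append, exw_append, exw_cons, exw_cons]
  exact ((SL_ex hab).append _ _).append_left _

lemma exw_eq_nil {u : List α} {X : List (Blk u)} (h : exw X = []) : X = [] := by
  cases X with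
  | nil => rfl
  | cons x X =>
    rw [exw_cons, List.append_eq_nil_iff] at h
    exact absurd h.1 x.ex_ne_nil

lemma exw_injective {u : List α} : Function.Injective (exw : List (Blk u) → List α) := by
  intro X Y h
  rcases SL_trichotomy X Y with ⟨Z, rfl⟩ | ⟨Z, rfl⟩ | h1 | h1
  · have : exw Z = [] := by
      rw [exw_append] at h
      exact (List.append_right_eq_self.1 h.symm)
    rw [exw_eq_nil this, List.append_nil]
  · have : exw Z = [] := by
      rw [exw_append] at h
      exact (List.append_right_eq_self.1 h)
    rw [exw_eq_nil this, List.append_nil]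
  · exact absurd h (SL_exw h1).ne
  · exact absurd h.symm (SL_exw h1).ne

/-- key computation -/
lemma SL_suffix {u : List α} (hu : Lyn u) (x : Blk u) (o : ℕ) (ho : 0 < o) (hoL : o ≤ x.L)
    (w r : List α) (hw : u.take (x.L - o + 1) <+: w) :
    SL w ((u.take x.L).drop o ++ x.c :: r) := by
  have hL := x.hL
  obtain ⟨w', rfl⟩ := hw
  have h0 : SL u (u.drop o) := by
    refine hu.2 (u.take o) (u.drop o) (List.take_append_drop o u).symm ?_ ?_
    · intro h
      have := congrArg List.length h
      rw [List.length_take, List.length_nil] at this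
      omega
    · intro h
      have := congrArg List.length h
      rw [List.length_drop, List.length_nil] at this
      omega
  obtain ⟨p, a, b, s, t, hab, h1, h2⟩ := h0
  have hm : x.L - o < u.length := by omega
  have h3 : (u.take x.L).drop o = (u.drop o).take (x.L - o) := by
    rw [List.drop_take]
  have h4 : u.take (x.L - o + 1) = u.take (x.L - o) ++ [u[x.L - o]] := by
    rw [List.take_append_getElem]
  have h5 : (u.drop o)[x.L - o]'(by rw [List.length_drop]; omega) = u[x.L] := by
    rw [List.getElem_drop]
    congr 1
    omega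
  rcases lt_trichotomy p.length (x.L - o) with hq | hq | hq
  · -- the mismatch is inside
    refine ⟨p, a, b, (u.take (x.L - o + 1)).drop (p.length + 1) ++ w',
      ((u.drop o).take (x.L - o)).drop (p.length + 1) ++ x.c :: r, hab, ?_, ?_⟩
    · have h6 := take_eq_take_append_cons (u := u) (l := p.length) (L := x.L - o + 1)
        (by omega) (by omega)
      have h7 : u.take p.length = p := by rw [h1]; simp
      have h8 : u[p.length]'(by omega) = a := by
        have : ∀ (v : List α) (hv : p.length < v.length), v = p ++ a :: s →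
            v[p.length] = a := by
          rintro v hv rfl
          simp
        exact this u _ h1
      rw [h7, h8] at h6
      rw [← List.cons_append, ← List.append_assoc, ← h6]
    · have h6 := take_eq_take_append_cons (u := u.drop o) (l := p.length) (L := x.L - o)
        hq (by rw [List.length_drop]; omega)
      have h7 : (u.drop o).take p.length = p := by rw [h2]; simp
      have h8 : (u.drop o)[p.length]'(by rw [List.length_drop]; omega) = b := by
        have : ∀ (v : List α) (hv : p.length < v.length), v = p ++ b :: t →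
            v[p.length] = b := by
          rintro v hv rfl
          simp
        exact this (u.drop o) _ h2
      rw [h7, h8] at h6
      rw [h3, ← List.cons_append, ← List.append_assoc, ← h6]
  · have h6 : u.take (x.L - o) = p := by rw [← hq, h1]; simp
    have h7 : (u.drop o).take (x.L - o) = p := by rw [← hq, h2]; simp
    have h8 : u[x.L - o] = a := by
      have : ∀ (v : List α) (m : ℕ) (hv : m < v.length), m = p.length → v = p ++ a :: s →
          v[m] = a := by
        rintro v m hv rfl rfl
        simp
      exact this u _ _ hq.symm h1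
    have h9 : (u.drop o)[x.L - o]'(by rw [List.length_drop]; omega) = b := by
      have : ∀ (v : List α) (m : ℕ) (hv : m < v.length), m = p.length → v = p ++ b :: t →
          v[m] = b := by
        rintro v m hv rfl rfl
        simp
      exact this (u.drop o) _ _ hq.symm h2
    refine ⟨p, a, x.c, w', r, ?_, ?_, ?_⟩
    · have := x.hc
      rw [← h5, h9] at this
      exact hab.trans this
    · rw [h4, h6, h8, List.append_assoc, List.singleton_append]
    · rw [h3, h7]
  · have h6 : u.take (x.L - o) = p.take (x.L - o) := by
      have : ∀ (v : List α) (m : ℕ), m ≤ p.length → v = p ++ a :: s →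
          v.take m = p.take m := by
        rintro v m hm rfl
        rw [List.take_append_of_le_length hm]
      exact this u _ hq.le h1
    have h7 : (u.drop o).take (x.L - o) = p.take (x.L - o) := by
      rw [h2, List.take_append_of_le_length hq.le]
    have h8 : u[x.L - o] = p[x.L - o] := by
      have : ∀ (v : List α) (m : ℕ) (hv : m < v.length) (hm : m < p.length),
          v = p ++ a :: s → v[m] = p[m] := by
        rintro v m hv hm rfl
        rw [List.getElem_append_left hm]
      exact this u _ _ hq h1
    have h9 : (u.drop o)[x.L - o]'(by rw [List.length_drop]; omega) = p[x.L - o] := by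
      have : ∀ (v : List α) (m : ℕ) (hv : m < v.length) (hm : m < p.length),
          v = p ++ b :: t → v[m] = p[m] := by
        rintro v m hv hm rfl
        rw [List.getElem_append_left hm]
      exact this (u.drop o) _ _ hq h2
    refine ⟨p.take (x.L - o), p[x.L - o], x.c, w', r, ?_, ?_, ?_⟩
    · have := x.hc
      rw [← h5, h9] at this
      exact this
    · rw [h4, h6, h8, List.append_assoc, List.singleton_append]
    · rw [h3, h7]

/-- splitting of the word of a word of blocks -/
lemma exw_split {u : List α} (X : List (Blk u)) (U V : List α) (h : exw X = U ++ V) :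
    (∃ X1 X2, X = X1 ++ X2 ∧ U = exw X1 ∧ V = exw X2) ∨
    ∃ (X1 : List (Blk u)) (x : Blk u) (X2 : List (Blk u)) (o : ℕ), 0 < o ∧ o ≤ x.L ∧
      X = X1 ++ x :: X2 ∧ V = (u.take x.L).drop o ++ x.c :: exw X2 := by
  induction X generalizing U with
  | nil =>
    left
    have h' := h.symm
    rw [exw_nil, List.append_eq_nil_iff] at h'
    exact ⟨[], [], rfl, h'.1, h'.2⟩
  | cons x X ih =>
    rw [exw_cons] at h
    rcases List.append_eq_append_iff.1 h with ⟨c, hc1, hc2⟩ | ⟨c, hc1, hc2⟩
    · -- U = x.ex ++ c, exw X = c ++ V
      rcases ih c hc2 with ⟨X1, X2, rfl, h2, h3⟩ | ⟨X1, y, X2, o, h1, h2, h3, h4⟩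
      · left
        exact ⟨x :: X1, X2, rfl, by rw [hc1, h2, exw_cons], h3⟩
      · right
        exact ⟨x :: X1, y, X2, o, h1, h2, by rw [h3]; rfl, h4⟩
    · -- x.ex = U ++ c, V = c ++ exw X
      by_cases hc : c = []
      · left
        subst hc
        refine ⟨[x], X, rfl, ?_, by simpa using hc2⟩
        rw [List.append_nil] at hc1
        rw [← hc1, exw_cons, exw_nil, List.append_nil]
      · by_cases hU : U = []
        · left
          subst hU
          refine ⟨[], x :: X, rfl, rfl, ?_⟩
          rw [List.nil_append] at hc1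
          rw [hc2, exw_cons, hc1]
        · right
          have hlen : (u.take x.L).length = x.L := by
            rw [List.length_take, min_eq_left x.hL.le]
          have hlen2 : U.length + c.length = x.L + 1 := by
            have := congrArg List.length hc1
            rw [List.length_append] at this
            rw [← this, Blk.ex, List.length_append, hlen, List.length_singleton]
          have h1 : 0 < U.length := List.length_pos_iff.2 hU
          have h2 : 0 < c.length := List.length_pos_iff.2 hc
          refine ⟨[], x, X, U.length, h1, by omega, rfl, ?_⟩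
          have h3 : c = (x.ex).drop U.length := by rw [hc1]; simp
          have h4 : c = (u.take x.L).drop U.length ++ [x.c] := by
            rw [h3, Blk.ex, List.drop_append_of_le_length (by rw [hlen]; omega)]
          rw [hc2, h4, List.append_assoc, List.singleton_append]

lemma Lyn_exw {u : List α} (hu : Lyn u) {X : List (Blk u)} (hX : Lyn X) : Lyn (exw X) := by
  refine ⟨fun h => hX.1 (exw_eq_nil h), ?_⟩
  intro U V h hU hV
  rcases exw_split X U V h with ⟨X1, X2, h1, h2, h3⟩ | ⟨X1, x, X2, o, h1, h2, h3, h4⟩
  · rw [h3]
    refine SL_exw (hX.2 X1 X2 h1 ?_ ?_)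
    · rintro rfl
      exact hU (by rw [h2, exw_nil])
    · rintro rfl
      exact hV (by rw [h3, exw_nil])
  · obtain ⟨y, Y, hY⟩ := List.exists_cons_of_ne_nil hX.1
    have hxy : x.L ≤ y.L := by
      by_cases hX1 : X1 = []
      · rw [hX1, List.nil_append, hY, List.cons.injEq] at h3
        rw [h3.1]
      · have h5 : SL X (x :: X2) := hX.2 X1 (x :: X2) h3 hX1 (by simp)
        rw [hY, SL_cons_cons] at h5
        rcases h5 with h5 | ⟨h5, _⟩
        · rw [Blk.lt_iff] at h5
          rcases h5 with h5 | ⟨h5, _⟩
          · exact h5.le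
          · exact h5.ge
        · rw [h5]
    rw [h4]
    refine SL_suffix hu x o h1 h2 _ _ ?_
    rw [hY, exw_cons, Blk.ex]
    have h6 : u.take (x.L - o + 1) <+: u.take y.L := by
      have : u.take (x.L - o + 1) = (u.take y.L).take (x.L - o + 1) := by
        rw [List.take_take, min_eq_left (by omega)]
      rw [this]
      exact List.take_prefix _ _
    exact h6.trans (((u.take y.L).prefix_append [y.c]).trans (List.prefix_append _ _))

lemma SL_exw_of_ne_nil {u : List α} {X : List (Blk u)} (hX : X ≠ []) (s r : List α) :
    SL (u ++ s) (exw X ++ r) := by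
  obtain ⟨x, X', rfl⟩ := List.exists_cons_of_ne_nil hX
  refine ⟨u.take x.L, u[x.L]'x.hL, x.c, u.drop (x.L + 1) ++ s, exw X' ++ r, x.hc, ?_, ?_⟩
  · have := eq_take_append_cons (u := u) x.hL
    rw [← List.cons_append, ← List.append_assoc, ← this]
  · rw [exw_cons, Blk.ex]
    simp

lemma Lyn_append_exw {u : List α} (hu : Lyn u) (T : List (Blk u)) : Lyn (u ++ exw T) := by
  refine ⟨by simp [hu.1], ?_⟩
  intro U V h hU hV
  rcases List.append_eq_append_iff.1 h with ⟨c, hc1, hc2⟩ | ⟨c, hc1, hc2⟩
  · -- U = u ++ c, exw T = c ++ V
    rcases exw_split T c V hc2 with ⟨X1, X2, h1, h2, h3⟩ | ⟨X1, x, X2, o, h1, h2, h3, h4⟩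
    · have hX2 : X2 ≠ [] := by
        rintro rfl
        exact hV (by rw [h3, exw_nil])
      have := SL_exw_of_ne_nil (u := u) hX2 (exw T) []
      rwa [List.append_nil, ← h3] at this
    · rw [h4]
      refine SL_suffix hu x o h1 h2 _ _ ?_
      exact (List.take_prefix _ _).trans (List.prefix_append _ _)
  · -- u = U ++ c, V = c ++ exw T
    by_cases hc : c = []
    · rw [hc, List.nil_append] at hc2
      have hT : T ≠ [] := by
        rintro rfl
        exact hV (by rw [hc2, exw_nil])
      have := SL_exw_of_ne_nil (u := u) hT (exw T) []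
      rw [List.append_nil] at this
      rw [hc2]
      exact this
    · rw [hc2]
      exact (hu.2 U c hc1 hU hc).append _ _

/-- The number of blocks of weight `n` : `L` determines `wl wt (u.take L)` injectively
(`wt ≥ 1`), and given `L` there are at most `β (n - wl wt (u.take L))` letters `c`. -/
lemma Bd_blk {wt : α → ℕ} (hwt : ∀ a, 1 ≤ wt a) {β : ℕ → ℕ}
    (hβ : ∀ n, Bd {a | wt a = n} (β n)) (u : List α) (n : ℕ) :
    Bd {x : Blk u | wtB wt u x = n} ((∑ i ∈ Finset.range (n + 1), β i : ℕ) : ℝ) := by
  have hmono : ∀ {l L : ℕ}, l < L → L ≤ u.length → wl wt (u.take l) < wl wt (u.take L) := by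
    intro l L h hL
    rw [take_eq_take_append_cons h hL, wl_append, wl_cons]
    have := hwt (u[l]'(lt_of_lt_of_le h hL))
    omega
  have hw : ∀ x : Blk u, wtB wt u x = wl wt (u.take x.L) + wt x.c := by
    intro x
    rw [wtB, Blk.ex, wl_append, wl_cons, wl_nil, add_zero]
  rw [Nat.cast_sum]
  refine (Bd.sum_range (S := fun j => {x : Blk u | wtB wt u x = n ∧ wt x.c = j})
    (r := fun j => (β j : ℝ)) (n + 1) ?_).mono ?_ le_rfl
  · intro j _
    refine (hβ j).of_injOn Blk.c ?_ ?_
    · rintro x ⟨_, hx⟩
      exact hx
    · rintro x ⟨hx1, hx2⟩ y ⟨hy1, hy2⟩ hxy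
      have h1 : wl wt (u.take x.L) = wl wt (u.take y.L) := by
        rw [hw] at hx1 hy1
        omega
      refine Blk.ext' ?_ hxy
      rcases lt_trichotomy x.L y.L with h | h | h
      · exact absurd h1 (hmono h y.hL.le).ne
      · exact h
      · exact absurd h1.symm (hmono h x.hL.le).ne
  · intro x hx
    have hx' : wtB wt u x = n := hx
    refine ⟨wt x.c, ?_, hx', rfl⟩
    rw [hw] at hx'
    omega

end Pool.Agent.H11.PP
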