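import Mathlib

/-!
# The bootstrap

Proof of `bootstrap` (paper).  Let `ρ` be the infimum of the set `Σ` of all `σ ≥ 1` for which there
is `C` with `b i n ≤ C σ^n` for all `i, n` (nonempty by `h5`).  Suppose `ρ ≥ 2` (otherwise some
`σ < 2` is in `Σ`: done).  Choose `σ₊ ∈ Σ` with `σ₊ < (15/14) ρ` and `C₊ ≥ 0` its constant.
`c i k ≤ a i k ≤ b i (k+1) ≤ C₊ σ₊^(k+1)`.  Put `τ = sqrt ((7/4) σ₊)`, so
`τ^2 = (7/4) σ₊ < (15/8) ρ ≤ (15/16) ρ^2`, hence `τ < ρ`, and `τ ≥ 1`, `τ^2 ≥ 7/4`;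
also `2^(1/3) ≤ 63/50` and `(63/50)^2 ≤ 7/4`.
Claim: `c i k ≤ C' τ^k` for all `i, k`.  For `k ≥ 2 n₁` write `k = i₀ + q` with `q = k/2`,
`i₀ = k - q ≥ n₁`, `q ≤ i₀ ≤ q + 1`; by `h3`
`c i k ≤ C (7/4)^q C₊ σ₊^(i₀+1) + C 2^(k/3) C₊ σ₊^(q+1)`.  The first term is
`≤ C C₊ σ₊^2 ((7/4) σ₊)^q ≤ C'' τ^(2q) ≤ C'' τ^k`.  In the second one
`2^(k/3) ≤ (63/50)^k ≤ (7/4)^((k+1)/2)`-type bound: `2^(k/3) ≤ (63/50)^k ≤ (63/50) (7/4)^q`
(as `k ≤ 2q+1`), so it is `≤ C C₊ (63/50) σ₊ ((7/4) σ₊)^q ≤ C'' τ^k`.  For `k < 2 n₁` use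
`c i k ≤ C₊ σ₊^(2 n₁+1)`.
Now `h4` with `σ = τ`, `σ' = (τ + ρ)/2 < ρ` gives `a i n ≤ C₁ σ'^n`, so (`h1`)
`b i n = ∑_{k<n} a i k ≤ C₁ n σ'^n`-type bound `≤ C₂ σ'^n` (geometric sum, `σ' > 1`), so
`σ' ∈ Σ`, `σ' < ρ`: contradiction.
-/

namespace Pool.Agent.H11.PP

lemma sum_le_geom (f : ℕ → ℕ) {C σ : ℝ} (hC : 0 ≤ C) (hσ : 1 < σ)
    (h : ∀ k, (f k : ℝ) ≤ C * σ ^ k) (n : ℕ) :
    ((∑ k ∈ Finset.range n, f k : ℕ) : ℝ) ≤ C / (σ - 1) * σ ^ n := by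
  have h1 : (0 : ℝ) < σ - 1 := by linarith
  rw [Nat.cast_sum]
  calc ∑ k ∈ Finset.range n, (f k : ℝ) ≤ ∑ k ∈ Finset.range n, C * σ ^ k :=
        Finset.sum_le_sum fun k _ => h k
    _ = C * ((σ ^ n - 1) / (σ - 1)) := by
        rw [← Finset.mul_sum, geom_sum_eq (by linarith)]
    _ = C / (σ - 1) * (σ ^ n - 1) := by ring
    _ ≤ C / (σ - 1) * σ ^ n := by
        have : 0 ≤ C / (σ - 1) := div_nonneg hC h1.le
        nlinarith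

lemma two_pow_third (k : ℕ) : (2 : ℝ) ^ (k / 3) ≤ 63 / 50 * (7 / 4) ^ (k / 2) := by
  calc (2 : ℝ) ^ (k / 3) ≤ ((63 / 50) ^ 3) ^ (k / 3) :=
        pow_le_pow_left₀ (by norm_num) (by norm_num) _
    _ = (63 / 50) ^ (3 * (k / 3)) := by rw [← pow_mul]
    _ ≤ (63 / 50) ^ (2 * (k / 2) + 1) :=
        pow_le_pow_right₀ (by norm_num) (by omega)
    _ = 63 / 50 * ((63 / 50) ^ 2) ^ (k / 2) := by rw [pow_succ, pow_mul]; ring
    _ ≤ 63 / 50 * (7 / 4) ^ (k / 2) := by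
        refine mul_le_mul_of_nonneg_left ?_ (by norm_num)
        exact pow_le_pow_left₀ (by norm_num) (by norm_num) _

theorem bootstrap {ι : Type*} (a b c : ι → ℕ → ℕ) (D : ℕ) (C : ℝ) (n₁ : ℕ) (hC : 0 ≤ C)
    (h1 : ∀ i n, b i n = ∑ k ∈ Finset.range n, a i k) (h2 : ∀ i k, c i k ≤ a i k)
    (h3 : ∀ (i : ι) (i₀ q : ℕ), n₁ ≤ i₀ → (c i (i₀ + q) : ℝ) ≤
      C * (7 / 4) ^ q * c i i₀ + C * 2 ^ ((i₀ + q) / 3) * b i (q + 1))
    (h4 : ∀ C₀ σ σ' : ℝ, 0 ≤ C₀ → 1 ≤ σ → σ < σ' → ∃ C₁ : ℝ, ∀ i,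
      (∀ k, (c i k : ℝ) ≤ C₀ * σ ^ k) → ∀ n, (a i n : ℝ) ≤ C₁ * σ' ^ n)
    (h5 : ∀ i n, a i n ≤ D ^ n) :
    ∃ C' σ : ℝ, 1 ≤ σ ∧ σ < 2 ∧ ∀ i n, (b i n : ℝ) ≤ C' * σ ^ n := by
  set Sg : Set ℝ := {σ : ℝ | 1 ≤ σ ∧ ∃ C' : ℝ, ∀ i n, (b i n : ℝ) ≤ C' * σ ^ n} with hSg
  have hbdd : BddBelow Sg := ⟨1, fun σ hσ => hσ.1⟩
  have hne : Sg.Nonempty := by
    refine ⟨(D : ℝ) + 2, ?_, 1 / ((D : ℝ) + 2 - 1), ?_⟩
    · have : (0 : ℝ) ≤ D := Nat.cast_nonneg D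
      linarith
    · intro i n
      rw [h1]
      have hD : (0 : ℝ) ≤ D := Nat.cast_nonneg D
      refine sum_le_geom (a i) zero_le_one (by linarith) ?_ n
      intro k
      rw [one_mul]
      calc (a i k : ℝ) ≤ ((D ^ k : ℕ) : ℝ) := by exact_mod_cast h5 i k
        _ = (D : ℝ) ^ k := by push_cast; ring
        _ ≤ ((D : ℝ) + 2) ^ k := pow_le_pow_left₀ hD (by linarith) _
  by_contra hcon
  push Not at hcon
  have hge2 : ∀ σ ∈ Sg, 2 ≤ σ := by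
    intro σ hσ
    by_contra hlt
    obtain ⟨hσ1, C', hC'⟩ := hσ
    obtain ⟨i, n, hin⟩ := hcon C' σ hσ1 (not_le.1 hlt)
    exact absurd (hC' i n) (not_le.2 hin)
  set ρ : ℝ := sInf Sg with hρ
  have hρ2 : 2 ≤ ρ := le_csInf hne hge2
  obtain ⟨s, hs, hsρ⟩ := exists_lt_of_csInf_lt hne (show sInf Sg < 15 / 14 * ρ by
    rw [← hρ]; linarith)
  have hs2 : 2 ≤ s := hge2 s hs
  obtain ⟨-, C0, hC0⟩ := hs
  obtain ⟨Cp, hCp0, hCp⟩ : ∃ Cp : ℝ, 0 ≤ Cp ∧ ∀ i n, (b i n : ℝ) ≤ Cp * s ^ n := by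
    refine ⟨max C0 0, le_max_right _ _, fun i n => (hC0 i n).trans ?_⟩
    exact mul_le_mul_of_nonneg_right (le_max_left _ _) (by positivity)
  have hcb : ∀ i k, (c i k : ℝ) ≤ Cp * s ^ (k + 1) := by
    intro i k
    have h6 : a i k ≤ b i (k + 1) := by
      rw [h1]
      exact Finset.single_le_sum (f := a i) (fun _ _ => Nat.zero_le _)
        (Finset.mem_range.2 (Nat.lt_succ_self k))
    have h7 : (c i k : ℝ) ≤ (b i (k + 1) : ℝ) := by exact_mod_cast (h2 i k).trans h6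
    exact h7.trans (hCp i (k + 1))
  set τ : ℝ := Real.sqrt (7 / 4 * s) with hτ
  have hτ2 : τ ^ 2 = 7 / 4 * s := Real.sq_sqrt (by linarith)
  have hτ0 : 0 ≤ τ := Real.sqrt_nonneg _
  have hτ1 : 1 ≤ τ := by
    by_contra hlt
    push Not at hlt
    nlinarith
  have hτρ : τ < ρ := by
    by_contra hlt
    push Not at hlt
    nlinarith
  set C2 : ℝ := C * Cp * s ^ 2 + C * Cp * (63 / 50) * s + Cp * s ^ (2 * n₁ + 1) with hC2
  have hC20 : 0 ≤ C2 := by positivity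
  have hclaim : ∀ i k, (c i k : ℝ) ≤ C2 * τ ^ k := by
    intro i k
    have hτk : 1 ≤ τ ^ k := one_le_pow₀ hτ1
    have hA : 0 ≤ C * Cp * s ^ 2 := by positivity
    have hB : 0 ≤ C * Cp * (63 / 50) * s := by positivity
    have hE : 0 ≤ Cp * s ^ (2 * n₁ + 1) := by positivity
    by_cases hk : k < 2 * n₁
    · calc (c i k : ℝ) ≤ Cp * s ^ (k + 1) := hcb i k
        _ ≤ Cp * s ^ (2 * n₁ + 1) :=
            mul_le_mul_of_nonneg_left (pow_le_pow_right₀ (by linarith) (by omega)) hCp0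
        _ ≤ C2 := by rw [hC2]; linarith
        _ ≤ C2 * τ ^ k := le_mul_of_one_le_right hC20 hτk
    · obtain ⟨q, hq⟩ : ∃ q, q = k / 2 := ⟨_, rfl⟩
      obtain ⟨i₀, hi₀⟩ : ∃ i₀, i₀ = k - q := ⟨_, rfl⟩
      have hkq : i₀ + q = k := by omega
      have h6 := h3 i i₀ q (by omega)
      rw [hkq] at h6
      have hτq : (7 / 4 * s) ^ q ≤ τ ^ k := by
        rw [← hτ2, ← pow_mul]
        exact pow_le_pow_right₀ hτ1 (by omega)
      have hT1 : C * (7 / 4) ^ q * c i i₀ ≤ C * Cp * s ^ 2 * τ ^ k := by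
        calc C * (7 / 4) ^ q * c i i₀ ≤ C * (7 / 4) ^ q * (Cp * s ^ (q + 2)) := by
              refine mul_le_mul_of_nonneg_left ((hcb i i₀).trans ?_) (by positivity)
              exact mul_le_mul_of_nonneg_left (pow_le_pow_right₀ (by linarith) (by omega)) hCp0
          _ = C * Cp * s ^ 2 * (7 / 4 * s) ^ q := by rw [mul_pow]; ring
          _ ≤ C * Cp * s ^ 2 * τ ^ k := mul_le_mul_of_nonneg_left hτq hA
      have hT2 : C * 2 ^ (k / 3) * b i (q + 1) ≤ C * Cp * (63 / 50) * s * τ ^ k := by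
        calc C * 2 ^ (k / 3) * b i (q + 1)
            ≤ C * (63 / 50 * (7 / 4) ^ (k / 2)) * (Cp * s ^ (q + 1)) := by
              refine mul_le_mul ?_ (hCp i (q + 1)) (Nat.cast_nonneg _) (by positivity)
              exact mul_le_mul_of_nonneg_left (two_pow_third k) hC
          _ = C * Cp * (63 / 50) * s * (7 / 4 * s) ^ q := by rw [mul_pow, ← hq]; ring
          _ ≤ C * Cp * (63 / 50) * s * τ ^ k := mul_le_mul_of_nonneg_left hτq hB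
      calc (c i k : ℝ) ≤ C * Cp * s ^ 2 * τ ^ k + C * Cp * (63 / 50) * s * τ ^ k := by
            linarith
        _ ≤ C2 * τ ^ k := by
            rw [hC2]
            have : 0 ≤ Cp * s ^ (2 * n₁ + 1) * τ ^ k := by positivity
            linarith
  obtain ⟨C1, hC1⟩ := h4 C2 τ ((τ + ρ) / 2) hC20 hτ1 (by linarith)
  have hmem : (τ + ρ) / 2 ∈ Sg := by
    refine ⟨by linarith, max C1 0 / ((τ + ρ) / 2 - 1), ?_⟩
    intro i n
    rw [h1]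
    refine sum_le_geom (a i) (le_max_right _ _) (by linarith) ?_ n
    intro k
    refine (hC1 i (hclaim i) k).trans ?_
    exact mul_le_mul_of_nonneg_right (le_max_left _ _) (by positivity)
  have := csInf_le hbdd hmem
  rw [← hρ] at this
  linarith

end Pool.Agent.H11.PP
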