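import Pool.Agent.H11.PP.Sys

/-!
# Brackets and commutators

Proofs (paper).
* `br_mem` : induction on `w`, `J_mul`.
* `cw_mem`, `cw_sub_br` : induction on `w`.  For `w = i :: v`, `v ≠ []`, `x = x_i`,
  `y = of (cw v) - 1` (`∈ J |v|`): `of (cw w) - 1 = (g_i c - c g_i) (c g_i)⁻¹` with
  `g_i c - c g_i = x y - y x`, so `of (cw w) - 1 - (x y - y x) = (x y - y x)((c g_i)⁻¹ - 1) ∈
  J (|v| + 2)`; and `x y - y x ≡ x br(v) - br(v) x` modulo `J (|v| + 2)`.
* `LL_lie` : bilinear, so `u = br w₁`, `v ∈ LL b`; induction on `w₁` (for all `b`, `v`): for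
  `w₁ = [i]`, `v = br w₂` (`w₂ ≠ []`), `[x_i, br w₂] = br (i :: w₂)`; for `w₁ = i :: w`,
  `[[x_i, br w], v] = [x_i, [br w, v]] - [br w, [x_i, v]]` (Jacobi, an identity in every
  associative ring), both are in `LL` by induction and the case `[i]`.
* `sk_mem` from `cw_mem`; `ge_mem` : `D k` is a subgroup.
* `ge_sub_sk` : for `c ∈ D k`, `of (c^n) - 1 ≡ n (of c - 1)` mod `J (2k)` (induction on `n`), and
  for `c, c' ∈ D k`, `of (c c') - 1 ≡ (of c - 1) + (of c' - 1)` mod `J (2k)`; induction on the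
  list `Finset.univ.toList`; `(ε w).val • z = ε w • z` (`ZMod.natCast_zmod_val`,
  `Nat.cast_smul_eq_nsmul`).
* `Ad_x` : `Ad (of g) v - v = g v g⁻¹ - v = (g v - v g) g⁻¹ = (x v - v x) g⁻¹`, and
  `(x v - v x)(g⁻¹ - 1) ∈ J (n + 2)`.
-/

namespace Pool.Agent.H11.PP.Sys

variable {p : ℕ} [Fact p.Prime] {B H : Type*} [Ring B] [Algebra (ZMod p) B] [Group H]
variable (S : Sys p B H) {D : ℕ} (g : Fin D → H)

lemma br_cons (i : Fin D) {w : List (Fin D)} (hw : w ≠ []) :
    S.br g (i :: w) = S.x g i * S.br g w - S.br g w * S.x g i := by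
  cases w with
  | nil => exact absurd rfl hw
  | cons j w => rfl

lemma cw_cons (i : Fin D) {w : List (Fin D)} (hw : w ≠ []) :
    cw g (i :: w) = g i * cw g w * (g i)⁻¹ * (cw g w)⁻¹ := by
  cases w with
  | nil => exact absurd rfl hw
  | cons j w => rfl

lemma of_mul_inv (a : H) : S.of a * S.of a⁻¹ = 1 := by
  rw [← map_mul, mul_inv_cancel, map_one]

lemma comm_sub_one (a c : H) : S.of (a * c * a⁻¹ * c⁻¹) - 1 =
    ((S.of a - 1) * (S.of c - 1) - (S.of c - 1) * (S.of a - 1)) * S.of (a⁻¹ * c⁻¹) := by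
  have h3 : (S.of a - 1) * (S.of c - 1) - (S.of c - 1) * (S.of a - 1) =
      S.of a * S.of c - S.of c * S.of a := by noncomm_ring
  have h4 : S.of c * S.of a * S.of (a⁻¹ * c⁻¹) = 1 := by
    rw [map_mul, ← mul_assoc, mul_assoc (S.of c), S.of_mul_inv, mul_one, S.of_mul_inv]
  rw [h3, sub_mul, h4]
  congr 1
  simp only [map_mul, mul_assoc]

lemma br_mem (w : List (Fin D)) : S.br g w ∈ S.J w.length := by
  induction w with
  | nil => exact S.mem_zero _
  | cons i w ih =>
    by_cases hw : w = []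
    · subst hw
      exact S.x_mem g i
    · rw [S.br_cons g i hw, List.length_cons]
      apply sub_mem
      · rw [add_comm]
        exact S.J_mul _ _ _ _ (S.x_mem g i) ih
      · exact S.J_mul _ _ _ _ ih (S.x_mem g i)

lemma cw_sub_br (w : List (Fin D)) (hw : w ≠ []) :
    S.of (cw g w) - 1 - S.br g w ∈ S.J (w.length + 1) := by
  induction w with
  | nil => exact absurd rfl hw
  | cons i w ih =>
    by_cases hw' : w = []
    · subst hw'
      have : S.of (cw g [i]) - 1 - S.br g [i] = 0 := sub_self _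
      rw [this]
      exact zero_mem _
    · have h1 := ih hw'
      have h2 := S.br_mem g w
      have h3 : S.of (cw g w) - 1 ∈ S.J w.length := by
        have := add_mem (S.J_succ_le _ h1) h2
        rwa [sub_add_cancel] at this
      have hx := S.x_mem g i
      rw [cw_cons g i hw', S.br_cons g i hw', S.comm_sub_one, List.length_cons]
      set x := S.x g i with hxd
      have hx' : S.of (g i) - 1 = x := rfl
      set y := S.of (cw g w) - 1 with hy
      set b := S.br g w with hb
      rw [hx']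
      have e : (x * y - y * x) * S.of ((g i)⁻¹ * (cw g w)⁻¹) - (x * b - b * x) =
          (x * y - y * x) * (S.of ((g i)⁻¹ * (cw g w)⁻¹) - 1) + (x * (y - b) - (y - b) * x) := by
        noncomm_ring
      rw [e]
      apply add_mem
      · refine S.J_mul _ 1 _ _ ?_ (S.of_sub_one _)
        apply sub_mem
        · rw [add_comm]
          exact S.J_mul _ _ _ _ hx h3
        · exact S.J_mul _ _ _ _ h3 hx
      · apply sub_mem
        · have := S.J_mul _ _ _ _ hx h1
          rwa [add_comm] at this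
        · exact S.J_mul _ _ _ _ h1 hx

lemma cw_mem (w : List (Fin D)) (hw : w ≠ []) : cw g w ∈ S.D w.length := by
  rw [mem_D]
  have := add_mem (S.J_succ_le _ (S.cw_sub_br g w hw)) (S.br_mem g w)
  rwa [sub_add_cancel] at this

lemma LL_le (n : ℕ) : S.LL g n ≤ S.J n := by
  apply Submodule.span_le.mpr
  rintro b ⟨w, rfl, rfl⟩
  exact S.br_mem g w

lemma br_mem_LL (w : List (Fin D)) : S.br g w ∈ S.LL g w.length :=
  Submodule.subset_span ⟨w, rfl, rfl⟩

lemma LL_lie_x (i : Fin D) {b : ℕ} (hb : 1 ≤ b) {v : B} (hv : v ∈ S.LL g b) :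
    S.x g i * v - v * S.x g i ∈ S.LL g (b + 1) := by
  induction hv using Submodule.span_induction with
  | mem v hv =>
    obtain ⟨w, hw, rfl⟩ := hv
    have hw' : w ≠ [] := by
      rintro rfl
      simp at hw
      omega
    rw [← S.br_cons g i hw', ← hw]
    exact S.br_mem_LL g (i :: w)
  | zero =>
    rw [mul_zero, zero_mul, sub_zero]
    exact zero_mem _
  | add u v _ _ hu hv =>
    have e : S.x g i * (u + v) - (u + v) * S.x g i =
        (S.x g i * u - u * S.x g i) + (S.x g i * v - v * S.x g i) := by noncomm_ring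
    rw [e]
    exact add_mem hu hv
  | smul c v _ hv =>
    rw [mul_smul_comm, smul_mul_assoc, ← smul_sub]
    exact Submodule.smul_mem _ _ hv

lemma LL_lie_br (w : List (Fin D)) (hw : w ≠ []) : ∀ {b : ℕ}, 1 ≤ b → ∀ {v : B}, v ∈ S.LL g b →
    S.br g w * v - v * S.br g w ∈ S.LL g (w.length + b) := by
  induction w with
  | nil => exact absurd rfl hw
  | cons i w ih =>
    intro b hb v hv
    by_cases hw' : w = []
    · subst hw'
      have := S.LL_lie_x g i hb hv
      rw [add_comm] at this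
      exact this
    · rw [S.br_cons g i hw', List.length_cons]
      have h1 := S.LL_lie_x g i (by omega) (ih hw' hb hv)
      have h2 := ih hw' (Nat.le_add_left 1 b) (S.LL_lie_x g i hb hv)
      have e1 : w.length + b + 1 = w.length + 1 + b := by omega
      have e2 : w.length + (b + 1) = w.length + 1 + b := by omega
      rw [e1] at h1
      rw [e2] at h2
      have h3 := sub_mem h1 h2
      convert h3 using 1
      noncomm_ring

lemma LL_lie {a b : ℕ} (ha : 1 ≤ a) (hb : 1 ≤ b) {u v : B} (hu : u ∈ S.LL g a)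
    (hv : v ∈ S.LL g b) : u * v - v * u ∈ S.LL g (a + b) := by
  induction hu using Submodule.span_induction with
  | mem u hu =>
    obtain ⟨w, hw, rfl⟩ := hu
    have hw' : w ≠ [] := by
      rintro rfl
      simp at hw
      omega
    rw [← hw]
    exact S.LL_lie_br g w hw' hb hv
  | zero =>
    rw [mul_zero, zero_mul, sub_zero]
    exact zero_mem _
  | add u u' _ _ hu hu' =>
    have e : (u + u') * v - v * (u + u') = (u * v - v * u) + (u' * v - v * u') := by
      noncomm_ring
    rw [e]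
    exact add_mem hu hu'
  | smul c u _ hu =>
    rw [mul_smul_comm, smul_mul_assoc, ← smul_sub]
    exact Submodule.smul_mem _ _ hu

lemma cw_vec_mem {k : ℕ} (w : List.Vector (Fin D) k) : cw g w.toList ∈ S.D k := by
  rcases Nat.eq_zero_or_pos k with hk | hk
  · subst hk
    exact S.mem_zero _
  · have hl : w.toList.length = k := w.toList_length
    have hw : w.toList ≠ [] := by
      intro h
      rw [h] at hl
      simp at hl
      omega
    have := S.cw_mem g w.toList hw
    rwa [hl] at this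

lemma sk_mem (k : ℕ) (ε : List.Vector (Fin D) k → ZMod p) : S.sk g k ε ∈ S.J k := by
  rw [sk_apply]
  exact sum_mem fun w _ => Submodule.smul_mem _ _ (S.cw_vec_mem g w)

lemma ge_mem (k : ℕ) (ε : List.Vector (Fin D) k → ZMod p) : ge g ε ∈ S.D k := by
  unfold ge
  apply Subgroup.list_prod_mem
  intro h hh
  obtain ⟨w, _, rfl⟩ := List.mem_map.mp hh
  exact Subgroup.pow_mem _ (S.cw_vec_mem g w) _

lemma of_pow_sub {k : ℕ} {c : H} (hc : c ∈ S.D k) (n : ℕ) :
    S.of (c ^ n) - 1 - n • (S.of c - 1) ∈ S.J (2 * k) := by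
  induction n with
  | zero =>
    rw [pow_zero, map_one, sub_self, zero_smul, sub_zero]
    exact zero_mem _
  | succ n ih =>
    have h1 : S.of (c ^ n) - 1 ∈ S.J k := Subgroup.pow_mem _ hc n
    have h2 : (S.of (c ^ n) - 1) * (S.of c - 1) ∈ S.J (2 * k) := by
      rw [two_mul]
      exact S.J_mul _ _ _ _ h1 hc
    have e : S.of (c ^ (n + 1)) - 1 - (n + 1) • (S.of c - 1) =
        (S.of (c ^ n) - 1 - n • (S.of c - 1)) + (S.of (c ^ n) - 1) * (S.of c - 1) := by
      rw [pow_succ, map_mul, add_smul, one_smul]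
      noncomm_ring
    rw [e]
    exact add_mem ih h2

lemma of_list_sub {k : ℕ} (ε : List.Vector (Fin D) k → ZMod p)
    (l : List (List.Vector (Fin D) k)) :
    S.of ((l.map fun w => cw g w.toList ^ (ε w).val).prod) - 1 -
      (l.map fun w => ε w • (S.of (cw g w.toList) - 1)).sum ∈ S.J (2 * k) := by
  induction l with
  | nil =>
    rw [List.map_nil, List.map_nil, List.prod_nil, List.sum_nil, map_one, sub_self, sub_zero]
    exact zero_mem _
  | cons w l ih =>
    rw [List.map_cons, List.map_cons, List.prod_cons, List.sum_cons, map_mul]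
    have h1 := S.of_pow_sub (S.cw_vec_mem g w) (ε w).val
    have e1 : (ε w).val • (S.of (cw g w.toList) - 1) = ε w • (S.of (cw g w.toList) - 1) := by
      rw [← Nat.cast_smul_eq_nsmul (ZMod p), ZMod.natCast_zmod_val]
    rw [e1] at h1
    have h2 : S.of (cw g w.toList ^ (ε w).val) - 1 ∈ S.J k :=
      Subgroup.pow_mem _ (S.cw_vec_mem g w) _
    have h3' : (l.map fun w => cw g w.toList ^ (ε w).val).prod ∈ S.D k := by
      apply Subgroup.list_prod_mem
      intro h hh
      obtain ⟨w, _, rfl⟩ := List.mem_map.mp hh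
      exact Subgroup.pow_mem _ (S.cw_vec_mem g w) _
    have h3 : S.of ((l.map fun w => cw g w.toList ^ (ε w).val).prod) - 1 ∈ S.J k := h3'
    set P := S.of ((l.map fun w => cw g w.toList ^ (ε w).val).prod)
    set C := S.of (cw g w.toList ^ (ε w).val)
    set z := ε w • (S.of (cw g w.toList) - 1)
    set s := (l.map fun w => ε w • (S.of (cw g w.toList) - 1)).sum
    have e : C * P - 1 - (z + s) = (C - 1 - z) + (P - 1 - s) + (C - 1) * (P - 1) := by
      noncomm_ring
    rw [e]
    refine add_mem (add_mem h1 ih) ?_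
    rw [two_mul]
    exact S.J_mul _ _ _ _ h2 h3

set_option linter.unusedVariables false in
lemma ge_sub_sk {k : ℕ} (hk : 1 ≤ k) (ε : List.Vector (Fin D) k → ZMod p) :
    S.of (ge g ε) - 1 - S.sk g k ε ∈ S.J (2 * k) := by
  have h := S.of_list_sub g ε (Finset.univ : Finset (List.Vector (Fin D) k)).toList
  rw [Finset.sum_map_toList] at h
  rw [sk_apply]
  exact h

lemma LL_le_sk {k : ℕ} (hk : 1 ≤ k) :
    S.LL g k ≤ LinearMap.range (S.sk g k) ⊔ S.J (k + 1) := by
  apply Submodule.span_le.mpr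
  rintro b ⟨w, hw, rfl⟩
  have hw' : w ≠ [] := by
    rintro rfl
    simp at hw
    omega
  have h1 : S.of (cw g w) - 1 ∈ LinearMap.range (S.sk g k) := by
    obtain ⟨w0, hw0⟩ : ∃ w0 : List.Vector (Fin D) k, w0.toList = w := ⟨⟨w, hw⟩, rfl⟩
    refine ⟨Pi.single w0 1, ?_⟩
    rw [sk_apply, Finset.sum_eq_single w0]
    · rw [Pi.single_eq_same, one_smul, hw0]
    · intro w' _ hne
      rw [Pi.single_eq_of_ne hne, zero_smul]
    · intro h
      exact absurd (Finset.mem_univ _) h
  have h2 := S.cw_sub_br g w hw'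
  rw [hw] at h2
  have h3 := sub_mem (Submodule.mem_sup_left h1) (Submodule.mem_sup_right h2 :
    S.of (cw g w) - 1 - S.br g w ∈ LinearMap.range (S.sk g k) ⊔ S.J (k + 1))
  rwa [sub_sub_cancel] at h3

lemma sk_le_LL {k : ℕ} (hk : 1 ≤ k) :
    LinearMap.range (S.sk g k) ≤ S.LL g k ⊔ S.J (k + 1) := by
  rintro _ ⟨ε, rfl⟩
  rw [sk_apply]
  refine sum_mem fun w _ => Submodule.smul_mem _ _ ?_
  have hl : w.toList.length = k := w.toList_length
  have hw : w.toList ≠ [] := by
    intro h
    rw [h] at hl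
    simp at hl
    omega
  have h2 := S.cw_sub_br g w.toList hw
  have h1 := S.br_mem_LL g w.toList
  rw [hl] at h1 h2
  have h3 := add_mem (Submodule.mem_sup_right h2 :
    S.of (cw g w.toList) - 1 - S.br g w.toList ∈ S.LL g k ⊔ S.J (k + 1))
    (Submodule.mem_sup_left h1)
  rwa [sub_add_cancel] at h3

lemma Ad_x {n : ℕ} (i : Fin D) {v : B} (hv : v ∈ S.J n) :
    S.Ad (S.x g i) v - (S.x g i * v - v * S.x g i) ∈ S.J (n + 2) := by
  have h1 : S.Ad (S.x g i) v = S.of (g i) * v * S.of (g i)⁻¹ - v := by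
    unfold x
    rw [map_sub, map_one, LinearMap.sub_apply, S.Ad_of, Module.End.one_apply]
  have h2 : S.of (g i) * v * S.of (g i)⁻¹ - v - (S.x g i * v - v * S.x g i) =
      (S.x g i * v - v * S.x g i) * (S.of (g i)⁻¹ - 1) := by
    have h3 : v * S.of (g i) * S.of (g i)⁻¹ = v := by
      rw [mul_assoc, S.of_mul_inv, mul_one]
    have h4 : S.x g i * v - v * S.x g i = S.of (g i) * v - v * S.of (g i) := by
      unfold x
      noncomm_ring
    rw [mul_sub, mul_one, h4, sub_mul (S.of (g i) * v), h3]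
  rw [h1, h2]
  refine S.J_mul (n + 1) 1 _ _ ?_ (S.of_sub_one _)
  apply sub_mem
  · rw [add_comm]
    exact S.J_mul _ _ _ _ (S.x_mem g i) hv
  · exact S.J_mul _ _ _ _ hv (S.x_mem g i)

lemma Ad_x_LL {n : ℕ} (hn : 1 ≤ n) (i : Fin D) {v : B} (hv : v ∈ S.LL g n) :
    S.Ad (S.x g i) v ∈ S.LL g (n + 1) ⊔ S.J (n + 2) := by
  have h1 := S.Ad_x g i (S.LL_le g n hv)
  have h2 := S.LL_lie_x g i hn hv
  have h3 := add_mem (Submodule.mem_sup_right h1 :
    S.Ad (S.x g i) v - (S.x g i * v - v * S.x g i) ∈ S.LL g (n + 1) ⊔ S.J (n + 2))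
    (Submodule.mem_sup_left h2)
  rwa [sub_add_cancel] at h3

lemma Ad_ev_LL {n : ℕ} (hn : 1 ≤ n) (W : List (Fin D)) {v : B}
    (hv : v ∈ S.LL g n ⊔ S.J (n + 1)) :
    S.Ad (S.ev g W) v ∈ S.LL g (n + W.length) ⊔ S.J (n + W.length + 1) := by
  induction W with
  | nil =>
    rw [ev_nil, map_one, Module.End.one_apply]
    exact hv
  | cons i W ih =>
    rw [ev_cons, map_mul, Module.End.mul_apply, List.length_cons, ← add_assoc]
    obtain ⟨a, ha, b, hb, hab⟩ := Submodule.mem_sup.mp ih
    rw [← hab, map_add]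
    refine add_mem (S.Ad_x_LL g (by omega) i ha) (Submodule.mem_sup_right ?_)
    have := S.Ad_mem _ _ _ _ (S.x_mem g i) hb
    rwa [add_comm] at this

end Pool.Agent.H11.PP.Sys
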