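import Pool.Agent.H11.PP.GroupSys

/-!
# The group algebra: generation, functoriality, nilpotency
-/

namespace Pool.Agent.H11.PP

open MonoidAlgebra

variable {p : ℕ} [Fact p.Prime] {H : Type*} [Group H]

/-- the span of the `x i` -/
noncomputable def gsbX {D : ℕ} (g : Fin D → H) : Submodule (ZMod p) (MonoidAlgebra (ZMod p) H) :=
  Submodule.span (ZMod p) (Set.range fun i => MonoidAlgebra.of (ZMod p) H (g i) - 1)

lemma gsb_augI_le {D : ℕ} (g : Fin D → H) (hg : Subgroup.closure (Set.range g) = ⊤) :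
    augI p H ≤ ⊤ * gsbX (p := p) g := by
  have hleft : ∀ a y : MonoidAlgebra (ZMod p) H, y ∈ ⊤ * gsbX (p := p) g →
      a * y ∈ ⊤ * gsbX (p := p) g := by
    intro a y hy
    have h1 : a * y ∈ ⊤ * (⊤ * gsbX (p := p) g) := Submodule.mul_mem_mul trivial hy
    rwa [← mul_assoc, top_mul_top_le] at h1
  have key : ∀ h : H, MonoidAlgebra.of (ZMod p) H h - 1 ∈ ⊤ * gsbX (p := p) g := by
    intro h
    have hh : h ∈ Subgroup.closure (Set.range g) := by rw [hg]; trivial
    induction hh using Subgroup.closure_induction with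
    | mem x hx =>
      obtain ⟨i, rfl⟩ := hx
      have e : MonoidAlgebra.of (ZMod p) H (g i) - 1 =
          1 * (MonoidAlgebra.of (ZMod p) H (g i) - 1) := (one_mul _).symm
      rw [e]
      exact Submodule.mul_mem_mul trivial (Submodule.subset_span ⟨i, rfl⟩)
    | one => rw [map_one, sub_self]; exact zero_mem _
    | mul a b _ _ ha hb =>
      have h1 : MonoidAlgebra.of (ZMod p) H (a * b) - 1 =
          MonoidAlgebra.of (ZMod p) H a * (MonoidAlgebra.of (ZMod p) H b - 1) +
            (MonoidAlgebra.of (ZMod p) H a - 1) := by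
        rw [map_mul, mul_sub, mul_one]; abel
      rw [h1]
      exact add_mem (hleft _ _ hb) ha
    | inv a _ ha =>
      have h1 : MonoidAlgebra.of (ZMod p) H a⁻¹ - 1 =
          - (MonoidAlgebra.of (ZMod p) H a⁻¹ * (MonoidAlgebra.of (ZMod p) H a - 1)) := by
        rw [mul_sub, ← map_mul, inv_mul_cancel, map_one, mul_one]; abel
      rw [h1]
      exact neg_mem (hleft _ _ ha)
  refine augI_le_span.trans (Submodule.span_le.2 ?_)
  rintro _ ⟨h, rfl⟩
  exact key h

lemma gsb_JJ_le {D : ℕ} (g : Fin D → H) (hg : Subgroup.closure (Set.range g) = ⊤) (n : ℕ) :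
    JJ p H (n + 1) ≤ JJ p H n * gsbX (p := p) g := by
  rw [JJ_succ]
  calc JJ p H n * augI p H ≤ JJ p H n * (⊤ * gsbX (p := p) g) :=
        mul_le_mul' le_rfl (gsb_augI_le g hg)
    _ = (JJ p H n * JJ p H 0) * gsbX (p := p) g := by rw [JJ_zero, mul_assoc]
    _ ≤ JJ p H n * gsbX (p := p) g := mul_le_mul' (JJ_mul_le n 0) le_rfl

/-- Generation.  Proof (paper): `augI = ∑_i A x_i`: the set of `h` with
`of h - 1 ∈ ∑_i A x_i` is a subgroup (`ab - 1 = a (b - 1) + (a - 1)`,
`a⁻¹ - 1 = - a⁻¹ (a - 1)`) containing the `g i`; so it is everything, use `augI_le_span`.  Then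
`J (n+1) = J n * augI ≤ ∑_i J n x_i` (`J n A ≤ J n`) and induction on `n`: `J n ≤ span (words) ⊔
J (n+1)` gives `J n x_i ≤ span (words of length n+1) ⊔ J (n+2)`.  For `n = 0` :
`⊤ ≤ span {1} ⊔ augI` by `x = aug x • 1 + (x - aug x • 1)`. -/
theorem gen_groupSys {D : ℕ} (g : Fin D → H) (hg : Subgroup.closure (Set.range g) = ⊤) :
    (groupSys p H).Gen g := by
  have hXle : gsbX (p := p) g ≤ JJ p H 1 := by
    refine Submodule.span_le.2 ?_
    rintro _ ⟨i, rfl⟩
    exact augI_le_JJ (of_sub_one_mem (g i))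
  intro n
  change JJ p H n ≤ Submodule.span (ZMod p)
    {b | ∃ w : List (Fin D), w.length = n ∧ b = (groupSys p H).ev g w} ⊔ JJ p H (n + 1)
  induction n with
  | zero =>
    intro x _
    have hx : x = (aug p H x) • (1 : MonoidAlgebra (ZMod p) H) +
        (x - (aug p H x) • (1 : MonoidAlgebra (ZMod p) H)) := by abel
    rw [hx]
    refine Submodule.add_mem_sup ?_ ?_
    · exact Submodule.smul_mem _ _ (Submodule.subset_span ⟨[], rfl, rfl⟩)
    · apply augI_le_JJ
      rw [mem_augI, map_sub, map_smul, map_one, smul_eq_mul, mul_one, sub_self]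
  | succ n ih =>
    refine (gsb_JJ_le g hg n).trans ((mul_le_mul' ih le_rfl).trans ?_)
    rw [Submodule.sup_mul]
    refine sup_le_sup ?_ ?_
    · rw [gsbX, Submodule.span_mul_span]
      refine Submodule.span_le.2 ?_
      rintro _ ⟨_, ⟨w, hw, rfl⟩, _, ⟨i, rfl⟩, rfl⟩
      refine Submodule.subset_span ⟨w ++ [i], by simp [hw], ?_⟩
      rw [Sys.ev_append, Sys.ev_cons, Sys.ev_nil, mul_one]
      rfl
    · exact (mul_le_mul' le_rfl hXle).trans (JJ_mul_le (n + 1) 1)

/-- the map of group algebras -/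
noncomputable abbrev gsbL {H' : Type*} [Group H'] (f : H →* H') :
    MonoidAlgebra (ZMod p) H →ₐ[ZMod p] MonoidAlgebra (ZMod p) H' :=
  MonoidAlgebra.lift (ZMod p) (MonoidAlgebra (ZMod p) H') H
      ((MonoidAlgebra.of (ZMod p) H').comp f)

lemma gsbL_of {H' : Type*} [Group H'] (f : H →* H') (h : H) :
    gsbL (p := p) f (MonoidAlgebra.of (ZMod p) H h) = MonoidAlgebra.of (ZMod p) H' (f h) := by
  rw [gsbL, MonoidAlgebra.lift_of]
  rfl

lemma gsb_aug {H' : Type*} [Group H'] (f : H →* H') (x : MonoidAlgebra (ZMod p) H) :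
    aug p H' (gsbL (p := p) f x) = aug p H x := by
  induction x using MonoidAlgebra.induction_on with
  | of h => rw [gsbL_of, aug_of, aug_of]
  | add x y hx hy => rw [map_add, map_add, map_add, hx, hy]
  | smul r x hx => rw [map_smul, map_smul, map_smul, hx]

lemma gsb_map_augI {H' : Type*} [Group H'] (f : H →* H') :
    (augI p H).map (gsbL (p := p) f).toLinearMap ≤ augI p H' := by
  rintro _ ⟨x, hx, rfl⟩
  rw [mem_augI]
  change aug p H' (gsbL (p := p) f x) = 0
  rw [gsb_aug]
  exact mem_augI.1 hx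

lemma gsb_map_le {H' : Type*} [Group H'] (f : H →* H') (n : ℕ) :
    (JJ p H n).map (gsbL (p := p) f).toLinearMap ≤ JJ p H' n := by
  induction n with
  | zero => rw [JJ_zero, JJ_zero]; exact le_top
  | succ n ih =>
    rw [JJ_succ, JJ_succ, Submodule.map_mul]
    exact mul_le_mul' ih (gsb_map_augI f)

/-- functoriality -/
lemma map_JJ {H' : Type*} [Group H'] (f : H →* H') (n : ℕ) {x : MonoidAlgebra (ZMod p) H}
    (hx : x ∈ JJ p H n) : MonoidAlgebra.lift (ZMod p) (MonoidAlgebra (ZMod p) H') H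
      ((MonoidAlgebra.of (ZMod p) H').comp f) x ∈ JJ p H' n := by
  have h1 := gsb_map_le (p := p) f n
  exact h1 (Submodule.mem_map_of_mem hx)

lemma map_JJ_surj {H' : Type*} [Group H'] (f : H →* H') (hf : Function.Surjective f) (n : ℕ) :
    JJ p H' n ≤ (JJ p H n).map (MonoidAlgebra.lift (ZMod p) (MonoidAlgebra (ZMod p) H') H
      ((MonoidAlgebra.of (ZMod p) H').comp f)).toLinearMap := by
  change JJ p H' n ≤ (JJ p H n).map (gsbL (p := p) f).toLinearMap
  induction n with
  | zero =>
    rw [JJ_zero, JJ_zero]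
    intro x _
    induction x using MonoidAlgebra.induction_on with
    | of h' =>
      obtain ⟨h, rfl⟩ := hf h'
      exact ⟨MonoidAlgebra.of (ZMod p) H h, trivial, gsbL_of f h⟩
    | add x y hx hy => exact add_mem (hx trivial) (hy trivial)
    | smul r x hx => exact Submodule.smul_mem _ _ (hx trivial)
  | succ n ih =>
    rw [JJ_succ, JJ_succ, Submodule.map_mul]
    refine mul_le_mul' ih ?_
    refine augI_le_span.trans (Submodule.span_le.2 ?_)
    rintro _ ⟨h', rfl⟩
    obtain ⟨h, rfl⟩ := hf h'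
    refine ⟨MonoidAlgebra.of (ZMod p) H h - 1, of_sub_one_mem h, ?_⟩
    change gsbL (p := p) f (MonoidAlgebra.of (ZMod p) H h - 1) = _
    rw [map_sub, map_one, gsbL_of]

/-- Monotonicity of the ranks.  (From the previous two lemmas.) -/
lemma rk_quot_mono {H' : Type*} [Group H'] [Finite H] [Finite H'] (f : H →* H')
    (hf : Function.Surjective f) (n : ℕ) :
    Module.finrank (ZMod p) (MonoidAlgebra (ZMod p) H' ⧸ JJ p H' n) ≤
      Module.finrank (ZMod p) (MonoidAlgebra (ZMod p) H ⧸ JJ p H n) := by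
  have hsurj : Function.Surjective (gsbL (p := p) f) := by
    intro x'
    have h1 := map_JJ_surj (p := p) f hf 0
    rw [JJ_zero, JJ_zero] at h1
    obtain ⟨x, _, hx⟩ := h1 (trivial : x' ∈ ⊤)
    exact ⟨x, hx⟩
  have hle : JJ p H n ≤ (JJ p H' n).comap (gsbL (p := p) f).toLinearMap := fun x hx => map_JJ f n hx
  apply LinearMap.finrank_le_finrank_of_surjective
    (f := Submodule.mapQ (JJ p H n) (JJ p H' n) (gsbL (p := p) f).toLinearMap hle)
  intro y
  obtain ⟨y', rfl⟩ := Submodule.mkQ_surjective _ y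
  obtain ⟨x, rfl⟩ := hsurj y'
  exact ⟨Submodule.Quotient.mk x, rfl⟩

/-- right multiplication by a group element on a right ideal -/
noncomputable def gsbR (n : ℕ) (h : H) : JJ p H n →ₗ[ZMod p] JJ p H n :=
  (LinearMap.mulRight (ZMod p) (MonoidAlgebra.of (ZMod p) H h)).restrict (by
    intro x hx
    have h1 := JJ_mul_le n 0 (Submodule.mul_mem_mul hx
      (by rw [JJ_zero]; trivial : MonoidAlgebra.of (ZMod p) H h ∈ JJ p H 0))
    exact h1)

lemma gsbR_coe (n : ℕ) (h : H) (x : JJ p H n) :
    ((gsbR n h x : JJ p H n) : MonoidAlgebra (ZMod p) H) =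
      (x : MonoidAlgebra (ZMod p) H) * MonoidAlgebra.of (ZMod p) H h := rfl

/-- the action on the functionals of a right ideal -/
@[instance_reducible] noncomputable def gsbAct (n : ℕ) : MulAction H (Module.Dual (ZMod p) (JJ p H n)) where
  smul h l := l.comp (gsbR n h)
  one_smul l := by
    apply LinearMap.ext
    intro x
    change l (gsbR n 1 x) = l x
    congr 1
    apply Subtype.ext
    rw [gsbR_coe, map_one, mul_one]
  mul_smul a b l := by
    apply LinearMap.ext
    intro x
    change l (gsbR n (a * b) x) = l (gsbR n b (gsbR n a x))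
    congr 1
    apply Subtype.ext
    rw [gsbR_coe, gsbR_coe, gsbR_coe, map_mul, mul_assoc]

lemma gsb_eq_bot [Finite H] (hH : IsPGroup p H) (n : ℕ) (h : JJ p H n ≤ JJ p H (n + 1)) :
    JJ p H n = ⊥ := by
  by_contra hne
  have hnt : Nontrivial (JJ p H n) := (Submodule.nontrivial_iff_ne_bot).2 hne
  have hfin : Finite (Module.Dual (ZMod p) (JJ p H n)) :=
    Module.finite_of_finite (ZMod p)
  have hrk : Module.finrank (ZMod p) (Module.Dual (ZMod p) (JJ p H n)) ≠ 0 := by
    rw [Subspace.dual_finrank_eq]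
    exact (Module.finrank_pos).ne'
  have hcard : p ∣ Nat.card (Module.Dual (ZMod p) (JJ p H n)) := by
    rw [Module.natCard_eq_pow_finrank (K := ZMod p), Nat.card_zmod]
    exact dvd_pow_self p hrk
  let _ := gsbAct (p := p) (H := H) n
  have h0 : (0 : Module.Dual (ZMod p) (JJ p H n)) ∈
      MulAction.fixedPoints H (Module.Dual (ZMod p) (JJ p H n)) := by
    intro a
    apply LinearMap.ext
    intro x
    rfl
  obtain ⟨l, hl, hl0⟩ := hH.exists_fixed_point_of_prime_dvd_card_of_fixed_point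
    (Module.Dual (ZMod p) (JJ p H n)) hcard h0
  apply hl0
  symm
  apply LinearMap.ext
  rintro ⟨x, hx⟩
  -- `l` vanishes on `JJ n * augI`
  have hfix : ∀ (a : H) (y : JJ p H n), l (gsbR n a y) = l y := by
    intro a y
    have := hl a
    exact congrArg (fun m : Module.Dual (ZMod p) (JJ p H n) => m y) this
  have hker : JJ p H n * augI p H ≤ ((LinearMap.ker l).map (JJ p H n).subtype) := by
    refine (mul_le_mul' (le_refl (JJ p H n)) (augI_le_span (p := p) (H := H))).trans ?_
    conv_lhs => rw [← Submodule.span_eq (JJ p H n)]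
    rw [Submodule.span_mul_span]
    refine Submodule.span_le.2 ?_
    rintro _ ⟨y, hy, _, ⟨a, rfl⟩, rfl⟩
    refine ⟨gsbR n a ⟨y, hy⟩ - ⟨y, hy⟩, ?_, ?_⟩
    · rw [SetLike.mem_coe, LinearMap.mem_ker, map_sub, hfix, sub_self]
    · rw [map_sub]
      change y * MonoidAlgebra.of (ZMod p) H a - y = y * (MonoidAlgebra.of (ZMod p) H a - 1)
      rw [mul_sub, mul_one]
  have hx2 := h hx
  rw [JJ_succ] at hx2
  obtain ⟨z, hz, hzx⟩ := hker hx2
  have : z = ⟨x, hx⟩ := Subtype.ext hzx
  rw [← this]
  exact hz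

/-- Nilpotency of the augmentation ideal of a finite `p`-group.  Proof (paper): induction on
`|H|`.  If `H` is nontrivial choose a central element `z` of order `p`; `(z - 1)^p = z^p - 1 = 0`
(`sub_pow_char`/`Commute.sub_pow_char`, the ring has characteristic `p`).  By induction
`augI(H/⟨z⟩)^n = 0`, so `augI(H)^n ≤ ker (F[H] → F[H/⟨z⟩]) = (z - 1) F[H]`, and `z - 1` is central,
so `augI(H)^(n p) ≤ (z - 1)^p F[H] = 0`.  (Alternative: `p`-group acting on the finite
`𝔽_p`-vector spaces `J n / J (n+1)`, Nakayama type argument: a nonzero `𝔽_p[H]`-module `M`, finite,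
satisfies `augI M < M`, since the dual has a nonzero fixed vector.) -/
theorem exists_JJ_eq_bot [Finite H] (hH : IsPGroup p H) : ∃ K : ℕ, JJ p H K = ⊥ := by
  by_contra hcon
  push Not at hcon
  have hlt : ∀ n, JJ p H (n + 1) < JJ p H n := by
    intro n
    refine lt_of_le_not_ge (JJ_succ_le n) (fun h => hcon n (gsb_eq_bot hH n h))
  have hrk : ∀ n, Module.finrank (ZMod p) (JJ p H n) + n ≤
      Module.finrank (ZMod p) (JJ p H 0) := by
    intro n
    induction n with
    | zero => simp
    | succ n ih =>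
      have := Submodule.finrank_lt_finrank_of_lt (hlt n)
      omega
  have := hrk (Module.finrank (ZMod p) (JJ p H 0) + 1)
  omega

end Pool.Agent.H11.PP
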