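import Pool.Agent.H31.GS.Dual
import Pool.Agent.H11.PP.GroupSysB

/-!
# Golod–Shafarevich growth in finite quotients

Proof of `gs_link` (paper).  `gs_growth` gives `(n+1) (d/2)^n ≤ finrank (P p G (n+1))`, `d ≥ 3`,
and `4 r = d^2` forces `d` even, `d ≥ 4`, so `2^n ≤ finrank (P p G (n+1))` (the finiteness
instances follow from `finrank > 0`).  `P p G (n+1)` is finite dimensional and its elements are
locally constant, so there is an open normal `N₀` such that all of them are constant on the cosets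
of `N₀`.  For `N ≤ N₀` open normal they factor through the finite group `G ⧸ N`; a function
`f = f' ∘ mk` with `f ∈ P p G m` satisfies `f' ∈ P p (G ⧸ N) m` (discrete), i.e. the linear form on
`𝔽_p[G ⧸ N]` defined by `f'` vanishes on `JJ p (G ⧸ N) m` (induction on `m`: `f'` is in `P (m+1)`
iff `f'(x (g - 1)) ∈ P m` for all `g`, and `J (m+1)` is spanned by `J' (g - 1)`… with
`JJ_succ`, `augI_le_span`; beware of left/right).  So `P p G m` injects into the dual of
`𝔽_p[G ⧸ N] ⧸ JJ p (G ⧸ N) m`.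
-/

namespace Pool.Agent.H11.PP

open Module Pool.Agent.H31.GS

theorem gs_link {p : ℕ} [Fact p.Prime] {G : Type*} [Group G] [TopologicalSpace G]
    [IsTopologicalGroup G] [CompactSpace G] [TotallyDisconnectedSpace G] (hG : PIndex p G)
    (hd : 2 < finrank (ZMod p) (Z1 (triv p G)))
    (hr : 4 * finrank (ZMod p) (H2 (triv p G)) = finrank (ZMod p) (Z1 (triv p G)) ^ 2) (n : ℕ) :
    ∃ N₀ : Subgroup G, N₀.Normal ∧ IsOpen (N₀ : Set G) ∧
      ∀ (N : Subgroup G) [N.Normal], IsOpen (N : Set G) → N ≤ N₀ →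
        (2 : ℝ) ^ n ≤ finrank (ZMod p)
          (MonoidAlgebra (ZMod p) (G ⧸ N) ⧸ JJ p (G ⧸ N) (n + 1)) := by
  have f1 : Module.Finite (ZMod p) (Z1 (triv p G)) :=
    Module.finite_of_finrank_pos (by omega)
  have hd4 : 4 ≤ finrank (ZMod p) (Z1 (triv p G)) := by
    rcases Nat.lt_or_ge (finrank (ZMod p) (Z1 (triv p G))) 4 with h | h
    · have h3 : finrank (ZMod p) (Z1 (triv p G)) = 3 := by omega
      rw [h3] at hr
      omega
    · exact h
  have f2 : Module.Finite (ZMod p) (H2 (triv p G)) := by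
    apply Module.finite_of_finrank_pos
    have : 0 < finrank (ZMod p) (Z1 (triv p G)) ^ 2 := by positivity
    omega
  have h1 := gs_growth hG hr.le n
  have f3 := P_finite (p := p) hG (n + 1)
  obtain ⟨N₀, hN₀⟩ := finrank_P_le (p := p) (G := G) (n + 1)
  refine ⟨N₀.toSubgroup, inferInstance, N₀.isOpen', fun N _ hN hle => ?_⟩
  have h2 := hN₀ N hle hN (JJ p (G ⧸ N) (n + 1)) (by
    refine Kills_pow ?_ (n + 1)
    refine augI_le_span.trans (Submodule.span_mono ?_)
    rintro _ ⟨q, rfl⟩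
    exact ⟨q, rfl⟩)
  have h3 : (2 : ℝ) ≤ (finrank (ZMod p) (Z1 (triv p G)) : ℝ) / 2 := by
    have : (4 : ℝ) ≤ (finrank (ZMod p) (Z1 (triv p G)) : ℝ) := by exact_mod_cast hd4
    linarith
  have h4 : (2 : ℝ) ^ n ≤ ((finrank (ZMod p) (Z1 (triv p G)) : ℝ) / 2) ^ n :=
    pow_le_pow_left₀ (by norm_num) h3 n
  have h5 : (1 : ℝ) * ((finrank (ZMod p) (Z1 (triv p G)) : ℝ) / 2) ^ n ≤
      ((n : ℝ) + 1) * ((finrank (ZMod p) (Z1 (triv p G)) : ℝ) / 2) ^ n := by
    apply mul_le_mul_of_nonneg_right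
    · have : (0 : ℝ) ≤ n := Nat.cast_nonneg n
      linarith
    · positivity
  have h6 : (finrank (ZMod p) (P p G (n + 1)) : ℝ) ≤ (finrank (ZMod p)
      (MonoidAlgebra (ZMod p) (G ⧸ N) ⧸ JJ p (G ⧸ N) (n + 1)) : ℝ) := by exact_mod_cast h2
  linarith

end Pool.Agent.H11.PP
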