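import Pool.Agent.H11.PP.Sys

/-!
# Ranks modulo a subspace

`rk J S = finrank (S.map J.mkQ)`, the dimension of `(S + J)/J`.

Hints.  `rk_le_of_le_sup` : `S.map J.mkQ ≤ T.map J.mkQ`, since `J.map J.mkQ = ⊥`;
`Submodule.finrank_mono`.  `rk_sup_le` : `Submodule.map_sup`,
`Submodule.finrank_add_le_finrank_add_finrank`.  `rk_map_le` : `J.mapQ J' f` maps `S.map J.mkQ`
onto `(S.map f).map J'.mkQ`.  `rk_top` : `Submodule.map_top`, `range_mkQ`, `finrank_top`.
`rk_add` : rank-nullity for the map `V/J₂ → V/J₁`, whose kernel is `J₁.map J₂.mkQ`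
(`Submodule.finrank_quotient_add_finrank`, or `finrank V/J = finrank V - finrank J`).
`exists_basis_mod` : choose a basis of `S.map J.mkQ` and lift it to `S`.
-/

namespace Pool.Agent.H11.PP

variable {F V V' : Type*} [Field F] [AddCommGroup V] [Module F V] [FiniteDimensional F V]
  [AddCommGroup V'] [Module F V'] [FiniteDimensional F V']

lemma rk_le_of_le_sup {J S T : Submodule F V} (h : S ≤ T ⊔ J) : rk J S ≤ rk J T := by
  unfold rk
  apply Submodule.finrank_mono
  have h1 := Submodule.map_mono (f := J.mkQ) h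
  rwa [Submodule.map_sup, Submodule.mkQ_map_self, sup_bot_eq] at h1

lemma rk_mono {J S T : Submodule F V} (h : S ≤ T) : rk J S ≤ rk J T :=
  rk_le_of_le_sup (h.trans le_sup_left)

lemma rk_self (J : Submodule F V) : rk J J = 0 := by
  unfold rk
  rw [Submodule.mkQ_map_self]
  exact finrank_bot F _

lemma rk_map_le {J S : Submodule F V} {J' : Submodule F V'} (f : V →ₗ[F] V')
    (hf : J.map f ≤ J') : rk J' (S.map f) ≤ rk J S := by
  unfold rk
  have h1 : (S.map f).map J'.mkQ =
      (S.map J.mkQ).map (J.mapQ J' f (Submodule.map_le_iff_le_comap.1 hf)) := by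
    rw [← Submodule.map_comp, ← Submodule.map_comp, Submodule.mapQ_mkQ]
  rw [h1]
  exact Submodule.finrank_map_le _ _

lemma rk_anti {J J' S : Submodule F V} (h : J ≤ J') : rk J' S ≤ rk J S := by
  have h1 := rk_map_le (J := J) (S := S) (J' := J') LinearMap.id
    (by rw [Submodule.map_id]; exact h)
  rwa [Submodule.map_id] at h1

lemma rk_sup_le (J S T : Submodule F V) : rk J (S ⊔ T) ≤ rk J S + rk J T := by
  unfold rk
  rw [Submodule.map_sup]
  exact Submodule.finrank_add_le_finrank_add_finrank _ _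

lemma rk_iSup_le {ι : Type*} (I : Finset ι) (J : Submodule F V) (S : ι → Submodule F V) :
    rk J (⨆ i ∈ I, S i) ≤ ∑ i ∈ I, rk J (S i) := by
  classical
  induction I using Finset.induction_on with
  | empty =>
    unfold rk
    simp
  | insert a I ha ih =>
    rw [Finset.iSup_insert, Finset.sum_insert ha]
    exact (rk_sup_le J _ _).trans (Nat.add_le_add_left ih _)

lemma rk_top (J : Submodule F V) : rk J ⊤ = Module.finrank F (V ⧸ J) := by
  unfold rk
  rw [Submodule.map_top, Submodule.range_mkQ, finrank_top]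

/-- additivity along `J₂ ≤ J₁` -/
lemma rk_add {J₁ J₂ : Submodule F V} (h : J₂ ≤ J₁) : rk J₂ ⊤ = rk J₁ ⊤ + rk J₂ J₁ := by
  rw [rk_top, rk_top, rk]
  have h1 := Submodule.finrank_quotient_add_finrank (R := F) (J₁.map J₂.mkQ)
  have h2 := LinearEquiv.finrank_eq (Submodule.quotientQuotientEquivQuotient J₂ J₁ h)
  omega

/-- `S` is spanned modulo `J` by `rk J S` of its elements -/
lemma exists_basis_mod (J S : Submodule F V) : ∃ v : Fin (rk J S) → V, (∀ i, v i ∈ S) ∧
    S ≤ Submodule.span F (Set.range v) ⊔ J := by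
  let b : Module.Basis (Fin (rk J S)) F (S.map J.mkQ) := Module.finBasis F (S.map J.mkQ)
  have h1 : ∀ i, ∃ v ∈ S, J.mkQ v = (b i : V ⧸ J) := fun i => (b i).2
  choose v hv hv2 using h1
  refine ⟨v, hv, ?_⟩
  have h2 : (Submodule.span F (Set.range v)).map J.mkQ = S.map J.mkQ := by
    rw [Submodule.map_span]
    have h3 : J.mkQ '' Set.range v = (S.map J.mkQ).subtype '' Set.range b := by
      ext y
      constructor
      · rintro ⟨_, ⟨i, rfl⟩, rfl⟩
        exact ⟨b i, ⟨i, rfl⟩, (hv2 i).symm⟩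
      · rintro ⟨_, ⟨i, rfl⟩, rfl⟩
        exact ⟨v i, ⟨i, rfl⟩, hv2 i⟩
    rw [h3, ← Submodule.map_span, b.span_eq, Submodule.map_subtype_top]
  rw [sup_comm, ← Submodule.comap_map_mkQ, h2]
  exact Submodule.le_comap_map _ _

lemma rk_span_le {ι : Type*} (I : Finset ι) (J : Submodule F V) (v : ι → V) :
    rk J (Submodule.span F (v '' I)) ≤ I.card := by
  classical
  unfold rk
  rw [Submodule.map_span]
  have h1 : (J.mkQ '' (v '' (I : Set ι))) = (((I.image v).image J.mkQ : Finset (V ⧸ J)) :
      Set (V ⧸ J)) := by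
    rw [Finset.coe_image, Finset.coe_image]
  rw [h1]
  refine (finrank_span_finset_le_card (R := F) ((I.image v).image J.mkQ)).trans ?_
  exact Finset.card_image_le.trans Finset.card_image_le

end Pool.Agent.H11.PP
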