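import Pool.Agent.H11.PP.Oracle

/-!
# From the count of Lyndon words to the count of words

Proof (paper).  Let `δ = (1 - 1/σ')/2 > 0`, choose `k₁ ≥ 1` with
`∑_{k ≥ k₁} C₀ (σ/σ')^k ≤ δ` (geometric tail; it is enough: for all `n`,
`∑_{k₁ ≤ k ≤ n} C₀ (σ/σ')^k ≤ δ`).  Let `N` be the bound of `exists_bound_words β k₁`, and
`C₁ = (1/δ)^N`.

For a finite set `T` of Lyndon words of weight `< k₁` let `𝒲_T(z,n)` be the set of words `W` of
weight `n` such that `∀ W1 l W2, W = W1 ++ l ++ W2 → Lyn l → A (z + wl W1) l` and such that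
there is a list `fs` of Lyndon words, `fs.flatten = W`,
`fs.Pairwise (fun u v => v = u ∨ LexLt v u)`, with every `f ∈ fs` of weight `< k₁` in `T`.

Claim `Bd (𝒲_T z n) ((1/δ)^|T| * σ'^n)`, by induction on `|T|`, and inside by strong induction on
`n` (all `z`).
* `T = ∅` : `W = []` (`n = 0`), or `fs = f :: fs'`, `k = wl f ≥ k₁`, `A z f`, `W = f ++ W'`,
  `W' ∈ 𝒲_∅(z + k, n - k)`: the number is `≤ ∑_{k₁ ≤ k ≤ n} C₀ σ^k σ'^(n-k) ≤ δ σ'^n ≤ σ'^n`
  for `n ≥ 1`, `1` for `n = 0`.
* `T ≠ ∅`, `s` = the `LexLt`-greatest element of `T`.  `fs = []` or the first factor is small and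
  `≠ s` : then all factors are `≠ s` (they are `≤` the first one, or large), so
  `W ∈ 𝒲_{T∖s}(z,n)`.  First factor `s` : `W = s ++ W'`, `W' ∈ 𝒲_T(z + wl s, n - wl s)`, at most
  `(1/δ)^|T| σ'^(n-1)` words (`wl s ≥ 1`, `σ' > 1`).  First factor large :
  `∑_{k₁ ≤ k ≤ n} C₀ σ^k (1/δ)^|T| σ'^(n-k) ≤ δ (1/δ)^|T| σ'^n`.  Total
  `≤ (1/δ)^|T| σ'^n (δ + 1/σ' + δ) = (1/δ)^|T| σ'^n`.
* Every `W` as in the theorem is in `𝒲_T` for `T` = the set of all Lyndon words of weight `< k₁`
  (`exists_factorization`), `|T| ≤ N`, `1/δ ≥ 1`.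
(To get a greatest element it may be convenient to take for `T` a list sorted for `LexLt`.)
-/

namespace Pool.Agent.H11.PP

private lemma exists_lexMax {α : Type*} [LinearOrder α] (T : Finset (List α))
    (hT : T.Nonempty) : ∃ s ∈ T, ∀ t ∈ T, t ≠ s → LexLt t s := by
  classical
  induction T using Finset.induction_on with
  | empty => exact absurd hT (by simp)
  | insert a T ha ih =>
    rcases T.eq_empty_or_nonempty with rfl | hne
    · exact ⟨a, by simp, by simp⟩
    · obtain ⟨s, hs, hmax⟩ := ih hne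
      rcases LexLt_trichotomy a s with h | h | h
      · subst h; exact absurd hs ha
      · refine ⟨s, Finset.mem_insert_of_mem hs, fun t ht hts => ?_⟩
        rcases Finset.mem_insert.1 ht with rfl | ht
        · exact h
        · exact hmax t ht hts
      · refine ⟨a, Finset.mem_insert_self a T, fun t ht hta => ?_⟩
        rcases Finset.mem_insert.1 ht with rfl | ht
        · exact absurd rfl hta
        · by_cases hts : t = s
          · subst hts; exact h
          · exact (hmax t ht hts).trans h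

/-- the words of weight `n` all of whose small Lyndon factors are in `T` -/
private def WT {α : Type*} [LinearOrder α] (wt : α → ℕ) (k₁ : ℕ) (A : ℕ → List α → Prop)
    (T : Finset (List α)) (z n : ℕ) : Set (List α) :=
  {W | wl wt W = n ∧ (∀ W1 l W2, W = W1 ++ l ++ W2 → Lyn l → A (z + wl wt W1) l) ∧
    ∃ fs : List (List α), fs.flatten = W ∧ (∀ f ∈ fs, Lyn f) ∧
      fs.Pairwise (fun u v => v = u ∨ LexLt v u) ∧ ∀ f ∈ fs, wl wt f < k₁ → f ∈ T}

private lemma WT_tail {α : Type*} [LinearOrder α] {wt : α → ℕ} {k₁ : ℕ}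
    {A : ℕ → List α → Prop} {T : Finset (List α)} {z n : ℕ} {f : List α} {fs : List (List α)}
    (hn : wl wt (f ++ fs.flatten) = n)
    (hA : ∀ W1 l W2, f ++ fs.flatten = W1 ++ l ++ W2 → Lyn l → A (z + wl wt W1) l)
    (hL : ∀ g ∈ f :: fs, Lyn g) (hP : (f :: fs).Pairwise (fun u v => v = u ∨ LexLt v u))
    (hT : ∀ g ∈ f :: fs, wl wt g < k₁ → g ∈ T) :
    fs.flatten ∈ WT wt k₁ A T (z + wl wt f) (n - wl wt f) := by
  refine ⟨?_, ?_, fs, rfl, fun g hg => hL g (List.mem_cons_of_mem _ hg),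
    (List.pairwise_cons.1 hP).2, fun g hg => hT g (List.mem_cons_of_mem _ hg)⟩
  · rw [← hn, wl_append]
    omega
  · intro W1 l W2 h hl
    have := hA (f ++ W1) l W2 (by rw [h]; simp) hl
    rwa [wl_append, ← add_assoc] at this

private lemma WT_large {α : Type*} [LinearOrder α] {wt : α → ℕ} {k₁ : ℕ}
    {A : ℕ → List α → Prop} {C₀ σ σ' δ M : ℝ} (hσ : 1 ≤ σ) (hσ' : σ < σ')
    (hC₀ : 0 ≤ C₀) (hM : 0 ≤ M) (hk₁ : 1 ≤ k₁)
    (htail : ∀ n : ℕ, ∑ k ∈ Finset.Ico k₁ (n + 1), C₀ * (σ / σ') ^ k ≤ δ)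
    (hA : ∀ z k, Bd {l | Lyn l ∧ wl wt l = k ∧ A z l} (C₀ * σ ^ k)) (T : Finset (List α))
    (z n : ℕ) (ih : ∀ n' < n, ∀ z, Bd (WT wt k₁ A T z n') (M * σ' ^ n')) :
    Bd {W | ∃ f W', (k₁ ≤ wl wt f ∧ wl wt f ≤ n ∧ Lyn f ∧ A z f) ∧
      W' ∈ WT wt k₁ A T (z + wl wt f) (n - wl wt f) ∧ W = f ++ W'} (δ * M * σ' ^ n) := by
  have hσ0 : 0 < σ' := by linarith
  have h1 : Bd (⋃ k ∈ Finset.Ico k₁ (n + 1), ⋃ f ∈ {l | Lyn l ∧ wl wt l = k ∧ A z l},
      (fun W' : List α => f ++ W') '' WT wt k₁ A T (z + k) (n - k))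
      (∑ k ∈ Finset.Ico k₁ (n + 1), (C₀ * σ ^ k) * (M * σ' ^ (n - k))) := by
    refine Bd.biUnion _ _ _ fun k hk => ?_
    rw [Finset.mem_Ico] at hk
    exact Bd.bind (hA z k) _ (by positivity) fun f _ => (ih (n - k) (by omega) (z + k)).image _
  refine h1.mono ?_ ?_
  · rintro W ⟨f, W', ⟨hf1, hf2, hf3, hf4⟩, hW', rfl⟩
    simp only [Set.mem_iUnion, Finset.mem_Ico, Set.mem_setOf_eq, Set.mem_image]
    exact ⟨wl wt f, ⟨hf1, by omega⟩, f, ⟨hf3, rfl, hf4⟩, W', hW', rfl⟩
  · have h2 : ∀ k ∈ Finset.Ico k₁ (n + 1), (C₀ * σ ^ k) * (M * σ' ^ (n - k)) =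
        (C₀ * (σ / σ') ^ k) * (M * σ' ^ n) := by
      intro k hk
      rw [Finset.mem_Ico] at hk
      have h3 : σ' ^ n = σ' ^ (n - k) * σ' ^ k := by
        rw [← pow_add]; congr 1; omega
      rw [h3, div_pow]
      field_simp
    rw [Finset.sum_congr rfl h2, ← Finset.sum_mul]
    calc _ ≤ δ * (M * σ' ^ n) := mul_le_mul_of_nonneg_right (htail n) (by positivity)
      _ = δ * M * σ' ^ n := by ring

private lemma WT_bound {α : Type*} [LinearOrder α] {wt : α → ℕ} (hwt : ∀ a, 1 ≤ wt a) {k₁ : ℕ}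
    {A : ℕ → List α → Prop} {C₀ σ σ' δ : ℝ} (hσ : 1 ≤ σ) (hσ' : σ < σ')
    (hC₀ : 0 ≤ C₀) (hk₁ : 1 ≤ k₁) (hδ : δ = (1 - 1 / σ') / 2)
    (htail : ∀ n : ℕ, ∑ k ∈ Finset.Ico k₁ (n + 1), C₀ * (σ / σ') ^ k ≤ δ)
    (hA : ∀ z k, Bd {l | Lyn l ∧ wl wt l = k ∧ A z l} (C₀ * σ ^ k)) :
    ∀ (c : ℕ) (T : Finset (List α)), T.card = c → ∀ n z,
      Bd (WT wt k₁ A T z n) ((1 / δ) ^ c * σ' ^ n) := by
  classical
  have hσ1 : 1 < σ' := by linarith
  have hσ0 : 0 < σ' := by linarith
  have hinv : 1 / σ' < 1 := by rw [div_lt_one hσ0]; exact hσ1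
  have hinv0 : 0 < 1 / σ' := by positivity
  have hδ0 : 0 < δ := by rw [hδ]; linarith
  have hδ1 : δ ≤ 1 := by rw [hδ]; linarith
  have hD : 1 ≤ 1 / δ := by rw [le_div_iff₀ hδ0]; linarith
  intro c
  induction c with
  | zero =>
    intro T hT n
    have hT0 : T = ∅ := Finset.card_eq_zero.1 hT
    subst hT0
    rw [pow_zero]
    induction n using Nat.strong_induction_on with
    | _ n ih =>
      intro z
      by_cases hn : n = 0
      · subst hn
        refine Bd.of_subsingleton ?_ (by simp)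
        intro W hW W' hW'
        have h1 := length_le_wl hwt W
        have h2 := length_le_wl hwt W'
        rw [hW.1] at h1
        rw [hW'.1] at h2
        rw [List.eq_nil_of_length_eq_zero (by omega : W.length = 0),
          List.eq_nil_of_length_eq_zero (by omega : W'.length = 0)]
      · have h1 := WT_large hσ hσ' hC₀ zero_le_one hk₁ htail hA ∅ z n (fun n' hn' z => ih n' hn' z)
        refine h1.mono ?_ ?_
        · rintro W ⟨hW1, hW2, fs, rfl, hL, hP, hs⟩
          cases fs with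
          | nil => exact absurd hW1.symm (by simpa using hn)
          | cons f fs =>
            rw [List.flatten_cons] at hW1 hW2 ⊢
            have hf : k₁ ≤ wl wt f := by
              by_contra h
              exact absurd (hs f (by simp) (by omega)) (by simp)
            refine ⟨f, fs.flatten, ⟨hf, ?_, hL f (by simp), ?_⟩, WT_tail hW1 hW2 hL hP hs, rfl⟩
            · rw [← hW1, wl_append]; omega
            · have := hW2 [] f fs.flatten (by simp) (hL f (by simp))
              simpa using this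
        · have : 0 < σ' ^ n := by positivity
          nlinarith
  | succ c ihc =>
    intro T hT n
    obtain ⟨s, hs, hmax⟩ := exists_lexMax T (Finset.card_pos.1 (by omega))
    have hcard : (T.erase s).card = c := by rw [Finset.card_erase_of_mem hs]; omega
    have hM : 0 ≤ (1 / δ) ^ (c + 1) := by positivity
    induction n using Nat.strong_induction_on with
    | _ n ih =>
      intro z
      have h1 := WT_large hσ hσ' hC₀ hM hk₁ htail hA T z n (fun n' hn' z => ih n' hn' z)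
      have h2 := ihc (T.erase s) hcard n z
      have h3 : Bd {W | ∃ W', (Lyn s ∧ wl wt s ≤ n) ∧
          W' ∈ WT wt k₁ A T (z + wl wt s) (n - wl wt s) ∧ W = s ++ W'}
          ((1 / δ) ^ (c + 1) * σ' ^ n * (1 / σ')) := by
        by_cases h : Lyn s ∧ wl wt s ≤ n
        · have hw := wl_pos hwt h.1.ne_nil
          refine ((ih (n - wl wt s) (by omega) (z + wl wt s)).image (fun W' => s ++ W')).mono
            ?_ ?_
          · rintro W ⟨W', _, hW', rfl⟩
            exact ⟨W', hW', rfl⟩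
          · rw [mul_assoc]
            refine mul_le_mul_of_nonneg_left ?_ hM
            rw [mul_one_div, le_div_iff₀ hσ0, ← pow_succ]
            exact pow_le_pow_right₀ hσ1.le (by omega)
        · refine (Bd.empty (X := List α) (r := (1 / δ) ^ (c + 1) * σ' ^ n * (1 / σ'))
            (by positivity)).mono ?_ le_rfl
          rintro W ⟨W', h', _⟩
          exact absurd h' h
      refine ((h2.union h3).union h1).mono ?_ ?_
      · rintro W ⟨hW1, hW2, fs, rfl, hL, hP, hsm⟩
        cases fs with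
        | nil =>
          left; left
          exact ⟨hW1, hW2, [], rfl, by simp, by simp, by simp⟩
        | cons f fs =>
          by_cases hf : k₁ ≤ wl wt f
          · right
            rw [List.flatten_cons] at hW1 hW2 ⊢
            refine ⟨f, fs.flatten, ⟨hf, ?_, hL f (by simp), ?_⟩, WT_tail hW1 hW2 hL hP hsm, rfl⟩
            · rw [← hW1, wl_append]; omega
            · have := hW2 [] f fs.flatten (by simp) (hL f (by simp))
              simpa using this
          · left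
            have hfT := hsm f (by simp) (by omega)
            by_cases hfs : f = s
            · right
              subst hfs
              rw [List.flatten_cons] at hW1 hW2 ⊢
              refine ⟨fs.flatten, ⟨hL f (by simp), ?_⟩, WT_tail hW1 hW2 hL hP hsm, rfl⟩
              rw [← hW1, wl_append]; omega
            · left
              refine ⟨hW1, hW2, f :: fs, rfl, hL, hP, fun g hg hgk => ?_⟩
              rw [Finset.mem_erase]
              refine ⟨?_, hsm g hg hgk⟩
              have hfs' := hmax f hfT hfs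
              rcases List.mem_cons.1 hg with rfl | hg
              · exact hfs
              · rcases (List.pairwise_cons.1 hP).1 g hg with rfl | h
                · exact hfs
                · rintro rfl
                  exact LexLt_irrefl _ (h.trans hfs')
      · have h4 : (1 / δ) ^ c = δ * (1 / δ) ^ (c + 1) := by
          rw [pow_succ]; field_simp
        have h5 : (1 / δ) ^ c * σ' ^ n + (1 / δ) ^ (c + 1) * σ' ^ n * (1 / σ') +
            δ * (1 / δ) ^ (c + 1) * σ' ^ n =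
            (1 / δ) ^ (c + 1) * σ' ^ n * (2 * δ + 1 / σ') := by
          rw [h4]; ring
        rw [h5, hδ]
        have h6 : 2 * ((1 - 1 / σ') / 2) + 1 / σ' = 1 := by ring
        rw [h6, mul_one]

theorem words_of_lyn (β : ℕ → ℕ) (C₀ σ σ' : ℝ) (hC₀ : 0 ≤ C₀) (hσ : 1 ≤ σ) (hσ' : σ < σ') :
    ∃ C₁ : ℝ, ∀ (α : Type) [LinearOrder α] (wt : α → ℕ), Alph wt β →
      ∀ A : ℕ → List α → Prop,
        (∀ z k, Bd {l | Lyn l ∧ wl wt l = k ∧ A z l} (C₀ * σ ^ k)) →
        ∀ z n, Bd {W | wl wt W = n ∧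
          ∀ W1 l W2, W = W1 ++ l ++ W2 → Lyn l → A (z + wl wt W1) l} (C₁ * σ' ^ n) := by
  classical
  have hσ1 : 1 < σ' := by linarith
  have hσ0 : 0 < σ' := by linarith
  have hinv : 1 / σ' < 1 := by rw [div_lt_one hσ0]; exact hσ1
  have hinv0 : 0 < 1 / σ' := by positivity
  obtain ⟨δ, hδ⟩ : ∃ δ : ℝ, δ = (1 - 1 / σ') / 2 := ⟨_, rfl⟩
  have hδ0 : 0 < δ := by rw [hδ]; linarith
  have hδ1 : δ ≤ 1 := by rw [hδ]; linarith
  have hD : 1 ≤ 1 / δ := by rw [le_div_iff₀ hδ0]; linarith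
  have hq0 : 0 ≤ σ / σ' := by positivity
  have hq1 : σ / σ' < 1 := by rw [div_lt_one hσ0]; exact hσ'
  obtain ⟨m, hm⟩ := exists_pow_lt_of_lt_one
    (show 0 < δ * (1 - σ / σ') / (C₀ + 1) from by
      have : 0 < 1 - σ / σ' := by linarith
      positivity) hq1
  have htail : ∀ n : ℕ, ∑ k ∈ Finset.Ico (m + 1) (n + 1), C₀ * (σ / σ') ^ k ≤ δ := by
    intro n
    rw [← Finset.mul_sum]
    have h1 := geom_sum_Ico_le_of_lt_one (m := m + 1) (n := n + 1) hq0 hq1
    have h2 : (σ / σ') ^ (m + 1) ≤ (σ / σ') ^ m := pow_le_pow_of_le_one hq0 hq1.le (by omega)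
    have h3 : 0 < 1 - σ / σ' := by linarith
    have h4 : (σ / σ') ^ m * (C₀ + 1) < δ * (1 - σ / σ') := by
      rwa [lt_div_iff₀ (by linarith)] at hm
    have h5 : 0 ≤ (σ / σ') ^ m := by positivity
    calc C₀ * ∑ i ∈ Finset.Ico (m + 1) (n + 1), (σ / σ') ^ i
        ≤ C₀ * ((σ / σ') ^ (m + 1) / (1 - σ / σ')) := mul_le_mul_of_nonneg_left h1 hC₀
      _ ≤ δ := by
        rw [← mul_div_assoc, div_le_iff₀ h3]
        nlinarith
  obtain ⟨N, hN⟩ := exists_bound_words β (m + 1)
  refine ⟨(1 / δ) ^ N, fun α _ wt hwt A hA z n => ?_⟩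
  have hfin : Bd {l : List α | Lyn l ∧ wl wt l < m + 1} N :=
    (hN α wt hwt).mono (fun l hl => (le_of_lt hl.2 : wl wt l ≤ m + 1)) le_rfl
  have hcard : hfin.1.toFinset.card ≤ N := by
    have := hfin.2
    rw [Set.ncard_eq_toFinset_card _ hfin.1] at this
    exact_mod_cast this
  have h := WT_bound hwt.1 hσ hσ' hC₀ (by omega) hδ htail hA _ hfin.1.toFinset rfl n z
  refine h.mono ?_ ?_
  · rintro W ⟨hW1, hW2⟩
    obtain ⟨fs, h1, h2, h3⟩ := exists_factorization W
    refine ⟨hW1, hW2, fs, h1, h2, h3, fun f hf hfk => ?_⟩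
    rw [Set.Finite.mem_toFinset]
    exact ⟨h2 f hf, hfk⟩
  · refine mul_le_mul_of_nonneg_right ?_ (by positivity)
    exact pow_le_pow_right₀ hD hcard

end Pool.Agent.H11.PP
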