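import Pool.Agent.H11.PP.LiePoly
import Pool.Agent.H11.PP.Rk
import Pool.Agent.H11.PP.WordsCount

/-!
# From the growth of the Lie algebra to the growth of the filtration

Proof (paper).  Apply `words_of_lyn` to the alphabet `Fin D` with all weights `1` and `β n = D`.
For a system as in the theorem let `A z l` mean `ev l ∉ Up l ⊔ J (|l|+1)` (independent of `z`).
* The number of Lyndon words `l` of length `k` with `A l` is `≤ rk (J (k+1)) (LL k) ≤ C₀ σ^k`:
  choose `P_l ∈ LL k`, `P_l - ev l ∈ Up l` (`exists_P`).  The classes of the `P_l` modulo `J (k+1)`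
  are linearly independent: in a nontrivial combination `∑ a_l P_l ∈ J (k+1)` let `l₀` be the
  `SL`-smallest word with `a ≠ 0`; for the others `P_l ∈ Up l₀`, so `ev l₀ ∈ Up l₀ ⊔ J (k+1)`,
  contradiction.  (For `k = 0` there is no Lyndon word of length `0`.)
* `J n ≤ span {ev W : |W| = n, all Lyndon factors l of W satisfy A l} ⊔ J (n+1)`: by `Gen` it is
  enough to treat `ev W`; downward induction for `SL` on the finite set of words of length `n`: if
  `W = W1 ++ l ++ W2` with `l` Lyndon and `ev l ∈ Up l ⊔ J (|l|+1)` then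
  `ev W ∈ Up W ⊔ J (n+1)` (`ev_mul_Up`, `Up_mul_ev`).
* So `rk (J (n+1)) (J n)` is at most the number of these words, `≤ C₁ σ'^n`.
-/

namespace Pool.Agent.H11.PP

open Sys

namespace Sys

variable {p : ℕ} [Fact p.Prime] {B H : Type*} [Ring B] [Algebra (ZMod p) B] [Group H]
variable (S : Sys p B H) {D : ℕ} (g : Fin D → H)

/-- the word `l` is not a combination of larger words modulo higher terms -/
private def Nw (l : List (Fin D)) : Prop := S.ev g l ∉ S.Up g l ⊔ S.J (l.length + 1)

private lemma wf_SL (D n : ℕ) :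
    WellFounded (fun a b : {w : List (Fin D) // w.length = n} => SL a.1 b.1) := by
  have : Finite {w : List (Fin D) // w.length = n} :=
    Set.finite_coe_iff.2 (List.finite_length_eq (Fin D) n)
  have : IsTrans {w : List (Fin D) // w.length = n} (fun a b => SL a.1 b.1) :=
    ⟨fun _ _ _ h1 h2 => h1.trans h2⟩
  have : Std.Irrefl (fun a b : {w : List (Fin D) // w.length = n} => SL a.1 b.1) :=
    ⟨fun a h => SL_irrefl a.1 h⟩
  exact Finite.wellFounded_of_trans_of_irrefl _

private lemma wf_SL' (D n : ℕ) :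
    WellFounded (fun a b : {w : List (Fin D) // w.length = n} => SL b.1 a.1) := by
  have : Finite {w : List (Fin D) // w.length = n} :=
    Set.finite_coe_iff.2 (List.finite_length_eq (Fin D) n)
  have : IsTrans {w : List (Fin D) // w.length = n} (fun a b => SL b.1 a.1) :=
    ⟨fun _ _ _ h1 h2 => h2.trans h1⟩
  have : Std.Irrefl (fun a b : {w : List (Fin D) // w.length = n} => SL b.1 a.1) :=
    ⟨fun a h => SL_irrefl a.1 h⟩
  exact Finite.wellFounded_of_trans_of_irrefl _

private lemma count_Nw [FiniteDimensional (ZMod p) B] (k : ℕ) :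
    Bd {l : List (Fin D) | Lyn l ∧ wl (fun _ => 1) l = k ∧ S.Nw g l}
      (rk (S.J (k + 1)) (S.LL g k) : ℝ) := by
  classical
  have hfin : {l : List (Fin D) | Lyn l ∧ wl (fun _ => 1) l = k ∧ S.Nw g l}.Finite :=
    (List.finite_length_eq (Fin D) k).subset (fun l hl => by
      have := hl.2.1
      rw [wl_one] at this
      exact this)
  refine ⟨hfin, ?_⟩
  rw [Set.ncard_eq_toFinset_card _ hfin]
  norm_cast
  set T := hfin.toFinset with hT
  have hTm : ∀ l : T, Lyn l.1 ∧ l.1.length = k ∧ S.Nw g l.1 := by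
    intro l
    have h := (hfin.mem_toFinset).1 l.2
    refine ⟨h.1, ?_, h.2.2⟩
    have := h.2.1
    rwa [wl_one] at this
  have hP : ∀ l : T, ∃ P ∈ S.LL g k, P - S.ev g l.1 ∈ S.Up g l.1 := by
    intro l
    obtain ⟨P, hP, hP'⟩ := S.exists_P g (hTm l).1
    rw [(hTm l).2.1] at hP
    exact ⟨P, hP, hP'⟩
  choose P hP1 hP2 using hP
  let v : T → (S.LL g k).map (S.J (k + 1)).mkQ := fun l => ⟨(S.J (k + 1)).mkQ (P l),
    Submodule.mem_map_of_mem (hP1 l)⟩
  have hv : LinearIndependent (ZMod p) v := by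
    rw [Fintype.linearIndependent_iff]
    intro a ha l₁
    by_contra hl₁
    -- the sum is in `J`
    have hsum : ∑ l, a l • P l ∈ S.J (k + 1) := by
      have h1 := congrArg Subtype.val ha
      rw [← Submodule.Quotient.mk_eq_zero, ← Submodule.mkQ_apply, map_sum]
      simp only [map_smul]
      simpa [v] using h1
    -- minimal element
    let f : T → {w : List (Fin D) // w.length = k} := fun l => ⟨l.1, (hTm l).2.1⟩
    obtain ⟨l₀, hl₀, hmin⟩ := (InvImage.wf f (wf_SL D k)).has_min {l | a l ≠ 0} ⟨l₁, hl₁⟩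
    have hl₀' : a l₀ ≠ 0 := hl₀
    have hUp : ∀ l, l ≠ l₀ → a l • P l ∈ S.Up g l₀.1 := by
      intro l hl
      by_cases hal : a l = 0
      · rw [hal, zero_smul]
        exact zero_mem _
      · have h1 : ¬ SL l.1 l₀.1 := hmin l hal
        have hlen : l.1.length = l₀.1.length := by rw [(hTm l).2.1, (hTm l₀).2.1]
        have h2 : SL l₀.1 l.1 := by
          rcases SL_trichotomy_of_length hlen with h | h | h
          · exact absurd (Subtype.ext h) hl
          · exact absurd h h1
          · exact h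
        refine Submodule.smul_mem _ _ ?_
        have h3 : P l = (P l - S.ev g l.1) + S.ev g l.1 := by abel
        rw [h3]
        exact add_mem (S.Up_le_Up g h2 hlen (hP2 l)) (S.ev_mem_Up g h2 hlen)
    have h5 : ∑ l, a l • P l = a l₀ • P l₀ + ∑ l ∈ Finset.univ.erase l₀, a l • P l :=
      (Finset.add_sum_erase _ _ (Finset.mem_univ _)).symm
    have h6 : ∑ l ∈ Finset.univ.erase l₀, a l • P l ∈ S.Up g l₀.1 :=
      Submodule.sum_mem _ fun l hl => hUp l (Finset.ne_of_mem_erase hl)
    have h7 : P l₀ ∈ S.Up g l₀.1 ⊔ S.J (l₀.1.length + 1) := by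
      have h8 : P l₀ = (a l₀)⁻¹ • (∑ l, a l • P l - ∑ l ∈ Finset.univ.erase l₀, a l • P l) := by
        rw [h5, add_sub_cancel_right, smul_smul, inv_mul_cancel₀ hl₀', one_smul]
      rw [h8]
      refine Submodule.smul_mem _ _ (sub_mem ?_ (Submodule.mem_sup_left h6))
      rw [(hTm l₀).2.1]
      exact Submodule.mem_sup_right hsum
    apply (hTm l₀).2.2
    have h9 : S.ev g l₀.1 = P l₀ - (P l₀ - S.ev g l₀.1) := by abel
    rw [h9]
    exact sub_mem h7 (Submodule.mem_sup_left (hP2 l₀))
  have := hv.fintype_card_le_finrank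
  rw [Fintype.card_coe] at this
  exact this

private lemma J_le_span (hg : S.Gen g) (n : ℕ) :
    S.J n ≤ Submodule.span (ZMod p) (S.ev g '' {W : List (Fin D) | wl (fun _ => 1) W = n ∧
      ∀ W1 l W2, W = W1 ++ l ++ W2 → Lyn l → S.Nw g l}) ⊔ S.J (n + 1) := by
  refine (hg n).trans (sup_le ?_ le_sup_right)
  rw [Submodule.span_le]
  rintro b ⟨w, hw, rfl⟩
  rw [SetLike.mem_coe]
  have key : ∀ W : {w : List (Fin D) // w.length = n}, S.ev g W.1 ∈
      Submodule.span (ZMod p) (S.ev g '' {W : List (Fin D) | wl (fun _ => 1) W = n ∧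
      ∀ W1 l W2, W = W1 ++ l ++ W2 → Lyn l → S.Nw g l}) ⊔ S.J (n + 1) := by
    intro W
    induction W using (wf_SL' D n).induction with
    | _ W ih =>
      by_cases h : ∀ W1 l W2, W.1 = W1 ++ l ++ W2 → Lyn l → S.Nw g l
      · refine Submodule.mem_sup_left (Submodule.subset_span ⟨W.1, ⟨?_, h⟩, rfl⟩)
        rw [wl_one]
        exact W.2
      · push Not at h
        obtain ⟨W1, l, W2, hW, hl, hn⟩ := h
        unfold Nw at hn
        rw [not_not] at hn
        obtain ⟨u, hu, j, hj, huj⟩ := Submodule.mem_sup.1 hn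
        have h1 : S.ev g W.1 = S.ev g W1 * u * S.ev g W2 + S.ev g W1 * j * S.ev g W2 := by
          rw [hW, ev_append, ev_append, ← huj]
          noncomm_ring
        rw [h1]
        refine add_mem ?_ (Submodule.mem_sup_right ?_)
        · have h2 := S.Up_mul_ev g W2 (W1 ++ l) (S.ev_mul_Up g W1 l hu)
          rw [← hW] at h2
          have h3 : S.Up g W.1 ≤ Submodule.span (ZMod p) (S.ev g '' {W : List (Fin D) |
              wl (fun _ => 1) W = n ∧
              ∀ W1 l W2, W = W1 ++ l ++ W2 → Lyn l → S.Nw g l}) ⊔ S.J (n + 1) := by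
            unfold Up
            rw [Submodule.span_le]
            rintro b ⟨w, hw, hSL, rfl⟩
            exact ih ⟨w, hw.trans W.2⟩ hSL
          exact h3 h2
        · have h4 := S.J_mul _ _ _ _ (S.J_mul _ _ _ _ (S.ev_mem g W1) hj) (S.ev_mem g W2)
          have h5 : W1.length + (l.length + 1) + W2.length = n + 1 := by
            have := congrArg List.length hW
            rw [W.2, List.length_append, List.length_append] at this
            omega
          rwa [h5] at h4
  exact key ⟨w, hw⟩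

end Sys

theorem partE (D : ℕ) (C₀ σ σ' : ℝ) (hC₀ : 0 ≤ C₀) (hσ : 1 ≤ σ) (hσ' : σ < σ') :
    ∃ C₁ : ℝ, ∀ (p : ℕ) [Fact p.Prime] (B H : Type*) [Ring B] [Algebra (ZMod p) B] [Group H]
      [FiniteDimensional (ZMod p) B] (S : Sys p B H) (g : Fin D → H), S.Gen g →
      (∀ k, (rk (S.J (k + 1)) (S.LL g k) : ℝ) ≤ C₀ * σ ^ k) →
      ∀ n, (rk (S.J (n + 1)) (S.J n) : ℝ) ≤ C₁ * σ' ^ n := by
  classical
  obtain ⟨C₁, hC₁⟩ := words_of_lyn (fun _ => D) C₀ σ σ' hC₀ hσ hσ'
  refine ⟨C₁, ?_⟩
  intro p _ B H _ _ _ _ S g hg hrk n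
  have hAlph : Alph (fun _ : Fin D => 1) (fun _ => D) := by
    refine ⟨fun _ => le_rfl, fun n => ⟨Set.toFinite _, ?_⟩⟩
    have h := Set.ncard_le_ncard (Set.subset_univ {a : Fin D | (fun _ : Fin D => 1) a = n})
      (Set.toFinite _)
    rw [Set.ncard_univ, Nat.card_eq_fintype_card, Fintype.card_fin] at h
    exact_mod_cast h
  have h1 := hC₁ (Fin D) (fun _ => 1) hAlph (fun _ l => S.Nw g l)
    (fun _ k => (S.count_Nw g k).mono subset_rfl (hrk k)) 0 n
  refine le_trans ?_ h1.2
  norm_cast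
  rw [Set.ncard_eq_toFinset_card _ h1.1]
  refine le_trans (rk_le_of_le_sup (S.J_le_span g hg n)) ?_
  have h2 := rk_span_le h1.1.toFinset (S.J (n + 1)) (S.ev g)
  rwa [Set.Finite.coe_toFinset] at h2

end Pool.Agent.H11.PP
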