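import Pool.Agent.H11.PP.GrowthA

/-!
# The growth inequality

Proof of `growth` (paper).  Write `n = i₀ + q`.
Let `M = (⨆_{W irreducible, |W| = q} (LL i₀).map (Ad (ev W)))
  ⊔ (⨆_{Y ∈ 𝒴} ⨆_{q' ≤ q, q' + |Y| ≤ q} EE (T Y) (n - q' - |Y|) q') ⊔ J (n+1)`.
Claim: for every word `W` of length `q`, `(LL i₀).map (Ad (ev W)) ≤ M`.  Induction on the (finite)
set of words of length `q`, from the `SL`-largest to the smallest (e.g. strong induction on the
number of words of length `q` which are `SL`-larger than `W`).  If `W` is irreducible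
(`∀ Y ∈ 𝒴, ¬ Y <:+: W`), clear.  Otherwise `W = W' ++ Y ++ W''`; for `v ∈ LL i₀`,
`v'' = Ad (ev W'') v ∈ LL (i₀+|W''|) ⊔ J (i₀+|W''|+1)` (`Ad_ev_LL`), and
`Ad (ev W) v = Ad (ev W') (Ad (T Y) v'') - Ad (ev W') (Ad (T Y - ev Y) v'')`; the
first term is in `EE (T Y) (n-|W'|-|Y|) |W'| ⊔ J (n+1)` (note `T Y ∈ J |Y|`); in the second one,
`T Y - ev Y` is a combination of `ev W⋆`, `|W⋆| = |Y|`, `SL Y W⋆`, plus an element of `J (|Y|+1)`,
so it is a combination of `Ad (ev (W' ++ W⋆ ++ W'')) v` with `SL W (W' ++ W⋆ ++ W'')`, covered by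
induction, plus an element of `J (n+1)`.
Then, by `LL_span_Ad`, `LL n ≤ M` and `rk_sup_le`, `rk_iSup_le`, `irr_le`, `rk_EE` give
`c_n ≤ #Irr * c_{i₀} + ∑_Y ∑_{q' ≤ q} r a_{q'}`, `a_{q'} = rk (J (q'+1)) (J q')`, and
`∑_{q' ≤ q} a_{q'} = rk (J (q+1)) ⊤` (`sum_rk_J`).
-/

namespace Pool.Agent.H11.PP.Sys

variable {p : ℕ} [Fact p.Prime] {B H : Type*} [Ring B] [Algebra (ZMod p) B] [Group H]

namespace GrowthAux

variable (S : Sys p B H) {D : ℕ} (g : Fin D → H)

lemma Up_le_J (Y : List (Fin D)) : S.Up g Y ≤ S.J Y.length := by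
  unfold Up
  rw [Submodule.span_le]
  rintro b ⟨w, hw, -, rfl⟩
  have := S.ev_mem g w
  rwa [hw] at this

lemma T_mem {Y : List (Fin D)} {t : B} (ht : t - S.ev g Y ∈ S.Up g Y ⊔ S.J (Y.length + 1)) :
    t ∈ S.J Y.length := by
  have h1 : S.Up g Y ⊔ S.J (Y.length + 1) ≤ S.J Y.length :=
    sup_le (Up_le_J S g Y) (S.J_succ_le _)
  have h2 := add_mem (h1 ht) (S.ev_mem g Y)
  rwa [sub_add_cancel] at h2

/-- the reducible part -/
noncomputable def EP (i₀ q : ℕ) (T : List (Fin D) → B) (Y : List (Fin D)) (q' : ℕ) :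
    Submodule (ZMod p) B :=
  if q' + Y.length ≤ q then S.EE g (T Y) (i₀ + (q - q' - Y.length)) q' else ⊥

/-- one rewriting step -/
lemma step {i₀ q : ℕ} (hi₀ : 1 ≤ i₀) (M : Submodule (ZMod p) B) (hM : S.J (i₀ + q + 1) ≤ M)
    (W' Y W'' : List (Fin D)) (hl : (W' ++ Y ++ W'').length = q) (t : B)
    (ht : t - S.ev g Y ∈ S.Up g Y ⊔ S.J (Y.length + 1))
    (hE : S.EE g t (i₀ + W''.length) W'.length ≤ M)
    (ih : ∀ W : List (Fin D), W.length = q → SL (W' ++ Y ++ W'') W →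
      (S.LL g i₀).map (S.Ad (S.ev g W)) ≤ M) :
    (S.LL g i₀).map (S.Ad (S.ev g (W' ++ Y ++ W''))) ≤ M := by
  rintro _ ⟨v, hv, rfl⟩
  have hlen : W'.length + Y.length + W''.length = q := by
    simpa [List.length_append, add_assoc] using hl
  have hvJ : v ∈ S.J i₀ := S.LL_le g i₀ hv
  have htJ : t ∈ S.J Y.length := T_mem S g ht
  have hmulapp : ∀ a b c : B, S.Ad (a * b) c = S.Ad a (S.Ad b c) := by
    intro a b c
    rw [map_mul]
    rfl
  -- the image under W''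
  have hv2 : S.Ad (S.ev g W'') v ∈ S.LL g (i₀ + W''.length) ⊔ S.J (i₀ + W''.length + 1) :=
    S.Ad_ev_LL g hi₀ W'' (Submodule.mem_sup_left hv)
  have hv2J : S.Ad (S.ev g W'') v ∈ S.J (W''.length + i₀) :=
    S.Ad_mem _ _ _ _ (S.ev_mem g W'') hvJ
  set v'' := S.Ad (S.ev g W'') v with hv''
  -- first part
  have h1 : S.Ad (S.ev g W') (S.Ad t v'') ∈ M := by
    obtain ⟨a, ha, b, hb, hab⟩ := Submodule.mem_sup.1 hv2
    rw [← hab, map_add, map_add]
    refine add_mem (hE (Submodule.subset_span ⟨S.ev g W', S.ev_mem g W', a, ha, rfl⟩)) (hM ?_)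
    have := S.Ad_mem _ _ _ _ (S.ev_mem g W') (S.Ad_mem _ _ _ _ htJ hb)
    have he : W'.length + (Y.length + (i₀ + W''.length + 1)) = i₀ + q + 1 := by omega
    rwa [he] at this
  -- second part
  have h2 : ∀ z ∈ S.Up g Y, S.Ad (S.ev g W') (S.Ad z v'') ∈ M := by
    intro z hz
    unfold Up at hz
    induction hz using Submodule.span_induction with
    | mem z hz =>
      obtain ⟨w, hw, hSL, rfl⟩ := hz
      have h3 : S.Ad (S.ev g W') (S.Ad (S.ev g w) v'') = S.Ad (S.ev g (W' ++ w ++ W'')) v := by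
        rw [ev_append, ev_append, hmulapp, hmulapp]
      rw [h3]
      refine ih (W' ++ w ++ W'') ?_ ?_ (Submodule.mem_map_of_mem hv)
      · simp only [List.length_append]
        omega
      · exact (hSL.append_left W').append W'' W''
    | zero => simp
    | add x y _ _ hx hy =>
      rw [map_add, LinearMap.add_apply, map_add]
      exact add_mem hx hy
    | smul c x _ hx =>
      rw [map_smul, LinearMap.smul_apply, map_smul]
      exact M.smul_mem c hx
  have h3 : ∀ z ∈ S.J (Y.length + 1), S.Ad (S.ev g W') (S.Ad z v'') ∈ M := by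
    intro z hz
    refine hM ?_
    have := S.Ad_mem _ _ _ _ (S.ev_mem g W') (S.Ad_mem _ _ _ _ hz hv2J)
    have he : W'.length + (Y.length + 1 + (W''.length + i₀)) = i₀ + q + 1 := by omega
    rwa [he] at this
  obtain ⟨a, ha, b, hb, hab⟩ := Submodule.mem_sup.1 ht
  have h4 : S.ev g Y = t - (a + b) := by rw [hab]; abel
  have h5 : S.Ad (S.ev g (W' ++ Y ++ W'')) v =
      S.Ad (S.ev g W') (S.Ad t v'') - (S.Ad (S.ev g W') (S.Ad a v'') +
        S.Ad (S.ev g W') (S.Ad b v'')) := by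
    rw [ev_append, ev_append, hmulapp, hmulapp, h4, map_sub, map_add, LinearMap.sub_apply,
      LinearMap.add_apply, map_sub, map_add]
  change S.Ad (S.ev g (W' ++ Y ++ W'')) v ∈ M
  rw [h5]
  exact sub_mem h1 (add_mem (h2 a ha) (h3 b hb))

/-- all words rewrite to irreducible ones -/
lemma all_le {i₀ : ℕ} (hi₀ : 1 ≤ i₀) (q : ℕ) (𝒴 : Finset (List (Fin D)))
    (T : List (Fin D) → B)
    (hT : ∀ Y ∈ 𝒴, T Y - S.ev g Y ∈ S.Up g Y ⊔ S.J (Y.length + 1))
    (M : Submodule (ZMod p) B) (hM : S.J (i₀ + q + 1) ≤ M)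
    (hirr : ∀ W : List (Fin D), W.length = q → (∀ Y ∈ 𝒴, ¬ Y <:+: W) →
      (S.LL g i₀).map (S.Ad (S.ev g W)) ≤ M)
    (hE : ∀ Y ∈ 𝒴, ∀ q', q' + Y.length ≤ q →
      S.EE g (T Y) (i₀ + (q - q' - Y.length)) q' ≤ M) :
    ∀ W : List (Fin D), W.length = q → (S.LL g i₀).map (S.Ad (S.ev g W)) ≤ M := by
  let R : List.Vector (Fin D) q → List.Vector (Fin D) q → Prop := fun a b => SL b.1 a.1
  have : IsTrans _ R := ⟨fun a b c h1 h2 => SL.trans h2 h1⟩
  have : Std.Irrefl R := ⟨fun a h => SL_irrefl _ h⟩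
  have hwf : WellFounded R := Finite.wellFounded_of_trans_of_irrefl R
  have key : ∀ W : List.Vector (Fin D) q, (S.LL g i₀).map (S.Ad (S.ev g W.1)) ≤ M := by
    intro W
    induction W using hwf.induction with
    | _ W ih =>
      by_cases hW : ∀ Y ∈ 𝒴, ¬ Y <:+: W.1
      · exact hirr W.1 W.2 hW
      · push Not at hW
        obtain ⟨Y, hY, W', W'', hWW⟩ := hW
        have hlW : (W' ++ Y ++ W'').length = q := by rw [hWW]; exact W.2
        have hlen : W'.length + Y.length + W''.length = q := by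
          simpa [List.length_append, add_assoc] using hlW
        rw [← hWW]
        refine step S g hi₀ M hM W' Y W'' hlW (T Y) (hT Y hY) ?_ ?_
        · have := hE Y hY W'.length (by omega)
          have he : q - W'.length - Y.length = W''.length := by omega
          rwa [he] at this
        · intro V hV hSL
          exact ih ⟨V, hV⟩ (by rw [hWW] at hSL; exact hSL)
  exact fun W hW => key ⟨W, hW⟩

end GrowthAux

variable [FiniteDimensional (ZMod p) B]
variable (S : Sys p B H) {D : ℕ} (g : Fin D → H)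

open GrowthAux in
theorem growth {i₀ : ℕ} (hi₀ : 1 ≤ i₀) (q r : ℕ) (𝒴 : Finset (List (Fin D)))
    (T : List (Fin D) → B)
    (hT : ∀ Y ∈ 𝒴, T Y - S.ev g Y ∈ S.Up g Y ⊔ S.J (Y.length + 1))
    (hr : ∀ Y ∈ 𝒴, ∀ i, i₀ ≤ i → i + Y.length ≤ i₀ + q →
      rk (S.J (i + Y.length + 1)) ((S.LL g i).map (S.Ad (T Y))) ≤ r) :
    rk (S.J (i₀ + q + 1)) (S.LL g (i₀ + q)) ≤
      {W : List (Fin D) | W.length = q ∧ ∀ Y ∈ 𝒴, ¬ Y <:+: W}.ncard *
          rk (S.J (i₀ + 1)) (S.LL g i₀)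
        + 𝒴.card * (r * rk (S.J (q + 1)) ⊤) := by
  classical
  have hfin : {W : List (Fin D) | W.length = q ∧ ∀ Y ∈ 𝒴, ¬ Y <:+: W}.Finite :=
    (List.finite_length_eq (Fin D) q).subset fun W hW => hW.1
  set I : Finset (List (Fin D)) := hfin.toFinset with hI
  have hIcard : {W : List (Fin D) | W.length = q ∧ ∀ Y ∈ 𝒴, ¬ Y <:+: W}.ncard = I.card :=
    Set.ncard_eq_toFinset_card _ hfin
  set M1 : Submodule (ZMod p) B := ⨆ W ∈ I, (S.LL g i₀).map (S.Ad (S.ev g W)) with hM1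
  set M2 : Submodule (ZMod p) B :=
    ⨆ Y ∈ 𝒴, ⨆ q' ∈ Finset.range (q + 1), EP S g i₀ q T Y q' with hM2
  have hall := all_le S g hi₀ q 𝒴 T hT ((M1 ⊔ M2) ⊔ S.J (i₀ + q + 1)) le_sup_right
    (by
      intro W hW hW'
      refine le_sup_of_le_left (le_sup_of_le_left ?_)
      have hWI : W ∈ I := by
        rw [hI, Set.Finite.mem_toFinset]
        exact ⟨hW, hW'⟩
      exact le_iSup₂_of_le W hWI le_rfl)
    (by
      intro Y hY q' hq'
      refine le_sup_of_le_left (le_sup_of_le_right ?_)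
      refine le_iSup₂_of_le Y hY (le_iSup₂_of_le q' (Finset.mem_range.2 (by omega)) ?_)
      unfold EP
      rw [if_pos hq'])
  have hLL : S.LL g (i₀ + q) ≤ (M1 ⊔ M2) ⊔ S.J (i₀ + q + 1) := by
    refine (S.LL_span_Ad g hi₀ q).trans (sup_le (iSup₂_le fun W hW => hall W hW) le_sup_right)
  have h1 : rk (S.J (i₀ + q + 1)) M1 ≤ I.card * rk (S.J (i₀ + 1)) (S.LL g i₀) := by
    refine (rk_iSup_le I _ _).trans ?_
    rw [← smul_eq_mul, ← Finset.sum_const]
    refine Finset.sum_le_sum fun W hW => ?_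
    rw [hI, Set.Finite.mem_toFinset] at hW
    have := S.irr_le g i₀ W
    rwa [hW.1] at this
  have h2 : rk (S.J (i₀ + q + 1)) M2 ≤ 𝒴.card * (r * rk (S.J (q + 1)) ⊤) := by
    refine (rk_iSup_le 𝒴 _ _).trans ?_
    rw [← smul_eq_mul (𝒴.card), ← Finset.sum_const]
    refine Finset.sum_le_sum fun Y hY => ?_
    refine (rk_iSup_le (Finset.range (q + 1)) _ _).trans ?_
    rw [← S.sum_rk_J (q + 1), Finset.mul_sum]
    refine Finset.sum_le_sum fun q' hq' => ?_
    unfold EP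
    split_ifs with hle
    · have h3 := S.rk_EE g (i := i₀ + (q - q' - Y.length)) (q' := q') (r := r)
        (T_mem S g (hT Y hY)) (hr Y hY _ (by omega) (by omega))
      have he : q' + (i₀ + (q - q' - Y.length)) + Y.length + 1 = i₀ + q + 1 := by omega
      rwa [he] at h3
    · have h3 : rk (S.J (i₀ + q + 1)) (⊥ : Submodule (ZMod p) B) = 0 := by
        simp [rk]
      rw [h3]
      exact Nat.zero_le _
  calc rk (S.J (i₀ + q + 1)) (S.LL g (i₀ + q)) ≤ rk (S.J (i₀ + q + 1)) (M1 ⊔ M2) :=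
        rk_le_of_le_sup hLL
    _ ≤ rk (S.J (i₀ + q + 1)) M1 + rk (S.J (i₀ + q + 1)) M2 := rk_sup_le _ _ _
    _ ≤ _ := by
        rw [hIcard]
        exact add_le_add h1 h2

end Pool.Agent.H11.PP.Sys
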