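import Pool.Agent.H11.PP.StructDefs

/-!
# Counting the avoiding Lyndon words, kind A

Proofs (paper).  `hT` is the counting statement for the block alphabets.

* `Bd_SetA` : `SetA ⊆ ⋃_{y ≤ k} ⋃_{E ∈ ℰ} ⋃_{u' ∈ Exc} ⋃_{i ≤ y} ( {u'} ∪ ⋃_{j ≤ k - y}
  ⋃_{x : wtB x = j} (fun T₃ => u' ++ exw (x :: T₃)) '' {T₃ | wl T₃ = k - y - j, Avoid …} )`
  where `K ≤ y`, `G z [y] E` (otherwise the set is empty), `ℰ` the tuples of length `m` and weight
  `≤ B` (`hE`), and `Exc = {l | Lyn l ∧ wl l = y ∧ ¬ G z [] (l :: E)}` has at most `κ y` elements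
  (`hG.2` with `fut = []`, `L = E`); `i ≤ |u'| ≤ y`; only `i` with `Lyn (u'.take i)` matter.
-/

namespace Pool.Agent.H11.PP

variable {α : Type} [LinearOrder α]

theorem Bd_SetA {wt : α → ℕ} {β : ℕ → ℕ} (hα : Alph wt β) (m K R B : ℕ) {κ : ℕ → ℝ}
    (hκ : ∀ n, 0 ≤ κ n)
    (G : ℕ → List ℕ → List (List α) → Prop) (hG : GoodSys wt (m + 1) K κ G) (C θ : ℝ)
    (hC : 0 ≤ C) (hθ : 1 < θ)
    (hT : ∀ (z : ℕ) (u : List α), Lyn u → ∀ z' n, Bd {T : List (Blk u) | wl (wtB wt u) T = n ∧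
      Avoid (wtB wt u) m K R B (GB G z u) z' T} (C * θ ^ n)) (z k : ℕ)
    (N : ℝ) (hE : Bd {E : List (List α) | E.length = m ∧ wl wt E.flatten ≤ B} N) :
    Bd (SetA wt m K R B G z k)
      (∑ y ∈ Finset.range (k + 1), N * (κ y * ((y + 1) *
        (1 + ∑ j ∈ Finset.range (k - y + 1), cum β j * (C * θ ^ (k - y - j)))))) := by
  have hθ0 : 0 ≤ θ := by linarith
  have hnn : ∀ y : ℕ, 0 ≤ (1 + ∑ j ∈ Finset.range (k - y + 1),
      (cum β j : ℝ) * (C * θ ^ (k - y - j))) := by
    intro y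
    have : 0 ≤ ∑ j ∈ Finset.range (k - y + 1), (cum β j : ℝ) * (C * θ ^ (k - y - j)) :=
      Finset.sum_nonneg fun j _ => by positivity
    linarith
  have key : Bd (⋃ y ∈ Finset.range (k + 1),
      ⋃ E ∈ {E : List (List α) | E.length = m ∧ wl wt E.flatten ≤ B},
      ⋃ u' ∈ {u' : List α | K ≤ y ∧ G z [y] E ∧ Lyn u' ∧ wl wt u' = y ∧ ¬ G z [] (u' :: E)},
      ⋃ i ∈ Finset.range (y + 1), {l : List α | wl wt l = k ∧ Lyn (u'.take i) ∧
        ∃ T₂ : List (Blk (u'.take i)), l = u' ++ exw T₂ ∧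
        ∀ x T₃, T₂ = x :: T₃ → Avoid (wtB wt (u'.take i)) m K R B (GB G z (u'.take i))
        (y + wtB wt (u'.take i) x) T₃})
      (∑ y ∈ Finset.range (k + 1), N * (κ y * ((y + 1) *
        (1 + ∑ j ∈ Finset.range (k - y + 1), cum β j * (C * θ ^ (k - y - j)))))) := by
    refine Bd.biUnion _ _ _ fun y hy => ?_
    refine Bd.bind hE _ (mul_nonneg (hκ y) (mul_nonneg (by positivity) (hnn y))) fun E hE' => ?_
    refine Bd.bind ?_ _ (mul_nonneg (by positivity) (hnn y)) fun u' hu' => ?_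
    · by_cases h1 : K ≤ y
      · by_cases h2 : G z [y] E
        · refine (hG.2 z y [] E h1 (by have := hE'.1; simp [this]) h2).mono ?_ le_rfl
          rintro l ⟨_, _, h3, h4, h5⟩
          exact ⟨h3, h4, h5⟩
        · refine (Bd.empty (hκ y)).mono ?_ le_rfl
          rintro l ⟨_, h3, _⟩
          exact absurd h3 h2
      · refine (Bd.empty (hκ y)).mono ?_ le_rfl
        rintro l ⟨h3, _⟩
        exact absurd h3 h1
    · obtain ⟨hKy, hGy, hLu, hwu, hnG⟩ := hu'
      have h1 : ∀ i ∈ Finset.range (y + 1), Bd {l : List α | wl wt l = k ∧ Lyn (u'.take i) ∧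
          ∃ T₂ : List (Blk (u'.take i)), l = u' ++ exw T₂ ∧
          ∀ x T₃, T₂ = x :: T₃ → Avoid (wtB wt (u'.take i)) m K R B (GB G z (u'.take i))
          (y + wtB wt (u'.take i) x) T₃} (1 + ∑ j ∈ Finset.range (k - y + 1),
            (cum β j : ℝ) * (C * θ ^ (k - y - j))) := by
        intro i _
        by_cases hLi : Lyn (u'.take i)
        · have h2 : Bd (⋃ j ∈ Finset.range (k - y + 1),
              ⋃ x ∈ {x : Blk (u'.take i) | wtB wt (u'.take i) x = j},
              (fun T₃ : List (Blk (u'.take i)) => u' ++ exw (x :: T₃)) ''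
              {T₃ | wl (wtB wt (u'.take i)) T₃ = k - y - j ∧
                Avoid (wtB wt (u'.take i)) m K R B (GB G z (u'.take i))
                (y + wtB wt (u'.take i) x) T₃})
              (∑ j ∈ Finset.range (k - y + 1), (cum β j : ℝ) * (C * θ ^ (k - y - j))) := by
            refine Bd.biUnion _ _ _ fun j _ => ?_
            exact Bd.bind ((Alph_blk hα (u'.take i)).2 j) _ (by positivity)
              fun x _ => (hT z _ hLi _ _).image _
          refine ((Bd.singleton u' (le_refl (1 : ℝ))).union h2).mono ?_ le_rfl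
          rintro l ⟨hwl, _, T₂, rfl, hT₂⟩
          cases T₂ with
          | nil => left; simp
          | cons x T₃ =>
            right
            have h3 := hT₂ x T₃ rfl
            rw [wl_append, wl_exw, wl_cons, hwu] at hwl
            simp only [Set.mem_iUnion, Finset.mem_range, Set.mem_image]
            exact ⟨wtB wt (u'.take i) x, by omega, x, rfl, T₃, ⟨by omega, h3⟩, rfl⟩
        · refine (Bd.empty (hnn y)).mono ?_ le_rfl
          rintro l ⟨_, h3, _⟩
          exact absurd h3 hLi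
      refine (Bd.biUnion _ _ _ h1).mono subset_rfl ?_
      rw [Finset.sum_const, nsmul_eq_mul, Finset.card_range]
      push_cast
      exact le_rfl
  refine key.mono ?_ le_rfl
  rintro l ⟨hwl, y, E, u', i, T₂, hKy, hEm, hEB, hGy, hLu, hwu, hnG, hi, hLi, hl, hT₂⟩
  simp only [Set.mem_iUnion, Finset.mem_range]
  have hy : y ≤ k := by
    rw [hl, wl_append, hwu] at hwl
    omega
  have hiy : i ≤ y := by
    have := length_le_wl hα.1 u'
    omega
  exact ⟨y, by omega, E, ⟨hEm, hEB⟩, u', ⟨hKy, hGy, hLu, hwu, hnG⟩, i, by omega,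
    hwl, hLi, T₂, hl, hT₂⟩

end Pool.Agent.H11.PP
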