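import Pool.Agent.H11.PP.StructDefs

/-!
# Counting the avoiding Lyndon words, kind B

Proofs (paper).  `hT` is the counting statement for the block alphabets.

* `Bd_SetB1` : `SetB1 ⊆ ⋃_{i ≤ k} ⋃_{c : wt c = i} (fun T => [c] ++ exw T) '' {T | wl T = k - i,
  Avoid … }`; use `Bd.biUnion`, `Bd.bind`, `Bd.image` and `hT` for `u = [c]` (Lyndon,
  `Lyn_singleton`) with `wl_exw`.
* `Bd_SetB2` : `SetB2 ⊆ ⋃_{i < k, 2 i < k} ⋃_{v : Lyn, wl v = i, Avoid} ⋃_{j ≤ k - i}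
  ⋃_{u ∈ {v ++ per v L ++ [c] : weight of the block = j}, Lyn u}
  (fun T => u ++ exw T) '' {T | wl T = k - i - j, Avoid …}`; use `Bd_next` for the number of `u`.
-/

namespace Pool.Agent.H11.PP

variable {α : Type} [LinearOrder α]

theorem Bd_SetB1 {wt : α → ℕ} {β : ℕ → ℕ} (hα : Alph wt β) (m K R B : ℕ) {κ : ℕ → ℝ}
    (G : ℕ → List ℕ → List (List α) → Prop) (hG : GoodSys wt (m + 1) K κ G) (C θ : ℝ)
    (hC : 0 ≤ C) (hθ : 1 < θ)
    (hT : ∀ (z : ℕ) (u : List α), Lyn u → ∀ z' n, Bd {T : List (Blk u) | wl (wtB wt u) T = n ∧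
      Avoid (wtB wt u) m K R B (GB G z u) z' T} (C * θ ^ n)) (z k : ℕ) :
    Bd (SetB1 wt m K R B G z k) (∑ i ∈ Finset.range (k + 1), β i * (C * θ ^ (k - i))) := by
  have h1 : Bd (⋃ i ∈ Finset.range (k + 1), ⋃ c ∈ {c : α | wt c = i},
      (fun T : List (Blk [c]) => [c] ++ exw T) '' {T : List (Blk [c]) |
        wl (wtB wt [c]) T = k - i ∧ Avoid (wtB wt [c]) m K R B (GB G z [c]) (wt c) T})
      (∑ i ∈ Finset.range (k + 1), (β i : ℝ) * (C * θ ^ (k - i))) :=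
    Bd.biUnion _ _ _ fun i _ => Bd.bind (hα.2 i) _ (by positivity)
      fun c _ => (hT z [c] (Lyn_singleton c) (wt c) (k - i)).image _
  refine h1.mono ?_ le_rfl
  rintro l ⟨hl, c, T, rfl, hA⟩
  rw [wl_append, wl_exw] at hl
  simp only [wl_cons, wl_nil, add_zero] at hl
  simp only [Set.mem_iUnion, Finset.mem_range, Set.mem_ofPred_eq, Set.mem_image]
  exact ⟨wt c, by omega, c, rfl, T, ⟨by omega, hA⟩, rfl⟩

theorem Bd_SetB2 {wt : α → ℕ} {β : ℕ → ℕ} (hα : Alph wt β) (m K R B : ℕ) {κ : ℕ → ℝ}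
    (G : ℕ → List ℕ → List (List α) → Prop) (hG : GoodSys wt (m + 1) K κ G) (C θ : ℝ)
    (hC : 0 ≤ C) (hθ : 1 < θ)
    (hT : ∀ (z : ℕ) (u : List α), Lyn u → ∀ z' n, Bd {T : List (Blk u) | wl (wtB wt u) T = n ∧
      Avoid (wtB wt u) m K R B (GB G z u) z' T} (C * θ ^ n)) (z k : ℕ)
    (Lam : ℕ → ℝ) (hLam : ∀ i, 2 * i < k →
      Bd {l | Lyn l ∧ wl wt l = i ∧ Avoid wt (m + 1) K R ⊤ G z l} (Lam i)) :
    Bd (SetB2 wt m K R B G z k)
      (∑ i ∈ (Finset.range (k + 1)).filter (fun i => 2 * i < k), Lam i *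
        ∑ j ∈ Finset.range (k - i + 1), cum β j * (C * θ ^ (k - i - j))) := by
  have h1 : Bd (⋃ i ∈ (Finset.range (k + 1)).filter (fun i => 2 * i < k),
      ⋃ v ∈ {l : List α | Lyn l ∧ wl wt l = i ∧ Avoid wt (m + 1) K R ⊤ G z l},
      ⋃ j ∈ Finset.range (k - i + 1),
      ⋃ u ∈ {w : List α | Lyn w ∧ ∃ (L : ℕ) (c : α), w = v ++ per v L ++ [c] ∧
        wl wt (per v L ++ [c]) = j},
      (fun T : List (Blk u) => u ++ exw T) '' {T : List (Blk u) |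
        wl (wtB wt u) T = k - i - j ∧ Avoid (wtB wt u) m K R B (GB G z u) (wl wt u) T})
      (∑ i ∈ (Finset.range (k + 1)).filter (fun i => 2 * i < k), Lam i *
        ∑ j ∈ Finset.range (k - i + 1), (cum β j : ℝ) * (C * θ ^ (k - i - j))) := by
    refine Bd.biUnion _ _ _ fun i hi => ?_
    refine Bd.bind (hLam i (Finset.mem_filter.1 hi).2) _
      (Finset.sum_nonneg fun j _ => by positivity) fun v hv => ?_
    refine Bd.biUnion _ _ _ fun j _ => ?_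
    refine Bd.bind (A := {w : List α | Lyn w ∧ ∃ (L : ℕ) (c : α), w = v ++ per v L ++ [c] ∧
        wl wt (per v L ++ [c]) = j}) ?_ _ (by positivity) fun u hu => ?_
    · exact (Bd_next hα.1 hα.2 hv.1.ne_nil j).mono (fun w hw => hw.2) le_rfl
    · exact (hT z u hu.1 (wl wt u) (k - i - j)).image _
  refine h1.mono ?_ le_rfl
  rintro l ⟨hl, v, u, L, c, T, hv, hvk, hvA, hu, huL, rfl, hA⟩
  rw [wl_append, wl_exw] at hl
  have hwu : wl wt u = wl wt v + wl wt (per v L ++ [c]) := by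
    rw [hu, List.append_assoc, wl_append]
  simp only [Set.mem_iUnion, Finset.mem_range, Finset.mem_filter, Set.mem_ofPred_eq,
    Set.mem_image]
  exact ⟨wl wt v, ⟨by omega, hvk⟩, v, ⟨hv, rfl, hvA⟩, wl wt (per v L ++ [c]), by omega,
    u, ⟨huL, L, c, hu, rfl⟩, T, ⟨by omega, hA⟩, rfl⟩

end Pool.Agent.H11.PP
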