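import Pool.Agent.H11.PP.StructDefs

/-!
# Numerical estimates for Lemma C

Proofs (paper).  For `SubExp β`, `1 < τ < θ` choose `Cτ` with `β j ≤ Cτ τ^j`; then
`∑_{j ≤ n} β j θ^(n-j) ≤ Cτ θ^n ∑ (τ/θ)^j ≤ C' θ^n`.
* `numB1` : immediate from this.
* `numA` : the inner sum is `≤ C' θ^(k-y)`, `1 ≤ θ^(k-y)`; so the sum is
  `≤ C'' ∑_{y ≤ k} (y+1) θ₀^y θ^(k-y) ≤ C'' (k+1)^2 θ^k ≤ C''' θ₁^k`.
* `numB2` : the inner sum is `≤ C' θ^(k-i)`; so the sum is
  `≤ C' ∑_{2i<k} θ₁^i θ^(k-i) = C' θ₁^k ∑ (θ/θ₁)^(k-i) ≤ C' θ₁^k (k+1) r^k`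
  with `r = sqrt(θ/θ₁) < 1` (since `k - i ≥ k/2`), and `(k+1) r^k → 0`.
* `numTrunc` : with `β j ≤ Cτ τ^j`, `τ < θ`: for `i ≤ B < i + j`,
  `θ^i β j θ'^(-(i+j)) ≤ Cτ (θ/θ')^i (τ/θ')^j ≤ Cτ (θ/θ')^(i+j)`; hence the sum over
  `i ≤ B`, `i + j > B` is `≤ Cτ ∑_{i ≤ B} ∑_{s > B} q^s ≤ Cτ (B+1) q^(B+1)/(1-q)`, `q = θ/θ'`,
  which tends to `0` as `B → ∞`.
-/

namespace Pool.Agent.H11.PP

open Filter Topology

/-- geometric convolution bound -/
lemma num_conv (β : ℕ → ℕ) (hβ : SubExp β) {θ : ℝ} (hθ : 1 < θ) :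
    ∃ C' : ℝ, 0 ≤ C' ∧ ∀ n : ℕ,
      ∑ j ∈ Finset.range (n + 1), (β j : ℝ) * θ ^ (n - j) ≤ C' * θ ^ n := by
  have hτ1 : 1 < (1 + θ) / 2 := by linarith
  obtain ⟨D, hD⟩ := hβ ((1 + θ) / 2) hτ1
  set τ : ℝ := (1 + θ) / 2 with hτdef
  have hτθ : τ < θ := by rw [hτdef]; linarith
  have hθ0 : 0 < θ := by linarith
  have hτ0 : 0 < τ := by linarith
  have hD0 : 0 ≤ D := by
    have h := hD 0
    simp only [pow_zero, mul_one] at h
    exact le_trans (Nat.cast_nonneg _) h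
  have hq0 : 0 ≤ τ / θ := by positivity
  have hq1 : τ / θ < 1 := by rw [div_lt_one hθ0]; exact hτθ
  refine ⟨D / (1 - τ / θ), div_nonneg hD0 (by linarith), fun n => ?_⟩
  have hterm : ∀ j ∈ Finset.range (n + 1),
      (β j : ℝ) * θ ^ (n - j) ≤ D * θ ^ n * (τ / θ) ^ j := by
    intro j hj
    have hjn : j ≤ n := Nat.lt_succ_iff.mp (Finset.mem_range.mp hj)
    have h1 : (β j : ℝ) * θ ^ (n - j) ≤ D * τ ^ j * θ ^ (n - j) :=
      mul_le_mul_of_nonneg_right (hD j) (by positivity)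
    have h2 : θ ^ n = θ ^ (n - j) * θ ^ j := by rw [← pow_add, Nat.sub_add_cancel hjn]
    have h3 : D * θ ^ n * (τ / θ) ^ j = D * τ ^ j * θ ^ (n - j) := by
      rw [h2, div_pow]; field_simp
    rw [h3]; exact h1
  calc ∑ j ∈ Finset.range (n + 1), (β j : ℝ) * θ ^ (n - j)
      ≤ ∑ j ∈ Finset.range (n + 1), D * θ ^ n * (τ / θ) ^ j := Finset.sum_le_sum hterm
    _ = D * θ ^ n * ∑ j ∈ Finset.range (n + 1), (τ / θ) ^ j := by rw [Finset.mul_sum]
    _ ≤ D * θ ^ n * (1 / (1 - τ / θ)) := by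
        refine mul_le_mul_of_nonneg_left ?_ (by positivity)
        have h := geom_sum_Ico_le_of_lt_one (m := 0) (n := n + 1) hq0 hq1
        rw [pow_zero] at h
        rw [Finset.range_eq_Ico]
        exact h
    _ = D / (1 - τ / θ) * θ ^ n := by ring

/-- polynomial factors are absorbed -/
lemma num_tend1 {r : ℝ} (hr0 : 0 < r) (hr1 : r < 1) :
    Tendsto (fun k : ℕ => ((k : ℝ) + 1) * r ^ k) atTop (𝓝 0) := by
  have h1 := tendsto_self_mul_const_pow_of_lt_one hr0.le hr1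
  have h2 := tendsto_pow_atTop_nhds_zero_of_lt_one hr0.le hr1
  have h3 := h1.add h2
  simp only [add_zero] at h3
  refine h3.congr (fun k => ?_)
  ring

lemma num_bdd2 {θ θ₁ : ℝ} (h0 : 0 < θ) (h1 : θ < θ₁) :
    ∃ D : ℝ, 0 ≤ D ∧ ∀ k : ℕ, ((k : ℝ) + 1) ^ 2 * θ ^ k ≤ D * θ₁ ^ k := by
  have hθ₁ : 0 < θ₁ := h0.trans h1
  set q := θ / θ₁ with hq
  have hq0 : 0 < q := by positivity
  have hq1 : q < 1 := by rw [hq, div_lt_one hθ₁]; exact h1
  set r := Real.sqrt q with hr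
  have hr0 : 0 < r := Real.sqrt_pos.mpr hq0
  have hr1 : r < 1 := by
    rw [hr, Real.sqrt_lt' one_pos]; simpa using hq1
  have hrq : r ^ 2 = q := Real.sq_sqrt hq0.le
  obtain ⟨M, hM⟩ := (num_tend1 hr0 hr1).bddAbove_range
  have hM' : ∀ k : ℕ, ((k : ℝ) + 1) * r ^ k ≤ M := fun k => hM ⟨k, rfl⟩
  have hM0 : 0 ≤ M := le_trans (by positivity) (hM' 0)
  refine ⟨M ^ 2, by positivity, fun k => ?_⟩
  have hk : (((k : ℝ) + 1) * r ^ k) ^ 2 ≤ M ^ 2 :=
    pow_le_pow_left₀ (by positivity) (hM' k) 2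
  have h2 : (((k : ℝ) + 1) * r ^ k) ^ 2 = ((k : ℝ) + 1) ^ 2 * q ^ k := by
    rw [mul_pow, ← pow_mul, mul_comm k 2, pow_mul, hrq]
  have h3 : θ ^ k = q ^ k * θ₁ ^ k := by
    rw [hq, div_pow]; field_simp
  rw [h3, ← mul_assoc]
  refine mul_le_mul_of_nonneg_right ?_ (by positivity)
  rw [← h2]; exact hk

theorem numA (β : ℕ → ℕ) (hβ : SubExp β) (Cκ C N θ₀ θ θ₁ : ℝ) (hCκ : 0 ≤ Cκ) (hC : 0 ≤ C)
    (hN : 0 ≤ N) (h0 : 1 < θ₀) (h1 : θ₀ < θ) (h2 : θ < θ₁) :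
    ∃ CA : ℝ, 0 ≤ CA ∧ ∀ k : ℕ, ∑ y ∈ Finset.range (k + 1), N * (Cκ * θ₀ ^ y * ((y + 1) *
        (1 + ∑ j ∈ Finset.range (k - y + 1), β j * (C * θ ^ (k - y - j))))) ≤ CA * θ₁ ^ k := by
  have hθ1 : 1 < θ := h0.trans h1
  have hθ0 : 0 < θ := by linarith
  have hθ₀0 : 0 < θ₀ := by linarith
  obtain ⟨C', hC', hconv⟩ := num_conv β hβ hθ1
  obtain ⟨D, hD0, hD⟩ := num_bdd2 hθ0 h2
  have hE : 0 ≤ N * Cκ * (1 + C * C') := by positivity
  refine ⟨N * Cκ * (1 + C * C') * D, by positivity, fun k => ?_⟩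
  have hterm : ∀ y ∈ Finset.range (k + 1), N * (Cκ * θ₀ ^ y * ((y + 1) *
        (1 + ∑ j ∈ Finset.range (k - y + 1), β j * (C * θ ^ (k - y - j)))))
        ≤ N * Cκ * (1 + C * C') * (((k : ℝ) + 1) * θ ^ k) := by
    intro y hy
    have hyk : y ≤ k := Nat.lt_succ_iff.mp (Finset.mem_range.mp hy)
    have hin : ∑ j ∈ Finset.range (k - y + 1), (β j : ℝ) * (C * θ ^ (k - y - j))
        ≤ C * (C' * θ ^ (k - y)) := by
      have : ∑ j ∈ Finset.range (k - y + 1), (β j : ℝ) * (C * θ ^ (k - y - j))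
          = C * ∑ j ∈ Finset.range (k - y + 1), (β j : ℝ) * θ ^ (k - y - j) := by
        rw [Finset.mul_sum]; exact Finset.sum_congr rfl (fun j _ => by ring)
      rw [this]
      exact mul_le_mul_of_nonneg_left (hconv (k - y)) hC
    have hone : 1 ≤ θ ^ (k - y) := one_le_pow₀ hθ1.le
    have hin2 : 1 + ∑ j ∈ Finset.range (k - y + 1), (β j : ℝ) * (C * θ ^ (k - y - j))
        ≤ (1 + C * C') * θ ^ (k - y) := by
      calc 1 + ∑ j ∈ Finset.range (k - y + 1), (β j : ℝ) * (C * θ ^ (k - y - j))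
          ≤ θ ^ (k - y) + C * (C' * θ ^ (k - y)) := add_le_add hone hin
        _ = (1 + C * C') * θ ^ (k - y) := by ring
    have hpow : θ₀ ^ y * θ ^ (k - y) ≤ θ ^ k := by
      calc θ₀ ^ y * θ ^ (k - y) ≤ θ ^ y * θ ^ (k - y) :=
            mul_le_mul_of_nonneg_right (pow_le_pow_left₀ hθ₀0.le h1.le y) (by positivity)
        _ = θ ^ k := by rw [← pow_add, Nat.add_sub_cancel' hyk]
    have hy1 : ((y : ℝ) + 1) ≤ (k : ℝ) + 1 := by
      have : (y : ℝ) ≤ k := by exact_mod_cast hyk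
      linarith
    calc N * (Cκ * θ₀ ^ y * ((y + 1) *
        (1 + ∑ j ∈ Finset.range (k - y + 1), β j * (C * θ ^ (k - y - j)))))
        ≤ N * (Cκ * θ₀ ^ y * ((y + 1) * ((1 + C * C') * θ ^ (k - y)))) := by
          refine mul_le_mul_of_nonneg_left ?_ hN
          refine mul_le_mul_of_nonneg_left ?_ (by positivity)
          exact mul_le_mul_of_nonneg_left hin2 (by positivity)
      _ = N * Cκ * (1 + C * C') * (((y : ℝ) + 1) * (θ₀ ^ y * θ ^ (k - y))) := by ring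
      _ ≤ N * Cκ * (1 + C * C') * (((k : ℝ) + 1) * θ ^ k) := by
          refine mul_le_mul_of_nonneg_left ?_ hE
          exact mul_le_mul hy1 hpow (by positivity) (by positivity)
  calc ∑ y ∈ Finset.range (k + 1), N * (Cκ * θ₀ ^ y * ((y + 1) *
        (1 + ∑ j ∈ Finset.range (k - y + 1), β j * (C * θ ^ (k - y - j)))))
      ≤ ∑ _y ∈ Finset.range (k + 1), N * Cκ * (1 + C * C') * (((k : ℝ) + 1) * θ ^ k) :=
        Finset.sum_le_sum hterm
    _ = N * Cκ * (1 + C * C') * (((k : ℝ) + 1) ^ 2 * θ ^ k) := by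
        rw [Finset.sum_const, Finset.card_range, nsmul_eq_mul]; push_cast; ring
    _ ≤ N * Cκ * (1 + C * C') * (D * θ₁ ^ k) := mul_le_mul_of_nonneg_left (hD k) hE
    _ = N * Cκ * (1 + C * C') * D * θ₁ ^ k := by ring

theorem numB1 (β : ℕ → ℕ) (hβ : SubExp β) (C θ θ₁ : ℝ) (hC : 0 ≤ C)
    (h1 : 1 < θ) (h2 : θ < θ₁) :
    ∃ CB : ℝ, 0 ≤ CB ∧ ∀ k : ℕ,
      ∑ i ∈ Finset.range (k + 1), β i * (C * θ ^ (k - i)) ≤ CB * θ₁ ^ k := by
  obtain ⟨C', hC', hconv⟩ := num_conv β hβ h1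
  have hθ0 : 0 < θ := by linarith
  refine ⟨C * C', by positivity, fun k => ?_⟩
  calc ∑ i ∈ Finset.range (k + 1), (β i : ℝ) * (C * θ ^ (k - i))
      = C * ∑ i ∈ Finset.range (k + 1), (β i : ℝ) * θ ^ (k - i) := by
        rw [Finset.mul_sum]; exact Finset.sum_congr rfl (fun j _ => by ring)
    _ ≤ C * (C' * θ ^ k) := mul_le_mul_of_nonneg_left (hconv k) hC
    _ ≤ C * (C' * θ₁ ^ k) := by
        refine mul_le_mul_of_nonneg_left ?_ hC
        exact mul_le_mul_of_nonneg_left (pow_le_pow_left₀ hθ0.le h2.le k) hC'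
    _ = C * C' * θ₁ ^ k := by ring

theorem numB2 (β : ℕ → ℕ) (hβ : SubExp β) (C θ θ₁ : ℝ) (hC : 0 ≤ C)
    (h1 : 1 < θ) (h2 : θ < θ₁) :
    ∃ k₀ : ℕ, ∀ k, k₀ ≤ k → ∑ i ∈ (Finset.range (k + 1)).filter (fun i => 2 * i < k), θ₁ ^ i *
        ∑ j ∈ Finset.range (k - i + 1), β j * (C * θ ^ (k - i - j)) ≤ 1 / 2 * θ₁ ^ k := by
  obtain ⟨C', hC', hconv⟩ := num_conv β hβ h1
  have hθ0 : 0 < θ := by linarith
  have hθ₁ : 0 < θ₁ := by linarith
  set q := θ / θ₁ with hq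
  have hq0 : 0 < q := by positivity
  have hq1 : q < 1 := by rw [hq, div_lt_one hθ₁]; exact h2
  set r := Real.sqrt q with hr
  have hr0 : 0 < r := Real.sqrt_pos.mpr hq0
  have hr1 : r < 1 := by
    rw [hr, Real.sqrt_lt' one_pos]; simpa using hq1
  have hrq : r ^ 2 = q := Real.sq_sqrt hq0.le
  have htend : Tendsto (fun k : ℕ => C * C' * (((k : ℝ) + 1) * r ^ k)) atTop (𝓝 0) := by
    have := (num_tend1 hr0 hr1).const_mul (C * C')
    simpa using this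
  have hev : ∀ᶠ k : ℕ in atTop, C * C' * (((k : ℝ) + 1) * r ^ k) < 1 / 2 :=
    htend.eventually_lt_const (by norm_num)
  obtain ⟨k₀, hk₀⟩ := eventually_atTop.mp hev
  refine ⟨k₀, fun k hk => ?_⟩
  have hterm : ∀ i ∈ (Finset.range (k + 1)).filter (fun i => 2 * i < k), θ₁ ^ i *
        ∑ j ∈ Finset.range (k - i + 1), (β j : ℝ) * (C * θ ^ (k - i - j))
        ≤ C * C' * (r ^ k * θ₁ ^ k) := by
    intro i hi
    rw [Finset.mem_filter, Finset.mem_range] at hi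
    obtain ⟨hik, hi2⟩ := hi
    have hik' : i ≤ k := by omega
    have hin : ∑ j ∈ Finset.range (k - i + 1), (β j : ℝ) * (C * θ ^ (k - i - j))
        ≤ C * (C' * θ ^ (k - i)) := by
      have : ∑ j ∈ Finset.range (k - i + 1), (β j : ℝ) * (C * θ ^ (k - i - j))
          = C * ∑ j ∈ Finset.range (k - i + 1), (β j : ℝ) * θ ^ (k - i - j) := by
        rw [Finset.mul_sum]; exact Finset.sum_congr rfl (fun j _ => by ring)
      rw [this]
      exact mul_le_mul_of_nonneg_left (hconv (k - i)) hC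
    have hpow : θ₁ ^ i * θ ^ (k - i) ≤ r ^ k * θ₁ ^ k := by
      have e1 : θ ^ (k - i) = q ^ (k - i) * θ₁ ^ (k - i) := by
        rw [hq, div_pow]; field_simp
      have e2 : θ₁ ^ k = θ₁ ^ i * θ₁ ^ (k - i) := by rw [← pow_add, Nat.add_sub_cancel' hik']
      have e3 : q ^ (k - i) ≤ r ^ k := by
        rw [← hrq, ← pow_mul]
        exact pow_le_pow_of_le_one hr0.le hr1.le (by omega)
      calc θ₁ ^ i * θ ^ (k - i) = q ^ (k - i) * θ₁ ^ k := by rw [e1, e2]; ring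
        _ ≤ r ^ k * θ₁ ^ k := mul_le_mul_of_nonneg_right e3 (by positivity)
    calc θ₁ ^ i * ∑ j ∈ Finset.range (k - i + 1), (β j : ℝ) * (C * θ ^ (k - i - j))
        ≤ θ₁ ^ i * (C * (C' * θ ^ (k - i))) := mul_le_mul_of_nonneg_left hin (by positivity)
      _ = C * C' * (θ₁ ^ i * θ ^ (k - i)) := by ring
      _ ≤ C * C' * (r ^ k * θ₁ ^ k) := mul_le_mul_of_nonneg_left hpow (by positivity)
  have hnn : 0 ≤ C * C' * (r ^ k * θ₁ ^ k) := by positivity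
  calc ∑ i ∈ (Finset.range (k + 1)).filter (fun i => 2 * i < k), θ₁ ^ i *
        ∑ j ∈ Finset.range (k - i + 1), (β j : ℝ) * (C * θ ^ (k - i - j))
      ≤ ∑ _i ∈ (Finset.range (k + 1)).filter (fun i => 2 * i < k), C * C' * (r ^ k * θ₁ ^ k) :=
        Finset.sum_le_sum hterm
    _ ≤ ∑ _i ∈ Finset.range (k + 1), C * C' * (r ^ k * θ₁ ^ k) :=
        Finset.sum_le_sum_of_subset_of_nonneg (Finset.filter_subset _ _) (fun _ _ _ => hnn)
    _ = C * C' * (((k : ℝ) + 1) * r ^ k) * θ₁ ^ k := by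
        rw [Finset.sum_const, Finset.card_range, nsmul_eq_mul]; push_cast; ring
    _ ≤ 1 / 2 * θ₁ ^ k := mul_le_mul_of_nonneg_right (hk₀ k hk).le (by positivity)

theorem numTrunc (β : ℕ → ℕ) (hβ : SubExp β) (C θ θ' : ℝ) (hC : 0 ≤ C)
    (h1 : 1 < θ) (h2 : θ < θ') :
    ∃ B : ℕ, ∀ n, B < n → ∑ i ∈ Finset.range (B + 1), ∑ j ∈ Finset.Ioc (B - i) (n - i),
      C * θ ^ i * (β j * θ' ^ (n - i - j)) ≤ θ' ^ n := by
  obtain ⟨D, hD⟩ := hβ θ h1
  have hD0 : 0 ≤ D := by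
    have h := hD 0
    simp only [pow_zero, mul_one] at h
    exact le_trans (Nat.cast_nonneg _) h
  have hθ0 : 0 < θ := by linarith
  have hθ' : 0 < θ' := by linarith
  set q := θ / θ' with hq
  have hq0 : 0 < q := by positivity
  have hq1 : q < 1 := by rw [hq, div_lt_one hθ']; exact h2
  have hq1' : 0 < 1 - q := by linarith
  have htend : Tendsto (fun k : ℕ => C * D / (1 - q) * (((k : ℝ) + 1) * q ^ k)) atTop (𝓝 0) := by
    have := (num_tend1 hq0 hq1).const_mul (C * D / (1 - q))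
    simpa using this
  have hev : ∀ᶠ k : ℕ in atTop, C * D / (1 - q) * (((k : ℝ) + 1) * q ^ k) < 1 :=
    htend.eventually_lt_const (by norm_num)
  obtain ⟨B, hB⟩ := eventually_atTop.mp hev
  have hB := (hB B le_rfl).le
  refine ⟨B, fun n hn => ?_⟩
  have hterm : ∀ i ∈ Finset.range (B + 1), ∑ j ∈ Finset.Ioc (B - i) (n - i),
      C * θ ^ i * ((β j : ℝ) * θ' ^ (n - i - j)) ≤ C * D / (1 - q) * q ^ B * θ' ^ n := by
    intro i hi
    have hiB : i ≤ B := Nat.lt_succ_iff.mp (Finset.mem_range.mp hi)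
    have hin : ∀ j ∈ Finset.Ioc (B - i) (n - i),
        C * θ ^ i * ((β j : ℝ) * θ' ^ (n - i - j)) ≤ C * D * θ' ^ n * q ^ i * q ^ j := by
      intro j hj
      rw [Finset.mem_Ioc] at hj
      have e0 : n = i + j + (n - i - j) := by omega
      have e1 : θ' ^ n = θ' ^ i * θ' ^ j * θ' ^ (n - i - j) := by
        rw [← pow_add, ← pow_add, ← e0]
      have e2 : C * D * θ' ^ n * q ^ i * q ^ j = C * θ ^ i * ((D * θ ^ j) * θ' ^ (n - i - j)) := by
        rw [e1, hq, div_pow, div_pow]; field_simp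
      rw [e2]
      refine mul_le_mul_of_nonneg_left ?_ (by positivity)
      exact mul_le_mul_of_nonneg_right (hD j) (by positivity)
    have hIoc : Finset.Ioc (B - i) (n - i) = Finset.Ico (B - i + 1) (n - i + 1) := by
      ext j; simp only [Finset.mem_Ioc, Finset.mem_Ico]; omega
    calc ∑ j ∈ Finset.Ioc (B - i) (n - i), C * θ ^ i * ((β j : ℝ) * θ' ^ (n - i - j))
        ≤ ∑ j ∈ Finset.Ioc (B - i) (n - i), C * D * θ' ^ n * q ^ i * q ^ j :=
          Finset.sum_le_sum hin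
      _ = C * D * θ' ^ n * q ^ i * ∑ j ∈ Finset.Ico (B - i + 1) (n - i + 1), q ^ j := by
          rw [Finset.mul_sum, hIoc]
      _ ≤ C * D * θ' ^ n * q ^ i * (q ^ (B - i + 1) / (1 - q)) :=
          mul_le_mul_of_nonneg_left (geom_sum_Ico_le_of_lt_one hq0.le hq1) (by positivity)
      _ = C * D / (1 - q) * q ^ (B + 1) * θ' ^ n := by
          have : q ^ (B + 1) = q ^ i * q ^ (B - i + 1) := by
            rw [← pow_add]; congr 1; omega
          rw [this]; ring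
      _ ≤ C * D / (1 - q) * q ^ B * θ' ^ n := by
          refine mul_le_mul_of_nonneg_right ?_ (by positivity)
          refine mul_le_mul_of_nonneg_left ?_ (by positivity)
          exact pow_le_pow_of_le_one hq0.le hq1.le (Nat.le_succ B)
  calc ∑ i ∈ Finset.range (B + 1), ∑ j ∈ Finset.Ioc (B - i) (n - i),
      C * θ ^ i * ((β j : ℝ) * θ' ^ (n - i - j))
      ≤ ∑ _i ∈ Finset.range (B + 1), C * D / (1 - q) * q ^ B * θ' ^ n :=
        Finset.sum_le_sum hterm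
    _ = C * D / (1 - q) * (((B : ℝ) + 1) * q ^ B) * θ' ^ n := by
        rw [Finset.sum_const, Finset.card_range, nsmul_eq_mul]; push_cast; ring
    _ ≤ 1 * θ' ^ n := mul_le_mul_of_nonneg_right hB (by positivity)
    _ = θ' ^ n := one_mul _

end Pool.Agent.H11.PP
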