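import Pool.Agent.H11.PP.Struct
import Pool.Agent.H11.PP.CountA
import Pool.Agent.H11.PP.CountB
import Pool.Agent.H11.PP.Numeric

/-!
# The counting step for Lyndon words

Proof of `PLyn_succ` (paper).  Choose `θ₀ < θ < θ₁` (`θ₁` the given one); `PC m` for `cum β`
(`SubExp_cum`), `θ` gives `C, B` (replace `C` by `max C 0`).  For every alphabet with `Alph wt β`
and every Lyndon `u`, `Blk u` satisfies `Alph (wtB wt u) (cum β)` (`Alph_blk`) and `GB G z u` is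
good (`GoodSys_GB`), which gives the hypothesis `hT` of `Bd_SetA`, `Bd_SetB1`, `Bd_SetB2`.
`k₀` from `numB2` (for `cum β`), enlarged so that `1 ≤ k₀`, `2 K ≤ k₀`, `2 R B ≤ k₀`.
`N` from `exists_bound_tuples β m B`, `CA` from `numA` (for `cum β`, `N`), `CB` from `numB1`,
`N₀` from `exists_bound_words β k₀`; `C⋆ = max N₀ (2 (CA + CB))`.  Strong induction on `k`
(all `z`): for `k < k₀` the count is `≤ N₀ ≤ C⋆ ≤ C⋆ θ₁^k`; for `k ≥ k₀` use `lyn_struct`,
`Bd_SetA`, `Bd_SetB1`, `Bd_SetB2` with `Lam i = C⋆ θ₁^i` : the total is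
`≤ (CA + CB) θ₁^k + C⋆ (1/2) θ₁^k ≤ C⋆ θ₁^k`.
-/

namespace Pool.Agent.H11.PP

theorem PLyn_succ (m : ℕ) (h : PC m) : PLyn (m + 1) := by
  intro K R β hβ Cκ θ₀ θ₁ hCκ h0 h1
  obtain ⟨θ, hθ0, hθ1⟩ : ∃ θ : ℝ, θ₀ < θ ∧ θ < θ₁ := exists_between h1
  obtain ⟨C', B, hC'⟩ := h K R (cum β) (SubExp_cum hβ) Cκ θ₀ θ hCκ h0 hθ0
  have hC : (0 : ℝ) ≤ max C' 0 := le_max_right _ _
  set C : ℝ := max C' 0 with hCdef
  have hθpos : (1 : ℝ) < θ := h0.trans hθ0
  have hθ₁pos : (1 : ℝ) < θ₁ := hθpos.trans hθ1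
  obtain ⟨k₀', hk₀'⟩ := numB2 (cum β) (SubExp_cum hβ) C θ θ₁ hC hθpos hθ1
  obtain ⟨N, hN⟩ := exists_bound_tuples β m B
  obtain ⟨CA, hCA0, hCA⟩ := numA (cum β) (SubExp_cum hβ) Cκ C N θ₀ θ θ₁ hCκ hC
    (Nat.cast_nonneg _) h0 hθ0 hθ1
  obtain ⟨CB, hCB0, hCB⟩ := numB1 β hβ C θ θ₁ hC hθpos hθ1
  obtain ⟨N₀, hN₀⟩ := exists_bound_words β (k₀' + 1 + 2 * K + 2 * (R * B))
  set Cs : ℝ := max (N₀ : ℝ) (2 * (CA + CB)) with hCs
  have hCsN : (N₀ : ℝ) ≤ Cs := le_max_left _ _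
  have hCsAB : 2 * (CA + CB) ≤ Cs := le_max_right _ _
  have hCs0 : 0 ≤ Cs := le_trans (Nat.cast_nonneg _) hCsN
  refine ⟨Cs, fun α _ wt hα G hG z n => ?_⟩
  -- the counting statement for the block alphabets
  have hT : ∀ (z : ℕ) (u : List α), Lyn u → ∀ z' n, Bd {T : List (Blk u) |
      wl (wtB wt u) T = n ∧ Avoid (wtB wt u) m K R B (GB G z u) z' T} (C * θ ^ n) := by
    intro z u hu z' n
    refine (hC' (Blk u) (wtB wt u) (Alph_blk hα u) (GB G z u) (GoodSys_GB hG z hu) z' n).mono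
      (fun _ h => h) ?_
    exact mul_le_mul_of_nonneg_right (le_max_left _ _) (pow_nonneg (by linarith) _)
  induction n using Nat.strong_induction_on generalizing z with
  | _ k ih =>
    have hpow : (1 : ℝ) ≤ θ₁ ^ k := one_le_pow₀ hθ₁pos.le
    by_cases hk : k < k₀' + 1 + 2 * K + 2 * (R * B)
    · refine (hN₀ α wt hα).mono ?_ ?_
      · rintro W ⟨_, hW, _⟩
        rw [Set.mem_ofPred_eq]
        omega
      · calc (N₀ : ℝ) ≤ Cs := hCsN
          _ = Cs * 1 := (mul_one _).symm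
          _ ≤ Cs * θ₁ ^ k := mul_le_mul_of_nonneg_left hpow hCs0
    · rw [not_lt] at hk
      have hκ : ∀ n : ℕ, (0 : ℝ) ≤ (fun k : ℕ => Cκ * θ₀ ^ k) n := fun n =>
        mul_nonneg hCκ (pow_nonneg (by linarith) _)
      have hA := Bd_SetA hα m K R B hκ G hG C θ hC hθpos hT z k N (hN α wt hα)
      have hB1 := Bd_SetB1 hα m K R B G hG C θ hC hθpos hT z k
      have hB2 := Bd_SetB2 hα m K R B G hG C θ hC hθpos hT z k (fun i => Cs * θ₁ ^ i)
        (fun i hi => ih i (by omega) z)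
      have hs := lyn_struct hα.1 m K R B G z k (by omega) (by omega) (by omega)
      refine ((hA.union hB1).union hB2).mono hs ?_
      have e1 := hCA k
      have e2 := hCB k
      have e3 := hk₀' k (by omega)
      have e4 : ∑ i ∈ (Finset.range (k + 1)).filter (fun i => 2 * i < k), Cs * θ₁ ^ i *
          ∑ j ∈ Finset.range (k - i + 1), (cum β j : ℝ) * (C * θ ^ (k - i - j))
          ≤ Cs * (1 / 2 * θ₁ ^ k) := by
        refine le_trans (le_of_eq ?_) (mul_le_mul_of_nonneg_left e3 hCs0)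
        rw [Finset.mul_sum]
        exact Finset.sum_congr rfl fun i _ => by ring
      have e5 : (CA + CB) * θ₁ ^ k ≤ Cs / 2 * θ₁ ^ k :=
        mul_le_mul_of_nonneg_right (by linarith) (by linarith)
      have e6 := add_le_add (add_le_add e1 e2) e4
      refine le_trans e6 ?_
      nlinarith [e5]

end Pool.Agent.H11.PP
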