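import Pool.Agent.H11.PP.Numeric

/-!
# The truncation step

Proof of `PC_of_PCinf` (paper).  Choose `θ₀ < θ' < θ` (`θ` the given one); `PCinf m` for `θ'`
gives `C` (enlarge: `C ≥ 1`).  `B` from `numTrunc β hβ C θ' θ`.  Claim: for this `B` and the
constant `C`, by strong induction on `n` (all `z`).
* `n ≤ B` : all patterns occurring in a word of weight `n` have total weight `≤ B`, so
  `Avoid … B` implies `Avoid … ⊤`, and the count is `≤ C θ'^n ≤ C θ^n`.
* `n > B` : `W = W₁ ++ a :: W₂` with `wl W₁ = i ≤ B < i + wt a` (`W₁` the longest prefix of weight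
  `≤ B`), `W₁` avoids at `z` all patterns (its weight is `≤ B`): at most `C θ'^i` of them; there
  are `≤ β j` letters `a` of weight `j ∈ (B - i, n - i]`, and `W₂` has weight `n - i - j` and
  avoids at the position `z + i + j` (`Avoid.factor`): `≤ C θ^(n-i-j)` of them.  So the set is
  contained in `⋃_{i ≤ B} ⋃_{j ∈ Ioc (B-i) (n-i)} ⋃_{W₁} ⋃_{a : wt a = j} (W₁ ++ a :: ·) '' {W₂}`
  and the bound is `∑∑ C θ'^i (β j (C θ^(n-i-j))) ≤ C θ^n` by `numTrunc`.
-/

namespace Pool.Agent.H11.PP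

/-- the longest prefix of weight at most `B` -/
lemma exists_split_weight {α : Type*} (wt : α → ℕ) (W : List α) :
    ∀ B : ℕ, B < wl wt W → ∃ (W₁ : List α) (a : α) (W₂ : List α), W = W₁ ++ a :: W₂ ∧
      wl wt W₁ ≤ B ∧ B < wl wt W₁ + wt a := by
  induction W with
  | nil => intro B h; simp at h
  | cons a W ih =>
    intro B h
    rw [wl_cons] at h
    by_cases h1 : B < wt a
    · exact ⟨[], a, W, rfl, by simp, by simpa using h1⟩
    · obtain ⟨W₁, b, W₂, rfl, h2, h3⟩ := ih (B - wt a) (by omega)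
      exact ⟨a :: W₁, b, W₂, rfl, by rw [wl_cons]; omega, by rw [wl_cons]; omega⟩

/-- words of weight at most `B` avoiding the patterns of weight at most `B` avoid everything -/
lemma Avoid.to_top {α : Type*} [LinearOrder α] {wt : α → ℕ} {m K R B : ℕ}
    {G : ℕ → List ℕ → List (List α) → Prop} {z : ℕ} {W : List α} (hW : wl wt W ≤ B)
    (h : Avoid wt m K R B G z W) : Avoid wt m K R ⊤ G z W := by
  intro W' L W'' hWe hL hP _
  refine h W' L W'' hWe hL hP ?_
  have h1 : wl wt L.flatten ≤ B := by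
    rw [hWe, wl_append, wl_append] at hW
    omega
  exact_mod_cast h1

theorem PC_of_PCinf (m : ℕ) (h : PCinf m) : PC m := by
  intro K R β hβ Cκ θ₀ θ hCκ h0 h01
  have hθ'1 : θ₀ < (θ₀ + θ) / 2 := by linarith
  have hθ'2 : (θ₀ + θ) / 2 < θ := by linarith
  generalize (θ₀ + θ) / 2 = θ' at hθ'1 hθ'2
  obtain ⟨C₀, hC₀⟩ := h K R β hβ Cκ θ₀ θ' hCκ h0 hθ'1
  have hθ'0 : 0 ≤ θ' := by linarith
  have hθ0 : 0 ≤ θ := by linarith
  obtain ⟨C, hC0, hC1⟩ : ∃ C : ℝ, 0 ≤ C ∧ C₀ ≤ C := ⟨max C₀ 0, le_max_right _ _, le_max_left _ _⟩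
  obtain ⟨B, hB⟩ := numTrunc β hβ C θ' θ hC0 (by linarith) hθ'2
  refine ⟨C, B, ?_⟩
  intro α _ wt hα G hG z n
  induction n using Nat.strong_induction_on generalizing z with
  | _ n ih =>
    have hinf : ∀ z i, Bd {W | wl wt W = i ∧ Avoid wt m K R ⊤ G z W} (C * θ' ^ i) := by
      intro z i
      exact (hC₀ α wt hα G hG z i).mono subset_rfl
        (mul_le_mul_of_nonneg_right hC1 (pow_nonneg hθ'0 _))
    by_cases hn : n ≤ B
    · refine (hinf z n).mono ?_ (mul_le_mul_of_nonneg_left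
        (pow_le_pow_left₀ hθ'0 hθ'2.le n) hC0)
      rintro W ⟨hW, hA⟩
      exact ⟨hW, Avoid.to_top (by omega) hA⟩
    · have hn' : B < n := by omega
      have h1 : Bd (⋃ i ∈ Finset.range (B + 1), ⋃ j ∈ Finset.Ioc (B - i) (n - i),
          ⋃ W₁ ∈ {W | wl wt W = i ∧ Avoid wt m K R ⊤ G z W}, ⋃ a ∈ {a | wt a = j},
          (fun W₂ : List α => W₁ ++ a :: W₂) ''
            {W | wl wt W = n - i - j ∧ Avoid wt m K R B G (z + i + j) W})
          (∑ i ∈ Finset.range (B + 1), ∑ j ∈ Finset.Ioc (B - i) (n - i),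
            (C * θ' ^ i) * (β j * (C * θ ^ (n - i - j)))) := by
        refine Bd.biUnion _ _ _ fun i hi => Bd.biUnion _ _ _ fun j hj => ?_
        rw [Finset.mem_range] at hi
        rw [Finset.mem_Ioc] at hj
        exact Bd.bind (hinf z i) _ (by positivity) fun W₁ _ => Bd.bind (hα.2 j) _ (by positivity)
          fun a _ => (ih (n - i - j) (by omega) (z + i + j)).image _
      refine h1.mono ?_ ?_
      · rintro W ⟨hW, hA⟩
        obtain ⟨W₁, a, W₂, rfl, h2, h3⟩ := exists_split_weight wt W B (by omega)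
        rw [wl_append, wl_cons] at hW
        simp only [Set.mem_iUnion, Finset.mem_range, Finset.mem_Ioc, Set.mem_image]
        refine ⟨wl wt W₁, by omega, wt a, by omega, W₁, ⟨rfl, ?_⟩, a, rfl, W₂, ⟨by omega, ?_⟩, rfl⟩
        · have h4 : Avoid wt m K R B G z ([] ++ W₁ ++ (a :: W₂)) := by simpa using hA
          exact Avoid.to_top h2 (by simpa using h4.factor)
        · have h4 : Avoid wt m K R B G z ((W₁ ++ [a]) ++ W₂ ++ []) := by simpa using hA
          have h5 := h4.factor
          simpa [add_assoc] using h5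
      · have h2 := mul_le_mul_of_nonneg_left (hB n hn') hC0
        refine le_trans (le_of_eq ?_) h2
        rw [Finset.mul_sum]
        refine Finset.sum_congr rfl fun i _ => ?_
        rw [Finset.mul_sum]
        refine Finset.sum_congr rfl fun j _ => ?_
        ring

end Pool.Agent.H11.PP
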