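import Pool.Agent.H11.PP.WordsCount
import Pool.Agent.H11.PP.StepLyn
import Pool.Agent.H11.PP.StepTrunc

/-!
# Lemma C
-/

namespace Pool.Agent.H11.PP

theorem PCinf_of_PLyn (m : ℕ) (h : PLyn m) : PCinf m := by
  intro K R β hβ Cκ θ₀ θ hC h0 h1
  obtain ⟨C, hC'⟩ := h K R β hβ Cκ θ₀ ((θ₀ + θ) / 2) hC h0 (by linarith)
  obtain ⟨C₁, h2⟩ := words_of_lyn β (max C 0) ((θ₀ + θ) / 2) θ (le_max_right _ _) (by linarith)
    (by linarith)
  refine ⟨C₁, fun α _ wt hα G hG z n => ?_⟩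
  refine (h2 α wt hα (fun z l => Avoid wt m K R ⊤ G z l) ?_ z n).mono ?_ le_rfl
  · intro z k
    refine (hC' α wt hα G hG z k).mono (fun l hl => ⟨hl.1, hl.2.1, hl.2.2⟩) ?_
    exact mul_le_mul_of_nonneg_right (le_max_left _ _) (pow_nonneg (by linarith) _)
  · rintro W ⟨hW, hA⟩
    refine ⟨hW, fun W1 l W2 h _ => ?_⟩
    subst h
    exact hA.factor

theorem lemmaC (m : ℕ) : PC m := by
  induction m with
  | zero => exact PC_zero
  | succ m ih => exact PC_of_PCinf _ (PCinf_of_PLyn _ (PLyn_succ m ih))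

end Pool.Agent.H11.PP
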