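import Pool.Agent.H11.PP.OracleApp
import Pool.Agent.H11.PP.LemmaC
import Pool.Agent.H11.PP.Growth

/-!
# The growth inequality from an identity

Proof of `propD` (paper).  Let `K' = max K 3`, `R = 14 D`, `β n = D` (constant), `Cκ` from
`kappa_bound D m K'`; `lemmaC m K' R β _ Cκ (3/2) (7/4)` gives `C₀, B₀`; `N_B` from
`exists_bound_words β B₀` (applied to `Fin D` with weights `1`; `Alph` is clear), `Cr` from
`rr_bound D m B₀`.  `n₁ = max K' (B₀ + 3)`, `C = max C₀ 0 + N_B Cr 2^3`.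
Given the data, `G = Orc S g K' R i₀ q lam v t` is a good system (`good_orc`; `IdHyp` for `K`
implies `IdHyp` for `K'`).  Call `L` a pattern if `L.length = m`, `PatW (fun _ => 1) K' R L`,
`wl L.flatten ≤ B₀` and `G 0 [] L` (`G` does not depend on its first argument).
`𝒴 = {L.flatten : L pattern}` is finite with at most `N_B` elements.  For `Y ∈ 𝒴` choose `L`.  The
tuple `ks = L.reverse.map length` is valid (`ValT K' R 0 ks`, `ks.sum = |Y| ≤ B₀ ≤ i₀ + q + 1`):
by induction from `PatW` (`R * N ≤ k` and `k ≥ 3` imply `N + 1 ≤ k` because `R ≥ 14`;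
generalise: for `PatW (fun _ => 1) K' R L`, `ValT K' R 0 (L.reverse.map length)`, using a lemma
`ValT K R N (ks ++ [k]) ↔ ValT K R N ks ∧ …`).  So there are `Γ` and
`RR (|Y|) (layers …) r (Tlam lam t (zip v.reverse Γ))` (`Nest (drop m …)`, `drop` of a list of
length `m`, is `Nest []`).  Put `T Y = (lam (v ++ [t]))⁻¹ • Tlam lam t (zip v.reverse Γ)`.
`Tlam_lead` with `ws = L.reverse` (`ws.reverse.flatten = Y`; `Pairwise` from `PatW` by
transitivity of `SL`; `((zip v.reverse Γ).map fst).reverse = v` since `|Γ| = m = |v|`) gives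
`T Y - ev Y ∈ Up Y ⊔ J (|Y|+1)`.  For `i₀ ≤ i`, `i + |Y| ≤ i₀ + q` we have `i ∈ layers …` (as
`i₀ ≥ n₁`), and `LL i ≤ range (sk i) ⊔ J (i+1)` (`LL_le_sk`), `Ad (T Y)` maps `J (i+1)` into
`J (i+|Y|+1)`, so the rank condition of `growth` holds with
`r = Cr 2^((i₀+q+1)/3+2)` (`rk_le_of_le_sup`).
`growth` gives the inequality; the words without factor in `𝒴` satisfy
`Avoid (fun _ => 1) m K' R B₀ G 0 W`, so there are at most `C₀ (7/4)^q` of them (`wl_one`), and
`2^((i₀+q+1)/3+2) ≤ 8 · 2^((i₀+q)/3)`.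
-/

namespace Pool.Agent.H11.PP

namespace PropDAux

lemma length_qs (D τ μ : ℕ) (kps : List (Fin 2 × ℕ × ℕ)) : (qs D τ μ kps).length = kps.length := by
  induction kps generalizing τ μ with
  | nil => rfl
  | cons x kps ih => simp only [qs, List.length_cons, ih]

lemma length_kpsOf (N : ℕ) (sks : List (Fin 2 × ℕ)) : (kpsOf N sks).length = sks.length := by
  induction sks generalizing N with
  | nil => rfl
  | cons x sks ih => simp only [kpsOf, List.length_cons, ih]

lemma ValT_append (K R : ℕ) (ks : List ℕ) (k N : ℕ) : ValT K R N (ks ++ [k]) ↔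
    ValT K R N ks ∧ K ≤ k ∧ 3 ≤ k ∧ N + ks.sum + 1 ≤ k ∧ R * (N + ks.sum) ≤ k := by
  induction ks generalizing N with
  | nil => simp [ValT]
  | cons a ks ih =>
    simp only [List.cons_append, ValT, ih, List.sum_cons, ← add_assoc]
    tauto

lemma sum_lengths {α : Type*} (L : List (List α)) :
    (L.reverse.map List.length).sum = L.flatten.length := by
  rw [List.map_reverse, List.sum_reverse, List.length_flatten]

lemma ValT_of_PatW {α : Type*} [LinearOrder α] {K R : ℕ} (hK : 3 ≤ K) (hR : 14 ≤ R)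
    (L : List (List α)) (h : PatW (fun _ => 1) K R L) :
    ValT K R 0 (L.reverse.map List.length) := by
  induction L with
  | nil => trivial
  | cons l L ih =>
    obtain ⟨h1, -, h2, h3, -⟩ := h
    rw [wl_one] at h2 h3
    rw [wl_one] at h3
    rw [List.reverse_cons, List.map_append, List.map_singleton, ValT_append, sum_lengths]
    refine ⟨ih h1, h2, by omega, ?_, by rwa [zero_add]⟩
    rcases Nat.eq_zero_or_pos L.flatten.length with h0 | h0
    · omega
    · have : 14 * L.flatten.length ≤ R * L.flatten.length := Nat.mul_le_mul_right _ hR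
      omega

lemma pairwise_of_PatW {α : Type*} [LinearOrder α] {wt : α → ℕ} {K R : ℕ}
    (L : List (List α)) (h : PatW wt K R L) : L.Pairwise (fun a b => SL a b) := by
  induction L with
  | nil => exact List.Pairwise.nil
  | cons l L ih =>
    obtain ⟨h1, -, -, -, h2⟩ := h
    have h3 := ih h1
    refine List.Pairwise.cons ?_ h3
    intro a ha
    cases L with
    | nil => simp at ha
    | cons b L =>
      have h4 : SL l b := h2 b (by simp)
      rw [List.mem_cons] at ha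
      rcases ha with rfl | ha
      · exact h4
      · exact h4.trans ((List.pairwise_cons.1 h3).1 a ha)

lemma forall₂_zip {A B C : Type*} {P : B → C → Prop} (us : List A) :
    ∀ (Γ : List B) (ls : List C), us.length = Γ.length → List.Forall₂ P Γ ls →
      List.Forall₂ (fun h l => P h.2 l) (List.zip us Γ) ls := by
  induction us with
  | nil =>
    intro Γ ls hl h
    have : Γ = [] := List.eq_nil_of_length_eq_zero (by simpa using hl.symm)
    subst this
    cases h
    exact List.Forall₂.nil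
  | cons u us ih =>
    intro Γ ls hl h
    cases h with
    | nil => simp at hl
    | cons h1 h2 =>
      rw [List.zip_cons_cons]
      exact List.Forall₂.cons h1 (ih _ _ (by simpa using hl) h2)

variable {p : ℕ} [Fact p.Prime] {B H : Type*} [Ring B] [Algebra (ZMod p) B] [Group H]
  [FiniteDimensional (ZMod p) B]

/-- one reducible word -/
lemma key (S : Sys p B H) {D : ℕ} (hD : 1 ≤ D) (g : Fin D → H) (K i₀ q m B₀ Cr : ℕ)
    (hK : 3 ≤ K) (lam : List (Fin 2) → ZMod p) (v : List (Fin 2)) (t : Fin 2)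
    (hv : v.length = m) (hlam : lam (v ++ [t]) ≠ 0)
    (hCr : ∀ sks : List (Fin 2 × ℕ), sks.length = m → (sks.map Prod.snd).sum ≤ B₀ →
      ∀ PM : ℕ, rr D PM 0 1 (kpsOf 0 sks) ≤ Cr * 2 ^ PM)
    (hi₀ : B₀ + 3 ≤ i₀) (hi₀' : K ≤ i₀) (L : List (List (Fin D))) (hL : L.length = m)
    (hP : PatW (fun _ => 1) K (14 * D) L) (hB : L.flatten.length ≤ B₀)
    (hG : Orc S g K (14 * D) i₀ q lam v t 0 [] L) :
    ∃ T : B, T - S.ev g L.flatten ∈ S.Up g L.flatten ⊔ S.J (L.flatten.length + 1) ∧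
      ∀ i, i₀ ≤ i → i + L.flatten.length ≤ i₀ + q →
        rk (S.J (i + L.flatten.length + 1)) ((S.LL g i).map (S.Ad T)) ≤
          Cr * 2 ^ ((i₀ + q + 1) / 3 + 2) := by
  have hval : ValT K (14 * D) 0 (L.reverse.map List.length) :=
    ValT_of_PatW hK (by omega) L hP
  have hsum : (L.reverse.map List.length).sum = L.flatten.length := sum_lengths L
  unfold Orc at hG
  rw [List.append_nil] at hG
  obtain ⟨Γ, hΓ, hN⟩ := hG hval (by rw [hsum]; omega)
  have hlen : (List.zip v.reverse (L.reverse.map List.length)).length = m := by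
    rw [List.length_zip, List.length_reverse, List.length_map, List.length_reverse, hv, hL,
      min_self]
  have hdrop : (qs D 0 1 (kpsOf 0 (List.zip v.reverse
      (L.reverse.map List.length)))).drop L.length = [] := by
    apply List.drop_of_length_le
    rw [length_qs, length_kpsOf, hlen, hL]
  rw [hdrop] at hN
  have hR : S.RR g (L.reverse.map List.length).sum
        (layers K i₀ q (L.reverse.map List.length).sum)
        (rr D ((i₀ + q + 1) / 3 + 2) 0 1 (kpsOf 0 (List.zip v.reverse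
          (L.reverse.map List.length))))
        (Tlam lam t (List.zip v.reverse (Γ ++ []))) := hN
  rw [List.append_nil, hsum] at hR
  have hΓlen : Γ.length = m := by
    rw [hΓ.length_eq, List.length_reverse, hL]
  -- leading word
  have hlead := S.Tlam_lead g lam t (List.zip v.reverse Γ) L.reverse
    (forall₂_zip (P := fun (γ : B) (l : List (Fin D)) =>
        γ - S.ev g l ∈ S.Up g l ⊔ S.J (l.length + 1)) v.reverse Γ L.reverse
      (by rw [List.length_reverse, hv, hΓlen])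
      (hΓ.imp fun γ l h => by
        obtain ⟨ε, rfl, h2⟩ := h
        exact h2))
    (by
      rw [List.pairwise_reverse]
      exact pairwise_of_PatW L hP)
  have hfst : ((List.zip v.reverse Γ).map Prod.fst).reverse = v := by
    rw [List.map_fst_zip (by rw [List.length_reverse, hv, hΓlen]), List.reverse_reverse]
  rw [hfst, List.reverse_reverse] at hlead
  set Tl := Tlam lam t (List.zip v.reverse Γ) with hTl
  set c := lam (v ++ [t]) with hc
  have hT : c⁻¹ • Tl - S.ev g L.flatten ∈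
      S.Up g L.flatten ⊔ S.J (L.flatten.length + 1) := by
    have h1 : c⁻¹ • Tl - S.ev g L.flatten = c⁻¹ • (Tl - c • S.ev g L.flatten) := by
      rw [smul_sub, smul_smul, inv_mul_cancel₀ hlam, one_smul]
    rw [h1]
    exact Submodule.smul_mem _ _ hlead
  refine ⟨c⁻¹ • Tl, hT, ?_⟩
  intro i hi hiq
  have hmem : i ∈ layers K i₀ q L.flatten.length := by
    unfold layers
    rw [List.mem_filter, List.mem_range, decide_eq_true_eq]
    refine ⟨by omega, hi, by omega, by omega, hiq⟩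
  have h1 := hR i hmem
  have hTJ : c⁻¹ • Tl ∈ S.J L.flatten.length := Sys.GrowthAux.T_mem S g hT
  have h2 : (S.LL g i).map (S.Ad (c⁻¹ • Tl)) ≤
      (LinearMap.range (S.sk g i)).map (S.Ad Tl) ⊔ S.J (i + L.flatten.length + 1) := by
    refine (Submodule.map_mono (S.LL_le_sk g (by omega : 1 ≤ i))).trans ?_
    rw [Submodule.map_sup]
    refine sup_le_sup ?_ ?_
    · rintro _ ⟨_, ⟨ε, rfl⟩, rfl⟩
      refine ⟨S.sk g i (c⁻¹ • ε), ⟨_, rfl⟩, ?_⟩
      rw [map_smul (S.sk g i), map_smul (S.Ad Tl), map_smul S.Ad, LinearMap.smul_apply]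
    · rintro _ ⟨y, hy, rfl⟩
      have := S.Ad_mem _ _ _ _ hTJ hy
      have he : L.flatten.length + (i + 1) = i + L.flatten.length + 1 := by omega
      rwa [he] at this
  refine (rk_le_of_le_sup h2).trans (h1.trans ?_)
  refine hCr _ hlen ?_ _
  rw [List.map_snd_zip (by
    rw [List.length_map, List.length_reverse, List.length_reverse, hv, hL]), hsum]
  exact hB

end PropDAux

open PropDAux in
theorem propD (D m K : ℕ) (hD : 1 ≤ D) : ∃ (C : ℝ) (n₁ : ℕ), 0 ≤ C ∧
    ∀ (p : ℕ) [Fact p.Prime] (B H : Type*) [Ring B] [Algebra (ZMod p) B] [Group H]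
      [FiniteDimensional (ZMod p) B] (S : Sys p B H) (g : Fin D → H), S.Gen g →
      ∀ (α : Fin 2 → H), (∀ s, α s ∈ S.D 3) →
      ∀ (lam : List (Fin 2) → ZMod p) (v : List (Fin 2)) (t : Fin 2), v.length = m →
      lam (v ++ [t]) ≠ 0 → IdHyp S K (m + 1) lam α →
      ∀ i₀ q : ℕ, n₁ ≤ i₀ →
        (rk (S.J (i₀ + q + 1)) (S.LL g (i₀ + q)) : ℝ) ≤
          C * (7 / 4) ^ q * rk (S.J (i₀ + 1)) (S.LL g i₀) +
            C * 2 ^ ((i₀ + q) / 3) * rk (S.J (q + 1)) ⊤ := by
  classical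
  have hβ : SubExp (fun _ => D) := by
    intro τ hτ
    refine ⟨D, fun n => ?_⟩
    have h1 : (1 : ℝ) ≤ τ ^ n := one_le_pow₀ hτ.le
    have h2 : (0 : ℝ) ≤ D := Nat.cast_nonneg D
    nlinarith
  obtain ⟨Cκ, hCκ0, hκ⟩ := kappa_bound D m (max K 3) hD
  obtain ⟨C₀, B₀, hPC⟩ := lemmaC m (max K 3) (14 * D) (fun _ => D) hβ Cκ (3 / 2) (7 / 4) hCκ0
    (by norm_num) (by norm_num)
  obtain ⟨NB, hNB⟩ := exists_bound_words (fun _ => D) B₀
  obtain ⟨Cr, hCr⟩ := rr_bound D m B₀ hD
  refine ⟨max C₀ 0 + NB * Cr * 8, max (max K 3) (B₀ + 3), by positivity, ?_⟩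
  intro p _ B H _ _ _ _ S g _ α hα lam v t hv hlam hId i₀ q hi₀
  have hi₀1 : max K 3 ≤ i₀ := (le_max_left _ _).trans hi₀
  have hi₀2 : B₀ + 3 ≤ i₀ := (le_max_right _ _).trans hi₀
  have hId' : IdHyp S (max K 3) (m + 1) lam α := fun ζ hζ =>
    hId ζ fun s => S.D_anti (le_max_left _ _) (hζ s)
  have hG := good_orc S hD g (max K 3) i₀ q m (by omega) lam v t hv α hα hId' Cκ hκ
  have hAlph : Alph (fun _ : Fin D => 1) (fun _ => D) := by
    refine ⟨fun _ => le_rfl, fun n => ⟨Set.toFinite _, ?_⟩⟩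
    have h1 := Set.ncard_le_card {a : Fin D | 1 = n}
    rw [Nat.card_eq_fintype_card, Fintype.card_fin] at h1
    exact_mod_cast h1
  set G := Orc S g (max K 3) (14 * D) i₀ q lam v t with hGdef
  -- the reducible words
  set YS : Set (List (Fin D)) := {Y | ∃ L : List (List (Fin D)), L.length = m ∧
    PatW (fun _ => 1) (max K 3) (14 * D) L ∧ L.flatten.length ≤ B₀ ∧ G 0 [] L ∧
    L.flatten = Y} with hYS
  have hYB : Bd YS NB := by
    refine (hNB (Fin D) (fun _ => 1) hAlph).mono ?_ le_rfl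
    rintro Y ⟨L, -, -, h, -, rfl⟩
    change wl (fun _ => 1) L.flatten ≤ B₀
    rwa [wl_one]
  set 𝒴 := hYB.1.toFinset with h𝒴
  have h𝒴card : (𝒴.card : ℝ) ≤ NB := by
    have := hYB.2
    rwa [Set.ncard_eq_toFinset_card YS hYB.1] at this
  have hkey : ∀ Y ∈ 𝒴, ∃ T : B, T - S.ev g Y ∈ S.Up g Y ⊔ S.J (Y.length + 1) ∧
      ∀ i, i₀ ≤ i → i + Y.length ≤ i₀ + q →
        rk (S.J (i + Y.length + 1)) ((S.LL g i).map (S.Ad T)) ≤
          Cr * 2 ^ ((i₀ + q + 1) / 3 + 2) := by
    intro Y hY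
    rw [h𝒴, Set.Finite.mem_toFinset] at hY
    obtain ⟨L, h1, h2, h3, h4, rfl⟩ := hY
    exact key S hD g (max K 3) i₀ q m B₀ Cr (le_max_right _ _) lam v t hv hlam hCr hi₀2 hi₀1
      L h1 h2 h3 h4
  choose! T hT hTr using hkey
  have hgrow := S.growth g (by omega : 1 ≤ i₀) q (Cr * 2 ^ ((i₀ + q + 1) / 3 + 2)) 𝒴 T hT hTr
  -- irreducible words
  have hirr : (({W : List (Fin D) | W.length = q ∧ ∀ Y ∈ 𝒴, ¬ Y <:+: W}.ncard : ℕ) : ℝ) ≤
      max C₀ 0 * (7 / 4) ^ q := by
    have h1 := hPC (Fin D) (fun _ => 1) hAlph G hG 0 q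
    refine (h1.mono ?_ ?_).2
    · rintro W ⟨hW, hW'⟩
      refine ⟨by rw [wl_one]; exact hW, ?_⟩
      intro W' L W'' hWW hL hP hB hGL
      refine hW' L.flatten ?_ ⟨W', W'', hWW.symm⟩
      rw [h𝒴, Set.Finite.mem_toFinset]
      refine ⟨L, hL, hP, ?_, hGL, rfl⟩
      rw [wl_one] at hB
      exact_mod_cast hB
    · exact mul_le_mul_of_nonneg_right (le_max_left _ _) (by positivity)
  have hpow : (2 : ℝ) ^ ((i₀ + q + 1) / 3 + 2) ≤ 8 * 2 ^ ((i₀ + q) / 3) := by
    have h1 : (2 : ℝ) ^ ((i₀ + q + 1) / 3 + 2) ≤ 2 ^ ((i₀ + q) / 3 + 3) :=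
      pow_le_pow_right₀ (by norm_num) (by omega)
    rw [pow_add 2 ((i₀ + q) / 3) 3] at h1
    linarith
  have hcast : (rk (S.J (i₀ + q + 1)) (S.LL g (i₀ + q)) : ℝ) ≤
      ({W : List (Fin D) | W.length = q ∧ ∀ Y ∈ 𝒴, ¬ Y <:+: W}.ncard : ℝ) *
          rk (S.J (i₀ + 1)) (S.LL g i₀)
        + 𝒴.card * ((Cr * 2 ^ ((i₀ + q + 1) / 3 + 2) : ℝ) * rk (S.J (q + 1)) ⊤) := by
    exact_mod_cast hgrow
  refine hcast.trans (add_le_add ?_ ?_)
  · refine mul_le_mul_of_nonneg_right (hirr.trans ?_) (Nat.cast_nonneg _)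
    refine mul_le_mul_of_nonneg_right ?_ (by positivity)
    have : (0 : ℝ) ≤ NB * Cr * 8 := by positivity
    linarith
  · rw [← mul_assoc]
    refine mul_le_mul_of_nonneg_right ?_ (Nat.cast_nonneg _)
    have h1 : (𝒴.card : ℝ) * (Cr * 2 ^ ((i₀ + q + 1) / 3 + 2)) ≤
        NB * (Cr * (8 * 2 ^ ((i₀ + q) / 3))) :=
      mul_le_mul h𝒴card (mul_le_mul_of_nonneg_left hpow (Nat.cast_nonneg _)) (by positivity)
        (by positivity)
    have h2 : (0 : ℝ) ≤ max C₀ 0 * 2 ^ ((i₀ + q) / 3) := by positivity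
    nlinarith

end Pool.Agent.H11.PP
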