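import Pool.Agent.H11.PP.TopPart
import Pool.Agent.H11.PP.PropD
import Pool.Agent.H11.PP.PartE
import Pool.Agent.H11.PP.Boot
import Pool.Agent.H11.PP.GSLink

/-!
# Assembly
-/

namespace Pool.Agent.H11.PP

open Pool.Agent.H31.GS Module

/-- the rank of a layer is at most the number of words -/
lemma rk_layer_le {p : ℕ} [Fact p.Prime] {B H : Type*} [Ring B] [Algebra (ZMod p) B] [Group H]
    [FiniteDimensional (ZMod p) B] (S : Sys p B H) {D : ℕ} (g : Fin D → H) (hg : S.Gen g)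
    (n : ℕ) : rk (S.J (n + 1)) (S.J n) ≤ D ^ n := by
  classical
  have h1 : rk (S.J (n + 1)) (S.J n) ≤
      rk (S.J (n + 1)) (Submodule.span (ZMod p)
        ((fun w : List.Vector (Fin D) n => S.ev g w.toList) ''
          (Finset.univ : Finset (List.Vector (Fin D) n)))) := by
    refine rk_le_of_le_sup ((hg n).trans (sup_le_sup_right (Submodule.span_mono ?_) _))
    rintro b ⟨w, hw, rfl⟩
    exact ⟨⟨w, hw⟩, by simp, rfl⟩
  refine h1.trans ((rk_span_le _ _ _).trans ?_)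
  simp [card_vector]

lemma LL_le_J {p : ℕ} [Fact p.Prime] {B H : Type*} [Ring B] [Algebra (ZMod p) B] [Group H]
    [FiniteDimensional (ZMod p) B] (S : Sys p B H) {D : ℕ} (g : Fin D → H) (n : ℕ) :
    rk (S.J (n + 1)) (S.LL g n) ≤ rk (S.J (n + 1)) (S.J n) :=
  rk_mono (S.LL_le g n)

/-- images of topological generators generate finite quotients -/
lemma closure_quot {G : Type*} [Group G] [TopologicalSpace G] [IsTopologicalGroup G]
    {D : ℕ} (g : Fin D → G)
    (hg : closure ((Subgroup.closure (Set.range g) : Subgroup G) : Set G) = Set.univ)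
    (N : Subgroup G) [N.Normal] (hN : IsOpen (N : Set G)) :
    Subgroup.closure (Set.range fun i => (g i : G ⧸ N)) = ⊤ := by
  have h2 : Subgroup.closure (Set.range fun i => (g i : G ⧸ N)) =
      (Subgroup.closure (Set.range g)).map (QuotientGroup.mk' N) := by
    rw [MonoidHom.map_closure, ← Set.range_comp]
    rfl
  rw [h2, eq_top_iff]
  intro z _
  obtain ⟨x, rfl⟩ := QuotientGroup.mk'_surjective N z
  have hx : x ∈ closure ((Subgroup.closure (Set.range g) : Subgroup G) : Set G) := by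
    rw [hg]; trivial
  have ho : IsOpen {y : G | x⁻¹ * y ∈ N} := hN.preimage (continuous_const_mul _)
  obtain ⟨y, hy1, hy2⟩ := mem_closure_iff.1 hx _ ho (by
    change x⁻¹ * x ∈ N
    rw [inv_mul_cancel]; exact N.one_mem)
  exact ⟨y, hy2, (QuotientGroup.eq.2 hy1).symm⟩

/-- Main theorem. -/
theorem main {p : ℕ} [Fact p.Prime] {G : Type*} [Group G] [TopologicalSpace G]
    [IsTopologicalGroup G] [CompactSpace G] [TotallyDisconnectedSpace G] (hG : PIndex p G)
    (hfg : ∃ T : Set G, T.Finite ∧ closure ((Subgroup.closure T : Subgroup G) : Set G) = Set.univ)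
    (hd : 2 < finrank (ZMod p) (Z1 (triv p G)))
    (hr : 4 * finrank (ZMod p) (H2 (triv p G)) = finrank (ZMod p) (Z1 (triv p G)) ^ 2) :
    ∃ (H : Subgroup G) (x y : G) (hx : x ∈ H) (hy : y ∈ H),
      IsClosed (H : Set G) ∧ IsFreeProP2 p H ⟨x, hx⟩ ⟨y, hy⟩ := by
  classical
  by_contra hfree
  -- generators
  obtain ⟨D, hD, g, hg⟩ : ∃ D : ℕ, 1 ≤ D ∧ ∃ g : Fin D → G,
      closure ((Subgroup.closure (Set.range g) : Subgroup G) : Set G) = Set.univ := by
    obtain ⟨T, hT, hTc⟩ := hfg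
    have hT' : (insert 1 T).Finite := hT.insert 1
    refine ⟨hT'.toFinset.card, ?_, fun i => (hT'.toFinset.equivFin.symm i : G), ?_⟩
    · exact Finset.card_pos.2 ⟨1, by simp⟩
    · rw [Set.eq_univ_iff_forall]
      intro x
      have hx : x ∈ closure ((Subgroup.closure T : Subgroup G) : Set G) := by
        rw [hTc]; trivial
      refine closure_mono ?_ hx
      refine (Subgroup.closure_mono ?_ : Subgroup.closure T ≤ _)
      intro y hy
      refine ⟨hT'.toFinset.equivFin ⟨y, by simp [hy]⟩, by simp⟩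
  obtain ⟨m, K, lam, v, t, x, N₀, hv, hlam, hN₀, hN₀o, hid⟩ := top_part hG g hg hfree
  obtain ⟨C, n₁, hC, hprop⟩ := propD D m K hD
  -- index set
  let ι := {N : Subgroup G // N.Normal ∧ IsOpen (N : Set G) ∧ N ≤ N₀}
  have hnorm : ∀ i : ι, i.1.Normal := fun i => i.2.1
  have hfin : ∀ i : ι, Finite (G ⧸ i.1) := fun i => i.1.quotient_finite_of_isOpen i.2.2.1
  let a : ι → ℕ → ℕ := fun i n =>
    haveI := hnorm i
    rk (JJ p (G ⧸ i.1) (n + 1)) (JJ p (G ⧸ i.1) n)
  let b : ι → ℕ → ℕ := fun i n =>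
    haveI := hnorm i
    rk (JJ p (G ⧸ i.1) n) ⊤
  let c : ι → ℕ → ℕ := fun i n =>
    haveI := hnorm i
    rk (JJ p (G ⧸ i.1) (n + 1)) ((groupSys p (G ⧸ i.1)).LL (fun j => (g j : G ⧸ i.1)) n)
  have hfd : ∀ i : ι, haveI := hnorm i
      FiniteDimensional (ZMod p) (MonoidAlgebra (ZMod p) (G ⧸ i.1)) := by
    intro i
    have := hnorm i
    have := hfin i
    infer_instance
  have hgen : ∀ i : ι, haveI := hnorm i
      (groupSys p (G ⧸ i.1)).Gen (fun j => (g j : G ⧸ i.1)) := by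
    intro i
    have := hnorm i
    exact gen_groupSys _ (closure_quot g hg i.1 i.2.2.1)
  obtain ⟨C', σ, hσ1, hσ2, hb⟩ := bootstrap a b c D C n₁ hC
    (by
      intro i n
      have := hnorm i
      have := hfd i
      exact ((groupSys p (G ⧸ i.1)).sum_rk_J n).symm)
    (by
      intro i k
      have := hnorm i
      have := hfd i
      exact LL_le_J (groupSys p (G ⧸ i.1)) _ k)
    (by
      intro i i₀ q hi₀
      have := hnorm i
      have := hfd i
      obtain ⟨h1, h2⟩ := hid i.1 i.2.2.1 i.2.2.2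
      exact hprop p _ _ (groupSys p (G ⧸ i.1)) _ (hgen i) _ h1 lam v t hv hlam h2 i₀ q hi₀)
    (by
      intro C₀ σ σ' h0 h1 h2
      obtain ⟨C₁, hC₁⟩ := partE D C₀ σ σ' h0 h1 h2
      refine ⟨C₁, fun i hi n => ?_⟩
      have := hnorm i
      have := hfd i
      exact hC₁ p _ _ (groupSys p (G ⧸ i.1)) _ (hgen i) hi n)
    (by
      intro i n
      have := hnorm i
      have := hfd i
      exact rk_layer_le (groupSys p (G ⧸ i.1)) _ (hgen i) n)
  -- contradiction with the Golod–Shafarevich growth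
  have hgs : ∀ n : ℕ, (2 : ℝ) ^ n ≤ C' * σ ^ (n + 1) := by
    intro n
    obtain ⟨N₁, hN₁, hN₁o, h1⟩ := gs_link hG hd hr n
    have hn : (N₁ ⊓ N₀).Normal := by
      have := hN₁; have := hN₀
      infer_instance
    have ho : IsOpen ((N₁ ⊓ N₀ : Subgroup G) : Set G) := by
      rw [Subgroup.coe_inf]; exact hN₁o.inter hN₀o
    have h2 := h1 (N₁ ⊓ N₀) ho inf_le_left
    have h3 := hb ⟨N₁ ⊓ N₀, hn, ho, inf_le_right⟩ (n + 1)
    have h4 : b ⟨N₁ ⊓ N₀, hn, ho, inf_le_right⟩ (n + 1) = finrank (ZMod p)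
          (MonoidAlgebra (ZMod p) (G ⧸ (N₁ ⊓ N₀)) ⧸ JJ p (G ⧸ (N₁ ⊓ N₀)) (n + 1)) := by
      have := hfd ⟨N₁ ⊓ N₀, hn, ho, inf_le_right⟩
      exact rk_top _
    rw [h4] at h3
    exact h2.trans h3
  -- 2^n ≤ C' σ^(n+1), σ < 2
  have hσ0 : 0 < σ := by linarith
  have h5 : ∀ n : ℕ, (2 / σ) ^ n ≤ C' * σ := by
    intro n
    have := hgs n
    rw [div_pow, div_le_iff₀ (by positivity)]
    calc (2 : ℝ) ^ n ≤ C' * σ ^ (n + 1) := this
      _ = C' * σ * σ ^ n := by ring
  have h6 : 1 < 2 / σ := by rw [lt_div_iff₀ hσ0]; linarith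
  obtain ⟨n, hn⟩ := pow_unbounded_of_one_lt (C' * σ) h6
  linarith [h5 n]

end Pool.Agent.H11.PP
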