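import Pool.Agent.H11.PP.PDefs
import Pool.Agent.H11.PP.Final

/-!
# The main theorem in terms of the definitions of `PDefs`
-/

namespace Pool.Agent.H11.PP.ProP

open Module Pool.Agent.H31.GS

/-- closed subgroups of pro-`p` groups are pro-`p` -/
theorem isProP_closed {p : ℕ} [Fact p.Prime] {G : Type*} [Group G] [TopologicalSpace G]
    (hG : IsProP p G) (H : Subgroup G) (hH : IsClosed (H : Set G)) : IsProP p H := by
  have := hG.topGroup
  have := hG.compact
  have := hG.totDisc
  have hc : CompactSpace H := isCompact_iff_compactSpace.1 hH.isCompact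
  refine ⟨inferInstance, hc, inferInstance, fun M hM hMo => ?_⟩
  -- an open normal subgroup of `G` meeting `H` inside `M`
  obtain ⟨N, hNn, hNo, hNM⟩ : ∃ N : Subgroup G, N.Normal ∧ IsOpen (N : Set G) ∧
      N.subgroupOf H ≤ M := by
    obtain ⟨U, hU, hUM⟩ := isOpen_induced_iff.1 hMo
    have h1U : (1 : G) ∈ U := by
      have : (1 : H) ∈ Subtype.val ⁻¹' U := by rw [hUM]; exact M.one_mem
      exact this
    obtain ⟨N, hN⟩ := ProfiniteGrp.exist_openNormalSubgroup_sub_open_nhds_of_one hU h1U
    refine ⟨N.toSubgroup, N.isNormal', N.isOpen', fun h hh => ?_⟩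
    have h2 : h ∈ Subtype.val ⁻¹' U := hN hh
    rw [hUM] at h2
    exact h2
  obtain ⟨k, hk⟩ := hG.index N hNn hNo
  have h1 : M.index ∣ (N.subgroupOf H).index := Subgroup.index_dvd_of_le hNM
  have h2 : (N.subgroupOf H).index ∣ N.index := N.relIndex_dvd_index_of_normal H
  have h3 : M.index ∣ p ^ k := hk ▸ h1.trans h2
  exact ((Nat.dvd_prime_pow (Fact.out : p.Prime)).1 h3).imp fun _ h => h.2

lemma finrank_H1 (p : ℕ) [Fact p.Prime] (G : Type*) [Group G] [TopologicalSpace G] :
    dRank p G = finrank (ZMod p) (Z1 (triv p G)) := by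
  have : H1 p G = Z1 (triv p G) := by
    ext f
    rw [mem_Z1]
    simp only [Representation.trivial_apply]
    rfl
  rw [dRank, this]

lemma finrank_H2 (p : ℕ) [Fact p.Prime] (G : Type*) [Group G] [TopologicalSpace G] :
    rRank p G = finrank (ZMod p) (Pool.Agent.H31.GS.H2 (triv p G)) := by
  have h1 : Z2 p G = Pool.Agent.H31.GS.Z2 (triv p G) := by
    ext f
    rw [mem_Z2]
    simp only [Representation.trivial_apply]
    rfl
  have h2 : B2 p G = Pool.Agent.H31.GS.B2 (triv p G) := by
    ext f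
    rw [mem_B2]
    constructor
    · rintro ⟨a, ha, hf⟩
      refine ⟨a, ha, ?_⟩
      funext x
      rw [show x = (x.1, x.2) from rfl, d1_apply, Representation.trivial_apply, hf]
    · rintro ⟨a, ha, rfl⟩
      refine ⟨a, ha, fun g h => ?_⟩
      rw [d1_apply, Representation.trivial_apply]
  rw [rRank]
  unfold H2 Pool.Agent.H31.GS.H2
  rw [h1, h2]

theorem main' {p : ℕ} [Fact p.Prime] {G : Type*} [Group G] [TopologicalSpace G]
    (hG : IsProP p G) (hfg : TopFG G) (hd : 2 < dRank p G)
    (hr : 4 * rRank p G = dRank p G ^ 2) : HasFreeProP p G := by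
  have := hG.topGroup
  have := hG.compact
  have := hG.totDisc
  rw [finrank_H1] at hd hr
  rw [finrank_H2] at hr
  obtain ⟨H, x, y, hx, hy, hcl, hfree⟩ := main hG.index hfg hd hr
  exact ⟨H, ⟨x, hx⟩, ⟨y, hy⟩, hcl, isProP_closed hG H hcl, hfree.gen, hfree.univ⟩

end Pool.Agent.H11.PP.ProP
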