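import Pool.Agent.H11.PP.Fox

/-!
# Evaluation of the free group in a filtered algebra

Proofs (paper).
* `evA_JJ` : for every `w`, `lift α w ∈ D e` (subgroup), so `evA (of w - 1) ∈ J e`, hence
  `evA (augI) ⊆ J e` (`augI_le_span`) and `evA (JJ n) ⊆ J (e n)` by induction (`JJ_succ`,
  `JJ_zero`).
* `lin` : let `ζ ∈ D i`, `β = update α t (ζ * α t)`, for a word `w` put
  `q(w) = lift β w * (lift α w)⁻¹`.  The set of `w` with `q(w) ∈ D i` and
  `of (q w) - 1 - Ad (evA α (foxD t w)) (of ζ - 1) ∈ J (2 i)` is a subgroup containing the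
  generators: for generators `q(x_s) = ζ` or `1`.  Products: `q(u v) = q(u) * (u(α) q(v) u(α)⁻¹)`,
  `of (a b) - 1 ≡ (of a - 1) + (of b - 1)` mod `J (2 i)` for `a, b ∈ D i`, and
  `of (u(α) q(v) u(α)⁻¹) - 1 = Ad (of u(α)) (of q(v) - 1)`; `foxD_mul`, `Ad` is multiplicative.
  Inverses: `q(u⁻¹) = u(α)⁻¹ q(u)⁻¹ u(α)`, `of a⁻¹ - 1 ≡ -(of a - 1)` mod `J (2i)`, `foxD_inv`.
  (Or use `FreeGroup.induction_on`.)
* `Rep_foxD` : `foxL t` of `of w - 1 - PolyF d (P+1) ∈ JF (P+1)` (`foxL_JJ`, `foxL_one`,
  `foxL_XF`; split the words of length `n + 1` as `u ++ [s]`).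
* `Rep_of_LeadForm`, `exists_rep` : `JF n ≤ span (XF u, |u| = n) ⊔ JF (n+1)` by `gen_groupSys`
  (`FreeGroup.closure_range_of`); induction on `P`.
* `exists_lead` : take the greatest `j ≤ n` with `of w - 1 ∈ JF j` (`j ≥ 1`).
-/

namespace Pool.Agent.H11.PP

variable {p : ℕ} [Fact p.Prime]

/-- noncommutative polynomials in the `XF`, degrees `< P` -/
noncomputable def PolyF (d : List (Fin 2) → ZMod p) (P : ℕ) : AF p :=
  ∑ n ∈ Finset.range P, ∑ u : List.Vector (Fin 2) n, d u.toList • XF p u.toList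

/-- `d` represents `w` modulo degree `P` -/
def Rep (P : ℕ) (d : List (Fin 2) → ZMod p) (w : Fr) : Prop :=
  MonoidAlgebra.of (ZMod p) Fr w - 1 - PolyF d P ∈ JF p P

/-- `w - 1` has leading form `∑ lam v • X_v` of degree `j` (possibly `0`) -/
def LeadForm (j : ℕ) (lam : List (Fin 2) → ZMod p) (w : Fr) : Prop :=
  MonoidAlgebra.of (ZMod p) Fr w - 1 -
    ∑ v : List.Vector (Fin 2) j, lam v.toList • XF p v.toList ∈ JF p (j + 1)

lemma XF_mem (u : List (Fin 2)) : XF p u ∈ JF p u.length := (groupSys p Fr).ev_mem _ u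

lemma PolyF_succ (d : List (Fin 2) → ZMod p) (P : ℕ) :
    PolyF d (P + 1) = PolyF d P + ∑ u : List.Vector (Fin 2) P, d u.toList • XF p u.toList := by
  rw [PolyF, Finset.sum_range_succ, PolyF]

lemma homog_mem (d : List (Fin 2) → ZMod p) (n : ℕ) :
    (∑ u : List.Vector (Fin 2) n, d u.toList • XF p u.toList) ∈ JF p n := by
  refine Submodule.sum_mem _ fun u _ => Submodule.smul_mem _ _ ?_
  have := XF_mem (p := p) u.toList
  rwa [List.Vector.toList_length] at this

lemma JF_anti {a b : ℕ} (h : a ≤ b) : JF p b ≤ JF p a := (groupSys p Fr).J_anti h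

lemma PolyF_sub_mem (d : List (Fin 2) → ZMod p) {P P' : ℕ} (hP : P' ≤ P) :
    PolyF d P - PolyF d P' ∈ JF p P' := by
  induction P, hP using Nat.le_induction with
  | base => rw [sub_self]; exact zero_mem _
  | succ n hn ih =>
    rw [PolyF_succ, add_sub_right_comm]
    exact add_mem ih (JF_anti hn (homog_mem d n))

lemma Rep.mono {P P' : ℕ} {d : List (Fin 2) → ZMod p} {w : Fr} (h : Rep P d w) (hP : P' ≤ P) :
    Rep P' d w := by
  unfold Rep at *
  have h1 := PolyF_sub_mem (p := p) d hP
  have h2 := JF_anti hP h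
  have e : MonoidAlgebra.of (ZMod p) Fr w - 1 - PolyF d P' =
      (MonoidAlgebra.of (ZMod p) Fr w - 1 - PolyF d P) + (PolyF d P - PolyF d P') := by abel
  rw [e]
  exact add_mem h2 h1

/-- appending a letter -/
def snocE (n : ℕ) : List.Vector (Fin 2) n × Fin 2 ≃ List.Vector (Fin 2) (n + 1) where
  toFun q := ⟨q.1.toList ++ [q.2], by simp⟩
  invFun v := (⟨v.toList.dropLast, by simp⟩, v.toList.getLast (by
    intro h
    have := v.toList_length
    rw [h] at this
    simp at this))
  left_inv q := by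
    rcases q with ⟨⟨u, hu⟩, s⟩
    simp [List.Vector.toList]
  right_inv v := by
    rcases v with ⟨v, hv⟩
    apply Subtype.ext
    change v.dropLast ++ [v.getLast _] = v
    exact List.dropLast_append_getLast _

lemma foxL_homog (d : List (Fin 2) → ZMod p) (t : Fin 2) (n : ℕ) :
    ∑ u : List.Vector (Fin 2) (n + 1), foxL p t (d u.toList • XF p u.toList) =
      ∑ u : List.Vector (Fin 2) n, d (u.toList ++ [t]) • XF p u.toList := by
  rw [← (snocE n).sum_comp, Fintype.sum_prod_type]
  refine Finset.sum_congr rfl fun u _ => ?_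
  have e : ∀ s : Fin 2, (snocE n (u, s)).toList = u.toList ++ [s] := fun s => rfl
  simp only [e, map_smul, foxL_XF]
  rw [Finset.sum_eq_single t]
  · simp
  · intro s _ hs
    rw [if_neg hs, smul_zero]
  · intro h; exact absurd (Finset.mem_univ _) h

lemma Rep_foxD {P : ℕ} {d : List (Fin 2) → ZMod p} {w : Fr} (h : Rep (P + 1) d w) (t : Fin 2) :
    foxD p t w - ∑ n ∈ Finset.range P, ∑ u : List.Vector (Fin 2) n,
      d (u.toList ++ [t]) • XF p u.toList ∈ JF p P := by
  unfold Rep at h
  have h1 := foxL_JJ t P h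
  rw [map_sub, map_sub, foxL_of, foxL_one, sub_zero] at h1
  have h2 : foxL p t (PolyF d (P + 1)) = ∑ n ∈ Finset.range P, ∑ u : List.Vector (Fin 2) n,
      d (u.toList ++ [t]) • XF p u.toList := by
    rw [PolyF, Finset.sum_range_succ', map_add, map_sum]
    have h0 : foxL p t (∑ u : List.Vector (Fin 2) 0, d u.toList • XF p u.toList) = 0 := by
      rw [map_sum]
      refine Finset.sum_eq_zero fun u _ => ?_
      rw [map_smul, List.Vector.eq_nil u]
      change d [] • foxL p t (XF p []) = 0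
      rw [foxL_XF_nil, smul_zero]
    rw [h0, add_zero]
    refine Finset.sum_congr rfl fun n _ => ?_
    rw [map_sum]
    exact foxL_homog d t n
  rwa [h2] at h1

/-- the homogeneous part of degree `n` -/
lemma exists_homog {n : ℕ} {x : AF p} (hx : x ∈ JF p n) : ∃ c : List (Fin 2) → ZMod p,
    x - ∑ u : List.Vector (Fin 2) n, c u.toList • XF p u.toList ∈ JF p (n + 1) := by
  have hg : Subgroup.closure (Set.range (FreeGroup.of : Fin 2 → Fr)) = ⊤ :=
    FreeGroup.closure_range_of _
  have h1 := gen_groupSys (p := p) (FreeGroup.of : Fin 2 → Fr) hg n hx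
  obtain ⟨y, hy, z, hz, rfl⟩ := Submodule.mem_sup.1 h1
  have h2 : {b : AF p | ∃ w : List (Fin 2), w.length = n ∧
      b = (groupSys p Fr).ev FreeGroup.of w} =
      Set.range fun u : List.Vector (Fin 2) n => XF p u.toList := by
    ext b
    constructor
    · rintro ⟨w, hw, rfl⟩
      exact ⟨⟨w, hw⟩, rfl⟩
    · rintro ⟨u, rfl⟩
      exact ⟨u.toList, u.toList_length, rfl⟩
  rw [h2, Submodule.mem_span_range_iff_exists_fun] at hy
  obtain ⟨c, hc⟩ := hy
  refine ⟨fun w => if h : w.length = n then c ⟨w, h⟩ else 0, ?_⟩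
  have h3 : ∑ u : List.Vector (Fin 2) n,
      (fun w : List (Fin 2) => if h : w.length = n then c ⟨w, h⟩ else 0) u.toList •
        XF p u.toList = y := by
    rw [← hc]
    refine Finset.sum_congr rfl fun u _ => ?_
    have : (fun w : List (Fin 2) => if h : w.length = n then c ⟨w, h⟩ else 0) u.toList = c u := by
      dsimp only
      rw [dif_pos u.toList_length]
      congr 1
    rw [this]
  rw [h3, add_sub_cancel_left]
  exact hz

lemma homog_congr {n : ℕ} {c c' : List (Fin 2) → ZMod p}
    (h : ∀ v : List (Fin 2), v.length = n → c v = c' v) :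
    ∑ u : List.Vector (Fin 2) n, c u.toList • XF p u.toList =
      ∑ u : List.Vector (Fin 2) n, c' u.toList • XF p u.toList :=
  Finset.sum_congr rfl fun u _ => by rw [h _ u.toList_length]

lemma PolyF_congr {P : ℕ} {c c' : List (Fin 2) → ZMod p}
    (h : ∀ v : List (Fin 2), v.length < P → c v = c' v) : PolyF c P = PolyF c' P := by
  unfold PolyF
  refine Finset.sum_congr rfl fun n hn => homog_congr fun v hv => h v ?_
  rw [hv]; exact Finset.mem_range.1 hn

lemma exists_rep {j : ℕ} {lam : List (Fin 2) → ZMod p} {w : Fr} (h : LeadForm j lam w)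
    (P : ℕ) (hP : j < P) : ∃ d : List (Fin 2) → ZMod p, Rep P d w ∧
      (∀ u, u.length < j → d u = 0) ∧ ∀ u, u.length = j → d u = lam u := by
  induction P, (Nat.succ_le_of_lt hP) using Nat.le_induction with
  | base =>
    refine ⟨fun u => if u.length = j then lam u else 0, ?_, ?_, ?_⟩
    · unfold Rep
      have h0 : PolyF (fun u : List (Fin 2) => if u.length = j then lam u else 0) j.succ =
          ∑ v : List.Vector (Fin 2) j, lam v.toList • XF p v.toList := by
        rw [Nat.succ_eq_add_one, PolyF_succ]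
        have h1 : PolyF (fun u : List (Fin 2) => if u.length = j then lam u else 0) j = 0 := by
          unfold PolyF
          refine Finset.sum_eq_zero fun n hn => Finset.sum_eq_zero fun u _ => ?_
          have hn' := Finset.mem_range.1 hn
          dsimp only
          rw [if_neg (by rw [u.toList_length]; omega), zero_smul]
        rw [h1, zero_add]
        exact homog_congr fun v hv => if_pos hv
      rw [h0]
      exact h
    · intro u hu
      exact if_neg (by omega)
    · intro u hu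
      exact if_pos hu
  | succ P hP' ih =>
    obtain ⟨d, hd, hd1, hd2⟩ := ih (by omega)
    unfold Rep at hd
    obtain ⟨c, hc⟩ := exists_homog hd
    refine ⟨fun u => if u.length = P then c u else d u, ?_, ?_, ?_⟩
    · unfold Rep
      rw [PolyF_succ]
      have h1 : PolyF (fun u : List (Fin 2) => if u.length = P then c u else d u) P =
          PolyF d P := PolyF_congr fun v hv => if_neg (by omega)
      have h2 : ∑ u : List.Vector (Fin 2) P,
          (fun u : List (Fin 2) => if u.length = P then c u else d u) u.toList • XF p u.toList =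
          ∑ u : List.Vector (Fin 2) P, c u.toList • XF p u.toList :=
        homog_congr fun v hv => if_pos hv
      rw [h1, h2, ← sub_sub]
      exact hc
    · intro u hu
      rw [← hd1 u hu]
      exact if_neg (by omega)
    · intro u hu
      rw [← hd2 u hu]
      exact if_neg (by omega)

lemma exists_lead {n : ℕ} {w : Fr} (hw : MonoidAlgebra.of (ZMod p) Fr w - 1 ∉ JF p (n + 1)) :
    ∃ j, 1 ≤ j ∧ j ≤ n ∧ ∃ lam : List (Fin 2) → ZMod p, LeadForm j lam w ∧
      ∃ v : List (Fin 2), v.length = j ∧ lam v ≠ 0 := by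
  classical
  have hex : ∃ N, MonoidAlgebra.of (ZMod p) Fr w - 1 ∉ JF p N := ⟨n + 1, hw⟩
  obtain ⟨N, hN, hmin⟩ : ∃ N, MonoidAlgebra.of (ZMod p) Fr w - 1 ∉ JF p N ∧
      ∀ m < N, MonoidAlgebra.of (ZMod p) Fr w - 1 ∈ JF p m :=
    ⟨Nat.find hex, Nat.find_spec hex, fun m hm => by
      have := Nat.find_min hex hm
      push Not at this
      exact this⟩
  have h1 : MonoidAlgebra.of (ZMod p) Fr w - 1 ∈ JF p 1 := augI_le_JJ (of_sub_one_mem w)
  have hN2 : 2 ≤ N := by
    by_contra hlt
    exact hN (JF_anti (by omega : N ≤ 1) h1)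
  have hNn : N ≤ n + 1 := by
    by_contra hlt
    exact hw (hmin _ (by omega))
  obtain ⟨j, rfl⟩ : ∃ j, N = j + 1 := ⟨N - 1, by omega⟩
  obtain ⟨c, hc⟩ := exists_homog (hmin j (Nat.lt_succ_self j))
  refine ⟨j, by omega, by omega, c, hc, ?_⟩
  by_contra hcon
  push Not at hcon
  apply hN
  have h0 : ∑ u : List.Vector (Fin 2) j, c u.toList • XF p u.toList = 0 := by
    refine Finset.sum_eq_zero fun u _ => ?_
    rw [hcon _ u.toList_length, zero_smul]
  rw [h0, sub_zero] at hc
  exact hc

/-- the leading form only depends on the values on words of length `j` -/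
lemma LeadForm.congr {j : ℕ} {lam lam' : List (Fin 2) → ZMod p} {w : Fr}
    (h : LeadForm j lam w) (hl : ∀ v : List (Fin 2), v.length = j → lam v = lam' v) :
    LeadForm j lam' w := by
  unfold LeadForm at *
  rwa [← homog_congr hl]

namespace Sys

variable {B H : Type*} [Ring B] [Algebra (ZMod p) B] [Group H] (S : Sys p B H)

/-- evaluation at a pair of group elements -/
noncomputable def evA (α : Fin 2 → H) : AF p →ₐ[ZMod p] B :=
  MonoidAlgebra.lift (ZMod p) B Fr (S.of.comp (FreeGroup.lift α))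

lemma evA_of (α : Fin 2 → H) (w : Fr) :
    S.evA α (MonoidAlgebra.of (ZMod p) Fr w) = S.of (FreeGroup.lift α w) := by
  simp [evA]

lemma evA_XF (α : Fin 2 → H) (u : List (Fin 2)) :
    S.evA α (XF p u) = (u.map fun t => S.of (α t) - 1).prod := by
  induction u with
  | nil =>
    change S.evA α 1 = 1
    exact map_one _
  | cons i u ih =>
    have e : XF p (i :: u) = (MonoidAlgebra.of (ZMod p) Fr (FreeGroup.of i) - 1) * XF p u := by
      change (groupSys p Fr).ev FreeGroup.of (i :: u) = _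
      rw [Sys.ev_cons]
      rfl
    rw [e, map_mul, ih, map_sub, map_one, evA_of, FreeGroup.lift_apply_of]
    rfl

lemma evA_JJ {e : ℕ} {α : Fin 2 → H} (hα : ∀ t, α t ∈ S.D e) {n : ℕ} {a : AF p}
    (ha : a ∈ JF p n) : S.evA α a ∈ S.J (e * n) := by
  have h1 : ∀ w : Fr, FreeGroup.lift α w ∈ S.D e := by
    intro w
    have h2 : (FreeGroup.lift α).range ≤ S.D e := by
      apply FreeGroup.range_lift_le
      rintro _ ⟨t, rfl⟩
      exact hα t
    exact h2 ⟨w, rfl⟩
  have h2 : augI p Fr ≤ (S.J e).comap (S.evA α).toLinearMap := by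
    refine augI_le_span.trans (Submodule.span_le.2 ?_)
    rintro _ ⟨w, rfl⟩
    change S.evA α (MonoidAlgebra.of (ZMod p) Fr w - 1) ∈ S.J e
    rw [map_sub, map_one, evA_of]
    exact h1 w
  induction n generalizing a with
  | zero => rw [mul_zero]; exact S.mem_zero _
  | succ n ih =>
    have h3 : JF p (n + 1) ≤ (S.J (e * (n + 1))).comap (S.evA α).toLinearMap := by
      change JJ p Fr (n + 1) ≤ _
      rw [JJ_succ, Submodule.mul_le]
      intro x hx y hy
      change S.evA α (x * y) ∈ S.J (e * (n + 1))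
      rw [map_mul, mul_add, mul_one]
      exact S.J_mul _ _ _ _ (ih hx) (h2 hy)
    exact h3 ha

/-- linearisation of a word map -/
theorem lin {i : ℕ} (α : Fin 2 → H) (t : Fin 2) {ζ : H} (hζ : ζ ∈ S.D i) (w : Fr) :
    S.of (FreeGroup.lift (Function.update α t (ζ * α t)) w * (FreeGroup.lift α w)⁻¹) - 1
      - S.Ad (S.evA α (foxD p t w)) (S.of ζ - 1) ∈ S.J (2 * i) := by
  have hD : ∀ a : H, a ∈ S.D i ↔ S.of a - 1 ∈ S.J i := fun a => Iff.rfl
  have hprod : ∀ a b : H, a ∈ S.D i → b ∈ S.D i →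
      S.of (a * b) - 1 - ((S.of a - 1) + (S.of b - 1)) ∈ S.J (2 * i) := by
    intro a b ha hb
    have e : S.of (a * b) - 1 - ((S.of a - 1) + (S.of b - 1)) = (S.of a - 1) * (S.of b - 1) := by
      rw [map_mul]; noncomm_ring
    rw [e, two_mul]
    exact S.J_mul _ _ _ _ ha hb
  have hAdz : ∀ x y : B, y ∈ S.J (2 * i) → S.Ad x y ∈ S.J (2 * i) := by
    intro x y hy
    have := S.Ad_mem 0 (2 * i) x y (S.mem_zero x) hy
    rwa [zero_add] at this
  have hconj : ∀ a b : H, S.of (a * b * a⁻¹) - 1 = S.Ad (S.of a) (S.of b - 1) := by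
    intro a b
    rw [S.Ad_of, map_mul, map_mul, mul_sub, sub_mul, mul_one, ← map_mul S.of a a⁻¹,
      mul_inv_cancel, map_one]
  -- the property
  set β := Function.update α t (ζ * α t) with hβ
  set Q : Fr → Prop := fun w => FreeGroup.lift β w * (FreeGroup.lift α w)⁻¹ ∈ S.D i ∧
    S.of (FreeGroup.lift β w * (FreeGroup.lift α w)⁻¹) - 1
      - S.Ad (S.evA α (foxD p t w)) (S.of ζ - 1) ∈ S.J (2 * i) with hQ
  have hQof : ∀ s : Fin 2, Q (FreeGroup.of s) := by
    intro s
    rw [hQ]
    simp only [FreeGroup.lift_apply_of, foxD_of]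
    by_cases hs : s = t
    · subst hs
      rw [hβ, Function.update_self, mul_inv_cancel_right, if_pos rfl, map_one, map_one,
        Module.End.one_apply, sub_self]
      exact ⟨hζ, zero_mem _⟩
    · rw [hβ, Function.update_of_ne hs, mul_inv_cancel, if_neg hs, map_zero, map_zero, map_one,
        LinearMap.zero_apply, sub_self, sub_self]
      exact ⟨one_mem _, zero_mem _⟩
  have hQinv : ∀ u : Fr, Q u → Q u⁻¹ := by
    rintro u ⟨h1, h2⟩
    set a := FreeGroup.lift α u with ha
    set q := FreeGroup.lift β u * a⁻¹ with hq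
    have e1 : FreeGroup.lift β u⁻¹ * (FreeGroup.lift α u⁻¹)⁻¹ = a⁻¹ * q⁻¹ * a⁻¹⁻¹ := by
      rw [map_inv, map_inv, ← ha, hq]
      group
    have h3 : q⁻¹ ∈ S.D i := inv_mem h1
    refine ⟨?_, ?_⟩
    · rw [e1]
      exact (S.D_normal i).conj_mem _ h3 _
    · have e3 : S.Ad (S.evA α (foxD p t u⁻¹)) (S.of ζ - 1) =
          - S.Ad (S.of a⁻¹) (S.Ad (S.evA α (foxD p t u)) (S.of ζ - 1)) := by
        rw [foxD_inv, map_neg, map_neg, map_mul, map_mul, LinearMap.neg_apply,
          Module.End.mul_apply, evA_of, map_inv (FreeGroup.lift α)]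
      rw [e1, hconj, e3, sub_neg_eq_add, ← map_add]
      apply hAdz
      have h4 := hprod q q⁻¹ h1 h3
      rw [mul_inv_cancel, map_one, sub_self, zero_sub] at h4
      have e2 : S.of q⁻¹ - 1 + S.Ad (S.evA α (foxD p t u)) (S.of ζ - 1) =
          - (-(S.of q - 1 + (S.of q⁻¹ - 1))) -
            (S.of q - 1 - S.Ad (S.evA α (foxD p t u)) (S.of ζ - 1)) := by abel
      rw [e2]
      exact sub_mem (neg_mem h4) h2
  have hQmul : ∀ u v : Fr, Q u → Q v → Q (u * v) := by
    rintro u v ⟨h1, h2⟩ ⟨h3, h4⟩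
    set a := FreeGroup.lift α u with ha
    set q := FreeGroup.lift β u * a⁻¹ with hq
    set q' := FreeGroup.lift β v * (FreeGroup.lift α v)⁻¹ with hq'
    have e1 : FreeGroup.lift β (u * v) * (FreeGroup.lift α (u * v))⁻¹ =
        q * (a * q' * a⁻¹) := by
      rw [map_mul, map_mul, ← ha, hq, hq']
      group
    have h5 : a * q' * a⁻¹ ∈ S.D i := (S.D_normal i).conj_mem _ h3 _
    refine ⟨?_, ?_⟩
    · rw [e1]
      exact mul_mem h1 h5
    · have e3 : S.Ad (S.evA α (foxD p t (u * v))) (S.of ζ - 1) =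
          S.Ad (S.evA α (foxD p t u)) (S.of ζ - 1) +
            S.Ad (S.of a) (S.Ad (S.evA α (foxD p t v)) (S.of ζ - 1)) := by
        rw [foxD_mul, map_add, map_add, map_mul, map_mul, LinearMap.add_apply,
          Module.End.mul_apply, evA_of]
      rw [e1, e3]
      have h6 := hprod q (a * q' * a⁻¹) h1 h5
      rw [hconj] at h6
      have h7 := hAdz (S.of a) _ h4
      rw [map_sub] at h7
      have e2 : S.of (q * (a * q' * a⁻¹)) - 1 -
          (S.Ad (S.evA α (foxD p t u)) (S.of ζ - 1) +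
            S.Ad (S.of a) (S.Ad (S.evA α (foxD p t v)) (S.of ζ - 1))) =
          (S.of (q * (a * q' * a⁻¹)) - 1 - (S.of q - 1 + S.Ad (S.of a) (S.of q' - 1))) +
          (S.of q - 1 - S.Ad (S.evA α (foxD p t u)) (S.of ζ - 1)) +
          (S.Ad (S.of a) (S.of q' - 1) -
            S.Ad (S.of a) (S.Ad (S.evA α (foxD p t v)) (S.of ζ - 1))) := by abel
      rw [e2]
      exact add_mem (add_mem h6 h2) h7
  have hQone : Q 1 := by
    rw [hQ]
    simp only [map_one, foxD_one, map_zero, inv_one, mul_one, sub_self, LinearMap.zero_apply]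
    exact ⟨one_mem _, zero_mem _⟩
  have hall : Q w := by
    induction w using FreeGroup.induction_on with
    | C1 => exact hQone
    | of s => exact hQof s
    | inv_of s h => exact hQinv _ h
    | mul u v hu hv => exact hQmul u v hu hv
  exact hall.2

end Sys

end Pool.Agent.H11.PP
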