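import Pool.Agent.H11.PP.LiePoly
import Pool.Agent.H11.PP.Bd

/-!
# Exceptional words

Proof (paper).
* `exc_card` : Suppose there are `q + 1` exceptional words of length `k`,
  `ℓ_0, …, ℓ_q` in `SL`-increasing order (`SL_trichotomy_of_length`).  For each `i` choose
  `P_i ∈ LL k` (`exists_P`) and `ε_i` with `sk ε_i - P_i ∈ J (k+1)` (`LL_le_sk`).  As
  `finrank (XX/V) ≤ q`, the classes of the `ε_i` in `XX/V` are linearly dependent:
  `∑ a_i ε_i ∈ V`, not all `a_i = 0`.  Let `i₀` be the smallest index with `a_{i₀} ≠ 0`, scale to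
  `a_{i₀} = 1`.  Then `sk (∑ a_i ε_i) ≡ P_{i₀} + ∑_{i > i₀} a_i P_i ≡ ev ℓ_{i₀}` modulo
  `Up ℓ_{i₀} ⊔ J (k+1)` (`P_i ∈ ev ℓ_i + Up ℓ_i ⊆ Up ℓ_{i₀}` for `i > i₀`).  So `ℓ_{i₀}` is a
  leading word of an element of `V`: contradiction.
-/

namespace Pool.Agent.H11.PP.Sys

variable {p : ℕ} [Fact p.Prime] {B H : Type*} [Ring B] [Algebra (ZMod p) B] [Group H]
variable (S : Sys p B H) {D : ℕ} (g : Fin D → H)

/-- every Lyndon word of length `k` is a leading word -/
lemma exists_lead {k : ℕ} (hk : 1 ≤ k) {l : List (Fin D)} (hl : Lyn l) (hlen : l.length = k) :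
    ∃ ε : List.Vector (Fin D) k → ZMod p, S.Lead g l ε := by
  obtain ⟨P, hP, hPu⟩ := S.exists_P g hl
  rw [hlen] at hP
  obtain ⟨y, hy, z, hz, hyz⟩ := Submodule.mem_sup.1 (S.LL_le_sk g hk hP)
  obtain ⟨ε, rfl⟩ := LinearMap.mem_range.1 hy
  refine ⟨ε, ?_⟩
  unfold Lead
  have h1 : S.sk g k ε - S.ev g l = (P - S.ev g l) - z := by
    rw [← hyz]; abel
  rw [h1]
  exact sub_mem (Submodule.mem_sup_left hPu) (Submodule.mem_sup_right hz)

theorem exc_card {k : ℕ} (hk : 1 ≤ k) (V : Submodule (ZMod p) (List.Vector (Fin D) k → ZMod p))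
    (q : ℕ) (hV : Module.finrank (ZMod p) ((List.Vector (Fin D) k → ZMod p) ⧸ V) ≤ q) :
    Bd {l : List (Fin D) | Lyn l ∧ l.length = k ∧ ¬ ∃ ε ∈ V, S.Lead g l ε} q := by
  classical
  set E : Set (List (Fin D)) := {l : List (Fin D) | Lyn l ∧ l.length = k ∧
    ¬ ∃ ε ∈ V, S.Lead g l ε} with hE
  have hfin : E.Finite := (List.finite_length_eq (Fin D) k).subset fun l hl => hl.2.1
  refine ⟨hfin, ?_⟩
  by_contra hcon
  rw [not_le, Nat.cast_lt] at hcon
  haveI : Fintype E := hfin.fintype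
  have hcard : Fintype.card E = E.ncard := by
    rw [Set.ncard_eq_toFinset_card', Set.toFinset_card]
  choose ε hε using fun l : E => S.exists_lead g hk l.2.1 l.2.2.1
  have hdep : ¬ LinearIndependent (ZMod p) (fun l : E => V.mkQ (ε l)) := by
    intro hli
    have h1 := hli.fintype_card_le_finrank
    rw [hcard] at h1
    omega
  rw [Fintype.not_linearIndependent_iff] at hdep
  obtain ⟨a, ha, i, hi⟩ := hdep
  -- the smallest index
  let r : E → E → Prop := fun u v => SL u.1 v.1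
  haveI : IsTrans E r := ⟨fun _ _ _ h1 h2 => SL.trans h1 h2⟩
  haveI : Std.Irrefl r := ⟨fun u h => SL_irrefl u.1 h⟩
  have hwf : WellFounded r := Finite.wellFounded_of_trans_of_irrefl r
  obtain ⟨m, hm, hmin⟩ := hwf.has_min {i : E | a i ≠ 0} ⟨i, hi⟩
  refine m.2.2.2 ⟨(a m)⁻¹ • ∑ j, a j • ε j, ?_, ?_⟩
  · refine V.smul_mem _ ?_
    rw [← Submodule.Quotient.mk_eq_zero, ← Submodule.mkQ_apply, map_sum]
    simpa using ha
  · have hlen : ∀ j : E, j.1.length = k := fun j => j.2.2.1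
    unfold Lead
    have hmm : (a m)⁻¹ * a m = 1 := inv_mul_cancel₀ hm
    have h1 : S.sk g k ((a m)⁻¹ • ∑ j, a j • ε j) - S.ev g m.1 =
        (S.sk g k (ε m) - S.ev g m.1) +
          ∑ j ∈ Finset.univ.erase m, ((a m)⁻¹ * a j) • S.sk g k (ε j) := by
      rw [map_smul, map_sum, Finset.smul_sum,
        ← Finset.add_sum_erase _ _ (Finset.mem_univ m)]
      have h2 : (a m)⁻¹ • S.sk g k (a m • ε m) = S.sk g k (ε m) := by
        rw [map_smul, smul_smul, hmm, one_smul]
      rw [h2, add_sub_right_comm]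
      congr 1
      exact Finset.sum_congr rfl fun j _ => by rw [map_smul, smul_smul]
    rw [h1]
    refine add_mem (hε m) (Submodule.sum_mem _ fun j hj => ?_)
    by_cases haj : a j = 0
    · rw [haj, mul_zero, zero_smul]
      exact zero_mem _
    · refine Submodule.smul_mem _ _ ?_
      have hne : j ≠ m := (Finset.mem_erase.1 hj).1
      have hSL : SL m.1 j.1 := by
        rcases SL_trichotomy_of_length ((hlen m).trans (hlen j).symm) with h | h | h
        · exact absurd (Subtype.ext h.symm) hne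
        · exact h
        · exact absurd h (hmin j haj)
      have hl : j.1.length = m.1.length := (hlen j).trans (hlen m).symm
      have h3 : S.sk g k (ε j) = (S.sk g k (ε j) - S.ev g j.1) + S.ev g j.1 := by abel
      rw [h3]
      refine add_mem ?_ (Submodule.mem_sup_left (S.ev_mem_Up g hSL hl))
      exact sup_le_sup_right (S.Up_le_Up g hSL hl) _ (hε j)

end Pool.Agent.H11.PP.Sys
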