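import Pool.Agent.H11.PP.GroupSysB

/-!
# Fox calculus on the free group of rank two

`Fr` is the free group on two letters, `AF p = 𝔽_p[Fr]`, `JF n` the augmentation filtration,
`XF u = ∏ (x_{u_i} - 1)`.  `foxD t : Fr → AF p` is the Fox derivative
(`D (u v) = D u + u D v`, `D x_s = δ_{st}`), `foxL t` its linear extension.

Proofs (paper).
* `foxPerm t w` is the affine permutation `v ↦ w v + D w`; `foxPerm_apply` : induction on `w`
  (`FreeGroup.induction_on` or: both sides are ... the set of `w` for which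
  `foxPerm t w v = of w * v + foxPerm t w 0` for all `v` is a subgroup containing the generators).
* `foxL_mul` : bilinear, reduce to group elements (`MonoidAlgebra.induction_on`),
  `foxL (of u * of v) = foxD (u v) = foxD u + of u * foxD v`, `aug (of v) = 1`.
* `foxL_JJ` : `J (q+1) = J q * augI` (`JJ_succ`); for `a ∈ J q`, `b ∈ augI`,
  `foxL (a b) = aug b • foxL a + a foxL b = a foxL b ∈ J q`.  (`J 0 = ⊤` : trivial for `q = 0`.)
* `foxL_XF` : `XF (u ++ [s]) = XF u * (x_s - 1)`; `foxL (x_s - 1) = δ`, `aug (x_s - 1) = 0`.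
-/

namespace Pool.Agent.H11.PP

/-- the free group of rank two -/
abbrev Fr := FreeGroup (Fin 2)

/-- its group algebra -/
abbrev AF (p : ℕ) [Fact p.Prime] := MonoidAlgebra (ZMod p) Fr

variable {p : ℕ} [Fact p.Prime]

/-- products of the `x_s - 1` -/
noncomputable def XF (p : ℕ) [Fact p.Prime] (u : List (Fin 2)) : AF p :=
  (groupSys p Fr).ev FreeGroup.of u

/-- the augmentation filtration of the free group algebra -/
noncomputable abbrev JF (p : ℕ) [Fact p.Prime] (n : ℕ) : Submodule (ZMod p) (AF p) := JJ p Fr n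

/-- the affine permutation attached to a group element -/
noncomputable def foxPerm (p : ℕ) [Fact p.Prime] (t : Fin 2) : Fr →* Equiv.Perm (AF p) :=
  FreeGroup.lift fun s =>
    { toFun := fun v => MonoidAlgebra.of (ZMod p) Fr (FreeGroup.of s) * v +
        (if s = t then 1 else 0)
      invFun := fun v => MonoidAlgebra.of (ZMod p) Fr (FreeGroup.of s)⁻¹ *
        (v - (if s = t then 1 else 0))
      left_inv := fun v => by
        dsimp only
        rw [add_sub_cancel_right, ← mul_assoc, ← map_mul, inv_mul_cancel, map_one, one_mul]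
      right_inv := fun v => by
        dsimp only
        rw [← mul_assoc, ← map_mul, mul_inv_cancel, map_one, one_mul, sub_add_cancel] }

/-- Fox derivative -/
noncomputable def foxD (p : ℕ) [Fact p.Prime] (t : Fin 2) (w : Fr) : AF p := foxPerm p t w 0

lemma foxPerm_apply (t : Fin 2) (w : Fr) (v : AF p) :
    foxPerm p t w v = MonoidAlgebra.of (ZMod p) Fr w * v + foxD p t w := by
  suffices H : ∀ v : AF p, foxPerm p t w v = MonoidAlgebra.of (ZMod p) Fr w * v + foxD p t w from
    H v
  clear v
  have hinv : ∀ u : Fr,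
      (∀ v : AF p, foxPerm p t u v = MonoidAlgebra.of (ZMod p) Fr u * v + foxD p t u) →
      (∀ v : AF p, foxPerm p t u⁻¹ v = MonoidAlgebra.of (ZMod p) Fr u⁻¹ * v + foxD p t u⁻¹) := by
    intro u hu
    have key : ∀ v : AF p, foxPerm p t u⁻¹ v =
        MonoidAlgebra.of (ZMod p) Fr u⁻¹ * (v - foxD p t u) := by
      intro v
      have h1 : foxPerm p t u (MonoidAlgebra.of (ZMod p) Fr u⁻¹ * (v - foxD p t u)) = v := by
        rw [hu, ← mul_assoc, ← map_mul, mul_inv_cancel, map_one, one_mul, sub_add_cancel]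
      rw [map_inv, Equiv.Perm.inv_eq_iff_eq, h1]
    intro v
    have h0 : foxD p t u⁻¹ = MonoidAlgebra.of (ZMod p) Fr u⁻¹ * (0 - foxD p t u) := key 0
    rw [key v, h0, ← mul_add]
    congr 1
    abel
  induction w using FreeGroup.induction_on with
  | C1 =>
    intro v
    simp only [foxD, map_one, Equiv.Perm.one_apply, one_mul, add_zero]
  | of s =>
    intro v
    simp [foxD, foxPerm]
  | inv_of s h => exact hinv _ h
  | mul u w hu hw =>
    intro v
    have h1 : ∀ x : AF p, foxPerm p t (u * w) x = foxPerm p t u (foxPerm p t w x) := by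
      intro x
      rw [map_mul, Equiv.Perm.mul_apply]
    have h0 : foxD p t (u * w) = foxPerm p t u (foxPerm p t w 0) := h1 0
    rw [h0, h1, hu, hu, hw, hw, mul_zero, zero_add, map_mul, mul_add, mul_assoc, add_assoc]

lemma foxD_one (t : Fin 2) : foxD p t 1 = 0 := by
  simp [foxD]

lemma foxD_of (t s : Fin 2) : foxD p t (FreeGroup.of s) = if s = t then 1 else 0 := by
  simp [foxD, foxPerm]

lemma foxD_mul (t : Fin 2) (u v : Fr) :
    foxD p t (u * v) = foxD p t u + MonoidAlgebra.of (ZMod p) Fr u * foxD p t v := by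
  have h0 : foxD p t (u * v) = foxPerm p t u (foxPerm p t v 0) := by
    show foxPerm p t (u * v) 0 = _
    rw [map_mul, Equiv.Perm.mul_apply]
  rw [h0, foxPerm_apply, add_comm]
  rfl

lemma foxD_inv (t : Fin 2) (u : Fr) :
    foxD p t u⁻¹ = - (MonoidAlgebra.of (ZMod p) Fr u⁻¹ * foxD p t u) := by
  have h := foxD_mul (p := p) t u⁻¹ u
  rw [inv_mul_cancel, foxD_one] at h
  exact eq_neg_of_add_eq_zero_left h.symm

/-- linear extension of the Fox derivative -/
noncomputable def foxL (p : ℕ) [Fact p.Prime] (t : Fin 2) : AF p →ₗ[ZMod p] AF p :=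
  (Finsupp.linearCombination (ZMod p) (foxD p t)).comp
    (MonoidAlgebra.coeffLinearEquiv (ZMod p)).toLinearMap

lemma foxL_of (t : Fin 2) (w : Fr) :
    foxL p t (MonoidAlgebra.of (ZMod p) Fr w) = foxD p t w := by
  simp [foxL]

lemma foxL_mul (t : Fin 2) (a b : AF p) :
    foxL p t (a * b) = aug p Fr b • foxL p t a + a * foxL p t b := by
  induction a using MonoidAlgebra.induction_on with
  | of u =>
    induction b using MonoidAlgebra.induction_on with
    | of v =>
      rw [← map_mul, foxL_of, foxL_of, foxL_of, aug_of, one_smul, foxD_mul]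
    | add x y hx hy =>
      rw [mul_add, map_add, hx, hy, map_add, map_add, add_smul, mul_add]
      abel
    | smul r x hx =>
      rw [mul_smul_comm, map_smul, hx, map_smul, map_smul, smul_add, smul_smul, smul_eq_mul,
        mul_smul_comm]
  | add x y hx hy =>
    rw [add_mul, map_add, hx, hy, map_add, smul_add, add_mul]
    abel
  | smul r x hx =>
    rw [smul_mul_assoc, map_smul, hx, map_smul, smul_add, smul_comm, smul_mul_assoc]

lemma foxL_JJ (t : Fin 2) (q : ℕ) {a : AF p} (ha : a ∈ JF p (q + 1)) :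
    foxL p t a ∈ JF p q := by
  have key : JJ p Fr (q + 1) ≤ (JJ p Fr q).comap (foxL p t) := by
    rw [JJ_succ, Submodule.mul_le]
    intro x hx y hy
    rw [Submodule.mem_comap, foxL_mul, mem_augI.1 hy, zero_smul, zero_add]
    have := JJ_mul_le q 0 (Submodule.mul_mem_mul hx
      (by rw [JJ_zero]; trivial : foxL p t y ∈ JJ p Fr 0))
    rwa [add_zero] at this
  exact key ha

lemma foxL_one (t : Fin 2) : foxL p t 1 = 0 := by
  rw [← map_one (MonoidAlgebra.of (ZMod p) Fr), foxL_of, foxD_one]

lemma foxL_XF (t s : Fin 2) (u : List (Fin 2)) :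
    foxL p t (XF p (u ++ [s])) = if s = t then XF p u else 0 := by
  have h1 : XF p (u ++ [s]) = XF p u * (MonoidAlgebra.of (ZMod p) Fr (FreeGroup.of s) - 1) := by
    unfold XF
    rw [Sys.ev_append, Sys.ev_cons, Sys.ev_nil, mul_one]
    rfl
  rw [h1, foxL_mul, map_sub, aug_of, map_one, sub_self, zero_smul, zero_add, map_sub, foxL_one,
    foxL_of, foxD_of, sub_zero, mul_ite, mul_one, mul_zero]

lemma foxL_XF_nil (t : Fin 2) : foxL p t (XF p []) = 0 := by
  unfold XF
  rw [Sys.ev_nil, foxL_one]

end Pool.Agent.H11.PP
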