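import Pool.Agent.H11.PP.Brackets

/-!
# The group algebra as a filtered algebra
-/

namespace Pool.Agent.H11.PP

open MonoidAlgebra

variable (p : ℕ) [Fact p.Prime] (H : Type*) [Group H]

/-- augmentation -/
noncomputable def aug : MonoidAlgebra (ZMod p) H →ₐ[ZMod p] ZMod p :=
  MonoidAlgebra.lift (ZMod p) (ZMod p) H (1 : H →* ZMod p)

/-- the augmentation ideal as a subspace -/
noncomputable def augI : Submodule (ZMod p) (MonoidAlgebra (ZMod p) H) :=
  LinearMap.ker (aug p H).toLinearMap

/-- powers of the augmentation ideal (the `0`-th one is everything) -/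
noncomputable def JJ (n : ℕ) : Submodule (ZMod p) (MonoidAlgebra (ZMod p) H) :=
  ⊤ * augI p H ^ n

variable {p H}

lemma aug_of (h : H) : aug p H (MonoidAlgebra.of (ZMod p) H h) = 1 := by
  simp [aug]

lemma mem_augI {x : MonoidAlgebra (ZMod p) H} : x ∈ augI p H ↔ aug p H x = 0 := by
  simp [augI]

lemma augI_mul_left {x y : MonoidAlgebra (ZMod p) H} (hy : y ∈ augI p H) :
    x * y ∈ augI p H := by
  rw [mem_augI] at *; rw [map_mul, hy, mul_zero]

lemma augI_mul_right {x y : MonoidAlgebra (ZMod p) H} (hx : x ∈ augI p H) :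
    x * y ∈ augI p H := by
  rw [mem_augI] at *; rw [map_mul, hx, zero_mul]

lemma augI_pow_top (n : ℕ) : augI p H ^ n * ⊤ ≤ ⊤ * augI p H ^ n := by
  induction n with
  | zero => simp
  | succ n ih =>
    have h1 : augI p H * (⊤ : Submodule (ZMod p) (MonoidAlgebra (ZMod p) H)) ≤
        ⊤ * augI p H := by
      rw [Submodule.mul_le]
      intro x hx y _
      have : x * y = 1 * (x * y) := (one_mul _).symm
      rw [this]
      exact Submodule.mul_mem_mul trivial (augI_mul_right hx)
    calc augI p H ^ (n + 1) * ⊤ = augI p H ^ n * (augI p H * ⊤) := by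
          rw [pow_succ, mul_assoc]
      _ ≤ augI p H ^ n * (⊤ * augI p H) := mul_le_mul' le_rfl h1
      _ = (augI p H ^ n * ⊤) * augI p H := by rw [mul_assoc]
      _ ≤ (⊤ * augI p H ^ n) * augI p H := mul_le_mul' ih le_rfl
      _ = ⊤ * augI p H ^ (n + 1) := by rw [pow_succ, mul_assoc]

lemma top_mul_top_le : (⊤ : Submodule (ZMod p) (MonoidAlgebra (ZMod p) H)) * ⊤ = ⊤ := by
  refine le_antisymm le_top ?_
  intro x _
  have : x = 1 * x := (one_mul _).symm
  rw [this]
  exact Submodule.mul_mem_mul trivial trivial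

lemma JJ_mul_le (a b : ℕ) : JJ p H a * JJ p H b ≤ JJ p H (a + b) := by
  unfold JJ
  calc (⊤ * augI p H ^ a) * (⊤ * augI p H ^ b) = ⊤ * (augI p H ^ a * ⊤) * augI p H ^ b := by
        simp only [mul_assoc]
    _ ≤ ⊤ * (⊤ * augI p H ^ a) * augI p H ^ b :=
        mul_le_mul' (mul_le_mul' le_rfl (augI_pow_top a)) le_rfl
    _ = ⊤ * augI p H ^ (a + b) := by
        rw [← mul_assoc, top_mul_top_le, pow_add, mul_assoc]

lemma JJ_zero : JJ p H 0 = ⊤ := by simp [JJ]

lemma augI_le_JJ : augI p H ≤ JJ p H 1 := by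
  intro x hx
  have : x = 1 * x := (one_mul _).symm
  rw [this, JJ, pow_one]
  exact Submodule.mul_mem_mul trivial hx

lemma JJ_one : JJ p H 1 = augI p H := by
  refine le_antisymm ?_ augI_le_JJ
  rw [JJ, pow_one, Submodule.mul_le]
  intro x _ y hy
  exact augI_mul_left hy

lemma JJ_succ (n : ℕ) : JJ p H (n + 1) = JJ p H n * augI p H := by
  rw [JJ, JJ, pow_succ, mul_assoc]

lemma JJ_succ_le (n : ℕ) : JJ p H (n + 1) ≤ JJ p H n := by
  have h1 : JJ p H 1 * JJ p H n ≤ JJ p H n := by
    calc JJ p H 1 * JJ p H n ≤ ⊤ * JJ p H n := mul_le_mul' le_top le_rfl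
      _ = JJ p H n := by unfold JJ; rw [← mul_assoc, top_mul_top_le]
  refine le_trans ?_ h1
  rw [JJ, JJ_one, JJ, add_comm, pow_add, pow_one, ← mul_assoc]
  -- ⊤ * I * I^n ≤ I * (⊤ * I^n)
  rw [← mul_assoc (augI p H) ⊤ (augI p H ^ n)]
  refine mul_le_mul' ?_ le_rfl
  rw [Submodule.mul_le]
  intro x _ y hy
  have : x * y = (x * y) * 1 := (mul_one _).symm
  rw [this]
  exact Submodule.mul_mem_mul (augI_mul_left hy) trivial

lemma of_sub_one_mem (h : H) : MonoidAlgebra.of (ZMod p) H h - 1 ∈ augI p H := by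
  rw [mem_augI, map_sub, aug_of, map_one, sub_self]

/-- The augmentation ideal is spanned by the `h - 1`. -/
lemma augI_le_span : augI p H ≤
    Submodule.span (ZMod p) (Set.range fun h : H => MonoidAlgebra.of (ZMod p) H h - 1) := by
  have key : ∀ x : MonoidAlgebra (ZMod p) H, x - algebraMap (ZMod p) _ (aug p H x) ∈
      Submodule.span (ZMod p) (Set.range fun h : H => MonoidAlgebra.of (ZMod p) H h - 1) := by
    intro x
    induction x using MonoidAlgebra.induction_on with
    | of h =>
      rw [aug_of, map_one]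
      exact Submodule.subset_span ⟨h, rfl⟩
    | add x y hx hy =>
      have : x + y - algebraMap (ZMod p) _ (aug p H (x + y)) =
          (x - algebraMap (ZMod p) _ (aug p H x)) + (y - algebraMap (ZMod p) _ (aug p H y)) := by
        rw [map_add, map_add]; abel
      rw [this]; exact add_mem hx hy
    | smul r x hx =>
      have : r • x - algebraMap (ZMod p) _ (aug p H (r • x)) =
          r • (x - algebraMap (ZMod p) _ (aug p H x)) := by
        rw [map_smul, smul_sub, smul_eq_mul, map_mul, ← Algebra.smul_def]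
      rw [this]; exact Submodule.smul_mem _ _ hx
  intro x hx
  have := key x
  rwa [mem_augI.1 hx, map_zero, sub_zero] at this

/-- conjugation as a linear map -/
noncomputable def conjL : H →* Module.End (ZMod p) (MonoidAlgebra (ZMod p) H) where
  toFun h := (LinearMap.mulRight (ZMod p) (MonoidAlgebra.of (ZMod p) H h⁻¹)).comp
    (LinearMap.mulLeft (ZMod p) (MonoidAlgebra.of (ZMod p) H h))
  map_one' := by
    refine LinearMap.ext fun v => ?_
    simp only [LinearMap.comp_apply, LinearMap.mulRight_apply, LinearMap.mulLeft_apply,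
      inv_one, map_one, one_mul, mul_one, Module.End.one_apply]
  map_mul' a b := by
    refine LinearMap.ext fun v => ?_
    simp only [LinearMap.comp_apply, LinearMap.mulRight_apply, LinearMap.mulLeft_apply,
      Module.End.mul_apply, mul_inv_rev, map_mul, mul_assoc]

/-- the adjoint action -/
noncomputable def AdA : MonoidAlgebra (ZMod p) H →ₐ[ZMod p]
    Module.End (ZMod p) (MonoidAlgebra (ZMod p) H) :=
  MonoidAlgebra.lift (ZMod p) _ H conjL

lemma AdA_of (h : H) (v : MonoidAlgebra (ZMod p) H) :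
    AdA (MonoidAlgebra.of (ZMod p) H h) v =
      MonoidAlgebra.of (ZMod p) H h * v * MonoidAlgebra.of (ZMod p) H h⁻¹ := by
  rw [AdA, MonoidAlgebra.lift_of]
  rfl

lemma AdA_aug {x y : MonoidAlgebra (ZMod p) H} {b : ℕ} (hx : x ∈ augI p H)
    (hy : y ∈ JJ p H b) : AdA x y ∈ JJ p H (b + 1) := by
  obtain ⟨f, hf⟩ : ∃ f : MonoidAlgebra (ZMod p) H →ₗ[ZMod p] MonoidAlgebra (ZMod p) H,
      ∀ x, f x = AdA x y := ⟨(LinearMap.applyₗ y).comp (AdA (p := p) (H := H)).toLinearMap,
        fun _ => rfl⟩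
  have key : augI p H ≤ (JJ p H (b + 1)).comap f := by
    refine augI_le_span.trans (Submodule.span_le.2 ?_)
    rintro _ ⟨h, rfl⟩
    rw [SetLike.mem_coe, Submodule.mem_comap, hf]
    have e1 : AdA (MonoidAlgebra.of (ZMod p) H h - 1) y =
        ((MonoidAlgebra.of (ZMod p) H h - 1) * y - y * (MonoidAlgebra.of (ZMod p) H h - 1)) *
          MonoidAlgebra.of (ZMod p) H h⁻¹ := by
      have h0 : MonoidAlgebra.of (ZMod p) H h * MonoidAlgebra.of (ZMod p) H h⁻¹ = 1 := by
        rw [← map_mul, mul_inv_cancel, map_one]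
      rw [map_sub, LinearMap.sub_apply, AdA_of, map_one, Module.End.one_apply]
      generalize MonoidAlgebra.of (ZMod p) H h = a at *
      generalize MonoidAlgebra.of (ZMod p) H h⁻¹ = a' at *
      have : ((a - 1) * y - y * (a - 1)) * a' = a * y * a' - y * (a * a') := by noncomm_ring
      rw [this, h0, mul_one]
    rw [e1]
    have h2 : (MonoidAlgebra.of (ZMod p) H h - 1) * y ∈ JJ p H (b + 1) := by
      rw [add_comm]
      exact JJ_mul_le 1 b (Submodule.mul_mem_mul (augI_le_JJ (of_sub_one_mem h)) hy)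
    have h3 : y * (MonoidAlgebra.of (ZMod p) H h - 1) ∈ JJ p H (b + 1) :=
      JJ_mul_le b 1 (Submodule.mul_mem_mul hy (augI_le_JJ (of_sub_one_mem h)))
    have := JJ_mul_le (b + 1) 0 (Submodule.mul_mem_mul (sub_mem h2 h3)
      (by rw [JJ_zero]; trivial : MonoidAlgebra.of (ZMod p) H h⁻¹ ∈ JJ p H 0))
    simpa using this
  have := key hx
  rwa [Submodule.mem_comap, hf] at this

lemma AdA_zero {x y : MonoidAlgebra (ZMod p) H} {b : ℕ} (hy : y ∈ JJ p H b) :
    AdA x y ∈ JJ p H b := by
  induction x using MonoidAlgebra.induction_on with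
  | of h =>
    rw [AdA_of]
    have h1 := JJ_mul_le 0 b (Submodule.mul_mem_mul
      (by rw [JJ_zero]; trivial : MonoidAlgebra.of (ZMod p) H h ∈ JJ p H 0) hy)
    have := JJ_mul_le (0 + b) 0 (Submodule.mul_mem_mul h1
      (by rw [JJ_zero]; trivial : MonoidAlgebra.of (ZMod p) H h⁻¹ ∈ JJ p H 0))
    simpa using this
  | add x x' h1 h2 => rw [map_add, LinearMap.add_apply]; exact add_mem h1 h2
  | smul r x h1 => rw [map_smul, LinearMap.smul_apply]; exact Submodule.smul_mem _ _ h1

lemma AdA_mem (a b : ℕ) (x y : MonoidAlgebra (ZMod p) H) (hx : x ∈ JJ p H a)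
    (hy : y ∈ JJ p H b) : AdA x y ∈ JJ p H (a + b) := by
  induction a generalizing x y b with
  | zero => rw [zero_add]; exact AdA_zero hy
  | succ n ih =>
    have key : JJ p H (n + 1) ≤ (JJ p H (n + 1 + b)).comap
        ((LinearMap.applyₗ y).comp (AdA (p := p) (H := H)).toLinearMap) := by
      rw [JJ_succ, Submodule.mul_le]
      intro u hu v hv
      change AdA (u * v) y ∈ JJ p H (n + 1 + b)
      rw [map_mul, Module.End.mul_apply, show n + 1 + b = n + (b + 1) by ring]
      exact ih (b + 1) u _ hu (AdA_aug hv hy)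
    exact key hx

variable (p H)

/-- the group algebra with the augmentation filtration -/
noncomputable def groupSys : Sys p (MonoidAlgebra (ZMod p) H) H where
  J := JJ p H
  of := MonoidAlgebra.of (ZMod p) H
  Ad := AdA
  J_zero := JJ_zero
  J_succ_le := JJ_succ_le
  J_mul a b _ _ hx hy := JJ_mul_le a b (Submodule.mul_mem_mul hx hy)
  of_sub_one h := augI_le_JJ (of_sub_one_mem h)
  Ad_mem := AdA_mem
  Ad_of := AdA_of

variable {p H}

end Pool.Agent.H11.PP
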