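import Pool.Agent.H11.PP.LiePoly
import Pool.Agent.H11.PP.Rk

/-!
# The growth inequality, preparations

Proofs (paper).
* `LL_span_Ad` : `LL (i+1) ≤ (⨆_j (LL i).map (Ad x_j)) ⊔ J (i+2)` since
  `br (j :: w) = x_j br w - br w x_j ≡ Ad x_j (br w)` (`Ad_x`); iterate.
* `sum_rk_J` : `rk_add` with `J (q+1) ≤ J q`, induction; `rk (J 0) ⊤ = 0` as `J 0 = ⊤`.
* `rk_EE` : let `i = n - q' - |Y|`.  `exists_basis_mod` gives `r` (at most) elements `v_s` of
  `(LL i).map (Ad T)` spanning it modulo `J (i+|Y|+1)`.  `T ∈ J |Y|`, so `v_s ∈ J (i+|Y|)`.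
  `EE ≤ ⨆_s (J q').map (ω ↦ Ad ω v_s) ⊔ J (n+1)` and `ω ↦ Ad ω v_s` maps `J (q'+1)` into
  `J (q'+1+i+|Y|) = J (n+1)`; `rk_map_le`, `rk_iSup_le` (or `rk_sup_le` and induction).
* `irr_le` : `rk_map_le`, `Ad (ev W)` maps `J (i₀+1)` into `J (i₀+1+q)`.
-/

namespace Pool.Agent.H11.PP.Sys

variable {p : ℕ} [Fact p.Prime] {B H : Type*} [Ring B] [Algebra (ZMod p) B] [Group H]
variable [FiniteDimensional (ZMod p) B]
variable (S : Sys p B H) {D : ℕ} (g : Fin D → H)

lemma LL_span_Ad {i : ℕ} (hi : 1 ≤ i) (q : ℕ) :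
    S.LL g (i + q) ≤
      (⨆ W ∈ {W : List (Fin D) | W.length = q}, (S.LL g i).map (S.Ad (S.ev g W)))
        ⊔ S.J (i + q + 1) := by
  induction q with
  | zero =>
    refine le_sup_of_le_left ?_
    refine le_trans ?_ (le_iSup₂_of_le ([] : List (Fin D)) (by simp) le_rfl)
    intro v hv
    refine ⟨v, hv, ?_⟩
    simp
  | succ q ih =>
    have key : ∀ j : Fin D,
        (((⨆ W ∈ {W : List (Fin D) | W.length = q}, (S.LL g i).map (S.Ad (S.ev g W)))
          ⊔ S.J (i + q + 1)).map (S.Ad (S.x g j))) ≤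
        (⨆ W ∈ {W : List (Fin D) | W.length = q + 1}, (S.LL g i).map (S.Ad (S.ev g W)))
        ⊔ S.J (i + (q + 1) + 1) := by
      intro j
      rw [Submodule.map_sup]
      refine sup_le ?_ ?_
      · refine le_sup_of_le_left ?_
        rw [Submodule.map_iSup]
        refine iSup_le fun W => ?_
        rw [Submodule.map_iSup]
        refine iSup_le fun hW => ?_
        refine le_trans ?_ (le_iSup₂_of_le (j :: W) (by simpa using hW) le_rfl)
        rintro _ ⟨_, ⟨v, hv, rfl⟩, rfl⟩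
        refine ⟨v, hv, ?_⟩
        rw [ev_cons, map_mul]
        rfl
      · refine le_sup_of_le_right ?_
        rintro _ ⟨v, hv, rfl⟩
        have := S.Ad_mem 1 (i + q + 1) _ _ (S.x_mem g j) hv
        have h2 : 1 + (i + q + 1) = i + (q + 1) + 1 := by ring
        rwa [h2] at this
    rw [LL, Submodule.span_le]
    rintro _ ⟨w, hw, rfl⟩
    match w, hw with
    | [], hw => simp at hw
    | [j], hw => simp at hw; omega
    | j :: k :: w, hw =>
      have hl : (k :: w).length = i + q := by simp at hw ⊢; omega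
      have hb : S.br g (k :: w) ∈ S.LL g (i + q) := Submodule.subset_span ⟨_, hl, rfl⟩
      have h1 := key j ⟨_, ih hb, rfl⟩
      have h2 := S.Ad_x g j (S.LL_le g _ hb)
      have h3 : S.br g (j :: k :: w) = S.Ad (S.x g j) (S.br g (k :: w)) -
          (S.Ad (S.x g j) (S.br g (k :: w)) -
            (S.x g j * S.br g (k :: w) - S.br g (k :: w) * S.x g j)) := by
        rw [br]; abel
      rw [SetLike.mem_coe, h3]
      refine sub_mem h1 (Submodule.mem_sup_right ?_)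
      exact h2

lemma sum_rk_J (n : ℕ) :
    ∑ q ∈ Finset.range n, rk (S.J (q + 1)) (S.J q) = rk (S.J n) ⊤ := by
  induction n with
  | zero => rw [Finset.sum_range_zero, S.J_zero, rk_self]
  | succ n ih => rw [Finset.sum_range_succ, ih, rk_add (S.J_succ_le n)]

/-- `Ad (J q') (Ad T (LL i))` -/
def EE (T : B) (i q' : ℕ) : Submodule (ZMod p) B :=
  Submodule.span (ZMod p) {b | ∃ ω ∈ S.J q', ∃ v ∈ S.LL g i, b = S.Ad ω (S.Ad T v)}

lemma rk_EE {T : B} {i N q' r : ℕ} (hT : T ∈ S.J N)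
    (hr : rk (S.J (i + N + 1)) ((S.LL g i).map (S.Ad T)) ≤ r) :
    rk (S.J (q' + i + N + 1)) (S.EE g T i q') ≤ r * rk (S.J (q' + 1)) (S.J q') := by
  obtain ⟨r0, hr0, v, hv, hspan⟩ : ∃ r0 : ℕ, r0 ≤ r ∧ ∃ v : Fin r0 → B,
      (∀ s, v s ∈ (S.LL g i).map (S.Ad T)) ∧
      (S.LL g i).map (S.Ad T) ≤ Submodule.span (ZMod p) (Set.range v) ⊔ S.J (i + N + 1) :=
    ⟨_, hr, exists_basis_mod (S.J (i + N + 1)) ((S.LL g i).map (S.Ad T))⟩
  let f : Fin r0 → (B →ₗ[ZMod p] B) := fun s =>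
    (LinearMap.applyₗ (v s)).comp S.Ad.toLinearMap
  have hf : ∀ s ω, f s ω = S.Ad ω (v s) := fun s ω => rfl
  have hvJ : ∀ s, v s ∈ S.J (N + i) := by
    intro s
    obtain ⟨y, hy, hyv⟩ := hv s
    rw [← hyv]
    exact S.Ad_mem N i _ _ hT (S.LL_le g i hy)
  have hsub : S.EE g T i q' ≤ (⨆ s ∈ (Finset.univ : Finset (Fin r0)), (S.J q').map (f s)) ⊔
      S.J (q' + i + N + 1) := by
    rw [EE, Submodule.span_le]
    rintro _ ⟨ω, hω, y, hy, rfl⟩
    have h1 : S.Ad T y ∈ Submodule.span (ZMod p) (Set.range v) ⊔ S.J (i + N + 1) :=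
      hspan ⟨y, hy, rfl⟩
    obtain ⟨a, ha, k, hk, hak⟩ := Submodule.mem_sup.1 h1
    rw [← hak, SetLike.mem_coe, map_add]
    refine add_mem (Submodule.mem_sup_left ?_) (Submodule.mem_sup_right ?_)
    · clear hak
      induction ha using Submodule.span_induction with
      | mem z hz =>
        obtain ⟨s, rfl⟩ := hz
        have h2 : (S.J q').map (f s) ≤
            ⨆ s ∈ (Finset.univ : Finset (Fin r0)), (S.J q').map (f s) :=
          le_iSup₂_of_le s (Finset.mem_univ s) le_rfl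
        exact h2 ⟨ω, hω, hf s ω⟩
      | zero => rw [map_zero]; exact zero_mem _
      | add x y hx hy h1 h2 => 
        rw [map_add]
        exact add_mem h1 h2
      | smul c x hx h => 
        rw [map_smul]
        exact Submodule.smul_mem _ _ h
    · have := S.Ad_mem q' (i + N + 1) _ _ hω hk
      have h2 : q' + (i + N + 1) = q' + i + N + 1 := by ring
      rwa [h2] at this
  refine (rk_le_of_le_sup hsub).trans ((rk_iSup_le _ _ _).trans ?_)
  have hs : ∀ s ∈ (Finset.univ : Finset (Fin r0)),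
      rk (S.J (q' + i + N + 1)) ((S.J q').map (f s)) ≤ rk (S.J (q' + 1)) (S.J q') := by
    intro s _
    refine rk_map_le (f s) ?_
    rintro _ ⟨ω, hω, rfl⟩
    rw [hf]
    have := S.Ad_mem (q' + 1) (N + i) _ _ hω (hvJ s)
    have h2 : q' + 1 + (N + i) = q' + i + N + 1 := by ring
    rwa [h2] at this
  refine (Finset.sum_le_sum hs).trans ?_
  rw [Finset.sum_const, Finset.card_univ, Fintype.card_fin, smul_eq_mul]
  exact Nat.mul_le_mul_right _ hr0

lemma irr_le (i₀ : ℕ) (W : List (Fin D)) :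
    rk (S.J (i₀ + W.length + 1)) ((S.LL g i₀).map (S.Ad (S.ev g W))) ≤
      rk (S.J (i₀ + 1)) (S.LL g i₀) := by
  refine rk_map_le _ ?_
  rintro _ ⟨v, hv, rfl⟩
  have := S.Ad_mem W.length (i₀ + 1) _ _ (S.ev_mem g W) hv
  have h2 : W.length + (i₀ + 1) = i₀ + W.length + 1 := by ring
  rwa [h2] at this

end Pool.Agent.H11.PP.Sys
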