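import Pool.Agent.H11.PP.Tuple

/-!
# Numerical bounds for the codimensions and ranks of Lemma N

`ValT K R N ks` : scales `k_1, k_2, …` with `k ≥ K`, `k ≥ 3`, `k ≥ (sum of the previous) + 1` and
`R * (sum of the previous) ≤ k`; `N` is added to the sums.

Proofs (paper).
* `qs_drop` : for `ks = as ++ k :: bs`, the entry of `qs D 0 1 (kpsOf 0 (zip ts ks))` at position
  `|as|` is `(k, μ (τ + 2^P + 1))` with `μ = ∏_{a ∈ as} (D^a + 1)`, `τ = ∑ (2^{P_l} + 1)` over the
  positions before, `P_l = (m - l) + N_l/3 + 1`.  Prove a suitable upper bound by induction on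
  `as`, generalising `N, τ, μ`:
  all precisions up to position `|as| + 1` are `≤ m + n/3 + 1` where `n = as.sum + k`, so
  `τ + 2^P + 1 ≤ τ₀ + (m + 1)(2^(m + n/3 + 1) + 1)`, and `μ ≤ μ₀ (2 D)^(as.sum)` since
  `D^a + 1 ≤ 2 D^a ≤ (2D)^a` (`a ≥ 1`, `D ≥ 1`).
* `kappa_bound` : `2^(n/3) ≤ (63/50)^n` (`2 ≤ (63/50)^3`), so with `s = as.sum`,
  `q ≤ C (2D)^s (63/50)^(s+k) = C (2D · 63/50)^s (63/50)^k`, `2D·63/50 ≤ (25/21)^(14 D)` (Bernoulli:
  `(25/21)^(14D) ≥ 1 + 14 D · 4/21 ≥ 2.52 D`), `14 D s ≤ k`, so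
  `≤ C (25/21)^k (63/50)^k = C (3/2)^k`.
* `rr_bound` : all `k ≤ B`, `P ≤ m + B/3 + 1`, so `μ ≤ (D^B+1)^m` (`D ≥ 1`) and
  `τ ≤ m (2^(m+B/3+1) + 1)`, `rr = μ (τ + 2^PM) ≤ Cr 2^PM`.
-/

namespace Pool.Agent.H11.PP

/-- valid tuples of scales -/
def ValT (K R : ℕ) : ℕ → List ℕ → Prop
  | _, [] => True
  | N, k :: ks => K ≤ k ∧ 3 ≤ k ∧ N + 1 ≤ k ∧ R * N ≤ k ∧ ValT K R (N + k) ks

lemma Inc_of_ValT {K R N : ℕ} {ks : List ℕ} (h : ValT K R N ks) (ts : List (Fin 2)) :
    Inc K N (List.zip ts ks) := by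
  induction ks generalizing N ts with
  | nil => rw [List.zip_nil_right]; trivial
  | cons k ks ih =>
    cases ts with
    | nil => rw [List.zip_nil_left]; trivial
    | cons t ts =>
      obtain ⟨h1, h2, h3, _, h5⟩ := h
      rw [List.zip_cons_cons]
      exact ⟨h1, h2, h3, ih h5 ts⟩

lemma ValT.middle {K R N : ℕ} {as : List ℕ} {k : ℕ} {bs : List ℕ}
    (h : ValT K R N (as ++ k :: bs)) : R * (N + as.sum) ≤ k := by
  induction as generalizing N with
  | nil =>
    obtain ⟨_, _, _, h4, _⟩ := h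
    simpa using h4
  | cons a as ih =>
    obtain ⟨_, _, _, _, h5⟩ := h
    have := ih h5
    rwa [List.sum_cons, ← add_assoc]

lemma qs_drop {D m K R : ℕ} (hD : 1 ≤ D) (as : List ℕ) :
    ∀ (N τ μ : ℕ) (ts : List (Fin 2)) (k : ℕ) (bs : List ℕ),
      ts.length = (as ++ k :: bs).length → (as ++ k :: bs).length ≤ m →
      ValT K R N (as ++ k :: bs) →
      ∀ (q : ℕ × ℕ) (rest : List (ℕ × ℕ)),
        (qs D τ μ (kpsOf N (List.zip ts (as ++ k :: bs)))).drop as.length = q :: rest →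
        q.1 = k ∧ q.2 ≤ μ * (2 * D) ^ as.sum *
          (τ + (as.length + 1) * (2 ^ (m + (N + as.sum + k) / 3 + 1) + 1)) := by
  induction as with
  | nil =>
    intro N τ μ ts k bs hlen hm _ q rest hq
    cases ts with
    | nil => simp at hlen
    | cons t ts =>
      simp only [List.nil_append, List.zip_cons_cons, kpsOf, qs, List.length_nil,
        List.drop_zero, List.cons.injEq] at hq
      obtain ⟨rfl, _⟩ := hq
      refine ⟨rfl, ?_⟩
      have hl : (List.zip ts bs).length ≤ m := by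
        simp only [List.nil_append, List.length_cons] at hm hlen
        rw [List.length_zip]
        omega
      simp only [List.sum_nil, pow_zero, mul_one, List.length_nil, zero_add, one_mul, add_zero]
      refine Nat.mul_le_mul_left _ ?_
      have : 2 ^ ((List.zip ts bs).length + (N + k) / 3 + 1) ≤ 2 ^ (m + (N + k) / 3 + 1) :=
        Nat.pow_le_pow_right (by norm_num) (by omega)
      omega
  | cons a as ih =>
    intro N τ μ ts k bs hlen hm hV q rest hq
    cases ts with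
    | nil => simp at hlen
    | cons t ts =>
      obtain ⟨_, h3, _, _, hV'⟩ := hV
      have hlen' : ts.length = (as ++ k :: bs).length := by
        simpa using hlen
      have hm' : (as ++ k :: bs).length + 1 ≤ m := by
        simpa using hm
      simp only [List.cons_append, List.zip_cons_cons, kpsOf, qs, List.length_cons,
        List.drop_succ_cons] at hq
      obtain ⟨h1, h2⟩ := ih (N + a) _ _ ts k bs hlen' (by omega) hV' q rest hq
      refine ⟨h1, h2.trans ?_⟩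
      have hl : (List.zip ts (as ++ k :: bs)).length ≤ m := by
        rw [List.length_zip]
        omega
      have hpow : D ^ a + 1 ≤ (2 * D) ^ a := by
        rw [mul_pow]
        have h4 : 1 ≤ D ^ a := Nat.one_le_pow _ _ hD
        have h5 : 2 ≤ 2 ^ a := by
          calc 2 = 2 ^ 1 := by norm_num
            _ ≤ 2 ^ a := Nat.pow_le_pow_right (by norm_num) (by omega)
        nlinarith
      have hP : 2 ^ ((List.zip ts (as ++ k :: bs)).length + (N + a) / 3 + 1) + 1 ≤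
          2 ^ (m + (N + a + as.sum + k) / 3 + 1) + 1 :=
        Nat.add_le_add_right (Nat.pow_le_pow_right (by norm_num) (by omega)) 1
      have hsum : N + (a :: as).sum + k = N + a + as.sum + k := by
        rw [List.sum_cons]; ring
      rw [hsum]
      set Z := 2 ^ (m + (N + a + as.sum + k) / 3 + 1) + 1 with hZ
      have hμ : μ * (D ^ a + 1) * (2 * D) ^ as.sum ≤ μ * (2 * D) ^ (a :: as).sum := by
        rw [List.sum_cons, pow_add, mul_assoc]
        exact Nat.mul_le_mul_left _ (Nat.mul_le_mul_right _ hpow)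
      refine Nat.mul_le_mul hμ ?_
      rw [List.length_cons]
      calc τ + 2 ^ ((List.zip ts (as ++ k :: bs)).length + (N + a) / 3 + 1) + 1
            + (as.length + 1) * Z
          = τ + (2 ^ ((List.zip ts (as ++ k :: bs)).length + (N + a) / 3 + 1) + 1)
            + (as.length + 1) * Z := by ring
        _ ≤ τ + Z + (as.length + 1) * Z := by omega
        _ = τ + (as.length + 1 + 1) * Z := by ring

lemma two_pow_div_three (n : ℕ) : (2 : ℝ) ^ (n / 3) ≤ (63 / 50) ^ n := by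
  calc (2 : ℝ) ^ (n / 3) ≤ ((63 / 50) ^ 3) ^ (n / 3) :=
        pow_le_pow_left₀ (by norm_num) (by norm_num) _
    _ = (63 / 50) ^ (3 * (n / 3)) := by rw [← pow_mul]
    _ ≤ (63 / 50) ^ n := pow_le_pow_right₀ (by norm_num) (by omega)

theorem kappa_bound (D m K : ℕ) (hD : 1 ≤ D) : ∃ Cκ : ℝ, 0 ≤ Cκ ∧
    ∀ (ts : List (Fin 2)) (as : List ℕ) (k : ℕ) (bs : List ℕ), ts.length = m →
      (as ++ k :: bs).length = m → ValT K (14 * D) 0 (as ++ k :: bs) →
      ∀ (q : ℕ × ℕ) (rest : List (ℕ × ℕ)),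
        (qs D 0 1 (kpsOf 0 (List.zip ts (as ++ k :: bs)))).drop as.length = q :: rest →
        q.1 = k ∧ (q.2 : ℝ) ≤ Cκ * (3 / 2) ^ k := by
  refine ⟨(m + 1) * 2 ^ (m + 2), by positivity, ?_⟩
  intro ts as k bs hts hlen hV q rest hq
  obtain ⟨h1, h2⟩ := qs_drop (m := m) hD as 0 0 1 ts k bs (hts.trans hlen.symm) hlen.le hV
    q rest hq
  refine ⟨h1, ?_⟩
  have hmid := hV.middle
  rw [zero_add] at hmid
  set s := as.sum with hs
  have hal : as.length + 1 ≤ m + 1 := by
    rw [List.length_append] at hlen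
    omega
  -- natural number bound
  have h3 : q.2 ≤ (m + 1) * 2 ^ (m + 2) * ((2 * D) ^ s * 2 ^ ((s + k) / 3)) := by
    refine h2.trans ?_
    rw [one_mul, zero_add, zero_add]
    have h4 : 2 ^ (m + (s + k) / 3 + 1) + 1 ≤ 2 ^ (m + 2) * 2 ^ ((s + k) / 3) := by
      have h5 : 2 ^ (m + 2) * 2 ^ ((s + k) / 3) = 2 * 2 ^ (m + (s + k) / 3 + 1) := by
        rw [← pow_add, ← pow_succ']
        congr 1
        ring
      have h6 : 1 ≤ 2 ^ (m + (s + k) / 3 + 1) := Nat.one_le_pow _ _ (by norm_num)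
      omega
    calc (2 * D) ^ s * ((as.length + 1) * (2 ^ (m + (s + k) / 3 + 1) + 1))
        ≤ (2 * D) ^ s * ((m + 1) * (2 ^ (m + 2) * 2 ^ ((s + k) / 3))) :=
          Nat.mul_le_mul_left _ (Nat.mul_le_mul hal h4)
      _ = (m + 1) * 2 ^ (m + 2) * ((2 * D) ^ s * 2 ^ ((s + k) / 3)) := by ring
  have h4 : (q.2 : ℝ) ≤ (m + 1) * 2 ^ (m + 2) * ((2 * D) ^ s * 2 ^ ((s + k) / 3)) := by
    exact_mod_cast h3
  refine h4.trans ?_
  refine mul_le_mul_of_nonneg_left ?_ (by positivity)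
  have hbern : (2 * D : ℝ) * (63 / 50) ≤ (25 / 21) ^ (14 * D) := by
    have h5 := one_add_mul_le_pow (a := (4 / 21 : ℝ)) (by norm_num) (14 * D)
    have h6 : (1 : ℝ) + 4 / 21 = 25 / 21 := by norm_num
    rw [h6] at h5
    refine le_trans ?_ h5
    push_cast
    have : (1 : ℝ) ≤ D := by exact_mod_cast hD
    nlinarith
  calc (2 * D : ℝ) ^ s * 2 ^ ((s + k) / 3)
      ≤ (2 * D : ℝ) ^ s * (63 / 50) ^ (s + k) :=
        mul_le_mul_of_nonneg_left (two_pow_div_three _) (by positivity)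
    _ = ((2 * D : ℝ) * (63 / 50)) ^ s * (63 / 50) ^ k := by
        rw [mul_pow (2 * D : ℝ) (63 / 50) s, pow_add, mul_assoc]
    _ ≤ ((25 / 21) ^ (14 * D)) ^ s * (63 / 50) ^ k := by
        refine mul_le_mul_of_nonneg_right (pow_le_pow_left₀ (by positivity) hbern _)
          (by positivity)
    _ = (25 / 21) ^ (14 * D * s) * (63 / 50) ^ k := by rw [← pow_mul]
    _ ≤ (25 / 21) ^ k * (63 / 50) ^ k := by
        refine mul_le_mul_of_nonneg_right (pow_le_pow_right₀ (by norm_num) hmid)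
          (by positivity)
    _ = (3 / 2) ^ k := by
        rw [← mul_pow]; norm_num

lemma rr_le {D m B : ℕ} (hD : 1 ≤ D) (PM : ℕ) (sks : List (Fin 2 × ℕ)) :
    ∀ (N τ μ : ℕ), sks.length ≤ m → N + (sks.map Prod.snd).sum ≤ B →
      rr D PM τ μ (kpsOf N sks) ≤ μ * (D ^ B + 1) ^ sks.length *
        (τ + sks.length * (2 ^ (m + B / 3 + 1) + 1) + 2 ^ PM) := by
  induction sks with
  | nil =>
    intro N τ μ _ _
    simp [kpsOf, rr]
  | cons x l ih =>
    intro N τ μ hm hB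
    simp only [List.map_cons, List.sum_cons, List.length_cons] at hm hB
    simp only [kpsOf, rr, List.length_cons]
    refine (ih (N + x.2) _ _ (by omega) (by omega)).trans ?_
    have h1 : D ^ x.2 + 1 ≤ D ^ B + 1 :=
      Nat.add_le_add_right (Nat.pow_le_pow_right hD (by omega)) 1
    have h2 : 2 ^ (l.length + (N + x.2) / 3 + 1) + 1 ≤ 2 ^ (m + B / 3 + 1) + 1 :=
      Nat.add_le_add_right (Nat.pow_le_pow_right (by norm_num) (by omega)) 1
    set Z := 2 ^ (m + B / 3 + 1) + 1 with hZ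
    refine Nat.mul_le_mul ?_ ?_
    · calc μ * (D ^ x.2 + 1) * (D ^ B + 1) ^ l.length
          ≤ μ * (D ^ B + 1) * (D ^ B + 1) ^ l.length :=
            Nat.mul_le_mul_right _ (Nat.mul_le_mul_left _ h1)
        _ = μ * (D ^ B + 1) ^ (l.length + 1) := by ring
    · calc τ + 2 ^ (l.length + (N + x.2) / 3 + 1) + 1 + l.length * Z + 2 ^ PM
          = τ + (2 ^ (l.length + (N + x.2) / 3 + 1) + 1) + l.length * Z + 2 ^ PM := by ring
        _ ≤ τ + Z + l.length * Z + 2 ^ PM := by omega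
        _ = τ + (l.length + 1) * Z + 2 ^ PM := by ring

theorem rr_bound (D m B : ℕ) (hD : 1 ≤ D) : ∃ Cr : ℕ, ∀ sks : List (Fin 2 × ℕ),
    sks.length = m → (sks.map Prod.snd).sum ≤ B → ∀ PM : ℕ,
      rr D PM 0 1 (kpsOf 0 sks) ≤ Cr * 2 ^ PM := by
  refine ⟨(D ^ B + 1) ^ m * (m * (2 ^ (m + B / 3 + 1) + 1) + 1), ?_⟩
  intro sks hm hB PM
  refine (rr_le (m := m) (B := B) hD PM sks 0 0 1 hm.le (by rwa [zero_add])).trans ?_
  rw [one_mul, zero_add, hm, mul_assoc]
  refine Nat.mul_le_mul_left _ ?_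
  have h1 : 1 ≤ 2 ^ PM := Nat.one_le_pow _ _ (by norm_num)
  have h2 := Nat.mul_le_mul_left (m * (2 ^ (m + B / 3 + 1) + 1)) h1
  rw [mul_one] at h2
  rw [add_mul, one_mul]
  exact Nat.add_le_add_right h2 _

end Pool.Agent.H11.PP
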