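import Pool.Agent.H11.PP.Block

/-!
# Tails of Lyndon words

`ℓ = u ++ t` Lyndon with `u` Lyndon: the next block, and representation of the tail as a word of
blocks when the tail is not heavier than `u`.

Proofs (paper).
* `next_block` : `ℓ` is Lyndon and `t` is a proper suffix (`u ≠ []`), so `SL ℓ t`:
  `ℓ = q ++ a :: s`, `t = q ++ b :: t'`, `a < b`; take `L = |q|`, `c = b`; `ℓ.take L = q`,
  `ℓ[L] = a`.
* `block_Lyn` : apply `Lyn_exw` (with `u := ℓ`) to the one-letter word `[⟨(L,c),_⟩]`
  (`Lyn_singleton`).
* `block_lexLt` : if `L < |u|` : `u = ℓ.take L ++ ℓ[L] :: …` (as `u <+: ℓ`) so `SL`; otherwise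
  `u = (ℓ.take L).take |u|` is a proper prefix of `ℓ.take L ++ [c]`.
* `next_good` : if `u ++ ℓ.take L ++ [c] ++ t' = ℓ` is as in `next_block` and `u <+: v <+: ℓ`,
  `v` Lyndon, `v ≠ u`, then `|v| ≥ |u| + L + 1`.  Proof: otherwise `v = u ++ ℓ.take q`,
  `1 ≤ q ≤ L`, and `v` Lyndon gives `SL v (ℓ.take q)`, but `ℓ.take q` is a prefix of `v`
  (both are prefixes of `ℓ` and `q ≤ |v|`), contradicting `SL.not_prefix'`.
* `tail_rep` : strong induction on `|t|`, `u` fixed, `s` varying (`s = exw S`).  If `t = []` take
  `T = []`.  Otherwise `next_block` for `ℓ = (u ++ exw S) ++ t` gives `L, c, t'` with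
  `t = ℓ.take L ++ c :: t'`, `ℓ[L] < c`.  Since `wl (ℓ.take L) < wl t ≤ wl u` and weights of
  prefixes of `ℓ` are increasing (`wt ≥ 1`), `L < |u|`; `ℓ.take L = u.take L`, `ℓ[L] = u[L]`, so
  `x = (L,c) : Blk u` and `t = x.ex ++ t'`.  Apply the induction hypothesis with `S ++ [x]`, `t'`
  (`Lyn (u ++ exw (S ++ [x]))` by `Lyn_append_exw`).
* `per v L` : the prefix of length `L` of `v v v …`.
-/

namespace Pool.Agent.H11.PP

variable {α : Type*} [LinearOrder α]

lemma next_block {l u t : List α} (hl : Lyn l) (hu : u ≠ []) (h : l = u ++ t) (ht : t ≠ []) :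
    ∃ (L : ℕ) (c : α) (t' : List α), t = l.take L ++ c :: t' ∧ ∃ hL : L < l.length, l[L] < c := by
  obtain ⟨p, a, b, s, t', hab, h1, h2⟩ := hl.2 u t h hu ht
  subst h1
  refine ⟨p.length, b, t', ?_, ?_, ?_⟩
  · rw [h2]
    simp
  · simp
  · simpa using hab

lemma block_Lyn {l : List α} (hl : Lyn l) {L : ℕ} {c : α} (hL : L < l.length) (hc : l[L] < c) :
    Lyn (l.take L ++ [c]) := by
  have h := Lyn_exw hl (X := [(⟨(L, c), hL, hc⟩ : Blk l)]) (Lyn_singleton _)
  simpa [exw, Blk.ex, Blk.L, Blk.c] using h

lemma block_lexLt {l u : List α} (hul : u <+: l) (hu : u ≠ []) {L : ℕ} {c : α}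
    (hL : L < l.length) (hc : l[L] < c) : LexLt u (l.take L ++ [c]) := by
  obtain ⟨r, rfl⟩ := hul
  rcases Nat.lt_or_ge L u.length with h | h
  · right
    refine ⟨u.take L, u[L], c, u.drop (L + 1), [], ?_, ?_, ?_⟩
    · rwa [List.getElem_append_left h] at hc
    · rw [← List.drop_eq_getElem_cons h, List.take_append_drop]
    · rw [List.take_append_of_le_length h.le]
  · left
    refine ⟨?_, ?_⟩
    · rw [List.take_append, List.take_of_length_le h, List.append_assoc]
      exact List.prefix_append _ _
    · intro h2
      have := congrArg List.length h2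
      rw [List.length_append, List.length_take, Nat.min_eq_left hL.le] at this
      simp at this
      omega

lemma next_good {l u t' v : List α} {L : ℕ} {c : α} (hl : l = u ++ (l.take L ++ c :: t'))
    (huv : u <+: v) (hvl : v <+: l) (hv : Lyn v) (hne : v ≠ u) (hu : u ≠ []) :
    u.length + L + 1 ≤ v.length := by
  by_contra hcon
  obtain ⟨w, rfl⟩ := huv
  have hw : w ≠ [] := by
    rintro rfl
    exact hne (by simp)
  have hlen := congrArg List.length hl
  simp only [List.length_append, List.length_take, List.length_cons] at hlen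
  have hLl : L < l.length := by
    by_contra h
    rw [Nat.min_eq_right (by omega)] at hlen
    omega
  have h1 : w <+: l.take L ++ c :: t' := by
    have h2 : u ++ w <+: u ++ (l.take L ++ c :: t') := hl ▸ hvl
    exact (List.prefix_append_right_inj u).1 h2
  have h2 : l.take L <+: l.take L ++ c :: t' := List.prefix_append _ _
  have h3 : w <+: l.take L := by
    refine List.prefix_of_prefix_length_le h1 h2 ?_
    rw [List.length_take, Nat.min_eq_left hLl.le]
    simp only [List.length_append] at hcon
    omega
  have h4 : w <+: l := h3.trans (List.take_prefix _ _)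
  have h5 : w <+: u ++ w := List.prefix_of_prefix_length_le h4 hvl (by simp)
  exact (hv.2 u w rfl hu hw).not_prefix' h5

lemma tail_rep {wt : α → ℕ} (hwt : ∀ a, 1 ≤ wt a) {l u : List α} (hl : Lyn l) (hu : Lyn u)
    (S : List (Blk u)) (t : List α) (h : l = u ++ exw S ++ t) (ht : wl wt t ≤ wl wt u) :
    ∃ T : List (Blk u), exw T = t := by
  induction hn : t.length using Nat.strong_induction_on generalizing t S with
  | _ n ih =>
    subst hn
    by_cases ht0 : t = []
    · exact ⟨[], by rw [ht0, exw_nil]⟩
    obtain ⟨L, c, t', htt, hL, hc⟩ := next_block hl (u := u ++ exw S) (t := t)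
      (by simp [hu.ne_nil]) h ht0
    have hul : u <+: l := ⟨exw S ++ t, by rw [h, List.append_assoc]⟩
    have hLu : L < u.length := by
      by_contra hcon
      obtain ⟨r, hr⟩ := hul
      have h1 : l.take L = u ++ r.take (L - u.length) := by
        rw [← hr, List.take_append, List.take_of_length_le (by omega)]
      rw [htt, h1] at ht
      simp only [wl_append, wl_cons] at ht
      have := hwt c
      omega
    have htake : l.take L = u.take L := by
      obtain ⟨r, hr⟩ := hul
      rw [← hr, List.take_append_of_le_length hLu.le]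
    have hget : u[L] = l[L] := by
      obtain ⟨r, hr⟩ := hul
      subst hr
      rw [List.getElem_append_left hLu]
    set x : Blk u := ⟨(L, c), hLu, by rw [hget]; exact hc⟩ with hx
    have hxe : x.ex = u.take L ++ [c] := rfl
    have htx : t = x.ex ++ t' := by
      rw [hxe, htt, htake]
      simp
    have hlen : t'.length < t.length := by
      rw [htt]
      simp only [List.length_append, List.length_cons]
      omega
    obtain ⟨T, hT⟩ := ih t'.length hlen (S ++ [x]) t'
      (by
        rw [h, exw_append, exw_cons, exw_nil, List.append_nil]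
        conv_lhs => rw [htx]
        simp only [List.append_assoc])
      (by
        rw [htx, wl_append] at ht
        omega) rfl
    exact ⟨x :: T, by rw [exw_cons, hT, ← htx]⟩

/-- the prefix of length `L` of `v v v …` -/
def per (v : List α) : ℕ → List α
  | 0 => []
  | L + 1 => (v ++ per v L).take (L + 1)

lemma length_per {v : List α} (hv : v ≠ []) (L : ℕ) : (per v L).length = L := by
  induction L with
  | zero => simp [per]
  | succ L ih =>
    have h1 : 0 < v.length := List.length_pos_iff.2 hv
    rw [per, List.length_take, List.length_append, ih]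
    omega

lemma per_prefix {v : List α} (hv : v ≠ []) (L : ℕ) : per v L <+: per v (L + 1) := by
  induction L with
  | zero => rw [per]; exact List.nil_prefix
  | succ L ih =>
    have h1 : v ++ per v L <+: v ++ per v (L + 1) := (List.prefix_append_right_inj v).2 ih
    rw [per.eq_2 v (L + 1)]
    rw [List.prefix_take_iff]
    refine ⟨?_, ?_⟩
    · rw [per.eq_2 v L]
      exact (List.take_prefix _ _).trans (by
        conv_rhs => rw [← per.eq_2 v L]
        exact h1)
    · rw [length_per hv]
      omega

lemma take_eq_per {v l : List α} (hv : v ≠ []) (L : ℕ) (h : v ++ l.take L <+: l) :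
    l.take L = per v L := by
  have hv1 : 0 < v.length := List.length_pos_iff.2 hv
  have hLl : L < l.length := by
    have h1 := h.length_le
    rw [List.length_append, List.length_take] at h1
    by_contra h2
    rw [Nat.min_eq_right (by omega)] at h1
    omega
  have key : ∀ M, M ≤ L → l.take M = per v M := by
    intro M
    induction M with
    | zero => intro _; simp [per]
    | succ M ih =>
      intro hM
      have h1 : v ++ l.take M <+: l := by
        refine List.IsPrefix.trans ?_ h
        rw [List.prefix_append_right_inj]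
        rw [List.prefix_take_iff]
        refine ⟨List.take_prefix _ _, ?_⟩
        rw [List.length_take]
        omega
      obtain ⟨r, hr⟩ := h1
      rw [per, ← ih (by omega)]
      conv_lhs => rw [← hr]
      rw [List.take_append_of_le_length]
      rw [List.length_append, List.length_take, Nat.min_eq_left (by omega)]
      omega
  exact key L le_rfl

/-- pairs `(L, c)` where the weight of the `L`-part determines `L` -/
lemma Bd_pairs {wt : α → ℕ} {β : ℕ → ℕ} (hβ : ∀ n, Bd {a | wt a = n} (β n))
    (P : ℕ → Prop) (f : ℕ → ℕ) (hf : ∀ i j, P i → P j → f i = f j → i = j) (n : ℕ) :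
    Bd {x : ℕ × α | P x.1 ∧ f x.1 + wt x.2 = n}
      ((∑ i ∈ Finset.range (n + 1), β i : ℕ) : ℝ) := by
  have h1 : ∀ i ∈ Finset.range (n + 1),
      Bd {x : ℕ × α | P x.1 ∧ f x.1 + wt x.2 = n ∧ wt x.2 = i} ((β i : ℕ) : ℝ) := by
    intro i _
    refine (hβ i).of_injOn Prod.snd ?_ ?_
    · intro x hx
      exact hx.2.2
    · intro x hx y hy hxy
      refine Prod.ext (hf _ _ hx.1 hy.1 ?_) hxy
      have h2 := hx.2.1
      have h3 := hy.2.1
      have h4 := hx.2.2
      have h5 := hy.2.2
      omega
  refine (Bd.biUnion (Finset.range (n + 1)) _ _ h1).mono ?_ ?_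
  · intro x hx
    simp only [Set.mem_iUnion]
    refine ⟨wt x.2, ?_, hx.1, hx.2, rfl⟩
    have h2 : f x.1 + wt x.2 = n := hx.2
    rw [Finset.mem_range]
    omega
  · push_cast
    exact le_rfl

/-- words `v ++ per v L ++ [c]` with given weight of the block -/
lemma Bd_next {wt : α → ℕ} (hwt : ∀ a, 1 ≤ wt a) {β : ℕ → ℕ}
    (hβ : ∀ n, Bd {a | wt a = n} (β n)) {v : List α} (hv : v ≠ []) (n : ℕ) :
    Bd {w : List α | ∃ (L : ℕ) (c : α), w = v ++ per v L ++ [c] ∧
      wl wt (per v L ++ [c]) = n} ((∑ i ∈ Finset.range (n + 1), β i : ℕ) : ℝ) := by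
  have hmono : StrictMono (fun L => wl wt (per v L)) := by
    refine strictMono_nat_of_lt_succ (fun L => ?_)
    obtain ⟨r, hr⟩ := per_prefix hv L
    have hr0 : r ≠ [] := by
      rintro rfl
      have h1 := congrArg List.length hr
      rw [List.append_nil, length_per hv, length_per hv] at h1
      omega
    have h2 := wl_pos hwt hr0
    change wl wt (per v L) < wl wt (per v (L + 1))
    rw [← hr, wl_append]
    omega
  have h1 := Bd_pairs hβ (fun _ => True) (fun L => wl wt (per v L))
    (fun i j _ _ hij => hmono.injective hij) n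
  refine (h1.image (fun x => v ++ per v x.1 ++ [x.2])).mono ?_ le_rfl
  rintro w ⟨L, c, rfl, hw⟩
  refine ⟨(L, c), ⟨trivial, ?_⟩, rfl⟩
  simpa using hw

end Pool.Agent.H11.PP
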