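import Pool.Agent.H11.PP.Brackets
import Pool.Agent.H11.PP.Tail

/-!
# Lie elements with Lyndon leading words

Proofs (paper).
* `std_factor` : `u` Lyndon, `|u| ≥ 2`.  Among the prefixes `u.take i`, `1 ≤ i < |u|`, which are
  Lyndon (`i = 1` is one) choose the one with `i` greatest, `u' = u.take i`.  `next_block` gives
  `u = u' ++ (u.take L ++ c :: t')`, `u[L] < c`; the block `b = u.take L ++ [c]` is Lyndon
  (`block_Lyn`), `LexLt u' b` (`block_lexLt`), so `u' ++ b` is Lyndon (`Lyn.mul`), a prefix of `u`;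
  by maximality it is `u`, i.e. `t' = []`.
* `Up_mul` etc.: if `a ∈ Up u`, then `ev w * a ∈ Up (w ++ u)` and `a * ev w ∈ Up (u ++ w)`
  (`SL.append_left`, `SL.append`); if `SL u u'`, `|u| = |u'|` then `ev u' ∈ Up u` and
  `Up u' ≤ Up u` (`SL.trans`).
* `exists_P` : strong induction on `|u|`.  `|u| = 1`, `u = [i]` : `P = x_i`.  Otherwise
  `u = u' ++ u''` (`std_factor`), `P = P' P'' - P'' P'` (`LL_lie`);
  `P' P'' - ev u ∈ Up u` and `P'' P' ∈ ev (u'' ++ u') + Up (u'' ++ u') ⊆ Up u` as
  `SL (u' ++ u'') (u'' ++ u')` (`Lyn.mul`).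
-/

namespace Pool.Agent.H11.PP

lemma std_factor {α : Type*} [LinearOrder α] {u : List α} (hu : Lyn u) (h2 : 2 ≤ u.length) :
    ∃ u' u'' : List α, u = u' ++ u'' ∧ Lyn u' ∧ Lyn u'' ∧ LexLt u' u'' := by
  classical
  set i := Nat.findGreatest (fun i => Lyn (u.take i)) (u.length - 1) with hi
  have h1 : Lyn (u.take 1) := by
    obtain ⟨a, w, rfl⟩ := List.exists_cons_of_ne_nil hu.ne_nil
    simpa using Lyn_singleton a
  have hi1 : 1 ≤ i := Nat.le_findGreatest (by omega) h1
  have hi2 : i ≤ u.length - 1 := Nat.findGreatest_le _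
  have hLi : Lyn (u.take i) :=
    Nat.findGreatest_spec (P := fun i => Lyn (u.take i)) (m := 1) (by omega) h1
  have ht : u.drop i ≠ [] := by
    intro h
    have := congrArg List.length h
    rw [List.length_drop, List.length_nil] at this
    omega
  obtain ⟨L, c, t', htt, hL, hc⟩ := next_block hu hLi.ne_nil (List.take_append_drop i u).symm ht
  have hb := block_Lyn hu hL hc
  have hlt := block_lexLt (List.take_prefix i u) hLi.ne_nil hL hc
  by_cases ht' : t' = []
  · refine ⟨u.take i, u.take L ++ [c], ?_, hLi, hb, hlt⟩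
    conv_lhs => rw [← List.take_append_drop i u, htt, ht']
  · exfalso
    have hm := (hLi.mul hb hlt).1
    have heq : u = (u.take i ++ (u.take L ++ [c])) ++ t' := by
      conv_lhs => rw [← List.take_append_drop i u, htt]
      simp
    have hlen : (u.take i ++ (u.take L ++ [c])).length = i + L + 1 := by
      simp only [List.length_append, List.length_take, List.length_singleton]
      omega
    have hlen2 := congrArg List.length heq
    rw [List.length_append, hlen] at hlen2
    have ht'0 : 0 < t'.length := List.length_pos_iff.2 ht'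
    have htake : u.take (i + L + 1) = u.take i ++ (u.take L ++ [c]) := by
      conv_lhs => rw [heq]
      rw [← hlen, List.take_left']
      rfl
    rw [← htake] at hm
    exact Nat.findGreatest_is_greatest (P := fun i => Lyn (u.take i)) (n := u.length - 1)
      (k := i + L + 1) (by omega) (by omega) hm

namespace Sys

variable {p : ℕ} [Fact p.Prime] {B H : Type*} [Ring B] [Algebra (ZMod p) B] [Group H]
variable (S : Sys p B H) {D : ℕ} (g : Fin D → H)

lemma ev_mul_Up (w u : List (Fin D)) {a : B} (ha : a ∈ S.Up g u) :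
    S.ev g w * a ∈ S.Up g (w ++ u) := by
  have h : S.Up g u ≤ (S.Up g (w ++ u)).comap (LinearMap.mulLeft (ZMod p) (S.ev g w)) := by
    unfold Sys.Up
    rw [Submodule.span_le]
    rintro b ⟨v, hv, hsl, rfl⟩
    refine Submodule.subset_span ⟨w ++ v, by simp [hv], hsl.append_left w, ?_⟩
    rw [LinearMap.mulLeft_apply, ev_append]
  exact h ha

lemma Up_mul_ev (w u : List (Fin D)) {a : B} (ha : a ∈ S.Up g u) :
    a * S.ev g w ∈ S.Up g (u ++ w) := by
  have h : S.Up g u ≤ (S.Up g (u ++ w)).comap (LinearMap.mulRight (ZMod p) (S.ev g w)) := by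
    unfold Sys.Up
    rw [Submodule.span_le]
    rintro b ⟨v, hv, hsl, rfl⟩
    refine Submodule.subset_span ⟨v ++ w, by simp [hv], hsl.append w w, ?_⟩
    rw [LinearMap.mulRight_apply, ev_append]
  exact h ha

lemma ev_mem_Up {u u' : List (Fin D)} (h : SL u u') (hl : u'.length = u.length) :
    S.ev g u' ∈ S.Up g u :=
  Submodule.subset_span ⟨u', hl, h, rfl⟩

lemma Up_le_Up {u u' : List (Fin D)} (h : SL u u') (hl : u'.length = u.length) :
    S.Up g u' ≤ S.Up g u := by
  refine Submodule.span_mono ?_
  rintro b ⟨w, hw, hsl, hb⟩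
  exact ⟨w, hw.trans hl, h.trans hsl, hb⟩

lemma Up_mul_Up {u v : List (Fin D)} {a b : B} (ha : a ∈ S.Up g u) (hb : b ∈ S.Up g v) :
    a * b ∈ S.Up g (u ++ v) := by
  have h : S.Up g u ≤ (S.Up g (u ++ v)).comap (LinearMap.mulRight (ZMod p) b) := by
    conv_lhs => unfold Sys.Up
    rw [Submodule.span_le]
    rintro c ⟨w, hw, hsl, rfl⟩
    change S.ev g w * b ∈ S.Up g (u ++ v)
    exact S.Up_le_Up g (hsl.append v v) (by simp [hw]) (S.ev_mul_Up g w v hb)
  exact h ha

/-- products of elements with leading words -/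
lemma lead_mul {u v : List (Fin D)} {a b : B} (ha : a - S.ev g u ∈ S.Up g u)
    (hb : b - S.ev g v ∈ S.Up g v) : a * b - S.ev g (u ++ v) ∈ S.Up g (u ++ v) := by
  have e : a * b - S.ev g (u ++ v) = (a - S.ev g u) * (b - S.ev g v) +
      (a - S.ev g u) * S.ev g v + S.ev g u * (b - S.ev g v) := by
    rw [ev_append]
    noncomm_ring
  rw [e]
  exact add_mem (add_mem (S.Up_mul_Up g ha hb) (S.Up_mul_ev g v u ha)) (S.ev_mul_Up g u v hb)

theorem exists_P {u : List (Fin D)} (hu : Lyn u) :
    ∃ P ∈ S.LL g u.length, P - S.ev g u ∈ S.Up g u := by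
  induction hn : u.length using Nat.strong_induction_on generalizing u with
  | _ n ih =>
    subst hn
    rcases Nat.lt_or_ge u.length 2 with h2 | h2
    · obtain ⟨i, w, rfl⟩ := List.exists_cons_of_ne_nil hu.ne_nil
      have hw : w = [] := by
        rw [List.length_cons] at h2
        exact List.eq_nil_of_length_eq_zero (by omega)
      subst hw
      refine ⟨S.br g [i], S.br_mem_LL g [i], ?_⟩
      have : S.br g [i] - S.ev g [i] = 0 := by
        rw [ev_cons, ev_nil, mul_one]
        exact sub_self _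
      rw [this]
      exact zero_mem _
    · obtain ⟨u', u'', rfl, h1, h3, hlt⟩ := std_factor hu h2
      have hl1 : 0 < u'.length := List.length_pos_iff.2 h1.ne_nil
      have hl2 : 0 < u''.length := List.length_pos_iff.2 h3.ne_nil
      obtain ⟨P, hP, hP'⟩ := ih u'.length (by rw [List.length_append]; omega) h1 rfl
      obtain ⟨Q, hQ, hQ'⟩ := ih u''.length (by rw [List.length_append]; omega) h3 rfl
      have hsl : SL (u' ++ u'') (u'' ++ u') := (h1.mul h3 hlt).2.2
      have hlen : (u'' ++ u').length = (u' ++ u'').length := by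
        rw [List.length_append, List.length_append, add_comm]
      refine ⟨P * Q - Q * P, ?_, ?_⟩
      · rw [List.length_append]
        exact S.LL_lie g hl1 hl2 hP hQ
      · have e : P * Q - Q * P - S.ev g (u' ++ u'') = (P * Q - S.ev g (u' ++ u'')) -
            (Q * P - S.ev g (u'' ++ u')) - S.ev g (u'' ++ u') := by abel
        rw [e]
        exact sub_mem (sub_mem (S.lead_mul g hP' hQ')
          (S.Up_le_Up g hsl hlen (S.lead_mul g hQ' hP'))) (S.ev_mem_Up g hsl hlen)

end Sys

end Pool.Agent.H11.PP
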