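import Pool.Agent.H11.PP.Multi
import Pool.Agent.H11.PP.LiePoly

/-!
# The leading word of `T`

`Tlam lam t hs = ∑_{|u| = |hs|} lam (u ++ [t]) • MO u hs`.

Proof of `MO_lead` (paper).  Let `hs = [(t_1,γ_1), …, (t_m,γ_m)]`, `ws = [ℓ_1, …, ℓ_m]` with
`γ_i - ev ℓ_i ∈ Up ℓ_i ⊔ J (|ℓ_i| + 1)` and `SL ℓ_j ℓ_i` for `i < j`.  Let
`W = ws.reverse.flatten = ℓ_m … ℓ_1`.  Claim: for `|u| = m`,
`MO u hs - [u = (types of hs).reverse] ev W ∈ Up W ⊔ J (|W| + 1)`.
Induction on `u` (all `hs`, `ws`).  `u = s :: u'`: `MO u hs` is the sum over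
`(h, rest) ∈ picks hs` of `[h.1 = s] h.2 * MO u' rest`.  `rest` satisfies the same hypotheses with
the corresponding sublist `ws'` of `ws`.
* `h` the last element `(t_m, γ_m)`, `rest = hs.dropLast`: by induction
  `MO u' rest ∈ [u' = types(rest).reverse] ev W' + Up W' + J`, `W = ℓ_m ++ W'`, and
  `γ_m ∈ ev ℓ_m + Up ℓ_m + J`; the product is `[…] ev W + Up W + J` (`lead_mul`-type computation
  modulo `J (|W|+1)`).
* `h = (t_i, γ_i)` with `i < m`: `h.2 * MO u' rest` is a combination of `ev (w₁ ++ w₂)` with
  `w₁ = ℓ_i` or `SL ℓ_i w₁`, `|w₁| = |ℓ_i|`, `|w₂| = |W| - |ℓ_i|`, plus `J (|W|+1)`; since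
  `SL ℓ_m ℓ_i`, also `SL ℓ_m w₁`, so `SL W (w₁ ++ w₂)` (`SL.append`): the product is in
  `Up W ⊔ J (|W|+1)`.
It may be convenient to decompose `picks (hs' ++ [h])`:
`picks (hs' ++ [h])` is `(picks hs').map (fun q => (q.1, q.2 ++ [h])) ++ [(h, hs')]`.
`Tlam_lead` : sum over `u`; only `u = (types of hs).reverse` has a nonzero coefficient of `ev W`.
-/

namespace Pool.Agent.H11.PP.Sys

variable {p : ℕ} [Fact p.Prime] {B H : Type*} [Ring B] [Algebra (ZMod p) B] [Group H]
variable (S : Sys p B H) {D : ℕ} (g : Fin D → H)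

/-- the multilinearised leading form -/
noncomputable def _root_.Pool.Agent.H11.PP.Tlam {p : ℕ} {B : Type*} [Ring B]
    [Algebra (ZMod p) B] (lam : List (Fin 2) → ZMod p) (t : Fin 2) (hs : List (Fin 2 × B)) : B :=
  ∑ u : List.Vector (Fin 2) hs.length, lam (u.toList ++ [t]) • MO u.toList hs

/-- span of the words of length `n` with property `P`, modulo the next step of the filtration -/
private noncomputable def Sp (P : List (Fin D) → Prop) (n : ℕ) : Submodule (ZMod p) B :=
  Submodule.span (ZMod p) {b | ∃ w : List (Fin D), w.length = n ∧ P w ∧ b = S.ev g w} ⊔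
    S.J (n + 1)

private lemma Up_sup (u : List (Fin D)) :
    S.Up g u ⊔ S.J (u.length + 1) = Sp S g (SL u) u.length := rfl

private lemma ev_mem_Sp {P : List (Fin D) → Prop} {n : ℕ} {w : List (Fin D)}
    (hw : w.length = n) (hP : P w) : S.ev g w ∈ Sp S g P n :=
  Submodule.mem_sup_left (Submodule.subset_span ⟨w, hw, hP, rfl⟩)

private lemma Sp_mono {P Q : List (Fin D) → Prop} {n : ℕ} (h : ∀ w, P w → Q w) :
    Sp S g P n ≤ Sp S g Q n := by
  refine sup_le_sup_right (Submodule.span_mono ?_) _
  rintro b ⟨w, h1, h2, h3⟩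
  exact ⟨w, h1, h w h2, h3⟩

private lemma span_le_J (P : List (Fin D) → Prop) (n : ℕ) :
    Submodule.span (ZMod p) {b | ∃ w : List (Fin D), w.length = n ∧ P w ∧ b = S.ev g w} ≤
      S.J n := by
  rw [Submodule.span_le]
  rintro b ⟨w, rfl, -, rfl⟩
  exact S.ev_mem g w

private lemma Sp_le_J (P : List (Fin D) → Prop) (n : ℕ) : Sp S g P n ≤ S.J n :=
  sup_le (S.span_le_J g P n) (S.J_succ_le n)

private lemma span_mul {P Q R : List (Fin D) → Prop} {n m : ℕ}
    (h : ∀ w1 w2 : List (Fin D), w1.length = n → P w1 → w2.length = m → Q w2 → R (w1 ++ w2))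
    {x y : B}
    (hx : x ∈ Submodule.span (ZMod p)
      {b | ∃ w : List (Fin D), w.length = n ∧ P w ∧ b = S.ev g w})
    (hy : y ∈ Submodule.span (ZMod p)
      {b | ∃ w : List (Fin D), w.length = m ∧ Q w ∧ b = S.ev g w}) :
    x * y ∈ Submodule.span (ZMod p)
      {b | ∃ w : List (Fin D), w.length = n + m ∧ R w ∧ b = S.ev g w} := by
  induction hx using Submodule.span_induction with
  | mem x hx =>
    obtain ⟨w1, hw1, hP, rfl⟩ := hx
    induction hy using Submodule.span_induction with
    | mem y hy =>
      obtain ⟨w2, hw2, hQ, rfl⟩ := hy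
      refine Submodule.subset_span ⟨w1 ++ w2, by simp [hw1, hw2], h w1 w2 hw1 hP hw2 hQ, ?_⟩
      rw [ev_append]
    | zero => simp
    | add a b _ _ ha hb => rw [mul_add]; exact add_mem ha hb
    | smul c a _ ha => rw [mul_smul_comm]; exact Submodule.smul_mem _ _ ha
  | zero => simp
  | add a b _ _ ha hb => rw [add_mul]; exact add_mem ha hb
  | smul c a _ ha => rw [smul_mul_assoc]; exact Submodule.smul_mem _ _ ha

private lemma Sp_mul {P Q R : List (Fin D) → Prop} {n m : ℕ}
    (h : ∀ w1 w2 : List (Fin D), w1.length = n → P w1 → w2.length = m → Q w2 → R (w1 ++ w2))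
    {x y : B} (hx : x ∈ Sp S g P n) (hy : y ∈ Sp S g Q m) : x * y ∈ Sp S g R (n + m) := by
  have hyJ := S.Sp_le_J g Q m hy
  obtain ⟨x1, hx1, x2, hx2, rfl⟩ := Submodule.mem_sup.1 hx
  obtain ⟨y1, hy1, y2, hy2, rfl⟩ := Submodule.mem_sup.1 hy
  have h1 : x1 * y1 ∈ Sp S g R (n + m) :=
    Submodule.mem_sup_left (S.span_mul g h hx1 hy1)
  have h2 : x1 * y2 ∈ Sp S g R (n + m) := by
    refine Submodule.mem_sup_right ?_
    have := S.J_mul n (m + 1) _ _ (S.span_le_J g P n hx1) hy2
    rwa [show n + (m + 1) = n + m + 1 by omega] at this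
  have h3 : x2 * (y1 + y2) ∈ Sp S g R (n + m) := by
    refine Submodule.mem_sup_right ?_
    have := S.J_mul (n + 1) m _ _ hx2 hyJ
    rwa [show n + 1 + m = n + m + 1 by omega] at this
  have h4 : (x1 + x2) * (y1 + y2) = x1 * y1 + x1 * y2 + x2 * (y1 + y2) := by noncomm_ring
  rw [h4]
  exact add_mem (add_mem h1 h2) h3

private lemma lead_mul' {a b : List (Fin D)} {c d : ZMod p} {x y : B}
    (hx : x - c • S.ev g a ∈ Sp S g (SL a) a.length)
    (hy : y - d • S.ev g b ∈ Sp S g (SL b) b.length) :
    x * y - (c * d) • S.ev g (a ++ b) ∈ Sp S g (SL (a ++ b)) (a ++ b).length := by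
  have key : x * y - (c * d) • S.ev g (a ++ b) =
      (x - c • S.ev g a) * y + (c • S.ev g a) * (y - d • S.ev g b) := by
    rw [ev_append, sub_mul, mul_sub, smul_mul_smul_comm]
    abel
  have hy' : y ∈ Sp S g (fun _ => True) b.length := by
    have h1 : y = (y - d • S.ev g b) + d • S.ev g b := by abel
    rw [h1]
    exact add_mem (S.Sp_mono g (fun _ _ => trivial) hy)
      (Submodule.smul_mem _ _ (S.ev_mem_Sp g rfl trivial))
  rw [key, List.length_append]
  refine add_mem (S.Sp_mul g ?_ hx hy') (S.Sp_mul g (P := fun w => w = a) ?_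
    (Submodule.smul_mem _ _ (S.ev_mem_Sp g rfl rfl)) hy)
  · intro w1 w2 _ h1 _ _
    exact h1.append b w2
  · rintro w1 w2 _ rfl _ h2
    exact h2.append_left _

private lemma picks_concat {β : Type*} (hs : List β) (h : β) :
    picks (hs ++ [h]) = (picks hs).map (fun q => (q.1, q.2 ++ [h])) ++ [(h, hs)] := by
  induction hs with
  | nil => simp [picks]
  | cons a t ih =>
    rw [List.cons_append, picks, ih, picks, List.map_cons, List.map_append, List.map_map,
      List.map_map]
    simp [Function.comp_def]

private lemma picks_forall₂ {β γ : Type*} {R : β → List γ → Prop} {hs : List β} :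
    ∀ {ws : List (List γ)}, List.Forall₂ R hs ws → ∀ q ∈ picks hs, ∃ (a : List γ)
      (ws' : List (List γ)), a ∈ ws ∧ ws'.Sublist ws ∧ R q.1 a ∧ List.Forall₂ R q.2 ws' ∧
      a.length + ws'.flatten.length = ws.flatten.length ∧ q.2.length + 1 = hs.length := by
  induction hs with
  | nil => intro ws _ q hq; simp [picks] at hq
  | cons h0 t ih =>
    intro ws h q hq
    rcases h with _ | ⟨hk, ht⟩
    rename_i l ls
    rw [picks, List.mem_cons, List.mem_map] at hq
    rcases hq with rfl | ⟨r, hr, rfl⟩
    · exact ⟨l, ls, by simp, List.sublist_cons_self _ _, hk, ht, by simp, by simp⟩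
    · obtain ⟨a, ws', h1, h2, h3, h4, h5, h6⟩ := ih ht r hr
      refine ⟨a, l :: ws', List.mem_cons_of_mem _ h1, h2.cons_cons _, h3,
        List.Forall₂.cons hk h4, ?_, ?_⟩
      · simp only [List.flatten_cons, List.length_append]; omega
      · simp only [List.length_cons]; omega

theorem MO_lead (u : List (Fin 2)) (hs : List (Fin 2 × B)) (ws : List (List (Fin D)))
    (hu : u.length = hs.length)
    (h : List.Forall₂ (fun h l => h.2 - S.ev g l ∈ S.Up g l ⊔ S.J (l.length + 1)) hs ws)
    (hw : ws.Pairwise (fun a b => SL b a)) :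
    MO u hs - (if u = (hs.map Prod.fst).reverse then 1 else 0) • S.ev g ws.reverse.flatten ∈
      S.Up g ws.reverse.flatten ⊔ S.J (ws.reverse.flatten.length + 1) := by
  induction u generalizing hs ws with
  | nil =>
    cases h with
    | nil => simp [MO]
    | cons _ _ => simp at hu
  | cons s u ih =>
    rcases List.eq_nil_or_concat' hs with rfl | ⟨hs', h0, rfl⟩
    · simp at hu
    · obtain ⟨ws', l, rfl, hl, hws'⟩ : ∃ (ws' : List (List (Fin D))) (l : List (Fin D)),
          ws = ws' ++ [l] ∧ h0.2 - S.ev g l ∈ S.Up g l ⊔ S.J (l.length + 1) ∧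
          List.Forall₂ (fun h l => h.2 - S.ev g l ∈ S.Up g l ⊔ S.J (l.length + 1)) hs' ws' := by
        have h1 := List.forall₂_reverse_iff.2 h
        rw [List.reverse_append, List.reverse_singleton, List.singleton_append] at h1
        obtain ⟨l, t, h2, h3, h4⟩ := List.forall₂_cons_left_iff.1 h1
        refine ⟨t.reverse, l, ?_, h2, ?_⟩
        · rw [← List.reverse_cons, ← h4, List.reverse_reverse]
        · have := List.forall₂_reverse_iff.2 h3
          rwa [List.reverse_reverse] at this
      have hlen : u.length = hs'.length := by simpa using hu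
      rw [List.pairwise_append] at hw
      obtain ⟨hw1, -, hw3⟩ := hw
      have hW : (ws' ++ [l]).reverse.flatten = l ++ ws'.reverse.flatten := by simp
      rw [hW, Up_sup]
      rw [MO, picks_concat, List.map_append, List.sum_append, List.map_map, List.map_singleton,
        List.sum_singleton, add_sub_assoc]
      refine add_mem (list_sum_mem ?_) ?_
      · intro x hx
        rw [List.mem_map] at hx
        obtain ⟨q, hq, rfl⟩ := hx
        obtain ⟨a, ws'', h1, h2, h3, h4, h5, h6⟩ := picks_forall₂ hws' q hq
        have hIH := ih (q.2 ++ [h0]) (ws'' ++ [l]) (by simp; omega)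
          (List.rel_append h4 (List.Forall₂.cons hl List.Forall₂.nil)) (by
            rw [List.pairwise_append]
            exact ⟨hw1.sublist h2, by simp, fun x hx y hy => hw3 x (h2.subset hx) y hy⟩)
        have hla : SL l a := hw3 a h1 l (by simp)
        have hX : (if q.1.1 = s then q.1.2 else 0) ∈ Sp S g (SL l) a.length := by
          split_ifs with h7
          · have h8 : q.1.2 = (q.1.2 - S.ev g a) + S.ev g a := by abel
            rw [h8]
            refine add_mem (S.Sp_mono g (fun w hw' => hla.trans hw') h3) (S.ev_mem_Sp g rfl hla)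
          · exact zero_mem _
        have hW2 : (ws'' ++ [l]).reverse.flatten = l ++ ws''.reverse.flatten := by simp
        rw [hW2, Up_sup] at hIH
        have hY : MO u (q.2 ++ [h0]) ∈ Sp S g (fun _ => True)
            (l ++ ws''.reverse.flatten).length := by
          have h8 := add_mem (S.Sp_mono g (Q := fun _ => True) (fun _ _ => trivial) hIH)
            (Submodule.smul_mem _ (if u = (List.map Prod.fst (q.2 ++ [h0])).reverse then
              (1 : ZMod p) else 0)
              (S.ev_mem_Sp g (P := fun _ => True) (w := l ++ ws''.reverse.flatten) rfl trivial))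
          rw [show (if u = (List.map Prod.fst (q.2 ++ [h0])).reverse then
              (1 : ZMod p) else 0) • S.ev g (l ++ ws''.reverse.flatten) =
              (if u = (List.map Prod.fst (q.2 ++ [h0])).reverse then
              1 else 0) • S.ev g (l ++ ws''.reverse.flatten) by split_ifs <;> simp,
            sub_add_cancel] at h8
          exact h8
        have hrev : ∀ ws : List (List (Fin D)), ws.reverse.flatten.length = ws.flatten.length := by
          intro ws
          rw [List.length_flatten, List.length_flatten, List.map_reverse, List.sum_reverse]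
        have hlen2 : (l ++ ws'.reverse.flatten).length =
            a.length + (l ++ ws''.reverse.flatten).length := by
          rw [List.length_append, List.length_append, hrev, hrev]
          omega
        rw [hlen2]
        refine S.Sp_mul g ?_ hX hY
        intro w1 w2 hw1' hw1'' _ _
        exact hw1''.append _ _
      · have hIH := ih hs' ws' hlen hws' hw1
        rw [Up_sup] at hIH
        have hA : (if h0.1 = s then h0.2 else 0) -
            (if h0.1 = s then (1 : ZMod p) else 0) • S.ev g l ∈ Sp S g (SL l) l.length := by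
          split_ifs
          · rw [one_smul]; exact hl
          · simp
        have hB : MO u hs' - (if u = (hs'.map Prod.fst).reverse then (1 : ZMod p) else 0) •
            S.ev g ws'.reverse.flatten ∈ Sp S g (SL ws'.reverse.flatten)
              ws'.reverse.flatten.length := by
          convert hIH using 2
          split_ifs <;> simp
        have hAB := S.lead_mul' g hA hB
        convert hAB using 2
        rw [List.map_append, List.reverse_append, List.map_singleton, List.reverse_singleton,
          List.singleton_append]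
        by_cases h1 : h0.1 = s
        · by_cases h2 : u = (hs'.map Prod.fst).reverse
          · rw [if_pos h1, if_pos h2, if_pos (by rw [h1, h2]), one_smul, mul_one, one_smul]
          · rw [if_pos h1, if_neg h2, if_neg (by
              intro h3
              exact h2 (List.cons.inj h3).2), zero_smul, mul_zero, zero_smul]
        · rw [if_neg h1, if_neg (by
            intro h3
            exact h1 (List.cons.inj h3).1.symm), zero_smul, zero_mul, zero_smul]

theorem Tlam_lead (lam : List (Fin 2) → ZMod p) (t : Fin 2) (hs : List (Fin 2 × B))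
    (ws : List (List (Fin D)))
    (h : List.Forall₂ (fun h l => h.2 - S.ev g l ∈ S.Up g l ⊔ S.J (l.length + 1)) hs ws)
    (hw : ws.Pairwise (fun a b => SL b a)) :
    Tlam lam t hs - lam ((hs.map Prod.fst).reverse ++ [t]) • S.ev g ws.reverse.flatten ∈
      S.Up g ws.reverse.flatten ⊔ S.J (ws.reverse.flatten.length + 1) := by
  classical
  have h1 : ∑ u : List.Vector (Fin 2) hs.length, lam (u.toList ++ [t]) •
      (MO u.toList hs - (if u.toList = (hs.map Prod.fst).reverse then 1 else 0) •
        S.ev g ws.reverse.flatten) ∈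
      S.Up g ws.reverse.flatten ⊔ S.J (ws.reverse.flatten.length + 1) := by
    refine Submodule.sum_mem _ (fun u _ => Submodule.smul_mem _ _ ?_)
    exact S.MO_lead g u.toList hs ws (by simp) h hw
  have h2 : ∑ u : List.Vector (Fin 2) hs.length, lam (u.toList ++ [t]) •
      (if u.toList = (hs.map Prod.fst).reverse then 1 else 0) •
        S.ev g ws.reverse.flatten =
      lam ((hs.map Prod.fst).reverse ++ [t]) • S.ev g ws.reverse.flatten := by
    have h0 : (hs.map Prod.fst).reverse.length = hs.length := by simp
    let u0 : List.Vector (Fin 2) hs.length := ⟨(hs.map Prod.fst).reverse, h0⟩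
    have hu0 : u0.toList = (hs.map Prod.fst).reverse := rfl
    refine (Finset.sum_eq_single u0 ?_ ?_).trans ?_
    · intro u _ hu
      rw [if_neg, zero_smul, smul_zero]
      intro h3
      exact hu (Subtype.ext h3)
    · intro h3
      exact absurd (Finset.mem_univ (α := List.Vector (Fin 2) hs.length) _) h3
    · rw [hu0, if_pos rfl, one_smul]
  rw [← h2, Tlam, ← Finset.sum_sub_distrib]
  simp only [← smul_sub]
  exact h1

end Pool.Agent.H11.PP.Sys
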