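import Pool.Agent.H11.PP.Top

/-!
# Lemma N: nested subspaces from the pigeonhole principle

A list `kps` of triples `(type s, scale k, precision P)` is given.
`qs D τ μ kps` : the list of (scale, codimension bound); `rr` the final rank bound.

Proof of `lemmaN` (paper).  Induction on `kps` (for all `N`, `Pin`, `τ`, `α`, `c`, `Sset`).
`kps = []` : this is `top` (with `P = Pin`), as `Nest [] Q = Q []`.
`kps = (s,k,P) :: kps'`.  `Om = XX k × Om'` with `Om' = Om p D (ps')`.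
(1) Choose for every `χ ∈ Sset` some `w_χ, d_χ`.  `pigeon` for the class
`χ ↦ (u ↦ d_χ (u ++ [t]), |u| < P)` (there are `∑_{n<P} 2^n < 2^P` words) gives a class `c'`
(extend it to a function on lists; it agrees with `c` on `u ++ [t]`, `|u| < Pin ≤ P`, if the class
is nonempty) and a set `T ⊆ XX k` with `|XX k| ≤ p^(τ+2^P+1) |T|` such that for `v ∈ T` the fibre
has density `≥ p^-(τ+2^P+1)` in `Om'` (`T` is nonempty, so the class is nonempty).  Put
`τ' = τ + 2^P + 1`.
(2) For `v ∈ T` let `α^v = update α s (ge v * α s)` (values in `D e` as `e ≤ k`), and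
`X^v r = of (α^v r) - 1`.  Then `X^v = update X s (X s + γ_v (1 + X s))`, `γ_v = of (ge v) - 1`.
Induction hypothesis for `N + k`, `P`, `τ'`, `α^v`, `c'` and the fibre:
`Nest (qs D τ' 1 kps') (fun L => RR (rr D τ' 1 PM kps') (Mc P c' t X^v (zip ts' L)))`.
(3) Fix `v₀ ∈ T`, `V = span {v - v₀ : v ∈ T}`; `codim V ≤ τ'` (`span_codim`).  For `u ∈ V` write
`u = ∑_{j ∈ I} a_j (v_j - v₀)`, `v_j ∈ T`, `|I| ≤ dim (XX k) = D^k` (choose a basis of `V` among the
generators; `card_vector`).  By `Nest.inter` for the at most `D^k + 1` elements `v_j, v₀` and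
`Nest.imp`, `RR.sum`: `Nest (qs D τ' (D^k+1) kps')` of
`fun L => RR ((D^k+1) * rr D τ' 1 PM kps') (∑ a_j Mc P c' t X^{v_j} (zip ts' L)
  - (∑ a_j) Mc P c' t X^{v₀} (zip ts' L))`; here
`qs D τ' (D^k+1) kps' = (qs D τ' 1 kps').map (mult by (D^k+1))` (`qs_mul`), similarly `rr_mul`.
(4) For `L` as in `InSk`, `hs = zip ts' L` has degrees `ks'`, `∑ ks' = N' - N - k`.  By `MM_pert`
`Mc P c' t X^v hs ≡ Mc P c' t X hs + Mc P c' t X ((s,γ_v) :: hs)` modulo `J (2k + ∑ks')
  ≤ J (N'+1)` (as `N + 1 ≤ k`).  So the combination above is `≡ Mc P c' t X ((s, ∑ a_j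
(γ_{v_j} - γ_{v₀})) :: hs)` (`MM_add`, `MM_smul`) and
`∑ a_j (γ_{v_j} - γ_{v₀}) ≡ sk (∑ a_j (v_j - v₀)) = sk u` modulo `J (2k)` (`ge_sub_sk`); by
`MM_add` and `MM_mem` the difference is in `J (2k + ∑ks') ≤ J (N'+1)`.
(5) `Mc P c' t X ((s, sk u) :: hs) ≡ Mc Pin c t X ((s, sk u) :: hs)` modulo `J (N'+1)` :
the words `u'` with `|u'| < Pin` have the same coefficients; for `Pin ≤ |u'| < P`,
`MM X u' ((s, sk u) :: hs) ∈ J (k + ∑ks' + (|u'| - (|kps'| + 1)) e)` (`MM_mem`) and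
`(Pin - (|kps'|+1)) e ≥ N + 1` (from `Cond`), `k + ∑ks' + N + 1 = N' + 1`.
Use `RR.congr`.
-/

namespace Pool.Agent.H11.PP

variable {p : ℕ} [Fact p.Prime]

/-- codimension bounds -/
def qs (D : ℕ) : ℕ → ℕ → List (Fin 2 × ℕ × ℕ) → List (ℕ × ℕ)
  | _, _, [] => []
  | τ, μ, x :: kps => (x.2.1, μ * (τ + 2 ^ x.2.2 + 1)) ::
      qs D (τ + 2 ^ x.2.2 + 1) (μ * (D ^ x.2.1 + 1)) kps

/-- final rank bound -/
def rr (D : ℕ) (PM : ℕ) : ℕ → ℕ → List (Fin 2 × ℕ × ℕ) → ℕ
  | τ, μ, [] => μ * (τ + 2 ^ PM)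
  | τ, μ, x :: kps => rr D PM (τ + 2 ^ x.2.2 + 1) (μ * (D ^ x.2.1 + 1)) kps

/-- conditions on scales and precisions; `N` is the sum of the previous scales -/
def Cond (e PM : ℕ) : ℕ → ℕ → List (Fin 2 × ℕ × ℕ) → Prop
  | N, Pin, [] => N + 1 ≤ e * Pin ∧ Pin + 1 ≤ PM
  | N, Pin, x :: kps => N + 1 ≤ x.2.1 ∧ e ≤ x.2.1 ∧ Pin ≤ x.2.2 ∧
      N + 1 ≤ (Pin - (kps.length + 1)) * e ∧ Cond e PM (N + x.2.1) x.2.2 kps

lemma qs_mul (D τ μ ν : ℕ) (kps : List (Fin 2 × ℕ × ℕ)) :
    qs D τ (ν * μ) kps = (qs D τ μ kps).map fun kq => (kq.1, ν * kq.2) := by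
  induction kps generalizing τ μ with
  | nil => rfl
  | cons x kps ih =>
    simp only [qs, List.map_cons, mul_assoc, ih]

lemma rr_mul (D PM τ μ ν : ℕ) (kps : List (Fin 2 × ℕ × ℕ)) :
    rr D PM τ (ν * μ) kps = ν * rr D PM τ μ kps := by
  induction kps generalizing τ μ with
  | nil => simp only [rr, mul_assoc]
  | cons x kps ih => simp only [rr, mul_assoc, ih]

section aux

lemma qs_cons (D τ μ : ℕ) (x : Fin 2 × ℕ × ℕ) (kps : List (Fin 2 × ℕ × ℕ)) :
    qs D τ μ (x :: kps) = (x.2.1, μ * (τ + 2 ^ x.2.2 + 1)) ::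
      qs D (τ + 2 ^ x.2.2 + 1) (μ * (D ^ x.2.1 + 1)) kps := rfl

lemma rr_cons (D PM τ μ : ℕ) (x : Fin 2 × ℕ × ℕ) (kps : List (Fin 2 × ℕ × ℕ)) :
    rr D PM τ μ (x :: kps) = rr D PM (τ + 2 ^ x.2.2 + 1) (μ * (D ^ x.2.1 + 1)) kps := rfl

lemma Nest_cons {B H : Type*} [Ring B] [Algebra (ZMod p) B] [Group H] (S : Sys p B H) {D : ℕ}
    (g : Fin D → H) (kq : ℕ × ℕ) (ks : List (ℕ × ℕ)) (Q : List B → Prop) :
    S.Nest g (kq :: ks) Q = ∃ V : Submodule (ZMod p) (XX p D kq.1),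
      Module.finrank (ZMod p) (XX p D kq.1 ⧸ V) ≤ kq.2 ∧
        ∀ u ∈ V, S.Nest g ks (fun L => Q (S.sk g kq.1 u :: L)) := rfl

/-- the words of length less than `P` -/
lemma card_words (P : ℕ) : Fintype.card (Σ n : Fin P, List.Vector (Fin 2) n) ≤ 2 ^ P := by
  have h : ∀ P : ℕ, ∑ n ∈ Finset.range P, 2 ^ n + 1 = 2 ^ P := by
    intro P
    induction P with
    | zero => simp
    | succ P ih => rw [Finset.sum_range_succ, pow_succ]; omega
  rw [Fintype.card_sigma]
  simp only [card_vector, Fintype.card_fin]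
  rw [Fin.sum_univ_eq_sum_range (fun n => 2 ^ n) P]
  have := h P
  omega

lemma class_pigeon {X Y : Type*} [Fintype X] [Fintype Y] [Nonempty X] [Nonempty Y] (τ P : ℕ)
    (t : Fin 2) (Sset : Finset (X × Y))
    (hS : Fintype.card X * Fintype.card Y ≤ p ^ τ * Sset.card)
    (Pr : X × Y → (List (Fin 2) → ZMod p) → Prop) (h : ∀ χ ∈ Sset, ∃ d, Pr χ d) :
    ∃ χ₀ ∈ Sset, ∃ d₀, Pr χ₀ d₀ ∧ ∃ T : Finset X, T.Nonempty ∧
      Fintype.card X ≤ p ^ (τ + 2 ^ P + 1) * T.card ∧
      ∀ x ∈ T, ∃ Sx : Finset Y, Fintype.card Y ≤ p ^ (τ + 2 ^ P + 1) * Sx.card ∧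
        ∀ y ∈ Sx, ∃ d, Pr (x, y) d ∧
          ∀ u : List (Fin 2), u.length < P → d (u ++ [t]) = d₀ (u ++ [t]) := by
  classical
  have hp : 2 ≤ p := (Fact.out : p.Prime).two_le
  choose! d hd using h
  let cls : X × Y → ((Σ n : Fin P, List.Vector (Fin 2) n) → ZMod p) :=
    fun χ a => d χ (a.2.toList ++ [t])
  have hK : Fintype.card ((Σ n : Fin P, List.Vector (Fin 2) n) → ZMod p) ≤ p ^ (2 ^ P) := by
    rw [Fintype.card_fun, ZMod.card]
    exact Nat.pow_le_pow_right (by omega) (card_words P)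
  obtain ⟨c, T, hT1, hT2⟩ := pigeon hp τ (2 ^ P) hK Sset hS cls
  have hTne : T.Nonempty := by
    rw [Finset.nonempty_iff_ne_empty]
    rintro rfl
    have : 0 < Fintype.card X := Fintype.card_pos
    simp at hT1
  obtain ⟨x₀, hx₀⟩ := hTne
  have hfib : ∃ y, (x₀, y) ∈ Sset ∧ cls (x₀, y) = c := by
    by_contra hcon
    push Not at hcon
    have h1 := hT2 x₀ hx₀
    have h2 : (Finset.univ.filter fun y => (x₀, y) ∈ Sset ∧ cls (x₀, y) = c) = ∅ := by
      rw [Finset.filter_eq_empty_iff]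
      rintro y - ⟨h3, h4⟩
      exact hcon y h3 h4
    rw [h2] at h1
    have : 0 < Fintype.card Y := Fintype.card_pos
    simp at h1
  obtain ⟨y₀, hy₀, hc₀⟩ := hfib
  refine ⟨(x₀, y₀), hy₀, d (x₀, y₀), hd _ hy₀, T, ⟨x₀, hx₀⟩, hT1, ?_⟩
  intro x hx
  refine ⟨_, hT2 x hx, ?_⟩
  intro y hy
  rw [Finset.mem_filter] at hy
  refine ⟨d (x, y), hd _ hy.2.1, ?_⟩
  intro u hu
  have h1 : cls (x, y) = cls (x₀, y₀) := hy.2.2.trans hc₀.symm
  exact congrFun h1 ⟨⟨u.length, hu⟩, ⟨u, rfl⟩⟩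

/-- elements of the span of the differences as affine combinations -/
lemma exists_comb {F V : Type*} [Field F] [AddCommGroup V] [Module F V] [FiniteDimensional F V]
    (T : Finset V) {v₀ : V} (hv₀ : v₀ ∈ T) {u : V}
    (hu : u ∈ Submodule.span F ((fun v => v - v₀) '' (T : Set V))) :
    ∃ (I : Finset V) (b : V → F), I ⊆ T ∧ I.card ≤ Module.finrank F V + 1 ∧
      ∑ v ∈ I, b v = 0 ∧ ∑ v ∈ I, b v • v = u := by
  classical
  obtain ⟨bs, hbs, hspan, hli⟩ := exists_linearIndependent F ((fun v => v - v₀) '' (T : Set V))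
  rw [← hspan] at hu
  have hfin : bs.Finite := (T.finite_toSet.image _).subset hbs
  obtain ⟨b0, rfl⟩ := hfin.exists_finset_coe
  rw [Submodule.mem_span_finset] at hu
  obtain ⟨f, -, hf⟩ := hu
  have h0 : ∀ w ∈ b0, w ≠ 0 := fun w hw => hli.ne_zero (⟨w, hw⟩ : (b0 : Set V))
  have hinj : ∀ x ∈ b0, ∀ y ∈ b0, x + v₀ = y + v₀ → x = y := fun x _ y _ h =>
    add_right_cancel h
  have hnot : v₀ ∉ b0.image (· + v₀) := by
    rw [Finset.mem_image]
    rintro ⟨w, hw, hw'⟩
    exact h0 w hw (by simpa using hw')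
  have hcard : b0.card ≤ Module.finrank F V := by
    have h1 : Module.finrank F (Submodule.span F (b0 : Set V)) = b0.card :=
      finrank_span_finset_eq_card hli
    rw [← h1]
    exact Submodule.finrank_le _
  refine ⟨insert v₀ (b0.image (· + v₀)),
    fun v => if v = v₀ then - ∑ w ∈ b0, f w else f (v - v₀), ?_, ?_, ?_, ?_⟩
  · intro v hv
    rw [Finset.mem_insert, Finset.mem_image] at hv
    rcases hv with rfl | ⟨w, hw, rfl⟩
    · exact hv₀
    · obtain ⟨v, hv, hvw⟩ := hbs hw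
      rw [← hvw]
      simpa using hv
  · refine (Finset.card_insert_le _ _).trans ?_
    exact Nat.add_le_add_right (Finset.card_image_le.trans hcard) 1
  · rw [Finset.sum_insert hnot, Finset.sum_image hinj, if_pos rfl, neg_add_eq_zero]
    refine Finset.sum_congr rfl fun w hw => ?_
    rw [if_neg (by simpa using h0 w hw), add_sub_cancel_right]
  · rw [Finset.sum_insert hnot, Finset.sum_image hinj]
    beta_reduce
    rw [if_pos rfl, neg_smul, neg_add_eq_iff_eq_add, ← hf, Finset.sum_smul,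
      ← Finset.sum_add_distrib]
    refine Finset.sum_congr rfl fun w hw => ?_
    rw [if_neg (by simpa using h0 w hw), add_sub_cancel_right, smul_add, add_comm]

variable {B H : Type*} [Ring B] [Algebra (ZMod p) B] [Group H] (S : Sys p B H)

lemma Mc_pert {e k : ℕ} {X : Fin 2 → B} (hX : ∀ t, X t ∈ S.J e) (P : ℕ)
    (c : List (Fin 2) → ZMod p) (t : Fin 2) {hs : List (Fin 2 × B)} {ks : List ℕ}
    (h : S.Wt hs ks) (s : Fin 2) {γ : B} (hγ : γ ∈ S.J k) :
    Mc P c t (Function.update X s (X s + γ * (1 + X s))) hs - Mc P c t X hs -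
      Mc P c t X ((s, γ) :: hs) ∈ S.J (2 * k + ks.sum) := by
  unfold Mc
  rw [← Finset.sum_sub_distrib, ← Finset.sum_sub_distrib]
  refine Submodule.sum_mem _ fun n _ => ?_
  rw [← Finset.sum_sub_distrib, ← Finset.sum_sub_distrib]
  refine Submodule.sum_mem _ fun u _ => ?_
  rw [← smul_sub, ← smul_sub]
  exact Submodule.smul_mem _ _ (S.MM_pert hX u.toList h s hγ)

lemma Mc_mem {e : ℕ} {X : Fin 2 → B} (hX : ∀ t, X t ∈ S.J e) (P : ℕ)
    (c : List (Fin 2) → ZMod p) (t : Fin 2) {hs : List (Fin 2 × B)} {ks : List ℕ}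
    (h : S.Wt hs ks) : Mc P c t X hs ∈ S.J ks.sum := by
  unfold Mc
  refine Submodule.sum_mem _ fun n _ => Submodule.sum_mem _ fun u _ =>
    Submodule.smul_mem _ _ ?_
  exact S.J_anti (Nat.le_add_right _ _) (S.MM_mem hX u.toList h)

/-- `Mc` is linear in the first perturbation -/
lemma exists_Mc_linear (P : ℕ) (c : List (Fin 2) → ZMod p) (t : Fin 2) (X : Fin 2 → B)
    (s : Fin 2) (hs : List (Fin 2 × B)) :
    ∃ f : B →ₗ[ZMod p] B, ∀ γ, f γ = Mc P c t X ((s, γ) :: hs) := by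
  have h : ∀ n (u : List.Vector (Fin 2) n), ∃ f : B →ₗ[ZMod p] B,
      ∀ γ, f γ = MM X u.toList ((s, γ) :: hs) :=
    fun n u => Sys.exists_MM_linear (p := p) X u.toList hs s
  choose f hf using h
  refine ⟨∑ n ∈ Finset.range P, ∑ u : List.Vector (Fin 2) n, c (u.toList ++ [t]) • f n u, ?_⟩
  intro γ
  simp only [LinearMap.sum_apply, LinearMap.smul_apply, hf, Mc]

/-- change of the precision and of the coefficients -/
lemma Mc_trunc {e : ℕ} {X : Fin 2 → B} (hX : ∀ t, X t ∈ S.J e) {Pin P n' : ℕ} (hP : Pin ≤ P)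
    {c c' : List (Fin 2) → ZMod p} (t : Fin 2)
    (hc : ∀ u : List (Fin 2), u.length < Pin → c' (u ++ [t]) = c (u ++ [t]))
    {hs : List (Fin 2 × B)} {ks : List ℕ} (h : S.Wt hs ks)
    (hn : n' ≤ ks.sum + (Pin - hs.length) * e) :
    Mc P c' t X hs - Mc Pin c t X hs ∈ S.J n' := by
  have h1 : Mc Pin c t X hs = Mc Pin c' t X hs := by
    unfold Mc
    refine Finset.sum_congr rfl fun n hn => Finset.sum_congr rfl fun u _ => ?_
    rw [hc _ (by simpa using hn)]
  rw [h1]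
  unfold Mc
  rw [← Finset.sum_range_add_sum_Ico _ hP, add_sub_cancel_left]
  refine Submodule.sum_mem _ fun n hn' => Submodule.sum_mem _ fun u _ =>
    Submodule.smul_mem _ _ ?_
  refine S.J_anti ?_ (S.MM_mem hX u.toList h)
  rw [Finset.mem_Ico] at hn'
  refine hn.trans (Nat.add_le_add_left (Nat.mul_le_mul_right _ ?_) _)
  rw [List.Vector.toList_length]
  omega

variable {D : ℕ} (g : Fin D → H)

lemma Wt_of_InSk (τ μ : ℕ) (kps : List (Fin 2 × ℕ × ℕ)) (L : List B)
    (h : S.InSk g L (qs D τ μ kps)) :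
    S.Wt (List.zip (kps.map fun x => x.1) L) (kps.map fun x => x.2.1) ∧
      L.length = kps.length := by
  induction kps generalizing τ μ L with
  | nil =>
    have h' : L = [] := by
      cases h
      rfl
    subst h'
    exact ⟨List.Forall₂.nil, rfl⟩
  | cons x kps ih =>
    have h' : ∃ γ L', L = γ :: L' ∧ (∃ ε : XX p D x.2.1, γ = S.sk g x.2.1 ε) ∧
        S.InSk g L' (qs D (τ + 2 ^ x.2.2 + 1) (μ * (D ^ x.2.1 + 1)) kps) := by
      unfold Sys.InSk qs at h
      rcases h with _ | ⟨h1, h2⟩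
      exact ⟨_, _, rfl, h1, h2⟩
    obtain ⟨γ, L', rfl, ⟨ε, rfl⟩, h2⟩ := h'
    obtain ⟨h3, h4⟩ := ih _ _ _ h2
    refine ⟨?_, by simp [h4]⟩
    rw [List.map_cons, List.map_cons, List.zip_cons_cons]
    exact List.Forall₂.cons (S.sk_mem g _ ε) h3

end aux

theorem lemmaN {B H : Type*} [Ring B] [Algebra (ZMod p) B] [Group H]
    [FiniteDimensional (ZMod p) B]
    (S : Sys p B H) {D : ℕ} (g : Fin D → H) (e M N' PM : ℕ) (he : 1 ≤ e)
    (hPM : M ≤ e * PM) (t : Fin 2) (is : List ℕ)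
    (his : ∀ i ∈ is, N' + e ≤ i ∧ i + N' + 1 ≤ M)
    (kps : List (Fin 2 × ℕ × ℕ)) (N Pin τ : ℕ)
    (hN' : N' = N + (kps.map fun x => x.2.1).sum) (hC : Cond e PM N Pin kps)
    (α : Fin 2 → H) (hα : ∀ s, α s ∈ S.D e) (c : List (Fin 2) → ZMod p)
    (Sset : Finset (Om p D (kps.map (fun x => (x.1, x.2.1)) ++ is.map fun i => (t, i))))
    (hS : Fintype.card (Om p D (kps.map (fun x => (x.1, x.2.1)) ++ is.map fun i => (t, i))) ≤
      p ^ τ * Sset.card)
    (hw : ∀ χ ∈ Sset, HasWord S M PM Pin c t (pert g _ χ α)) :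
    S.Nest g (qs D τ 1 kps) (fun L => S.RR g N' is (rr D PM τ 1 kps)
      (Mc Pin c t (fun s => S.of (α s) - 1) (List.zip (kps.map fun x => x.1) L))) := by
  induction kps generalizing N Pin τ α c with
  | nil =>
    have hC' : N + 1 ≤ e * Pin ∧ Pin + 1 ≤ PM := hC
    have hN : N' = N := by simpa using hN'
    subst hN
    have h := top S g e M N' PM Pin τ he hPM hC'.1 hC'.2 t is his α hα c Sset hS hw
    show S.RR g N' is (1 * (τ + 2 ^ PM)) (Mc Pin c t _ [])
    rw [one_mul]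
    exact h
  | cons x kps ih =>
    obtain ⟨s, k, P⟩ := x
    obtain ⟨hk1, hk2, hk3, hk4, hC'⟩ : N + 1 ≤ k ∧ e ≤ k ∧ Pin ≤ P ∧
      N + 1 ≤ (Pin - (kps.length + 1)) * e ∧ Cond e PM (N + k) P kps := hC
    have hNs : N' = N + k + (kps.map fun x => x.2.1).sum := by
      rw [hN', List.map_cons, List.sum_cons, add_assoc]
    have hX : ∀ r, S.of (α r) - 1 ∈ S.J e := fun r => hα r
    -- the pigeonhole principle
    have hex : ∀ χ ∈ Sset, ∃ d : List (Fin 2) → ZMod p, ∃ w : Fr, Rep PM d w ∧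
        (∀ u : List (Fin 2), u.length < Pin → d (u ++ [t]) = c (u ++ [t])) ∧
        FreeGroup.lift (pert g _ χ α) w ∈ S.D M := by
      intro χ hχ
      obtain ⟨w, d, h1, h2, h3⟩ := hw χ hχ
      exact ⟨d, w, h1, h2, h3⟩
    have hcard : Fintype.card (XX p D k) * Fintype.card (Om p D (kps.map
        (fun x => (x.1, x.2.1)) ++ is.map fun i => (t, i))) ≤ p ^ τ * Sset.card := by
      have h1 : Fintype.card (Om p D (((s, k, P) :: kps).map
          (fun x => (x.1, x.2.1)) ++ is.map fun i => (t, i))) =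
          Fintype.card (XX p D k) * Fintype.card (Om p D (kps.map
            (fun x => (x.1, x.2.1)) ++ is.map fun i => (t, i))) := by
        rw [← Nat.card_eq_fintype_card, ← Nat.card_eq_fintype_card, ← Nat.card_eq_fintype_card]
        exact Nat.card_prod _ _
      rw [← h1]
      exact hS
    have := instNonemptyOm p D (kps.map (fun x => (x.1, x.2.1)) ++ is.map fun i => (t, i))
    obtain ⟨χ₀, hχ₀, d₀, ⟨w₀, hw₀1, hw₀2, hw₀3⟩, T, ⟨v₀, hv₀⟩, hT, hfib⟩ :=
      class_pigeon (p := p) (X := XX p D k) τ P t Sset hcard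
        (fun χ d => ∃ w : Fr, Rep PM d w ∧
        (∀ u : List (Fin 2), u.length < Pin → d (u ++ [t]) = c (u ++ [t])) ∧
        FreeGroup.lift (pert g ((s, k) :: (kps.map (fun x => (x.1, x.2.1)) ++
          is.map fun i => (t, i))) χ α) w ∈ S.D M) hex
    -- the induction hypothesis
    obtain ⟨Tf, hTf⟩ : ∃ Tf : XX p D k → List B → B, Tf = fun v L => (Mc P d₀ t
          (fun r => S.of (Function.update α s (ge g v * α s) r) - 1)
          (List.zip (kps.map fun x => x.1) L)) := ⟨_, rfl⟩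
    have hIH : ∀ v ∈ T, S.Nest g (qs D (τ + 2 ^ P + 1) 1 kps) (fun L => S.RR g N' is
        (rr D PM (τ + 2 ^ P + 1) 1 kps) (Tf v L)) := by
      intro v hv
      rw [hTf]
      obtain ⟨Sx, hSx, hSx'⟩ := hfib v hv
      refine ih (N + k) P (τ + 2 ^ P + 1) hNs hC' (Function.update α s (ge g v * α s)) ?_ d₀ Sx
        hSx ?_
      · intro r
        by_cases hr : r = s
        · subst hr
          rw [Function.update_self]
          exact mul_mem (S.D_anti hk2 (S.ge_mem g k v)) (hα _)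
        · rw [Function.update_of_ne hr]
          exact hα r
      · intro y hy
        obtain ⟨d, ⟨w, h1, h2, h3⟩, h4⟩ := hSx' y hy
        exact ⟨w, d, h1, h4, h3⟩
    have hcodim := span_codim (τ + 2 ^ P + 1) T v₀ hT
    rw [qs_cons, Nest_cons]
    refine ⟨Submodule.span (ZMod p) ((fun v => v - v₀) '' (T : Set (XX p D k))),
      hcodim.trans_eq (one_mul _).symm, ?_⟩
    intro u hu
    obtain ⟨I, b, hIT, hIcard, hb0, hbu⟩ := exists_comb T hv₀ hu
    have hfr : Module.finrank (ZMod p) (XX p D k) = D ^ k := by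
      rw [Module.finrank_fintype_fun_eq_card, card_vector, Fintype.card_fin]
    rw [hfr] at hIcard
    have hinter := Sys.Nest.inter (S := S) (g := g) (ks := qs D (τ + 2 ^ P + 1) 1 kps) I
      (D ^ k + 1) hIcard (fun v L => S.RR g N' is (rr D PM (τ + 2 ^ P + 1) 1 kps) (Tf v L))
      (fun v hv => hIH v (hIT hv))
    rw [← qs_mul, mul_one] at hinter
    rw [one_mul]
    refine hinter.imp ?_
    intro L hL hQ
    rw [rr_cons, one_mul, List.map_cons, List.zip_cons_cons]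
    obtain ⟨hWt, hLlen⟩ := Wt_of_InSk S g _ _ kps L hL
    set hs := List.zip (kps.map fun x => x.1) L with hhs
    have hhslen : hs.length = kps.length := by
      rw [hhs, List.length_zip, List.length_map, hLlen, min_self]
    have hsum := Sys.RR.sum I b (fun v => Tf v L) hQ
    have hmono := Sys.RR.mono (r' := rr D PM (τ + 2 ^ P + 1) (D ^ k + 1) kps) (by
      have h1 : rr D PM (τ + 2 ^ P + 1) (D ^ k + 1) kps =
          (D ^ k + 1) * rr D PM (τ + 2 ^ P + 1) 1 kps := by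
        rw [← rr_mul, mul_one]
      rw [h1]
      exact Nat.mul_le_mul_right _ hIcard) hsum
    refine Sys.RR.congr ?_ hmono
    obtain ⟨f, hf⟩ := exists_Mc_linear P d₀ t (fun s => S.of (α s) - 1) s hs
    have hNle : N' + 1 ≤ 2 * k + (kps.map fun x => x.2.1).sum := by
      rw [hNs]
      omega
    have hγ : ∀ v : XX p D k, S.of (ge g v) - 1 ∈ S.J k := fun v => S.ge_mem g k v
    have h1 : ∀ v ∈ I, Tf v L - Mc P d₀ t (fun s => S.of (α s) - 1) hs -
        f (S.of (ge g v) - 1) ∈ S.J (N' + 1) := by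
      intro v _
      have h2 := Mc_pert S hX P d₀ t hWt s (hγ v)
      have h3 : (fun r => S.of (Function.update α s (ge g v * α s) r) - 1) =
          Function.update (fun s => S.of (α s) - 1) s ((fun s => S.of (α s) - 1) s +
            (S.of (ge g v) - 1) * (1 + (fun s => S.of (α s) - 1) s)) := by
        funext r
        by_cases hr : r = s
        · subst hr
          rw [Function.update_self, Function.update_self, map_mul]
          noncomm_ring
        · rw [Function.update_of_ne hr, Function.update_of_ne hr]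
      rw [hTf, hf]
      beta_reduce
      rw [h3]
      exact S.J_anti hNle h2
    have h4 : ∑ v ∈ I, b v • Tf v L - f (∑ v ∈ I, b v • (S.of (ge g v) - 1)) ∈
        S.J (N' + 1) := by
      have h5 : ∑ v ∈ I, b v • (Tf v L - Mc P d₀ t (fun s => S.of (α s) - 1) hs -
          f (S.of (ge g v) - 1)) ∈ S.J (N' + 1) :=
        Submodule.sum_mem _ fun v hv => Submodule.smul_mem _ _ (h1 v hv)
      simp only [smul_sub (b _), Finset.sum_sub_distrib] at h5
      rw [← Finset.sum_smul, hb0, zero_smul, sub_zero] at h5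
      rw [map_sum]
      simp only [map_smul]
      exact h5
    have hsk : S.sk g k u = ∑ v ∈ I, b v • S.sk g k v := by
      rw [← hbu, map_sum]
      simp only [map_smul]
    have h6 : f (∑ v ∈ I, b v • (S.of (ge g v) - 1)) - f (S.sk g k u) ∈ S.J (N' + 1) := by
      rw [← map_sub, hsk, ← Finset.sum_sub_distrib]
      simp only [← smul_sub (b _)]
      have h7 : ∑ v ∈ I, b v • (S.of (ge g v) - 1 - S.sk g k v) ∈ S.J (2 * k) :=
        Submodule.sum_mem _ fun v _ => Submodule.smul_mem _ _ (S.ge_sub_sk g (by omega) v)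
      rw [hf]
      have h8 := Mc_mem S hX P d₀ t (hs := (s, ∑ v ∈ I, b v • (S.of (ge g v) - 1 -
        S.sk g k v)) :: hs) (ks := 2 * k :: kps.map fun x : Fin 2 × ℕ × ℕ => x.2.1)
        (List.Forall₂.cons h7 hWt)
      rw [List.sum_cons] at h8
      exact S.J_anti hNle h8
    have h9 : f (S.sk g k u) - Mc Pin c t (fun s => S.of (α s) - 1) ((s, S.sk g k u) :: hs) ∈
        S.J (N' + 1) := by
      rw [hf]
      refine Mc_trunc S hX hk3 t hw₀2 (ks := k :: kps.map fun x : Fin 2 × ℕ × ℕ => x.2.1)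
        (List.Forall₂.cons (S.sk_mem g k u) hWt) ?_
      rw [List.sum_cons, List.length_cons, hhslen, hNs]
      omega
    have h10 := add_mem (add_mem h4 h6) h9
    rw [sub_add_sub_cancel, sub_add_sub_cancel] at h10
    exact h10

end Pool.Agent.H11.PP
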