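import Pool.Agent.H11.PP.Words

/-!
# Products of Lyndon words and the Lyndon factorisation
-/

namespace Pool.Agent.H11.PP

variable {α : Type*} [LinearOrder α]

theorem Lyn.mul {u v : List α} (hu : Lyn u) (hv : Lyn v) (h : LexLt u v) :
    Lyn (u ++ v) ∧ SL (u ++ v) v ∧ SL (u ++ v) (v ++ u) := by
  have h1 : SL (u ++ v) v := by
    rcases h with ⟨⟨v', hv'⟩, hne⟩ | h
    · have hv'0 : v' ≠ [] := by
        rintro rfl
        exact hne (by simpa using hv')
      have h2 : SL v v' := hv.2 u v' hv'.symm hu.1 hv'0
      have h3 : SL (u ++ v) (u ++ v') := SL_append_left_iff.2 h2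
      rwa [hv'] at h3
    · simpa using h.append v []
  refine ⟨⟨by simp [hu.1], ?_⟩, h1, by simpa using h1.append [] u⟩
  intro a b hab ha hb
  rcases List.append_eq_append_iff.1 hab with ⟨c, hc1, hc2⟩ | ⟨c, hc1, hc2⟩
  · -- a = u ++ c, v = c ++ b
    by_cases hc : c = []
    · subst hc
      simp only [List.nil_append] at hc2
      rw [← hc2]; exact h1
    · exact h1.trans (hv.2 c b hc2 hc hb)
  · -- u = a ++ c, b = c ++ v
    by_cases hc : c = []
    · subst hc
      simp only [List.nil_append] at hc2
      rw [hc2]; exact h1
    · rw [hc2]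
      exact (hu.2 a c hc1 ha hc).append v v

/-- the Lyndon factorisation (existence) -/
theorem exists_factorization (W : List α) : ∃ fs : List (List α), fs.flatten = W ∧
    (∀ f ∈ fs, Lyn f) ∧ fs.Pairwise (fun u v => v = u ∨ LexLt v u) := by
  -- insert a Lyndon word in front of a factorisation
  have key : ∀ (fs : List (List α)) (u : List α), Lyn u → (∀ f ∈ fs, Lyn f) →
      fs.Pairwise (fun u v => v = u ∨ LexLt v u) →
      ∃ gs : List (List α), gs.flatten = u ++ fs.flatten ∧ (∀ f ∈ gs, Lyn f) ∧
        gs.Pairwise (fun u v => v = u ∨ LexLt v u) := by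
    intro fs
    induction fs with
    | nil =>
      intro u hu _ _
      exact ⟨[u], by simp, by simpa using hu, by simp⟩
    | cons f fs ih =>
      intro u hu hL hP
      rcases LexLt_trichotomy u f with h | h | h
      · subst h
        refine ⟨u :: u :: fs, by simp, ?_, ?_⟩
        · intro g hg
          rcases List.mem_cons.1 hg with rfl | hg
          · exact hu
          · exact hL g hg
        · rw [List.pairwise_cons]
          refine ⟨?_, hP⟩
          intro g hg
          rcases List.mem_cons.1 hg with rfl | hg
          · left; rfl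
          · exact (List.pairwise_cons.1 hP).1 g hg
      · have hm := hu.mul (hL f (by simp)) h
        obtain ⟨gs, h1, h2, h3⟩ := ih (u ++ f) hm.1 (fun g hg => hL g (by simp [hg]))
          (List.pairwise_cons.1 hP).2
        exact ⟨gs, by simp [h1], h2, h3⟩
      · refine ⟨u :: f :: fs, by simp, ?_, ?_⟩
        · intro g hg
          rcases List.mem_cons.1 hg with rfl | hg
          · exact hu
          · exact hL g hg
        · rw [List.pairwise_cons]
          refine ⟨?_, hP⟩
          intro g hg
          rcases List.mem_cons.1 hg with rfl | hg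
          · right; exact h
          · rcases (List.pairwise_cons.1 hP).1 g hg with rfl | h'
            · right; exact h
            · right; exact h'.trans h
  induction W with
  | nil => exact ⟨[], by simp⟩
  | cons a W ih =>
    obtain ⟨fs, h1, h2, h3⟩ := ih
    obtain ⟨gs, h4, h5, h6⟩ := key fs [a] (Lyn_singleton a) h2 h3
    exact ⟨gs, by simp [h4, h1], h5, h6⟩

end Pool.Agent.H11.PP
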