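import Pool.Agent.H11.PP.Brackets

/-!
# Multilinear parts of perturbed products

`X : Fin 2 → B` are the variables (`X t = of (α t) - 1`), a list `hs` of pairs `(t, γ)` is a list
of perturbations (`α t` is replaced successively by `(1 + γ) α t`).  `MM X u hs` is the part of
`∏ X_{u_i}` (perturbed) which is multilinear in all the perturbations of the list: every
perturbation is used exactly once.

Facts (`e`: `X t ∈ J e`; `ks` : list of degrees, `Wt hs ks` : `γ_i ∈ J k_i`).
* `MM_mem` (F2): `MM X u hs ∈ J (ks.sum + (|u| - |hs|) * e)` (natural subtraction).  Induction on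
  `u`, for all `hs`: for `(U, V) ∈ splits hs` the weights split accordingly;
  `Xp X t [] = X t ∈ J e`, `Xp X t U ∈ J (sum of the weights of U)` for `U ≠ []`; in the first case
  `(|u| - |hs|) e + e ≥ (|u| + 1 - |hs|) e`, in the second case `|V| ≤ |hs| - 1` so
  `|u| - |V| ≥ |u| + 1 - |hs|`.
* `MM_add`, `MM_smul` : linearity in the first perturbation (each term contains it exactly once;
  induction on `u`, using `splits (h :: hs)`).  It may be convenient to prove: for `h = (s, γ)`
  `Xp X t (h :: U)` is additive in `γ`.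
* `MM_pert` (F1): let `X' = update X t (X t + γ (1 + X t))`, `γ ∈ J k`.  Exactly
  `Xp X' s U = Xp X s U + Xp X s ((t,γ) :: U)` for all `s`, `U` (cases `U = []` or not, `s = t` or
  not; `((t,γ) :: U).reverse = U.reverse ++ [(t,γ)]`).  Then by induction on `u`:
  `MM X' (s::u) hs = ∑_{(U,V)} (Xp U + Xp (h::U)) (MM V + MM (h::V) + O(J (2k + ΣV)))`, and
  `∑ (Xp (h::U) MM V + Xp U MM (h::V)) = MM X (s::u) (h::hs)`, while
  `Xp (h::U) MM (h::V) ∈ J (2k + Σ)`.
* `MM_MO` (F3): `|u| = |hs|`, `1 ≤ e`: modulo `J (ks.sum + 1)` only the terms where each letter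
  gets exactly one perturbation survive and `γ (1 + X t) ≡ γ`.  Induction on `u`: terms of
  `splits hs` with `U = []`: `X t * MM X u V`, `|V| = |hs| = |u| + 1`: contributes `J e` and the
  degree of `MM` is `≥ Σ`; with `|U| = 1` : `picks`; with `|U| ≥ 2` : `|V| < |u|`, so
  `MM X u V ∈ J (ΣV + e)`.
* `MM_nil` : `MM X u [] = ∏ X_{u_i}`.
* `MM_congr` : if `X t - X' t ∈ J N` for all `t` then `MM X u [] - MM X' u [] ∈ J N`
  (`MM_nil`, telescoping).
* `MM_update_nil`-type statements are not needed.
-/

namespace Pool.Agent.H11.PP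

/-- all ways to write a list as a pair of complementary sublists -/
def splits {β : Type*} : List β → List (List β × List β)
  | [] => [([], [])]
  | h :: t => (splits t).map (fun q => (h :: q.1, q.2)) ++
      (splits t).map (fun q => (q.1, h :: q.2))

/-- all ways to choose one element of a list -/
def picks {β : Type*} : List β → List (β × List β)
  | [] => []
  | h :: t => (h, t) :: (picks t).map (fun q => (q.1, h :: q.2))

section defs
variable {B : Type*} [Ring B]

/-- part of a perturbed variable which is multilinear in the perturbations of the list `U` -/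
noncomputable def Xp (X : Fin 2 → B) (t : Fin 2) (U : List (Fin 2 × B)) : B :=
  open Classical in
  if U = [] then X t
  else if ∀ h ∈ U, h.1 = t then (U.reverse.map Prod.snd).prod * (1 + X t) else 0

/-- multilinear part of a perturbed product -/
noncomputable def MM (X : Fin 2 → B) : List (Fin 2) → List (Fin 2 × B) → B
  | [], hs => open Classical in if hs = [] then 1 else 0
  | t :: u, hs => ((splits hs).map (fun q => Xp X t q.1 * MM X u q.2)).sum

/-- sum over the bijective placements with matching types -/
def MO : List (Fin 2) → List (Fin 2 × B) → B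
  | [], hs => if hs.length = 0 then 1 else 0
  | t :: u, hs => ((picks hs).map (fun q => (if q.1.1 = t then q.1.2 else 0) * MO u q.2)).sum

end defs

section aux

variable {B : Type*} [Ring B]

lemma Xp_nil (X : Fin 2 → B) (t : Fin 2) : Xp X t [] = X t := by simp [Xp]

lemma Xp_of_forall (X : Fin 2 → B) (t : Fin 2) {U : List (Fin 2 × B)} (hU : U ≠ [])
    (h : ∀ h ∈ U, h.1 = t) : Xp X t U = (U.reverse.map Prod.snd).prod * (1 + X t) := by
  rw [Xp, if_neg hU, if_pos h]

lemma Xp_of_not (X : Fin 2 → B) (t : Fin 2) {U : List (Fin 2 × B)} (hU : U ≠ [])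
    (h : ¬ ∀ h ∈ U, h.1 = t) : Xp X t U = 0 := by
  rw [Xp, if_neg hU, if_neg h]

lemma prod_reverse_cons (h : Fin 2 × B) (U : List (Fin 2 × B)) :
    (((h :: U).reverse).map Prod.snd).prod = (U.reverse.map Prod.snd).prod * h.2 := by
  simp

lemma MM_zero_nil (X : Fin 2 → B) : MM X [] [] = 1 := by simp [MM]

lemma MM_zero_cons (X : Fin 2 → B) (h : Fin 2 × B) (hs : List (Fin 2 × B)) :
    MM X [] (h :: hs) = 0 := by simp [MM]

lemma MM_succ (X : Fin 2 → B) (t : Fin 2) (u : List (Fin 2)) (hs : List (Fin 2 × B)) :
    MM X (t :: u) hs = ((splits hs).map (fun q => Xp X t q.1 * MM X u q.2)).sum := by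
  rw [MM]

lemma MM_cons_cons (X : Fin 2 → B) (t : Fin 2) (u : List (Fin 2)) (h : Fin 2 × B)
    (hs : List (Fin 2 × B)) : MM X (t :: u) (h :: hs) =
      ((splits hs).map (fun q => Xp X t (h :: q.1) * MM X u q.2 +
        Xp X t q.1 * MM X u (h :: q.2))).sum := by
  rw [MM_succ, splits, List.map_append, List.sum_append, List.map_map, List.map_map,
    List.sum_map_add]
  rfl

lemma sum_map_sub_map {β : Type*} {M : Type*} [AddCommGroup M] (l : List β) (f g : β → M) :
    (l.map f).sum - (l.map g).sum = (l.map (fun x => f x - g x)).sum := by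
  induction l with
  | nil => simp
  | cons a l ih =>
    simp only [List.map_cons, List.sum_cons]
    rw [← ih]
    abel

/-- Only the term with empty first part survives. -/
lemma splits_nil_part {β : Type*} {M : Type*} [AddCommGroup M] (N : AddSubgroup M) :
    ∀ (hs : List β) (K : List β × List β → M),
      (∀ q ∈ splits hs, q.1 ≠ [] → K q ∈ N) →
      ((splits hs).map K).sum - K ([], hs) ∈ N := by
  intro hs
  induction hs with
  | nil => intro K _; simp [splits]
  | cons h t ih =>
    intro K hK
    rw [splits, List.map_append, List.sum_append, List.map_map, List.map_map]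
    have h1 : (List.map (K ∘ fun q => (h :: q.1, q.2)) (splits t)).sum ∈ N := by
      refine list_sum_mem ?_
      intro x hx
      rw [List.mem_map] at hx
      obtain ⟨q, hq, rfl⟩ := hx
      refine hK _ ?_ (by simp)
      rw [splits, List.mem_append]
      exact Or.inl (List.mem_map_of_mem hq)
    have h2 := ih (fun q => K (q.1, h :: q.2)) (fun q hq hq' => hK _ (by
      rw [splits, List.mem_append]
      exact Or.inr (List.mem_map_of_mem (f := fun q : List β × List β => (q.1, h :: q.2)) hq))
      hq')
    have h3 := N.add_mem h1 h2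
    rw [← add_sub_assoc] at h3
    exact h3

/-- Only the terms with a first part of length one survive. -/
lemma splits_one_part {β : Type*} {M : Type*} [AddCommGroup M] (N : AddSubgroup M) :
    ∀ (hs : List β) (K : List β × List β → M),
      (∀ q ∈ splits hs, q.1.length ≠ 1 → K q ∈ N) →
      ((splits hs).map K).sum - ((picks hs).map (fun r => K ([r.1], r.2))).sum ∈ N := by
  intro hs
  induction hs with
  | nil =>
    intro K hK
    have := hK ([], []) (by simp [splits]) (by simp)
    simpa [splits, picks] using this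
  | cons h t ih =>
    intro K hK
    rw [splits, List.map_append, List.sum_append, List.map_map, List.map_map, picks,
      List.map_cons, List.sum_cons, List.map_map]
    have h1 := splits_nil_part N t (fun q => K (h :: q.1, q.2)) (fun q hq hq' => hK _ (by
      rw [splits, List.mem_append]
      exact Or.inl (List.mem_map_of_mem (f := fun q : List β × List β => (h :: q.1, q.2)) hq))
      (by
        simp only [List.length_cons, ne_eq, Nat.add_eq_right, List.length_eq_zero_iff]
        exact hq'))
    have h2 := ih (fun q => K (q.1, h :: q.2)) (fun q hq hq' => hK _ (by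
      rw [splits, List.mem_append]
      exact Or.inr (List.mem_map_of_mem (f := fun q : List β × List β => (q.1, h :: q.2)) hq))
      hq')
    have h3 := N.add_mem h1 h2
    rw [sub_add_sub_comm] at h3
    exact h3

lemma Xp_add (X : Fin 2 → B) (s t : Fin 2) (γ γ' : B) (U : List (Fin 2 × B)) :
    Xp X s ((t, γ + γ') :: U) = Xp X s ((t, γ) :: U) + Xp X s ((t, γ') :: U) := by
  by_cases h : t = s ∧ ∀ h ∈ U, h.1 = s
  · have h' : ∀ γ'' : B, ∀ h ∈ ((t, γ'') :: U), h.1 = s := by
      intro γ'' h0 h0'
      rcases List.mem_cons.1 h0' with rfl | h0'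
      · exact h.1
      · exact h.2 _ h0'
    rw [Xp_of_forall X s (by simp) (h' _), Xp_of_forall X s (by simp) (h' _),
      Xp_of_forall X s (by simp) (h' _), prod_reverse_cons, prod_reverse_cons,
      prod_reverse_cons]
    simp only [mul_add, add_mul]
    abel
  · have h' : ∀ γ'' : B, ¬ ∀ h ∈ ((t, γ'') :: U), h.1 = s := by
      intro γ'' h0
      exact h ⟨h0 (t, γ'') (by simp), fun h1 h2 => h0 h1 (List.mem_cons_of_mem _ h2)⟩
    rw [Xp_of_not X s (by simp) (h' _), Xp_of_not X s (by simp) (h' _),
      Xp_of_not X s (by simp) (h' _), add_zero]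

lemma Xp_smul {R : Type*} [CommSemiring R] [Algebra R B] (X : Fin 2 → B) (s t : Fin 2) (c : R)
    (γ : B) (U : List (Fin 2 × B)) :
    Xp X s ((t, c • γ) :: U) = c • Xp X s ((t, γ) :: U) := by
  by_cases h : t = s ∧ ∀ h ∈ U, h.1 = s
  · have h' : ∀ γ'' : B, ∀ h ∈ ((t, γ'') :: U), h.1 = s := by
      intro γ'' h0 h0'
      rcases List.mem_cons.1 h0' with rfl | h0'
      · exact h.1
      · exact h.2 _ h0'
    rw [Xp_of_forall X s (by simp) (h' _), Xp_of_forall X s (by simp) (h' _),
      prod_reverse_cons, prod_reverse_cons]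
    simp only [mul_smul_comm, smul_mul_assoc]
  · have h' : ∀ γ'' : B, ¬ ∀ h ∈ ((t, γ'') :: U), h.1 = s := by
      intro γ'' h0
      exact h ⟨h0 (t, γ'') (by simp), fun h1 h2 => h0 h1 (List.mem_cons_of_mem _ h2)⟩
    rw [Xp_of_not X s (by simp) (h' _), Xp_of_not X s (by simp) (h' _), smul_zero]

lemma Xp_update (X : Fin 2 → B) (s t : Fin 2) (γ : B) (U : List (Fin 2 × B)) :
    Xp (Function.update X t (X t + γ * (1 + X t))) s U =
      Xp X s U + Xp X s ((t, γ) :: U) := by
  by_cases hU : U = []
  · subst hU
    rw [Xp_nil, Xp_nil]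
    by_cases hst : s = t
    · subst hst
      rw [Function.update_self, Xp_of_forall X s (by simp) (by simp)]
      simp
    · rw [Function.update_of_ne hst, Xp_of_not X s (by simp) (by simpa using Ne.symm hst),
        add_zero]
  · by_cases h : ∀ h ∈ U, h.1 = s
    · rw [Xp_of_forall _ s hU h, Xp_of_forall _ s hU h]
      by_cases hst : s = t
      · subst hst
        rw [Function.update_self, Xp_of_forall X s (by simp) (by
          intro h0 h0'
          rcases List.mem_cons.1 h0' with rfl | h0'
          · rfl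
          · exact h _ h0'), prod_reverse_cons]
        simp only [mul_add, mul_one, mul_assoc, add_assoc]
      · rw [Function.update_of_ne hst, Xp_of_not X s (by simp) (by
          intro h0
          exact hst (h0 (t, γ) (by simp)).symm), add_zero]
    · rw [Xp_of_not _ s hU h, Xp_of_not _ s hU h, Xp_of_not X s (by simp) (fun h0 =>
        h (fun h1 h2 => h0 h1 (List.mem_cons_of_mem _ h2))), add_zero]

end aux

namespace Sys

variable {p : ℕ} [Fact p.Prime] {B H : Type*} [Ring B] [Algebra (ZMod p) B] [Group H]
variable (S : Sys p B H)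

/-- the perturbations have degrees `ks` -/
def Wt (hs : List (Fin 2 × B)) (ks : List ℕ) : Prop :=
  List.Forall₂ (fun h k => h.2 ∈ S.J k) hs ks

lemma Wt_splits {hs : List (Fin 2 × B)} : ∀ {ks : List ℕ}, S.Wt hs ks →
    ∀ q ∈ splits hs, ∃ k1 k2 : List ℕ, S.Wt q.1 k1 ∧ S.Wt q.2 k2 ∧
      k1.sum + k2.sum = ks.sum ∧ q.1.length + q.2.length = hs.length := by
  induction hs with
  | nil =>
    intro ks h q hq
    simp only [splits, List.mem_singleton] at hq
    subst hq
    cases h
    exact ⟨[], [], List.Forall₂.nil, List.Forall₂.nil, rfl, rfl⟩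
  | cons h0 t ih =>
    intro ks h q hq
    rcases h with _ | ⟨hk, ht⟩
    rename_i k ks
    rw [splits, List.mem_append, List.mem_map, List.mem_map] at hq
    rcases hq with ⟨r, hr, rfl⟩ | ⟨r, hr, rfl⟩
    · obtain ⟨k1, k2, h1, h2, h3, h4⟩ := ih ht r hr
      refine ⟨k :: k1, k2, List.Forall₂.cons hk h1, h2, ?_, ?_⟩
      · simp only [List.sum_cons]; omega
      · simp only [List.length_cons]; omega
    · obtain ⟨k1, k2, h1, h2, h3, h4⟩ := ih ht r hr
      refine ⟨k1, k :: k2, h1, List.Forall₂.cons hk h2, ?_, ?_⟩
      · simp only [List.sum_cons]; omega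
      · simp only [List.length_cons]; omega

lemma prod_mem {hs : List (Fin 2 × B)} : ∀ {ks : List ℕ}, S.Wt hs ks →
    (hs.reverse.map Prod.snd).prod ∈ S.J ks.sum := by
  induction hs with
  | nil =>
    intro ks h
    cases h
    exact S.mem_zero _
  | cons h0 t ih =>
    intro ks h
    rcases h with _ | ⟨hk, ht⟩
    rename_i k ks
    rw [prod_reverse_cons, List.sum_cons, add_comm]
    exact S.J_mul _ _ _ _ (ih ht) hk

lemma Xp_mem (X : Fin 2 → B) (t : Fin 2) {U : List (Fin 2 × B)} (hU : U ≠ []) {ks : List ℕ}
    (h : S.Wt U ks) : Xp X t U ∈ S.J ks.sum := by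
  by_cases h' : ∀ h ∈ U, h.1 = t
  · rw [Xp_of_forall X t hU h']
    exact S.J_mul_right (S.prod_mem h) _
  · rw [Xp_of_not X t hU h']
    exact zero_mem _

lemma Xp_mem' (X : Fin 2 → B) (t : Fin 2) {U : List (Fin 2 × B)} {ks : List ℕ}
    (h : S.Wt U ks) : Xp X t U ∈ S.J ks.sum := by
  by_cases hU : U = []
  · subst hU
    cases h
    exact S.mem_zero _
  · exact S.Xp_mem X t hU h

lemma MM_mem {e : ℕ} {X : Fin 2 → B} (hX : ∀ t, X t ∈ S.J e) (u : List (Fin 2))
    {hs : List (Fin 2 × B)} {ks : List ℕ} (h : S.Wt hs ks) :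
    MM X u hs ∈ S.J (ks.sum + (u.length - hs.length) * e) := by
  induction u generalizing hs ks with
  | nil =>
    cases h with
    | nil => exact S.J_anti (by simp) (S.mem_zero _)
    | cons _ _ => rw [MM_zero_cons]; exact zero_mem _
  | cons t u ih =>
    rw [MM_succ]
    refine list_sum_mem ?_
    intro x hx
    rw [List.mem_map] at hx
    obtain ⟨q, hq, rfl⟩ := hx
    obtain ⟨k1, k2, h1, h2, h3, h4⟩ := S.Wt_splits h q hq
    have hM := ih h2
    by_cases hU : q.1 = []
    · rw [hU, Xp_nil]
      rw [hU] at h1 h4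
      cases h1
      refine S.J_anti ?_ (S.J_mul _ _ _ _ (hX t) hM)
      simp only [List.length_nil, List.sum_nil, zero_add, List.length_cons] at h3 h4 ⊢
      rw [h3, h4]
      have : u.length + 1 - hs.length ≤ (u.length - hs.length) + 1 := by omega
      calc ks.sum + (u.length + 1 - hs.length) * e
          ≤ ks.sum + ((u.length - hs.length) + 1) * e :=
            Nat.add_le_add_left (Nat.mul_le_mul_right _ this) _
        _ = e + (ks.sum + (u.length - hs.length) * e) := by ring
    · refine S.J_anti ?_ (S.J_mul _ _ _ _ (S.Xp_mem X t hU h1) hM)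
      have h5 : 1 ≤ q.1.length := List.length_pos_of_ne_nil hU
      have : u.length + 1 - hs.length ≤ u.length - q.2.length := by omega
      simp only [List.length_cons]
      calc ks.sum + (u.length + 1 - hs.length) * e
          ≤ ks.sum + (u.length - q.2.length) * e :=
            Nat.add_le_add_left (Nat.mul_le_mul_right _ this) _
        _ = k1.sum + (k2.sum + (u.length - q.2.length) * e) := by rw [← h3]; ring

lemma MM_add (X : Fin 2 → B) (u : List (Fin 2)) (hs : List (Fin 2 × B)) (t : Fin 2) (γ γ' : B) :
    MM X u ((t, γ + γ') :: hs) = MM X u ((t, γ) :: hs) + MM X u ((t, γ') :: hs) := by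
  induction u generalizing hs with
  | nil => rw [MM_zero_cons, MM_zero_cons, MM_zero_cons, add_zero]
  | cons s u ih =>
    rw [MM_cons_cons, MM_cons_cons, MM_cons_cons, ← List.sum_map_add]
    congr 1
    refine List.map_congr_left ?_
    intro q _
    rw [Xp_add, ih, add_mul, mul_add]
    abel

lemma MM_smul (X : Fin 2 → B) (u : List (Fin 2)) (hs : List (Fin 2 × B)) (t : Fin 2)
    (c : ZMod p) (γ : B) : MM X u ((t, c • γ) :: hs) = c • MM X u ((t, γ) :: hs) := by
  induction u generalizing hs with
  | nil => rw [MM_zero_cons, MM_zero_cons, smul_zero]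
  | cons s u ih =>
    rw [MM_cons_cons, MM_cons_cons, List.smul_sum, List.map_map]
    congr 1
    refine List.map_congr_left ?_
    intro q _
    simp only [Function.comp]
    rw [Xp_smul, ih, smul_add, smul_mul_assoc, mul_smul_comm]

/-- linearity in the first perturbation, as a linear map -/
lemma exists_MM_linear (X : Fin 2 → B) (u : List (Fin 2)) (hs : List (Fin 2 × B)) (t : Fin 2) :
    ∃ f : B →ₗ[ZMod p] B, ∀ γ, f γ = MM X u ((t, γ) :: hs) :=
  ⟨{ toFun := fun γ => MM X u ((t, γ) :: hs)
     map_add' := fun γ γ' => MM_add X u hs t γ γ'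
     map_smul' := fun c γ => MM_smul X u hs t c γ }, fun _ => rfl⟩

lemma MM_pert {e k : ℕ} {X : Fin 2 → B} (hX : ∀ t, X t ∈ S.J e) (u : List (Fin 2))
    {hs : List (Fin 2 × B)} {ks : List ℕ} (h : S.Wt hs ks) (t : Fin 2) {γ : B}
    (hγ : γ ∈ S.J k) :
    MM (Function.update X t (X t + γ * (1 + X t))) u hs - MM X u hs - MM X u ((t, γ) :: hs) ∈
      S.J (2 * k + ks.sum) := by
  induction u generalizing hs ks with
  | nil =>
    rw [MM_zero_cons, sub_zero]
    have : MM (Function.update X t (X t + γ * (1 + X t))) [] hs = MM X [] hs := by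
      cases hs with
      | nil => rw [MM_zero_nil, MM_zero_nil]
      | cons _ _ => rw [MM_zero_cons, MM_zero_cons]
    rw [this, sub_self]
    exact zero_mem _
  | cons s u ih =>
    rw [MM_succ, MM_succ, MM_cons_cons, sum_map_sub_map, sum_map_sub_map]
    refine list_sum_mem ?_
    intro x hx
    rw [List.mem_map] at hx
    obtain ⟨q, hq, rfl⟩ := hx
    obtain ⟨k1, k2, h1, h2, h3, -⟩ := S.Wt_splits h q hq
    have hR := ih h2
    have hA : Xp X s q.1 ∈ S.J k1.sum := S.Xp_mem' X s h1
    have hA1 : Xp X s ((t, γ) :: q.1) ∈ S.J (k + k1.sum) := by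
      have := S.Xp_mem' X s (U := (t, γ) :: q.1) (ks := k :: k1) (List.Forall₂.cons hγ h1)
      simpa using this
    have hM1 : MM X u ((t, γ) :: q.2) ∈ S.J (k + k2.sum) := by
      have := S.MM_mem hX u (hs := (t, γ) :: q.2) (ks := k :: k2) (List.Forall₂.cons hγ h2)
      refine S.J_anti ?_ this
      simp only [List.sum_cons]
      exact Nat.le_add_right _ _
    rw [Xp_update]
    have key : (Xp X s q.1 + Xp X s ((t, γ) :: q.1)) *
          MM (Function.update X t (X t + γ * (1 + X t))) u q.2 - Xp X s q.1 * MM X u q.2 -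
        (Xp X s ((t, γ) :: q.1) * MM X u q.2 + Xp X s q.1 * MM X u ((t, γ) :: q.2)) =
        Xp X s ((t, γ) :: q.1) * MM X u ((t, γ) :: q.2) +
        (Xp X s q.1 + Xp X s ((t, γ) :: q.1)) *
          (MM (Function.update X t (X t + γ * (1 + X t))) u q.2 - MM X u q.2 -
            MM X u ((t, γ) :: q.2)) := by
      noncomm_ring
    rw [key]
    refine add_mem (S.J_anti ?_ (S.J_mul _ _ _ _ hA1 hM1)) (S.J_anti ?_ (S.J_mul _ _ _ _
      (add_mem hA (S.J_anti (Nat.le_add_left _ _) hA1)) hR))
    · omega
    · omega

lemma MM_MO {e : ℕ} (he : 1 ≤ e) {X : Fin 2 → B} (hX : ∀ t, X t ∈ S.J e) (u : List (Fin 2))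
    {hs : List (Fin 2 × B)} {ks : List ℕ} (h : S.Wt hs ks) (hu : u.length = hs.length) :
    MM X u hs - MO u hs ∈ S.J (ks.sum + 1) := by
  induction u generalizing hs ks with
  | nil =>
    cases hs with
    | nil => rw [MM_zero_nil, MO]; simp
    | cons _ _ => simp at hu
  | cons t u ih =>
    have hterm : ∀ q ∈ splits hs, q.1.length ≠ 1 →
        Xp X t q.1 * MM X u q.2 ∈ (S.J (ks.sum + 1)).toAddSubgroup := by
      intro q hq hq1
      obtain ⟨k1, k2, h1, h2, h3, h4⟩ := S.Wt_splits h q hq
      have hM := S.MM_mem hX u h2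
      rw [Submodule.mem_toAddSubgroup]
      simp only [List.length_cons] at hu
      by_cases hU : q.1 = []
      · rw [hU, Xp_nil]
        rw [hU] at h1
        cases h1
        refine S.J_anti ?_ (S.J_mul _ _ _ _ (hX t) hM)
        simp only [List.sum_nil, zero_add] at h3
        omega
      · refine S.J_anti ?_ (S.J_mul _ _ _ _ (S.Xp_mem X t hU h1) hM)
        have h5 : 1 ≤ q.1.length := List.length_pos_of_ne_nil hU
        have h6 : 1 ≤ u.length - q.2.length := by omega
        have h7 : 1 * 1 ≤ (u.length - q.2.length) * e := Nat.mul_le_mul h6 he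
        omega
    have h1 := splits_one_part (S.J (ks.sum + 1)).toAddSubgroup hs
      (fun q => Xp X t q.1 * MM X u q.2) hterm
    rw [Submodule.mem_toAddSubgroup] at h1
    have h2 : ((picks hs).map (fun r => Xp X t [r.1] * MM X u r.2)).sum -
        MO (t :: u) hs ∈ S.J (ks.sum + 1) := by
      rw [MO, sum_map_sub_map]
      refine list_sum_mem ?_
      intro x hx
      rw [List.mem_map] at hx
      obtain ⟨r, hr, rfl⟩ := hx
      obtain ⟨k, k2, hk, hk2, hk3, hk4⟩ : ∃ (k : ℕ) (k2 : List ℕ), r.1.2 ∈ S.J k ∧
          S.Wt r.2 k2 ∧ k + k2.sum = ks.sum ∧ r.2.length + 1 = hs.length := by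
        clear h1 hterm hu
        induction hs generalizing ks r with
        | nil => simp [picks] at hr
        | cons h0 t ih =>
          rcases h with _ | ⟨hk, ht⟩
          rename_i k ks
          rw [picks, List.mem_cons, List.mem_map] at hr
          rcases hr with rfl | ⟨r', hr', rfl⟩
          · exact ⟨k, ks, hk, ht, by simp, by simp⟩
          · obtain ⟨k', k2, h1, h2, h3, h4⟩ := ih ht r' hr'
            refine ⟨k', k :: k2, h1, List.Forall₂.cons hk h2, ?_, ?_⟩
            · simp only [List.sum_cons]; omega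
            · simp only [List.length_cons]; omega
      simp only [List.length_cons] at hu
      have hI := ih hk2 (by omega)
      have hM := S.MM_mem hX u hk2
      have hM' : MM X u r.2 ∈ S.J k2.sum := S.J_anti (Nat.le_add_right _ _) hM
      by_cases hrt : r.1.1 = t
      · rw [Xp_of_forall X t (by simp) (by simpa using hrt), if_pos hrt]
        have key : (List.map Prod.snd [r.1].reverse).prod * (1 + X t) * MM X u r.2 -
            r.1.2 * MO u r.2 = r.1.2 * (MM X u r.2 - MO u r.2) +
              r.1.2 * (X t * MM X u r.2) := by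
          simp only [List.reverse_singleton, List.map_cons, List.map_nil, List.prod_cons,
            List.prod_nil]
          noncomm_ring
        rw [key]
        refine add_mem (S.J_anti ?_ (S.J_mul _ _ _ _ hk hI))
          (S.J_anti ?_ (S.J_mul _ _ _ _ hk (S.J_mul _ _ _ _ (hX t) hM')))
        · omega
        · omega
      · rw [Xp_of_not X t (by simp) (by simpa using hrt), if_neg hrt]
        simp
    have h3 := add_mem h1 h2
    rw [sub_add_sub_cancel, ← MM_succ] at h3
    exact h3

lemma MM_nil (X : Fin 2 → B) (u : List (Fin 2)) : MM X u [] = (u.map X).prod := by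
  induction u with
  | nil => rw [MM_zero_nil]; simp
  | cons t u ih =>
    rw [MM_succ]
    simp only [splits, List.map_cons, List.map_nil, List.sum_cons, List.sum_nil, add_zero,
      List.prod_cons]
    rw [Xp_nil, ih]

lemma MM_congr {N : ℕ} {X X' : Fin 2 → B} (hX : ∀ t, X t - X' t ∈ S.J N) (u : List (Fin 2)) :
    MM X u [] - MM X' u [] ∈ S.J N := by
  rw [MM_nil, MM_nil]
  induction u with
  | nil => simp
  | cons t u ih =>
    rw [List.map_cons, List.map_cons, List.prod_cons, List.prod_cons]
    have key : X t * (u.map X).prod - X' t * (u.map X').prod =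
        (X t - X' t) * (u.map X).prod + X' t * ((u.map X).prod - (u.map X').prod) := by
      noncomm_ring
    rw [key]
    exact add_mem (S.J_mul_right (hX t) _) (S.J_mul_left _ ih)

end Sys

end Pool.Agent.H11.PP
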