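import Pool.Agent.H11.PP.Brackets
import Pool.Agent.H11.PP.Rk

/-!
# Nested large subspaces

`Nest S g [(k₁,q₁), …] Q` : there is `V₁ ≤ 𝔽_p^{words of length k₁}` of codimension `≤ q₁` such
that for all `u₁ ∈ V₁` there is `V₂ …` such that `Q [sk u₁, sk u₂, …]`.

Proofs (paper).
* `Nest.imp` : induction on `ks`.
* `Nest.inter` : induction on `ks`; `V = ⨅ i ∈ I, V_i`, `codim V ≤ ∑ codim V_i ≤ ν q`
  (`finrank (X ⧸ (V ⊓ W)) ≤ finrank (X ⧸ V) + finrank (X ⧸ W)`); for `u ∈ V` use the induction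
  hypothesis for the family `fun L => Q i (sk u :: L)`.  (`I = ∅`: `V = ⊤`.)
* `Nest.weaken` : induction.
* `RR.congr` : `Ad (T - T')` maps `range (sk i) ≤ J i` into `J (i + N' + 1)`, so
  `(range).map (Ad T') ≤ (range).map (Ad T) ⊔ J (i+N'+1)`; `rk_le_of_le_sup`.
* `RR.sum` : `(range).map (Ad (∑ c_j T_j)) ≤ ⨆ (range).map (Ad T_j)`; `rk_iSup_le`.
-/

namespace Pool.Agent.H11.PP

/-- coefficient space of words of length `k` -/
abbrev XX (p D k : ℕ) : Type := List.Vector (Fin D) k → ZMod p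

namespace Sys

variable {p : ℕ} [Fact p.Prime] {B H : Type*} [Ring B] [Algebra (ZMod p) B] [Group H]
variable (S : Sys p B H) {D : ℕ} (g : Fin D → H)

/-- nested subspaces of small codimension -/
def Nest : List (ℕ × ℕ) → (List B → Prop) → Prop
  | [], Q => Q []
  | kq :: ks, Q => ∃ V : Submodule (ZMod p) (XX p D kq.1),
      Module.finrank (ZMod p) (XX p D kq.1 ⧸ V) ≤ kq.2 ∧
        ∀ u ∈ V, Nest ks (fun L => Q (S.sk g kq.1 u :: L))

/-- `L` consists of values of `sk` -/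
def InSk (L : List B) (ks : List (ℕ × ℕ)) : Prop :=
  List.Forall₂ (fun γ kq => ∃ ε : XX p D kq.1, γ = S.sk g kq.1 ε) L ks

variable {S g}

lemma Nest.imp {ks : List (ℕ × ℕ)} {Q Q' : List B → Prop}
    (h : ∀ L, S.InSk g L ks → Q L → Q' L) (hN : S.Nest g ks Q) : S.Nest g ks Q' := by
  induction ks generalizing Q Q' with
  | nil => exact h [] List.Forall₂.nil hN
  | cons kq ks ih =>
    obtain ⟨V, hV, hN⟩ := hN
    refine ⟨V, hV, fun u hu => ih (fun L hL hQ => ?_) (hN u hu)⟩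
    exact h _ (List.Forall₂.cons ⟨u, rfl⟩ hL) hQ

lemma codim_inf_le {X : Type*} [AddCommGroup X] [Module (ZMod p) X]
    [FiniteDimensional (ZMod p) X] (V W : Submodule (ZMod p) X) :
    Module.finrank (ZMod p) (X ⧸ (V ⊓ W)) ≤
      Module.finrank (ZMod p) (X ⧸ V) + Module.finrank (ZMod p) (X ⧸ W) := by
  have h1 := Submodule.finrank_quotient_add_finrank (R := ZMod p) (V ⊓ W)
  have h2 := Submodule.finrank_quotient_add_finrank (R := ZMod p) V
  have h3 := Submodule.finrank_quotient_add_finrank (R := ZMod p) W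
  have h4 := Submodule.finrank_sup_add_finrank_inf_eq V W
  have h5 := Submodule.finrank_le (R := ZMod p) (V ⊔ W)
  omega

lemma codim_iInf_le {X : Type*} [AddCommGroup X] [Module (ZMod p) X]
    [FiniteDimensional (ZMod p) X] {ι : Type*} (I : Finset ι) (q : ℕ)
    (V : ι → Submodule (ZMod p) X) (h : ∀ i ∈ I, Module.finrank (ZMod p) (X ⧸ V i) ≤ q) :
    Module.finrank (ZMod p) (X ⧸ (⨅ i ∈ I, V i)) ≤ I.card * q := by
  classical
  induction I using Finset.induction_on with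
  | empty =>
    have h1 := Submodule.finrank_quotient_add_finrank (R := ZMod p) (⨅ i ∈ (∅ : Finset ι), V i)
    have h2 : (⨅ i ∈ (∅ : Finset ι), V i) = ⊤ := by simp
    rw [h2] at h1 ⊢
    rw [finrank_top] at h1
    omega
  | insert a I ha ih =>
    rw [Finset.iInf_insert, Finset.card_insert_of_notMem ha, add_mul, one_mul]
    have h1 := codim_inf_le (p := p) (V a) (⨅ i ∈ I, V i)
    have h2 := ih fun i hi => h i (Finset.mem_insert_of_mem hi)
    have h3 := h a (Finset.mem_insert_self a I)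
    omega

lemma Nest.inter {ι : Type*} (I : Finset ι) (ν : ℕ) (hν : I.card ≤ ν) {ks : List (ℕ × ℕ)}
    (Q : ι → List B → Prop) (h : ∀ i ∈ I, S.Nest g ks (Q i)) :
    S.Nest g (ks.map fun kq => (kq.1, ν * kq.2)) (fun L => ∀ i ∈ I, Q i L) := by
  classical
  induction ks generalizing Q with
  | nil => exact h
  | cons kq ks ih =>
    have h' : ∀ i : ι, ∃ V : Submodule (ZMod p) (XX p D kq.1), i ∈ I →
        (Module.finrank (ZMod p) (XX p D kq.1 ⧸ V) ≤ kq.2 ∧
        ∀ u ∈ V, S.Nest g ks (fun L => Q i (S.sk g kq.1 u :: L))) := by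
      intro i
      by_cases hi : i ∈ I
      · obtain ⟨V, hV⟩ := h i hi
        exact ⟨V, fun _ => hV⟩
      · exact ⟨⊤, fun hi' => absurd hi' hi⟩
    choose V hV using h'
    refine ⟨⨅ i ∈ I, V i, ?_, ?_⟩
    · refine (codim_iInf_le I kq.2 V fun i hi => (hV i hi).1).trans ?_
      exact Nat.mul_le_mul_right _ hν
    · intro u hu
      refine ih (fun i L => Q i (S.sk g kq.1 u :: L)) fun i hi => ?_
      refine (hV i hi).2 u ?_
      exact (Submodule.mem_iInf _).1 ((Submodule.mem_iInf _).1 hu i) hi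

lemma Nest.weaken {ks ks' : List (ℕ × ℕ)} {Q : List B → Prop}
    (h : List.Forall₂ (fun a b : ℕ × ℕ => a.1 = b.1 ∧ a.2 ≤ b.2) ks ks')
    (hN : S.Nest g ks Q) : S.Nest g ks' Q := by
  induction h generalizing Q with
  | nil => exact hN
  | @cons a b l l' hab _ ih =>
    obtain ⟨k, q⟩ := a
    obtain ⟨k', q'⟩ := b
    obtain ⟨h1, h2⟩ := hab
    dsimp only at h1 h2
    subst h1
    obtain ⟨V, hV, hN⟩ := hN
    exact ⟨V, hV.trans h2, fun u hu => ih (hN u hu)⟩

variable (S g)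

/-- small rank on all the layers of the list `is` -/
def RR (N' : ℕ) (is : List ℕ) (r : ℕ) (T : B) : Prop :=
  ∀ i ∈ is, rk (S.J (i + N' + 1)) ((LinearMap.range (S.sk g i)).map (S.Ad T)) ≤ r

variable {S g} [FiniteDimensional (ZMod p) B]

lemma RR.congr {N' r : ℕ} {is : List ℕ} {T T' : B} (h : T - T' ∈ S.J (N' + 1))
    (hT : S.RR g N' is r T) : S.RR g N' is r T' := by
  intro i hi
  refine (rk_le_of_le_sup ?_).trans (hT i hi)
  rintro _ ⟨_, ⟨ε, rfl⟩, rfl⟩
  have h1 : S.Ad T' (S.sk g i ε) = S.Ad T (S.sk g i ε) + -(S.Ad (T - T') (S.sk g i ε)) := by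
    rw [map_sub, LinearMap.sub_apply]; abel
  rw [h1]
  refine Submodule.add_mem_sup ⟨_, ⟨ε, rfl⟩, rfl⟩ (neg_mem ?_)
  have h2 := S.Ad_mem (N' + 1) i _ _ h (S.sk_mem g i ε)
  rwa [show N' + 1 + i = i + N' + 1 by ring] at h2

lemma RR.sum {N' r : ℕ} {is : List ℕ} {ι : Type*} (I : Finset ι) (c : ι → ZMod p) (T : ι → B)
    (h : ∀ j ∈ I, S.RR g N' is r (T j)) :
    S.RR g N' is (I.card * r) (∑ j ∈ I, c j • T j) := by
  intro i hi
  have h1 : (LinearMap.range (S.sk g i)).map (S.Ad (∑ j ∈ I, c j • T j)) ≤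
      ⨆ j ∈ I, (LinearMap.range (S.sk g i)).map (S.Ad (T j)) := by
    rintro _ ⟨y, hy, rfl⟩
    rw [map_sum, LinearMap.sum_apply]
    refine Submodule.sum_mem _ fun j hj => ?_
    rw [map_smul, LinearMap.smul_apply]
    refine Submodule.smul_mem _ _ ?_
    exact (le_iSup₂_of_le (f := fun j (_ : j ∈ I) =>
      (LinearMap.range (S.sk g i)).map (S.Ad (T j))) j hj le_rfl) ⟨y, hy, rfl⟩
  refine (rk_mono h1).trans ((rk_iSup_le I _ _).trans ?_)
  refine (Finset.sum_le_sum fun j hj => h j hj i hi).trans ?_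
  rw [Finset.sum_const, smul_eq_mul]

lemma RR.mono {N' r r' : ℕ} {is : List ℕ} {T : B} (hr : r ≤ r') (hT : S.RR g N' is r T) :
    S.RR g N' is r' T := fun i hi => (hT i hi).trans hr

end Sys

end Pool.Agent.H11.PP
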