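import Pool.Agent.H11.PP.Tail

/-!
# Patterns, oracles, avoiding words, and the counting statement `PC m`

A pattern is a list `[ℓ_m, …, ℓ_1]` of Lyndon words with weights growing quickly from right to
left and `SL ℓ_{i+1} ℓ_i`.  An oracle `G : ℕ → List ℕ → List (List α) → Prop` tells which partial
patterns are *non exceptional*: `G y [k_{l+1}, …, k_m] [ℓ_l, …, ℓ_1]`, where `y` is the position
(weight of everything on the left) of the start of the whole pattern.
-/

namespace Pool.Agent.H11.PP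

variable {α : Type*} [LinearOrder α]

/-- patterns `[ℓ_m, …, ℓ_1]` -/
def PatW (wt : α → ℕ) (K R : ℕ) : List (List α) → Prop
  | [] => True
  | l :: L => PatW wt K R L ∧ Lyn l ∧ K ≤ wl wt l ∧ R * wl wt L.flatten ≤ wl wt l ∧
      ∀ l' ∈ L.head?, SL l l'

/-- `W` contains no non exceptional pattern of length `m` and total weight `≤ B`.
`z` is the position of the start of `W`. -/
def Avoid (wt : α → ℕ) (m K R : ℕ) (B : ℕ∞) (G : ℕ → List ℕ → List (List α) → Prop)
    (z : ℕ) (W : List α) : Prop :=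
  ∀ (W' : List α) (L : List (List α)) (W'' : List α), W = W' ++ L.flatten ++ W'' →
    L.length = m → PatW wt K R L → (wl wt L.flatten : ℕ∞) ≤ B → ¬ G (z + wl wt W') [] L

/-- Good oracles of depth `m` with exceptional bound `κ`. -/
def GoodSys (wt : α → ℕ) (m K : ℕ) (κ : ℕ → ℝ)
    (G : ℕ → List ℕ → List (List α) → Prop) : Prop :=
  (∀ y fut, fut.length = m → G y fut []) ∧
  ∀ y k fut L, K ≤ k → fut.length + L.length + 1 = m → G y (k :: fut) L →
    Bd {l | Lyn l ∧ wl wt l = k ∧ ¬ G y fut (l :: L)} (κ k)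

/-- subexponential functions -/
def SubExp (β : ℕ → ℕ) : Prop := ∀ τ : ℝ, 1 < τ → ∃ C : ℝ, ∀ n, (β n : ℝ) ≤ C * τ ^ n

/-- The alphabet `α` has at most `β n` letters of weight `n`, all weights are `≥ 1`. -/
def Alph {α : Type*} (wt : α → ℕ) (β : ℕ → ℕ) : Prop :=
  (∀ a, 1 ≤ wt a) ∧ ∀ n, Bd {a | wt a = n} (β n)

/-- Lemma C for patterns of length `m`. -/
def PC (m : ℕ) : Prop :=
  ∀ (K R : ℕ) (β : ℕ → ℕ), SubExp β → ∀ (Cκ θ₀ θ : ℝ), 0 ≤ Cκ → 1 < θ₀ → θ₀ < θ →
    ∃ (C : ℝ) (B : ℕ), ∀ (α : Type) [LinearOrder α] (wt : α → ℕ), Alph wt β →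
      ∀ G : ℕ → List ℕ → List (List α) → Prop, GoodSys wt m K (fun k => Cκ * θ₀ ^ k) G →
        ∀ z n, Bd {W | wl wt W = n ∧ Avoid wt m K R B G z W} (C * θ ^ n)

/-- The same without bound on the patterns. -/
def PCinf (m : ℕ) : Prop :=
  ∀ (K R : ℕ) (β : ℕ → ℕ), SubExp β → ∀ (Cκ θ₀ θ : ℝ), 0 ≤ Cκ → 1 < θ₀ → θ₀ < θ →
    ∃ (C : ℝ), ∀ (α : Type) [LinearOrder α] (wt : α → ℕ), Alph wt β →
      ∀ G : ℕ → List ℕ → List (List α) → Prop, GoodSys wt m K (fun k => Cκ * θ₀ ^ k) G →
        ∀ z n, Bd {W | wl wt W = n ∧ Avoid wt m K R ⊤ G z W} (C * θ ^ n)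

/-- The count of avoiding Lyndon words. -/
def PLyn (m : ℕ) : Prop :=
  ∀ (K R : ℕ) (β : ℕ → ℕ), SubExp β → ∀ (Cκ θ₀ θ : ℝ), 0 ≤ Cκ → 1 < θ₀ → θ₀ < θ →
    ∃ (C : ℝ), ∀ (α : Type) [LinearOrder α] (wt : α → ℕ), Alph wt β →
      ∀ G : ℕ → List ℕ → List (List α) → Prop, GoodSys wt m K (fun k => Cκ * θ₀ ^ k) G →
        ∀ z n, Bd {W | Lyn W ∧ wl wt W = n ∧ Avoid wt m K R ⊤ G z W} (C * θ ^ n)

/-- factors of avoiding words avoid -/
lemma Avoid.factor {wt : α → ℕ} {m K R : ℕ} {B : ℕ∞} {G : ℕ → List ℕ → List (List α) → Prop}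
    {z : ℕ} {W1 W W2 : List α} (h : Avoid wt m K R B G z (W1 ++ W ++ W2)) :
    Avoid wt m K R B G (z + wl wt W1) W := by
  intro W' L W'' hW hL hP hB
  have := h (W1 ++ W') L (W'' ++ W2) (by rw [hW]; simp) hL hP hB
  rwa [wl_append, ← add_assoc] at this

/-- `PC 0` : every word contains the empty pattern. -/
theorem PC_zero : PC 0 := by
  intro K R β _ Cκ θ₀ θ _ _ _
  refine ⟨0, 0, ?_⟩
  intro α _ wt _ G hG z n
  have : {W | wl wt W = n ∧ Avoid wt 0 K R (0 : ℕ) G z W} = ∅ := by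
    ext W
    simp only [Set.mem_setOf_eq, Set.mem_empty_iff_false, iff_false, not_and]
    intro _ h
    exact h [] [] W (by simp) rfl trivial (by simp) (hG.1 _ _ rfl)
  rw [this, zero_mul]
  exact Bd.empty le_rfl

section counting
/-! ### number of words of bounded weight -/

/-- There is a uniform bound for the number of words of weight `≤ n` (induction on `n`: a nonempty
word of weight `≤ n + 1` is a letter of weight `j ≤ n + 1` and a word of weight `≤ n`). -/
theorem exists_bound_words (β : ℕ → ℕ) (n : ℕ) : ∃ N : ℕ, ∀ (α : Type) (wt : α → ℕ),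
    Alph wt β → Bd {W : List α | wl wt W ≤ n} N := by
  induction n with
  | zero =>
    refine ⟨1, fun α wt h => ?_⟩
    refine Bd.of_subsingleton ?_ (by simp)
    intro W hW W' hW'
    have h1 := length_le_wl h.1 W
    have h2 := length_le_wl h.1 W'
    simp only [nonpos_iff_eq_zero, Set.mem_setOf_eq] at hW hW'
    rw [List.eq_nil_of_length_eq_zero (by omega : W.length = 0),
      List.eq_nil_of_length_eq_zero (by omega : W'.length = 0)]
  | succ n ih =>
    obtain ⟨N, hN⟩ := ih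
    refine ⟨1 + ∑ j ∈ Finset.range (n + 2), β j * N, fun α wt h => ?_⟩
    have h1 : Bd (⋃ j ∈ Finset.range (n + 2), ⋃ a ∈ {a | wt a = j},
        (fun W : List α => a :: W) '' {W : List α | wl wt W ≤ n})
        (∑ j ∈ Finset.range (n + 2), (β j : ℝ) * N) :=
      Bd.biUnion _ _ _ fun j _ => Bd.bind (h.2 j) _ (by positivity)
        fun a _ => (hN α wt h).image _
    refine ((Bd.singleton ([] : List α) le_rfl).union h1).mono ?_ (by push_cast; rfl)
    intro W hW
    cases W with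
    | nil => left; rfl
    | cons a W =>
      right
      have h2 := h.1 a
      simp only [wl_cons, Set.mem_setOf_eq] at hW
      simp only [Set.mem_iUnion, Finset.mem_range, Set.mem_setOf_eq, Set.mem_image]
      exact ⟨wt a, by omega, a, rfl, W, by omega, rfl⟩

/-- The same for tuples of words. -/
theorem exists_bound_tuples (β : ℕ → ℕ) (m n : ℕ) : ∃ N : ℕ, ∀ (α : Type) (wt : α → ℕ),
    Alph wt β → Bd {E : List (List α) | E.length = m ∧ wl wt E.flatten ≤ n} N := by
  induction m with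
  | zero =>
    refine ⟨1, fun α wt h => Bd.of_subsingleton ?_ (by simp)⟩
    intro E hE E' hE'
    rw [List.eq_nil_of_length_eq_zero hE.1, List.eq_nil_of_length_eq_zero hE'.1]
  | succ m ih =>
    obtain ⟨N, hN⟩ := ih
    obtain ⟨N', hN'⟩ := exists_bound_words β n
    refine ⟨N' * N, fun α wt h => ?_⟩
    have h1 : Bd (⋃ e ∈ {e : List α | wl wt e ≤ n}, (fun E : List (List α) => e :: E) ''
        {E : List (List α) | E.length = m ∧ wl wt E.flatten ≤ n}) ((N' : ℝ) * N) :=
      Bd.bind (hN' α wt h) _ (by positivity) fun a _ => (hN α wt h).image _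
    refine h1.mono ?_ (by push_cast; rfl)
    intro E hE
    cases E with
    | nil => simp at hE
    | cons e E =>
      simp only [List.length_cons, List.flatten_cons, wl_append, Set.mem_setOf_eq] at hE
      simp only [Set.mem_iUnion, Set.mem_setOf_eq, Set.mem_image]
      exact ⟨e, by omega, E, ⟨by omega, by omega⟩, rfl⟩

end counting

end Pool.Agent.H11.PP
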