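import Pool.Agent.H11.PP.KappaNum
import Pool.Agent.H11.PP.Exc
import Pool.Agent.H11.PP.Oracle

/-!
# The oracle attached to an identity

Proof of `good_orc` (paper).
First condition: `L = []`, `ks = fut`, if `ks` is valid take `Γ = []`; `Nest …` is `tuple_nest`
for `sks = zip v.reverse ks` (`sks.map snd = ks`, `sks.map fst = v.reverse` as the lengths agree;
`Inc_of_ValT`; the conditions on the layers are built in `layers`).
Second condition: `ks = (L.reverse.map length) ++ (k :: fut)`.  For `|l| = k` the tuple of
`(l :: L, fut)` is the same `ks`.  If `ks` is not valid (or its sum is `> M`) then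
`Orc … fut (l :: L)` holds for all these `l` and the exceptional set is empty.  Otherwise
`Orc … (k :: fut) L` gives `Γ` and `Nest (drop |L| …)`.  The list `qs …` has length `m > |L|`, so
its `drop` is `q :: rest`, `q.1 = k` (`kappa_bound` with `as = L.reverse.map length`), and
`rest = drop (|L|+1)`: there is `V ≤ XX k` of codimension `≤ q.2` with the nested property.  If `l`
is Lyndon of length `k` and `ε ∈ V` has leading word `l` then `Γ ++ [sk ε]` shows
`Orc … fut (l :: L)`.  So the exceptional set is contained in the one of `exc_card`, and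
`q.2 ≤ Cκ (3/2)^k`.  (`wl (fun _ => 1) l = l.length` is `wl_one`; beware of the casts
`q.1 = k`, `subst`.)
-/

namespace Pool.Agent.H11.PP

variable {p : ℕ} [Fact p.Prime]

/-- the layers which matter for the growth inequality between `i₀` and `i₀ + q` -/
def layers (K i₀ q N' : ℕ) : List ℕ :=
  (List.range (i₀ + q + 1)).filter
    fun i => decide (i₀ ≤ i ∧ K ≤ i ∧ N' + 3 ≤ i ∧ i + N' ≤ i₀ + q)

/-- the oracle -/
def Orc {B H : Type*} [Ring B] [Algebra (ZMod p) B] [Group H] (S : Sys p B H) {D : ℕ}
    (g : Fin D → H) (K R i₀ q : ℕ) (lam : List (Fin 2) → ZMod p) (v : List (Fin 2)) (t : Fin 2)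
    (_y : ℕ) (fut : List ℕ) (L : List (List (Fin D))) : Prop :=
  ValT K R 0 (L.reverse.map List.length ++ fut) →
  (L.reverse.map List.length ++ fut).sum ≤ i₀ + q + 1 →
  ∃ Γ : List B, List.Forall₂
    (fun γ (l : List (Fin D)) => ∃ ε : XX p D l.length, γ = S.sk g l.length ε ∧ S.Lead g l ε)
    Γ L.reverse ∧
    S.Nest g ((qs D 0 1 (kpsOf 0 (List.zip v.reverse
        (L.reverse.map List.length ++ fut)))).drop L.length)
      (fun Γ' => S.RR g (L.reverse.map List.length ++ fut).sum
        (layers K i₀ q (L.reverse.map List.length ++ fut).sum)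
        (rr D ((i₀ + q + 1) / 3 + 2) 0 1 (kpsOf 0 (List.zip v.reverse
          (L.reverse.map List.length ++ fut))))
        (Tlam lam t (List.zip v.reverse (Γ ++ Γ'))))

lemma length_qs (D τ μ : ℕ) (kps : List (Fin 2 × ℕ × ℕ)) :
    (qs D τ μ kps).length = kps.length := by
  induction kps generalizing τ μ with
  | nil => rfl
  | cons x kps ih => simp only [qs, List.length_cons, ih]

lemma length_kpsOf (N : ℕ) (sks : List (Fin 2 × ℕ)) : (kpsOf N sks).length = sks.length := by
  induction sks generalizing N with
  | nil => rfl
  | cons x sks ih => simp only [kpsOf, List.length_cons, ih]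

/-- there are valid tuples of every length -/
lemma exists_valT (K R : ℕ) (n : ℕ) : ∀ N : ℕ, ∃ ks : List ℕ, ks.length = n ∧ ValT K R N ks := by
  induction n with
  | zero => exact fun N => ⟨[], rfl, trivial⟩
  | succ n ih =>
    intro N
    obtain ⟨ks, h1, h2⟩ := ih (N + (K + 3 + (N + 1) + R * N))
    exact ⟨(K + 3 + (N + 1) + R * N) :: ks, by simp [h1], by omega, by omega, by omega,
      by omega, h2⟩

theorem good_orc {B H : Type*} [Ring B] [Algebra (ZMod p) B] [Group H]
    [FiniteDimensional (ZMod p) B] (S : Sys p B H) {D : ℕ} (hD : 1 ≤ D) (g : Fin D → H)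
    (K i₀ q m : ℕ) (hK : 1 ≤ K)
    (lam : List (Fin 2) → ZMod p) (v : List (Fin 2)) (t : Fin 2) (hv : v.length = m)
    (α : Fin 2 → H) (hα : ∀ s, α s ∈ S.D 3) (hId : IdHyp S K (m + 1) lam α) (Cκ : ℝ)
    (hκ : ∀ (ts : List (Fin 2)) (as : List ℕ) (k : ℕ) (bs : List ℕ), ts.length = m →
      (as ++ k :: bs).length = m → ValT K (14 * D) 0 (as ++ k :: bs) →
      ∀ (q : ℕ × ℕ) (rest : List (ℕ × ℕ)),
        (qs D 0 1 (kpsOf 0 (List.zip ts (as ++ k :: bs)))).drop as.length = q :: rest →
        q.1 = k ∧ (q.2 : ℝ) ≤ Cκ * (3 / 2) ^ k) :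
    GoodSys (fun _ : Fin D => 1) m K (fun k => Cκ * (3 / 2) ^ k)
      (Orc S g K (14 * D) i₀ q lam v t) := by
  constructor
  · intro y fut hfut hV hS
    simp only [List.reverse_nil, List.map_nil, List.nil_append] at hV hS
    have e1 : (List.zip v.reverse fut).map Prod.snd = fut :=
      List.map_snd_zip (by rw [List.length_reverse, hv, hfut])
    have e2 : (List.zip v.reverse fut).map Prod.fst = v.reverse :=
      List.map_fst_zip (by rw [List.length_reverse, hv, hfut])
    have e3 : (List.zip v.reverse fut).length = m := by
      rw [List.length_zip, List.length_reverse, hv, hfut, min_self]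
    refine ⟨[], ?_, ?_⟩
    · simp
    · have h1 := tuple_nest S g K (i₀ + q + 1) lam t α hα (List.zip v.reverse fut)
        (Inc_of_ValT hV v.reverse) (by rw [e3]; exact hId)
        (layers K i₀ q fut.sum) (by
          intro i hi
          rw [layers, List.mem_filter] at hi
          have h2 := hi.2
          simp only [decide_eq_true_eq] at h2
          rw [e1]
          omega) (by rw [e1]; exact hS)
      rw [e1, e2] at h1
      simpa using h1
  · intro y k fut L hKk hlen hG
    have hk1 : 1 ≤ k := hK.trans hKk
    have hrev : ∀ l : List (Fin D), (l :: L).reverse.map List.length ++ fut =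
        L.reverse.map List.length ++ l.length :: fut := by
      intro l
      simp
    have hC : 0 ≤ Cκ := by
      obtain ⟨ks, hks, hval⟩ := exists_valT K (14 * D) m 0
      rcases ks with _ | ⟨k₁, bs⟩
      · simp at hks
        omega
      · rcases hq : (qs D 0 1 (kpsOf 0 (List.zip v.reverse ([] ++ k₁ :: bs)))) with
          _ | ⟨q₁, rest⟩
        · exfalso
          have h1 := congrArg List.length hq
          rw [length_qs, length_kpsOf, List.length_zip, List.length_reverse, hv] at h1
          simp only [List.nil_append, hks, min_self, List.length_nil] at h1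
          omega
        · have h2 := (hκ v.reverse [] k₁ bs (by rw [List.length_reverse, hv])
            (by simpa using hks) hval q₁ rest (by rw [hq]; rfl)).2
          have h3 : 0 ≤ Cκ * (3 / 2 : ℝ) ^ k₁ := le_trans (Nat.cast_nonneg _) h2
          by_contra hneg
          have h4 := mul_neg_of_neg_of_pos (not_le.1 hneg)
            (pow_pos (by norm_num : (0 : ℝ) < 3 / 2) k₁)
          linarith
    have hnn : 0 ≤ Cκ * (3 / 2 : ℝ) ^ k := mul_nonneg hC (by positivity)
    by_cases hVS : ValT K (14 * D) 0 (L.reverse.map List.length ++ k :: fut) ∧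
        (L.reverse.map List.length ++ k :: fut).sum ≤ i₀ + q + 1
    · obtain ⟨hV, hS⟩ := hVS
      obtain ⟨Γ, hΓ, hN⟩ := hG hV hS
      have hl1 : (qs D 0 1 (kpsOf 0 (List.zip v.reverse
          (L.reverse.map List.length ++ k :: fut)))).length = m := by
        rw [length_qs, length_kpsOf, List.length_zip, List.length_reverse, hv]
        simp
        omega
      rcases hq : (qs D 0 1 (kpsOf 0 (List.zip v.reverse
          (L.reverse.map List.length ++ k :: fut)))).drop L.length with _ | ⟨⟨k', c⟩, rest⟩
      · exfalso
        have h1 := congrArg List.length hq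
        rw [List.length_drop, hl1] at h1
        simp at h1
        omega
      · have h2 := hκ v.reverse _ k fut (by rw [List.length_reverse, hv])
            (by simp; omega) hV (k', c) rest (by
              rw [List.length_map, List.length_reverse]; exact hq)
        obtain ⟨h3, h4⟩ := h2
        simp only at h3 h4
        subst h3
        have hrest : (qs D 0 1 (kpsOf 0 (List.zip v.reverse
            (L.reverse.map List.length ++ k' :: fut)))).drop (L.length + 1) = rest := by
          rw [← List.drop_drop, hq]
          rfl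
        rw [hq] at hN
        obtain ⟨V, hVc, hVN⟩ := hN
        refine (Sys.exc_card S g hk1 V c hVc).mono ?_ h4
        rintro l ⟨hl, hlk, hno⟩
        rw [wl_one] at hlk
        refine ⟨hl, hlk, ?_⟩
        rintro ⟨ε, hε, hlead⟩
        apply hno
        intro _ _
        subst hlk
        rw [hrev l]
        refine ⟨Γ ++ [S.sk g l.length ε], ?_, ?_⟩
        · rw [List.reverse_cons]
          exact List.rel_append hΓ (List.Forall₂.cons ⟨ε, rfl, hlead⟩ List.Forall₂.nil)
        · rw [List.length_cons, hrest]
          have h5 := hVN ε hε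
          simpa only [List.append_assoc, List.singleton_append] using h5
    · have hempty : ({l : List (Fin D) | Lyn l ∧ wl (fun _ : Fin D => 1) l = k ∧
          ¬ Orc S g K (14 * D) i₀ q lam v t y fut (l :: L)}) ⊆ ∅ := by
        rintro l ⟨hl, hlk, hno⟩
        rw [wl_one] at hlk
        apply hno
        intro h1 h2
        rw [hrev l, hlk] at h1 h2
        exact absurd ⟨h1, h2⟩ hVS
      exact (Bd.empty hnn).mono hempty le_rfl


end Pool.Agent.H11.PP
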