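import Mathlib

/-!
# Definitions for the statement: pro-`p` groups, `d(G)`, `r(G)`, free pro-`p` groups of rank two

Everything is for a topological group `G` and the discrete field `ZMod p` with trivial action.
-/

namespace Pool.Agent.H11.PP.ProP

/-- `G` is a pro-`p` group: a compact totally disconnected topological group all of whose open
normal subgroups have `p`-power index. -/
structure IsProP (p : ℕ) (G : Type*) [Group G] [TopologicalSpace G] : Prop where
  topGroup : IsTopologicalGroup G
  compact : CompactSpace G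
  totDisc : TotallyDisconnectedSpace G
  index : ∀ N : Subgroup G, N.Normal → IsOpen (N : Set G) → ∃ k : ℕ, N.index = p ^ k

/-- `G` is topologically finitely generated. -/
def TopFG (G : Type*) [Group G] [TopologicalSpace G] : Prop :=
  ∃ T : Set G, T.Finite ∧ closure ((Subgroup.closure T : Subgroup G) : Set G) = Set.univ

/-- `H¹(G, 𝔽_p)`: the continuous (= locally constant) homomorphisms `G → 𝔽_p`. -/
def H1 (p : ℕ) (G : Type*) [Group G] [TopologicalSpace G] : Submodule (ZMod p) (G → ZMod p) where
  carrier := {f | IsLocallyConstant f ∧ ∀ g h, f (g * h) = f g + f h}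
  add_mem' := fun {a b} ha hb => ⟨ha.1.add hb.1, fun g h => by
    simp only [Pi.add_apply, ha.2 g h, hb.2 g h]; abel⟩
  zero_mem' := ⟨IsLocallyConstant.const (0 : ZMod p), fun g h => by simp⟩
  smul_mem' := fun c x hx => ⟨hx.1.comp (fun m => c • m), fun g h => by
    simp only [Pi.smul_apply, hx.2 g h, smul_add]⟩

/-- Continuous (= locally constant) inhomogeneous `2`-cocycles with values in `𝔽_p`. -/
def Z2 (p : ℕ) (G : Type*) [Group G] [TopologicalSpace G] :
    Submodule (ZMod p) (G × G → ZMod p) where
  carrier := {f | IsLocallyConstant f ∧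
    ∀ g h k, f (h, k) - f (g * h, k) + f (g, h * k) - f (g, h) = 0}
  add_mem' := fun {a b} ha hb => ⟨ha.1.add hb.1, fun g h k => by
    have h1 := ha.2 g h k
    have h2 := hb.2 g h k
    simp only [Pi.add_apply]
    linear_combination h1 + h2⟩
  zero_mem' := ⟨IsLocallyConstant.const (0 : ZMod p), fun g h k => by simp⟩
  smul_mem' := fun c x hx => ⟨hx.1.comp (fun m => c • m), fun g h k => by
    have h1 := hx.2 g h k
    simp only [Pi.smul_apply, smul_eq_mul]
    linear_combination c * h1⟩

/-- Coboundaries of continuous (= locally constant) `1`-cochains. -/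
def B2 (p : ℕ) (G : Type*) [Group G] [TopologicalSpace G] :
    Submodule (ZMod p) (G × G → ZMod p) where
  carrier := {f | ∃ a : G → ZMod p, IsLocallyConstant a ∧
    ∀ g h, f (g, h) = a h - a (g * h) + a g}
  add_mem' := by
    rintro f f' ⟨a, ha, hf⟩ ⟨a', ha', hf'⟩
    refine ⟨a + a', ha.add ha', fun g h => ?_⟩
    simp only [Pi.add_apply, hf, hf']; abel
  zero_mem' := ⟨0, IsLocallyConstant.const (0 : ZMod p), fun g h => by simp⟩
  smul_mem' := by
    rintro c f ⟨a, ha, hf⟩
    refine ⟨c • a, ha.comp (fun m => c • m), fun g h => ?_⟩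
    simp only [Pi.smul_apply, smul_eq_mul, hf]; ring

/-- `H²(G, 𝔽_p)`: continuous `2`-cocycles modulo coboundaries. -/
abbrev H2 (p : ℕ) (G : Type*) [Group G] [TopologicalSpace G] : Type _ :=
  (Z2 p G) ⧸ ((B2 p G).comap (Z2 p G).subtype)

/-- the generator rank `d(G) = dim H¹(G, 𝔽_p)` -/
noncomputable def dRank (p : ℕ) [Fact p.Prime] (G : Type*) [Group G] [TopologicalSpace G] : ℕ :=
  Module.finrank (ZMod p) (H1 p G)

/-- the relation rank `r(G) = dim H²(G, 𝔽_p)` -/
noncomputable def rRank (p : ℕ) [Fact p.Prime] (G : Type*) [Group G] [TopologicalSpace G] : ℕ :=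
  Module.finrank (ZMod p) (H2 p G)

/-- `H` is a free pro-`p` group on the two elements `x`, `y`: it is a pro-`p` group topologically
generated by `x` and `y`, and for every finite `p`-group `Q` and all `a b : Q` there is a
continuous homomorphism `H → Q` with `x ↦ a`, `y ↦ b`. -/
structure IsFreeProPOn (p : ℕ) (H : Type*) [Group H] [TopologicalSpace H] (x y : H) : Prop where
  proP : IsProP p H
  gen : closure ((Subgroup.closure {x, y} : Subgroup H) : Set H) = Set.univ
  univ : ∀ (Q : Type) [Group Q] [Finite Q], IsPGroup p Q → ∀ a b : Q,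
    ∃ φ : H →* Q, IsOpen (φ.ker : Set H) ∧ φ x = a ∧ φ y = b

/-- `G` contains a closed subgroup which is a free pro-`p` group of rank two. -/
def HasFreeProP (p : ℕ) (G : Type*) [Group G] [TopologicalSpace G] : Prop :=
  ∃ (H : Subgroup G) (x y : H), IsClosed (H : Set G) ∧ IsFreeProPOn p H x y

end Pool.Agent.H11.PP.ProP
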