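import Pool.Agent.H11.PP.Nest

/-!
# Spaces of perturbations and the pigeonhole principle

`Om p D ps` is the product of the coefficient spaces for a list `ps` of pairs (type, scale),
`pert g ps χ α` the perturbed base point.

Proofs (paper).
* `pigeon` : let `f_c(x)` be the number of `y` with `(x,y) ∈ S`, `cls (x,y) = c`.  Some class
  `c` has `|S| ≤ p^s |S_c|`; so `|X| |Y| ≤ p^(τ+s) |S_c|`.  Let
  `T = {x : |Y| ≤ p^(τ+s+1) f_c(x)}`.  `p^(τ+s+1) |S_c| = ∑_x p^(τ+s+1) f_c(x)
  ≤ p^(τ+s+1) |T| |Y| + |X| |Y|` and the left side is `≥ p |X| |Y| ≥ 2 |X| |Y|`, so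
  `|X| |Y| ≤ p^(τ+s+1) |T| |Y|`, cancel `|Y| > 0`.
* `span_codim` : `T ⊆ v₀ + V`, `V = span {v - v₀}`, so `|T| ≤ |V| = p^(dim V)` and
  `p^(dim X) = |X| ≤ p^σ p^(dim V)`; `Module.card_eq_pow_finrank`, `ZMod.card`.
* `pert_same` : induction on the list.
-/

namespace Pool.Agent.H11.PP

/-- product of coefficient spaces -/
def Om (p D : ℕ) : List (Fin 2 × ℕ) → Type
  | [] => Unit
  | q :: ps => XX p D q.2 × Om p D ps

noncomputable instance instFintypeOm (p D : ℕ) [Fact p.Prime] :
    (ps : List (Fin 2 × ℕ)) → Fintype (Om p D ps)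
  | [] => inferInstanceAs (Fintype Unit)
  | q :: ps => by
    have : Fintype (Om p D ps) := instFintypeOm p D ps
    classical
    exact inferInstanceAs (Fintype (XX p D q.2 × Om p D ps))

instance instNonemptyOm (p D : ℕ) : (ps : List (Fin 2 × ℕ)) → Nonempty (Om p D ps)
  | [] => ⟨()⟩
  | q :: ps => by
    have := instNonemptyOm p D ps
    exact ⟨(fun _ => 0, Classical.arbitrary _)⟩

/-- perturbed base point -/
noncomputable def pert {p D : ℕ} {H : Type*} [Group H] (g : Fin D → H) :
    (ps : List (Fin 2 × ℕ)) → Om p D ps → (Fin 2 → H) → (Fin 2 → H)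
  | [], _, α => α
  | q :: ps, χ, α => pert g ps χ.2 (Function.update α q.1 (ge g χ.1 * α q.1))

theorem pigeon {X Y K : Type*} [Fintype X] [Fintype Y] [Nonempty Y] [Fintype K]
    [DecidableEq X] [DecidableEq Y] [DecidableEq K] {p : ℕ} (hp : 2 ≤ p) (τ s : ℕ)
    (hK : Fintype.card K ≤ p ^ s) (S : Finset (X × Y))
    (hS : Fintype.card X * Fintype.card Y ≤ p ^ τ * S.card) (cls : X × Y → K) [Nonempty X] :
    ∃ c : K, ∃ T : Finset X, Fintype.card X ≤ p ^ (τ + s + 1) * T.card ∧
      ∀ x ∈ T, Fintype.card Y ≤ p ^ (τ + s + 1) *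
        (Finset.univ.filter fun y => (x, y) ∈ S ∧ cls (x, y) = c).card := by
  classical
  have hp0 : 0 < p := by omega
  have hX : 0 < Fintype.card X := Fintype.card_pos
  have hY : 0 < Fintype.card Y := Fintype.card_pos
  have hS0 : 0 < S.card := by
    rcases Nat.eq_zero_or_pos S.card with h | h
    · rw [h, mul_zero] at hS
      have := Nat.mul_pos hX hY
      omega
    · exact h
  -- a popular class
  obtain ⟨c, hc⟩ : ∃ c : K, S.card ≤ p ^ s * (S.filter fun q => cls q = c).card := by
    by_contra hcon
    push Not at hcon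
    have h1 : S.card = ∑ c : K, (S.filter fun q => cls q = c).card :=
      Finset.card_eq_sum_card_fiberwise (fun q _ => Finset.mem_coe.2 (Finset.mem_univ (cls q)))
    have hKne : (Finset.univ : Finset K).Nonempty :=
      ⟨cls (Classical.arbitrary X, Classical.arbitrary Y), Finset.mem_univ _⟩
    have h2 : ∑ c : K, p ^ s * (S.filter fun q => cls q = c).card < ∑ _c : K, S.card :=
      Finset.sum_lt_sum_of_nonempty hKne (fun c _ => hcon c)
    rw [← Finset.mul_sum, ← h1, Finset.sum_const, Finset.card_univ, smul_eq_mul] at h2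
    exact absurd h2 (not_lt.2 (Nat.mul_le_mul_right _ hK))
  refine ⟨c, Finset.univ.filter fun x => Fintype.card Y ≤ p ^ (τ + s + 1) *
        (Finset.univ.filter fun y => (x, y) ∈ S ∧ cls (x, y) = c).card, ?_, ?_⟩
  swap
  · intro x hx
    exact (Finset.mem_filter.1 hx).2
  set f : X → ℕ := fun x => (Finset.univ.filter fun y => (x, y) ∈ S ∧ cls (x, y) = c).card with hf
  set P : ℕ := p ^ (τ + s + 1) with hP
  set T : Finset X := Finset.univ.filter fun x => Fintype.card Y ≤ P * f x with hT
  have hfle : ∀ x, f x ≤ Fintype.card Y := fun x => Finset.card_le_univ _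
  have hsum : (S.filter fun q => cls q = c).card = ∑ x : X, f x := by
    rw [Finset.card_eq_sum_card_fiberwise (f := Prod.fst) (t := Finset.univ)
      (fun q _ => Finset.mem_coe.2 (Finset.mem_univ _))]
    refine Finset.sum_congr rfl fun x _ => ?_
    rw [hf]
    refine Finset.card_bij' (fun q _ => q.2) (fun y _ => (x, y)) ?_ ?_ ?_ ?_
    · rintro ⟨a, b⟩ hq
      simp only [Finset.mem_filter, Finset.mem_univ, true_and] at hq ⊢
      obtain ⟨⟨h1, h2⟩, h3⟩ := hq
      subst h3
      exact ⟨h1, h2⟩
    · intro y hy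
      simp only [Finset.mem_filter, Finset.mem_univ, true_and] at hy ⊢
      exact ⟨hy, trivial⟩
    · rintro ⟨a, b⟩ hq
      simp only [Finset.mem_filter] at hq
      rw [← hq.2]
    · intro y hy
      rfl
  have hup : P * (S.filter fun q => cls q = c).card
      ≤ P * T.card * Fintype.card Y + Fintype.card X * Fintype.card Y := by
    rw [hsum, Finset.mul_sum]
    calc ∑ x : X, P * f x
        ≤ ∑ x : X, ((if x ∈ T then P * Fintype.card Y else 0) + Fintype.card Y) := by
          refine Finset.sum_le_sum fun x _ => ?_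
          by_cases hx : x ∈ T
          · rw [if_pos hx]
            have := Nat.mul_le_mul_left P (hfle x)
            omega
          · rw [if_neg hx]
            have h3 : ¬ Fintype.card Y ≤ P * f x := by
              intro h
              exact hx (Finset.mem_filter.2 ⟨Finset.mem_univ _, h⟩)
            omega
      _ = P * T.card * Fintype.card Y + Fintype.card X * Fintype.card Y := by
          rw [Finset.sum_add_distrib, Finset.sum_const, Finset.card_univ, smul_eq_mul]
          congr 1
          rw [← Finset.sum_filter, Finset.sum_const, smul_eq_mul]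
          have : (Finset.univ.filter fun x => x ∈ T) = T := by
            ext x; simp
          rw [this]
          ring
  have hlow : 2 * (Fintype.card X * Fintype.card Y)
      ≤ P * (S.filter fun q => cls q = c).card := by
    calc 2 * (Fintype.card X * Fintype.card Y) ≤ p * (p ^ τ * S.card) := Nat.mul_le_mul hp hS
      _ ≤ p * (p ^ τ * (p ^ s * (S.filter fun q => cls q = c).card)) :=
          Nat.mul_le_mul_left _ (Nat.mul_le_mul_left _ hc)
      _ = P * (S.filter fun q => cls q = c).card := by
          rw [hP]; ring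
  have hfin : Fintype.card X * Fintype.card Y ≤ P * T.card * Fintype.card Y := by omega
  exact Nat.le_of_mul_le_mul_right hfin hY

theorem span_codim {p D k : ℕ} [Fact p.Prime] (σ : ℕ) (T : Finset (XX p D k)) (v₀ : XX p D k)
    (hT : Fintype.card (XX p D k) ≤ p ^ σ * T.card) :
    Module.finrank (ZMod p) (XX p D k ⧸
      Submodule.span (ZMod p) ((fun v => v - v₀) '' (T : Set (XX p D k)))) ≤ σ := by
  classical
  have hp : 1 < p := (Fact.out : p.Prime).one_lt
  set V : Submodule (ZMod p) (XX p D k) :=
    Submodule.span (ZMod p) ((fun v => v - v₀) '' (T : Set (XX p D k))) with hV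
  have h1 : Fintype.card (XX p D k) = p ^ Module.finrank (ZMod p) (XX p D k) := by
    rw [Module.card_eq_pow_finrank (K := ZMod p) (V := XX p D k), ZMod.card]
  have h2 : Fintype.card V = p ^ Module.finrank (ZMod p) V := by
    rw [Module.card_eq_pow_finrank (K := ZMod p) (V := V), ZMod.card]
  have h3 : T.card ≤ Fintype.card V := by
    have hinj : Function.Injective (fun v : T => (⟨(v : XX p D k) - v₀,
        Submodule.subset_span ⟨v, v.2, rfl⟩⟩ : V)) := by
      intro a b hab
      have := congrArg Subtype.val hab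
      exact Subtype.ext (sub_left_inj.1 this)
    have := Fintype.card_le_of_injective _ hinj
    rwa [Fintype.card_coe] at this
  have h4 : p ^ Module.finrank (ZMod p) (XX p D k) ≤ p ^ (σ + Module.finrank (ZMod p) V) := by
    rw [← h1, pow_add, ← h2]
    exact hT.trans (Nat.mul_le_mul_left _ h3)
  have h5 := (Nat.pow_le_pow_iff_right hp).1 h4
  have h6 := Submodule.finrank_quotient_add_finrank V
  omega

/-- perturbations of a single type -/
lemma pert_same {p D : ℕ} [Fact p.Prime] {B H : Type*} [Ring B] [Algebra (ZMod p) B] [Group H]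
    (S : Sys p B H) (g : Fin D → H) (t : Fin 2) (is : List ℕ) (n : ℕ) (hn : ∀ i ∈ is, n ≤ i)
    (χ : Om p D (is.map fun i => (t, i))) :
    ∃ A ∈ S.D n, ∀ α : Fin 2 → H,
      pert g (is.map fun i => (t, i)) χ α = Function.update α t (A * α t) := by
  induction is with
  | nil =>
    refine ⟨1, (S.D n).one_mem, fun α => ?_⟩
    rw [one_mul, Function.update_eq_self]
    rfl
  | cons i is ih =>
    obtain ⟨A, hA, h⟩ := ih (fun j hj => hn j (List.mem_cons_of_mem _ hj)) χ.2
    refine ⟨A * ge g χ.1, mul_mem hA (S.D_anti (hn i List.mem_cons_self) (S.ge_mem g i χ.1)),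
      fun α => ?_⟩
    have h1 : pert g ((i :: is).map fun i => (t, i)) χ α =
        pert g (is.map fun i => (t, i)) χ.2 (Function.update α t (ge g χ.1 * α t)) := rfl
    rw [h1, h, Function.update_idem, Function.update_self, mul_assoc]

/-- perturbed base points are `D K`-multiples -/
lemma pert_mem {p D : ℕ} [Fact p.Prime] {B H : Type*} [Ring B] [Algebra (ZMod p) B] [Group H]
    (S : Sys p B H) (g : Fin D → H) (ps : List (Fin 2 × ℕ)) (n : ℕ) (hn : ∀ q ∈ ps, n ≤ q.2)
    (χ : Om p D ps) (α : Fin 2 → H) :
    ∃ ζ : Fin 2 → H, (∀ s, ζ s ∈ S.D n) ∧ pert g ps χ α = fun s => ζ s * α s := by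
  induction ps generalizing α with
  | nil =>
    refine ⟨fun _ => 1, fun _ => (S.D n).one_mem, ?_⟩
    funext s
    rw [one_mul]
    rfl
  | cons q ps ih =>
    obtain ⟨ζ, hζ, h⟩ := ih (fun j hj => hn j (List.mem_cons_of_mem _ hj)) χ.2
      (Function.update α q.1 (ge g χ.1 * α q.1))
    refine ⟨fun s => ζ s * (if s = q.1 then ge g χ.1 else 1), fun s => ?_, ?_⟩
    · refine mul_mem (hζ s) ?_
      split_ifs
      · exact S.D_anti (hn q List.mem_cons_self) (S.ge_mem g q.2 χ.1)
      · exact (S.D n).one_mem
    · have h1 : pert g (q :: ps) χ α =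
          pert g ps χ.2 (Function.update α q.1 (ge g χ.1 * α q.1)) := rfl
      rw [h1, h]
      funext s
      by_cases hs : s = q.1
      · subst hs
        simp only [Function.update_self, if_true, mul_assoc]
      · simp only [Function.update_of_ne hs, if_neg hs, mul_one]

end Pool.Agent.H11.PP
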