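import Pool.Agent.H11.PP.StructDefs

/-!
# Structure of avoiding Lyndon words

Proof of `lyn_struct` (paper).  Let `l` be Lyndon of weight `k`, avoiding patterns of length
`m + 1` at `z`, with `1 ≤ k`, `2 K ≤ k`, `2 R B ≤ k`.  A *good position* is `i ≤ |l|` with
`Lyn (l.take i)`.  Let `i₀` be the least good position with `k ≤ 2 wl (l.take i)` (`|l|` is one),
`u = l.take i₀`, `t = l.drop i₀`; `wl t = k - wl u ≤ wl u`, so by `tail_rep` (with `S = []`)
`t = exw T`, `T : List (Blk u)`.

Case A: `T` does not avoid: `¬ Avoid (wtB wt u) m K R B (GB G z u) (wl wt u) T`.  Choose a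
decomposition `T = T₁ ++ L.flatten ++ T'` with `L.length = m`, `PatW (wtB wt u) K R L`,
`wl (wtB wt u) L.flatten ≤ B` and `GB G z u (wl wt u + wl _ T₁) [] L` with `|T₁|` maximal.  Put
`u' = u ++ exw T₁` (Lyndon by `Lyn_append_exw`), `y = wl wt u' = wl wt u + wl (wtB wt u) T₁` (by
`wl_exw`), `E = L.map exw`, `i = |u|`, `T₂ = L.flatten ++ T'` (as a list over
`Blk (u'.take i) = Blk u`; note `u'.take i = u`), so `l = u' ++ exw T₂`.  `GB … y [] L` is
`G z [y] E`.  We have `¬ G z [] (u' :: E)`: otherwise the decomposition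
`l = [] ++ (u' :: E).flatten ++ exw T'` contradicts `Avoid wt (m+1) K R ⊤ G z l`; to check
`PatW wt K R (u' :: E)`: `PatW wt K R E` (`PatW_map`), `Lyn u'`,
`K ≤ k/2 ≤ wl u ≤ y`, `R * wl E.flatten ≤ R B ≤ k/2 ≤ y`, and for the head `exw X` of `E`
(`X ≠ []` since `X` is Lyndon): `SL u' (exw X)` by `SL_exw_of_ne_nil`.  Finally if
`T₂ = x :: T₃` then `T₃` avoids at position `y + wtB x`: otherwise there would be a decomposition
with a longer `T₁`.  So `l ∈ SetA`.

Case B: `T` avoids.  If `i₀ = 1` (`u` is one letter) then `l ∈ SetB1`.  Otherwise let `i` be the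
greatest good position `< i₀` (`1` is one), `v = l.take i`; `2 wl v < k` by minimality of `i₀`.
`next_block` for `l = v ++ l.drop i` gives `L, c, t'`; `v ++ l.take L ++ [c]` is Lyndon by
`Lyn.mul` (`block_Lyn`, `block_lexLt`) and a prefix of `l` of length `i + L + 1`, so
`i₀ ≤ i + L + 1` by maximality of `i`, and `next_good` (applied to `v`, `u`) gives
`i + L + 1 ≤ i₀`.  So `u = v ++ l.take L ++ [c]`, and `l.take L = per v L` (`take_eq_per`).
`v` avoids at `z` as a factor of `l` (`Avoid.factor` with `W1 = []`).  So `l ∈ SetB2`.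
-/

namespace Pool.Agent.H11.PP

variable {α : Type} [LinearOrder α]

lemma struct_mem_SetA {wt : α → ℕ} {m K R B : ℕ} {G : ℕ → List ℕ → List (List α) → Prop}
    {z k : ℕ} {l u' u₀ : List α} {i : ℕ} (h : u'.take i = u₀) {y : ℕ} {E : List (List α)}
    {T₂ : List (Blk u₀)} (hlk : wl wt l = k) (hKy : K ≤ y) (hE : E.length = m)
    (hEB : wl wt E.flatten ≤ B) (hG : G z [y] E) (hLu' : Lyn u') (hy : wl wt u' = y)
    (hnG : ¬ G z [] (u' :: E)) (hi : i ≤ u'.length) (hLyn : Lyn u₀) (hl : l = u' ++ exw T₂)
    (hav : ∀ x T₃, T₂ = x :: T₃ →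
      Avoid (wtB wt u₀) m K R B (GB G z u₀) (y + wtB wt u₀ x) T₃) :
    l ∈ SetA wt m K R B G z k := by
  subst h
  exact ⟨hlk, y, E, u', i, T₂, hKy, hE, hEB, hG, hLu', hy, hnG, hi, hLyn, hl, hav⟩

lemma struct_mem_SetB1 {wt : α → ℕ} {m K R B : ℕ} {G : ℕ → List ℕ → List (List α) → Prop}
    {z k : ℕ} {l u₀ : List α} {c : α} (h : u₀ = [c]) {T : List (Blk u₀)}
    (hlk : wl wt l = k) (hl : l = u₀ ++ exw T)
    (hav : Avoid (wtB wt u₀) m K R B (GB G z u₀) (wl wt u₀) T) :
    l ∈ SetB1 wt m K R B G z k := by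
  subst h
  refine ⟨hlk, c, T, hl, ?_⟩
  simpa using hav

theorem lyn_struct {wt : α → ℕ} (hwt : ∀ a, 1 ≤ wt a) (m K R B : ℕ)
    (G : ℕ → List ℕ → List (List α) → Prop) (z k : ℕ) (hk : 1 ≤ k) (hK : 2 * K ≤ k)
    (hR : 2 * (R * B) ≤ k) :
    {l | Lyn l ∧ wl wt l = k ∧ Avoid wt (m + 1) K R ⊤ G z l} ⊆
      SetA wt m K R B G z k ∪ SetB1 wt m K R B G z k ∪ SetB2 wt m K R B G z k := by
  classical
  rintro l ⟨hl, hlk, hA⟩
  have hex : ∃ i, i ≤ l.length ∧ Lyn (l.take i) ∧ k ≤ 2 * wl wt (l.take i) :=
    ⟨l.length, le_rfl, by simpa using hl, by rw [List.take_length]; omega⟩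
  obtain ⟨i₀, hi₀, hLu, hku, hmin⟩ : ∃ i₀, i₀ ≤ l.length ∧ Lyn (l.take i₀) ∧
      k ≤ 2 * wl wt (l.take i₀) ∧
      ∀ i < i₀, Lyn (l.take i) → 2 * wl wt (l.take i) < k := by
    refine ⟨Nat.find hex, (Nat.find_spec hex).1, (Nat.find_spec hex).2.1,
      (Nat.find_spec hex).2.2, ?_⟩
    intro i hi hLi
    have h1 := Nat.find_min hex hi
    have h2 : i ≤ l.length := hi.le.trans (Nat.find_spec hex).1
    by_contra hcon
    exact h1 ⟨h2, hLi, by omega⟩
  obtain ⟨u, hu⟩ : ∃ u, u = l.take i₀ := ⟨_, rfl⟩
  rw [← hu] at hLu hku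
  have hlu : l = u ++ l.drop i₀ := by rw [hu, List.take_append_drop]
  have hulen : u.length = i₀ := by rw [hu, List.length_take]; omega
  have hwl : wl wt u + wl wt (l.drop i₀) = k := by
    rw [← wl_append, ← hlu, hlk]
  obtain ⟨T, hT⟩ := tail_rep hwt hl hLu [] (l.drop i₀) (by simpa using hlu) (by omega)
  have hlT : l = u ++ exw T := by rw [hT]; exact hlu
  by_cases hTA : Avoid (wtB wt u) m K R B (GB G z u) (wl wt u) T
  · -- case B
    have hi₀0 : i₀ ≠ 0 := by
      intro h0
      apply hLu.1
      rw [hu, h0]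
      rfl
    obtain ⟨c₀, l', hl'⟩ : ∃ c₀ l', l = c₀ :: l' := List.exists_cons_of_ne_nil hl.1
    by_cases hi1 : i₀ = 1
    · left
      right
      refine struct_mem_SetB1 (c := c₀) ?_ hlk hlT hTA
      rw [hu, hi1, hl']
      rfl
    · right
      obtain ⟨i, hii, hLv, hmax⟩ : ∃ i, i < i₀ ∧ Lyn (l.take i) ∧
          ∀ j, j < i₀ → Lyn (l.take j) → j ≤ i := by
        have h1 : Lyn (l.take 1) := by
          rw [hl']
          exact Lyn_singleton c₀
        have h2 := Nat.findGreatest_spec (P := fun j => Lyn (l.take j)) (n := i₀ - 1)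
          (m := 1) (by omega) h1
        have h3 := Nat.findGreatest_le (P := fun j => Lyn (l.take j)) (i₀ - 1)
        refine ⟨Nat.findGreatest (fun j => Lyn (l.take j)) (i₀ - 1), by omega, h2, ?_⟩
        intro j hj hLj
        exact Nat.le_findGreatest (by omega) hLj
      have h2v := hmin i hii hLv
      obtain ⟨v, hv⟩ : ∃ v, v = l.take i := ⟨_, rfl⟩
      rw [← hv] at hLv h2v
      have hlv : l = v ++ l.drop i := by rw [hv, List.take_append_drop]
      have hvlen : v.length = i := by rw [hv, List.length_take]; omega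
      have hvl : v <+: l := ⟨_, hlv.symm⟩
      have hdrop : l.drop i ≠ [] := by
        intro hcon
        rw [List.drop_eq_nil_iff] at hcon
        omega
      obtain ⟨L, c, t', ht', hL, hc⟩ := next_block hl hLv.1 hlv hdrop
      have hlw : l = v ++ (l.take L ++ c :: t') := by rw [← ht']; exact hlv
      have hw : Lyn (v ++ (l.take L ++ [c])) :=
        (Lyn.mul hLv (block_Lyn hl hL hc) (block_lexLt hvl hLv.1 hL hc)).1
      have hwlen : (v ++ (l.take L ++ [c])).length = i + L + 1 := by
        simp only [List.length_append, List.length_take, List.length_singleton, hvlen]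
        omega
      have hwl' : l = (v ++ (l.take L ++ [c])) ++ t' := by
        simpa using hlw
      have hwtake : l.take (i + L + 1) = v ++ (l.take L ++ [c]) := by
        have hpre : (v ++ (l.take L ++ [c])) <+: l := ⟨t', hwl'.symm⟩
        rw [← hwlen]
        exact (List.prefix_iff_eq_take.1 hpre).symm
      have h5 : i₀ ≤ i + L + 1 := by
        by_contra hcon
        have := hmax (i + L + 1) (by omega) (by rw [hwtake]; exact hw)
        omega
      have h6 : v.length + L + 1 ≤ u.length := by
        apply next_good hlw _ _ hLu _ hLv.1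
        · rw [hv, hu]
          exact List.take_prefix_take_left hii.le
        · exact ⟨_, hlu.symm⟩
        · intro hcon
          rw [hcon] at hulen
          omega
      have h7 : i₀ = i + L + 1 := by omega
      have huw : u = v ++ (l.take L ++ [c]) := by
        rw [hu, h7, hwtake]
      have hper : l.take L = per v L := by
        apply take_eq_per hLv.1
        refine ⟨c :: t', ?_⟩
        rw [List.append_assoc]
        exact hlw.symm
      refine ⟨hlk, v, u, L, c, T, hLv, h2v, ?_, ?_, hLu, hlT, hTA⟩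
      · have h8 : Avoid wt (m + 1) K R ⊤ G z ([] ++ v ++ l.drop i) := by
          rw [List.nil_append, ← hlv]
          exact hA
        have h9 := h8.factor
        simpa using h9
      · rw [huw, hper, List.append_assoc]
  · -- case A
    left
    left
    -- a decomposition with `T₁` as long as possible
    let P : ℕ → Prop := fun n => ∃ (T₁ : List (Blk u)) (L : List (List (Blk u)))
      (T' : List (Blk u)), T = T₁ ++ L.flatten ++ T' ∧ L.length = m ∧
        PatW (wtB wt u) K R L ∧ (wl (wtB wt u) L.flatten : ℕ∞) ≤ B ∧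
        GB G z u (wl wt u + wl (wtB wt u) T₁) [] L ∧ T₁.length = n
    have hPle : ∀ n, P n → n ≤ T.length := by
      rintro n ⟨T₁, L, T', h1, -, -, -, -, h2⟩
      rw [h1, ← h2]
      simp only [List.length_append]
      omega
    obtain ⟨n₀, hn₀⟩ : ∃ n, P n := by
      by_contra hcon
      apply hTA
      intro W' L W'' h1 h2 h3 h4 h5
      exact hcon ⟨_, W', L, W'', h1, h2, h3, h4, h5, rfl⟩
    have hspec := Nat.findGreatest_spec (P := P) (hPle _ hn₀) hn₀
    have hgr : ∀ n, P n → n ≤ Nat.findGreatest P T.length :=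
      fun n hn => Nat.le_findGreatest (hPle _ hn) hn
    obtain ⟨T₁, L, T', hT1, hLm, hpat, hLB, hGB, hlen⟩ := hspec
    rw [← hlen] at hgr
    have hwlL : wl (wtB wt u) L.flatten ≤ B := by exact_mod_cast hLB
    have hy : wl wt (u ++ exw T₁) = wl wt u + wl (wtB wt u) T₁ := by
      rw [wl_append, wl_exw]
    have hEfl : (L.map exw).flatten = exw L.flatten := (exw_flatten L).symm
    have hEB : wl wt (L.map exw).flatten ≤ B := by
      rw [hEfl, wl_exw]
      exact hwlL
    have hLu' : Lyn (u ++ exw T₁) := Lyn_append_exw hLu T₁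
    have hl2 : l = (u ++ exw T₁) ++ exw (L.flatten ++ T') := by
      rw [hlT, hT1]
      simp
    refine struct_mem_SetA (i := u.length) (u₀ := u) (u' := u ++ exw T₁)
      (y := wl wt u + wl (wtB wt u) T₁) (E := L.map exw) (T₂ := L.flatten ++ T')
      List.take_left hlk (by omega) (by rw [List.length_map, hLm]) hEB hGB hLu' hy ?_ ?_ hLu
      hl2 ?_
    · -- not exceptional
      have h1 := hA [] ((u ++ exw T₁) :: L.map exw) (exw T')
        (by rw [List.nil_append, List.flatten_cons, hEfl, hl2]; simp)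
        (by rw [List.length_cons, List.length_map, hLm]) ?_ le_top
      · simpa using h1
      · refine ⟨PatW_map hLu L hpat, hLu', by rw [hy]; omega, ?_, ?_⟩
        · rw [hy]
          have : R * wl wt (L.map exw).flatten ≤ R * B := Nat.mul_le_mul_left R hEB
          omega
        · intro l' hl'
          cases L with
          | nil => simp at hl'
          | cons X L' =>
            simp only [List.map_cons, List.head?_cons, Option.mem_def,
              Option.some.injEq] at hl'
            rw [← hl']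
            have hX : X ≠ [] := hpat.2.1.1
            simpa using SL_exw_of_ne_nil hX (exw T₁) []
    · simp
    · intro x T₃ hx
      by_contra hcon
      unfold Avoid at hcon
      push Not at hcon
      obtain ⟨W', L', W'', h1, h2, h3, h4, h5⟩ := hcon
      have h6 : P ((T₁ ++ [x] ++ W').length) := by
        refine ⟨T₁ ++ [x] ++ W', L', W'', ?_, h2, h3, h4, ?_, rfl⟩
        · rw [hT1, List.append_assoc, hx, h1]
          simp
        · have : wl wt u + wl (wtB wt u) (T₁ ++ [x] ++ W') =
              wl wt u + wl (wtB wt u) T₁ + wtB wt u x + wl (wtB wt u) W' := by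
            simp only [wl_append, wl_cons, wl_nil]
            omega
          rw [this]
          exact h5
      have h7 := hgr _ h6
      simp only [List.length_append, List.length_singleton] at h7
      omega

end Pool.Agent.H11.PP
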