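import Pool.Agent.H11.PP.Oracle

/-!
# Structure of avoiding Lyndon words

`GB G z u` is the oracle of depth `m` on the block alphabet over `u`, for Lyndon words starting
at absolute position `z`; the positions used for blocks are relative to the start of the Lyndon
word.

`SetA`, `SetB1`, `SetB2` are the three kinds of avoiding Lyndon words.

Proofs (paper).
* `GoodSys_GB` : first condition: `G z (fut ++ [y]) []` with `(fut ++ [y]).length = m + 1`.
  Second: `GB … y (k :: fut) L` is `G z (k :: (fut ++ [y])) (L.map exw)`; the exceptional set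
  `{X | Lyn X ∧ wl X = k ∧ ¬ GB … y fut (X :: L)}` is mapped injectively by `exw`
  (`exw_injective`, `Lyn_exw`, `wl_exw`) into the exceptional set of `G`; use `Bd.of_injOn`.
* `SubExp_cum` : `β i ≤ C τ^i ≤ C τ^n`-type bound: given `τ > 1` take `τ' = (1+τ)/2`, or simply
  `cum β n ≤ (n+1) C τ'^n` and `(n+1) (τ'/τ)^n` is bounded.
* `PatW_map` : induction on `L`: `Lyn_exw`, `wl_exw`, `exw_flatten`, `SL_exw`.
-/

namespace Pool.Agent.H11.PP

variable {α : Type} [LinearOrder α]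

/-- the oracle on blocks -/
def GB (G : ℕ → List ℕ → List (List α) → Prop) (z : ℕ) (u : List α) :
    ℕ → List ℕ → List (List (Blk u)) → Prop :=
  fun y fut L => G z (fut ++ [y]) (L.map exw)

lemma GoodSys_GB {wt : α → ℕ} {m K : ℕ} {κ : ℕ → ℝ} {G : ℕ → List ℕ → List (List α) → Prop}
    (hG : GoodSys wt (m + 1) K κ G) (z : ℕ) {u : List α} (hu : Lyn u) :
    GoodSys (wtB wt u) m K κ (GB G z u) := by
  refine ⟨?_, ?_⟩
  · intro y fut hf
    refine hG.1 z (fut ++ [y]) ?_
    rw [List.length_append, hf]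
    rfl
  · intro y k fut L hK hlen hGB
    have h1 : (fut ++ [y]).length + (L.map (exw (u := u))).length + 1 = m + 1 := by
      rw [List.length_append, List.length_map, List.length_singleton]
      omega
    have h2 := hG.2 z k (fut ++ [y]) (L.map exw) hK h1 hGB
    refine h2.of_injOn (exw (u := u)) ?_ exw_injective.injOn
    rintro X ⟨hX, hw, hn⟩
    exact ⟨Lyn_exw hu hX, by rw [wl_exw, hw], hn⟩

/-- cumulative `β` -/
def cum (β : ℕ → ℕ) (n : ℕ) : ℕ := ∑ i ∈ Finset.range (n + 1), β i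

lemma SubExp_cum {β : ℕ → ℕ} (hβ : SubExp β) : SubExp (cum β) := by
  intro τ hτ
  obtain ⟨C, hC⟩ := hβ τ hτ
  have hC0 : 0 ≤ C := by
    have h0 := hC 0
    rw [pow_zero, mul_one] at h0
    exact le_trans (Nat.cast_nonneg _) h0
  have hτ1 : 0 < τ - 1 := sub_pos.2 hτ
  refine ⟨C * (τ / (τ - 1)), fun n => ?_⟩
  have h1 : (cum β n : ℝ) ≤ ∑ i ∈ Finset.range (n + 1), C * τ ^ i := by
    unfold cum
    push_cast
    exact Finset.sum_le_sum fun i _ => hC i
  have h2 : ∑ i ∈ Finset.range (n + 1), C * τ ^ i = C * ((τ ^ (n + 1) - 1) / (τ - 1)) := by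
    rw [← Finset.mul_sum, geom_sum_eq (ne_of_gt hτ)]
  rw [h2] at h1
  refine h1.trans ?_
  rw [mul_assoc]
  refine mul_le_mul_of_nonneg_left ?_ hC0
  rw [div_mul_eq_mul_div, ← pow_succ']
  exact div_le_div_of_nonneg_right (by linarith) hτ1.le

lemma Alph_blk {wt : α → ℕ} {β : ℕ → ℕ} (h : Alph wt β) (u : List α) :
    Alph (wtB wt u) (cum β) :=
  ⟨one_le_wtB h.1 u, fun n => Bd_blk h.1 h.2 u n⟩

lemma PatW_map {wt : α → ℕ} {K R : ℕ} {u : List α} (hu : Lyn u) (L : List (List (Blk u)))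
    (h : PatW (wtB wt u) K R L) : PatW wt K R (L.map exw) := by
  induction L with
  | nil => trivial
  | cons X L ih =>
    obtain ⟨h1, h2, h3, h4, h5⟩ := h
    refine ⟨ih h1, Lyn_exw hu h2, ?_, ?_, ?_⟩
    · rw [wl_exw]
      exact h3
    · rw [← exw_flatten, wl_exw, wl_exw]
      exact h4
    · intro l' hl'
      cases L with
      | nil => simp at hl'
      | cons Y L =>
        simp only [List.map_cons, List.head?_cons, Option.mem_def, Option.some.injEq] at hl'
        subst hl'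
        exact SL_exw (h5 Y (by simp))

/-- case A -/
def SetA (wt : α → ℕ) (m K R B : ℕ) (G : ℕ → List ℕ → List (List α) → Prop) (z k : ℕ) :
    Set (List α) :=
  {l | wl wt l = k ∧ ∃ (y : ℕ) (E : List (List α)) (u' : List α) (i : ℕ)
    (T₂ : List (Blk (u'.take i))), K ≤ y ∧ E.length = m ∧ wl wt E.flatten ≤ B ∧
      G z [y] E ∧ Lyn u' ∧ wl wt u' = y ∧ ¬ G z [] (u' :: E) ∧ i ≤ u'.length ∧
      Lyn (u'.take i) ∧ l = u' ++ exw T₂ ∧
      ∀ x T₃, T₂ = x :: T₃ → Avoid (wtB wt (u'.take i)) m K R B (GB G z (u'.take i))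
        (y + wtB wt (u'.take i) x) T₃}

/-- case B, heavy first letter -/
def SetB1 (wt : α → ℕ) (m K R B : ℕ) (G : ℕ → List ℕ → List (List α) → Prop) (z k : ℕ) :
    Set (List α) :=
  {l | wl wt l = k ∧ ∃ (c : α) (T : List (Blk [c])), l = [c] ++ exw T ∧
    Avoid (wtB wt [c]) m K R B (GB G z [c]) (wt c) T}

/-- case B, main case -/
def SetB2 (wt : α → ℕ) (m K R B : ℕ) (G : ℕ → List ℕ → List (List α) → Prop) (z k : ℕ) :
    Set (List α) :=
  {l | wl wt l = k ∧ ∃ (v u : List α) (L : ℕ) (c : α) (T : List (Blk u)),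
    Lyn v ∧ 2 * wl wt v < k ∧ Avoid wt (m + 1) K R ⊤ G z v ∧ u = v ++ per v L ++ [c] ∧ Lyn u ∧
    l = u ++ exw T ∧ Avoid (wtB wt u) m K R B (GB G z u) (wl wt u) T}

end Pool.Agent.H11.PP
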