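import Pool.Agent.H11.PP.Words

/-!
# Filtered algebras with a group and an adjoint action

`Sys p B H` : an `𝔽_p`-algebra `B` with a decreasing multiplicative filtration `J`, a group `H`
mapping to `B`, and the linear extension `Ad` of the conjugation action.  The main example is the
group algebra of a finite quotient of a pro-`p` group with the augmentation filtration.
-/

namespace Pool.Agent.H11.PP

/-- the abstract setting -/
structure Sys (p : ℕ) [Fact p.Prime] (B H : Type*) [Ring B] [Algebra (ZMod p) B] [Group H] where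
  /-- the filtration -/
  J : ℕ → Submodule (ZMod p) B
  /-- the group -/
  of : H →* B
  /-- adjoint action -/
  Ad : B →ₐ[ZMod p] Module.End (ZMod p) B
  J_zero : J 0 = ⊤
  J_succ_le : ∀ n, J (n + 1) ≤ J n
  J_mul : ∀ a b x y, x ∈ J a → y ∈ J b → x * y ∈ J (a + b)
  of_sub_one : ∀ h, of h - 1 ∈ J 1
  Ad_mem : ∀ a b x y, x ∈ J a → y ∈ J b → Ad x y ∈ J (a + b)
  Ad_of : ∀ h v, Ad (of h) v = of h * v * of h⁻¹

/-- rank modulo a subspace: the dimension of `(S + J)/J` -/
noncomputable def rk {F V : Type*} [Field F] [AddCommGroup V] [Module F V]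
    (J S : Submodule F V) : ℕ :=
  Module.finrank F (S.map J.mkQ)

section words
variable {H : Type*} [Group H] {D : ℕ} (g : Fin D → H)

/-- right normed group commutators -/
def cw : List (Fin D) → H
  | [] => 1
  | [i] => g i
  | i :: j :: w => g i * cw (j :: w) * (g i)⁻¹ * (cw (j :: w))⁻¹

end words

namespace Sys

variable {p : ℕ} [Fact p.Prime] {B H : Type*} [Ring B] [Algebra (ZMod p) B] [Group H]
variable (S : Sys p B H)

lemma J_anti {a b : ℕ} (h : a ≤ b) : S.J b ≤ S.J a := by
  induction b, h using Nat.le_induction with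
  | base => exact le_rfl
  | succ n _ ih => exact (S.J_succ_le n).trans ih

lemma mem_zero (x : B) : x ∈ S.J 0 := by rw [S.J_zero]; trivial

lemma J_mul_left {n : ℕ} (x : B) {y : B} (hy : y ∈ S.J n) : x * y ∈ S.J n := by
  have := S.J_mul 0 n x y (S.mem_zero x) hy
  rwa [zero_add] at this

lemma J_mul_right {n : ℕ} {x : B} (hx : x ∈ S.J n) (y : B) : x * y ∈ S.J n :=
  S.J_mul n 0 x y hx (S.mem_zero y)

/-- the dimension subgroups -/
def D (n : ℕ) : Subgroup H where
  carrier := {h | S.of h - 1 ∈ S.J n}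
  one_mem' := by simp
  mul_mem' := by
    intro a b ha hb
    have h1 : S.of (a * b) - 1 = S.of a * (S.of b - 1) + (S.of a - 1) := by
      rw [map_mul, mul_sub, mul_one]; abel
    simp only [Set.mem_ofPred_eq] at *
    rw [h1]
    exact add_mem (S.J_mul_left _ hb) ha
  inv_mem' := by
    intro a ha
    simp only [Set.mem_ofPred_eq] at *
    have h1 : S.of a⁻¹ - 1 = - (S.of a⁻¹ * (S.of a - 1)) := by
      rw [mul_sub, ← map_mul, inv_mul_cancel, map_one, mul_one]; abel
    rw [h1]
    exact neg_mem (S.J_mul_left _ ha)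

lemma mem_D {n : ℕ} {h : H} : h ∈ S.D n ↔ S.of h - 1 ∈ S.J n := Iff.rfl

lemma D_anti {a b : ℕ} (h : a ≤ b) : S.D b ≤ S.D a := fun _ hx => S.J_anti h hx

instance D_normal (n : ℕ) : (S.D n).Normal := by
  refine ⟨fun a ha b => ?_⟩
  rw [mem_D] at *
  have h1 : S.of (b * a * b⁻¹) - 1 = S.of b * (S.of a - 1) * S.of b⁻¹ := by
    rw [map_mul, map_mul, mul_sub, sub_mul, mul_one, ← map_mul S.of b b⁻¹, mul_inv_cancel,
      map_one]
  rw [h1]
  exact S.J_mul_right (S.J_mul_left _ ha) _

variable {D : ℕ} (g : Fin D → H)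

/-- the generators of the filtration -/
def x (i : Fin D) : B := S.of (g i) - 1

/-- products of generators -/
def ev (W : List (Fin D)) : B := (W.map (S.x g)).prod

/-- right normed brackets -/
def br : List (Fin D) → B
  | [] => 0
  | [i] => S.x g i
  | i :: j :: w => S.x g i * br (j :: w) - br (j :: w) * S.x g i

/-- the `n`-th part of the Lie algebra generated by the `x i` -/
def LL (n : ℕ) : Submodule (ZMod p) B :=
  Submodule.span (ZMod p) {b | ∃ w : List (Fin D), w.length = n ∧ b = S.br g w}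

/-- span of the words which are `SL`-larger than `u`, of the same length -/
def Up (u : List (Fin D)) : Submodule (ZMod p) B :=
  Submodule.span (ZMod p) {b | ∃ w : List (Fin D), w.length = u.length ∧ SL u w ∧ b = S.ev g w}

/-- the words generate the filtration -/
def Gen : Prop := ∀ n, S.J n ≤
  Submodule.span (ZMod p) {b | ∃ w : List (Fin D), w.length = n ∧ b = S.ev g w} ⊔ S.J (n + 1)

/-- `s_k(ε) = ∑ ε_w (c_w - 1)` -/
noncomputable def sk (k : ℕ) : (List.Vector (Fin D) k → ZMod p) →ₗ[ZMod p] B :=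
  ∑ w : List.Vector (Fin D) k,
    (LinearMap.proj w : (List.Vector (Fin D) k → ZMod p) →ₗ[ZMod p] ZMod p).smulRight
      (S.of (cw g w.toList) - 1)

lemma sk_apply (k : ℕ) (ε : List.Vector (Fin D) k → ZMod p) :
    S.sk g k ε = ∑ w : List.Vector (Fin D) k, ε w • (S.of (cw g w.toList) - 1) := by
  simp [sk]

/-- `g_ε = ∏ c_w ^ ε_w` -/
noncomputable def _root_.Pool.Agent.H11.PP.ge {p : ℕ} {H : Type*} [Group H] {D : ℕ}
    (g : Fin D → H) {k : ℕ} (ε : List.Vector (Fin D) k → ZMod p) : H :=
  ((Finset.univ : Finset (List.Vector (Fin D) k)).toList.map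
    fun w => cw g w.toList ^ (ε w).val).prod

/-- `ε` has leading word `ℓ` -/
def Lead {k : ℕ} (l : List (Fin D)) (ε : List.Vector (Fin D) k → ZMod p) : Prop :=
  S.sk g k ε - S.ev g l ∈ S.Up g l ⊔ S.J (k + 1)

@[simp] lemma ev_nil : S.ev g [] = 1 := rfl

@[simp] lemma ev_cons (i : Fin D) (W : List (Fin D)) :
    S.ev g (i :: W) = S.x g i * S.ev g W := by simp [ev]

@[simp] lemma ev_append (U V : List (Fin D)) : S.ev g (U ++ V) = S.ev g U * S.ev g V := by
  simp [ev]

lemma x_mem (i : Fin D) : S.x g i ∈ S.J 1 := S.of_sub_one _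

lemma ev_mem (W : List (Fin D)) : S.ev g W ∈ S.J W.length := by
  induction W with
  | nil => exact S.mem_zero _
  | cons i W ih =>
    rw [ev_cons, List.length_cons, add_comm]
    exact S.J_mul _ _ _ _ (S.x_mem g i) ih

end Sys

end Pool.Agent.H11.PP
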