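import Pool.Agent.H11.PP.Pigeon
import Pool.Agent.H11.PP.Multi
import Pool.Agent.H11.PP.Eval

/-!
# The top layer: many perturbations in the layers `i > N'`

`Mc P c t X hs = ∑_{|u| < P} c (u ++ [t]) • MM X u hs`.

Proof of `top` (paper).  Induction on the list `is` (all `α`, `Sset`).  `X s = of (α s) - 1 ∈ J e`.
Let `is = i :: is'`, `Om = XX i × Om'`.

(a) The rank for the layer `i`.  The map `χ ↦ (d restricted to words of length < PM)` (choose for
every `χ ∈ Sset` some `w_χ, d_χ`) has at most `p^(2^PM - 1)` values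
(`∑_{n < PM} 2^n = 2^PM - 1`), so some class has at least `|Sset| / p^(2^PM-1)` elements; averaging
over `Om'` there is `χ' ∈ Om'` such that `F = {z : (z, χ') ∈ Sset, in the class}` satisfies
`|XX i| ≤ p^(τ + 2^PM - 1) |F|`.  Fix `z' ∈ F`, let `z ∈ F`; `w = w_{(z,χ')}`,
`w' = w_{(z',χ')}`.  By `pert_same` (layers `is'` are `≥ N' + e`) there is `A ∈ D (N' + e)` with
`pert (z, χ') α = update α t (A * ge z * α t) =: β_z`, similarly `β_{z'}`; these have values in
`D e`.  As `d_χ = d_χ'` on words of length `< PM`, `of w - of w' ∈ JF PM`, so (`evA_JJ`,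
`M ≤ e PM`) `of (lift β_{z'} w) - of (lift β_{z'} w') ∈ J M`, hence `lift β_{z'} w ∈ D M`; and
`lift β_z w ∈ D M`.  Also `β_z = update β_{z'} t (ζ * β_{z'} t)` with
`ζ = A (ge z) (ge z')⁻¹ A⁻¹ ∈ D i`.  `lin` : `Ad (evA β_{z'} (foxD t w)) (of ζ - 1) ∈ J (i+N'+1)`
(as `i + N' + 1 ≤ M`, `i + N' + 1 ≤ 2 i`).
Now `of ζ - 1 ≡ sk z - sk z'` modulo `J (i + N' + 1)` (`ge_sub_sk`, `2 i ≥ i + N' + 1`, and
conjugation by `A ∈ D (N'+1)` changes elements of `J i` by elements of `J (i+N'+1)`), and
`evA β_{z'} (foxD t w) ≡ ∑_{|u|<P} d (u ++ [t]) • ∏ (of (β_{z'} u_i) - 1)` modulo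
`J (e P) ≤ J (N'+1)` (`Rep.mono` to `P+1 ≤ PM`, `Rep_foxD`, `evA_JJ`, `evA_XF`)
`= Mc P c t X' []` (`MM_nil`), `X' s = of (β_{z'} s) - 1 ≡ X s` modulo `J (N'+1)`, so
`≡ Mc P c t X []` (`MM_congr`).
Hence `Ad (Mc P c t X []) (sk (z - z')) ∈ J (i+N'+1)` for all `z ∈ F`: `F` is contained in a coset
of the kernel `K` of the linear map `φ = mkQ ∘ Ad (Mc …) ∘ sk i : XX i → B ⧸ J (i+N'+1)`, whose
rank is `rk (J (i+N'+1)) ((range (sk i)).map (Ad (Mc …)))`.  So
`|XX i| ≤ p^(τ+2^PM-1) |K| = p^(τ+2^PM-1) |XX i| / p^rank`, i.e. `rank ≤ τ + 2^PM`.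

(b) The layers of `is'`.  Averaging there is `z` with `|Om'| ≤ p^τ |{χ' : (z, χ') ∈ Sset}|`.  Apply
the induction hypothesis to `α' = update α t (ge z * α t)` (in `D e` as `e ≤ i`); the variables
`X'` of `α'` satisfy `X' - X ∈ J i ≤ J (N'+1)` so `Mc P c t X' [] ≡ Mc P c t X []` modulo
`J (N'+1)`; use `RR.congr`.
-/

namespace Pool.Agent.H11.PP

variable {p : ℕ} [Fact p.Prime]

/-- truncated combination of multilinear parts -/
noncomputable def Mc {B : Type*} [Ring B] [Algebra (ZMod p) B] (P : ℕ)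
    (c : List (Fin 2) → ZMod p) (t : Fin 2) (X : Fin 2 → B) (hs : List (Fin 2 × B)) : B :=
  ∑ n ∈ Finset.range P, ∑ u : List.Vector (Fin 2) n, c (u.toList ++ [t]) • MM X u.toList hs

/-- for the perturbation `χ` there is a word `w` of partial class `c` (precision `P`) which is
trivial at the perturbed base point, modulo degree `M` -/
def HasWord {B H : Type*} [Ring B] [Algebra (ZMod p) B] [Group H] (S : Sys p B H) (M PM P : ℕ)
    (c : List (Fin 2) → ZMod p) (t : Fin 2) (β : Fin 2 → H) : Prop :=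
  ∃ (w : Fr) (d : List (Fin 2) → ZMod p), Rep PM d w ∧
    (∀ u : List (Fin 2), u.length < P → d (u ++ [t]) = c (u ++ [t])) ∧
    FreeGroup.lift β w ∈ S.D M

lemma top_avg {X Y K : Type*} [Fintype X] [Fintype Y] [Fintype K] [Nonempty X] [Nonempty Y]
    [DecidableEq X] [DecidableEq Y] [DecidableEq K] (a b : ℕ) (hK : Fintype.card K ≤ b)
    (Sset : Finset (X × Y)) (hS : Fintype.card X * Fintype.card Y ≤ a * Sset.card)
    (cls : X × Y → K) : ∃ y : Y, ∃ k : K, Fintype.card X ≤ a * b *
      (Finset.univ.filter fun x => (x, y) ∈ Sset ∧ cls (x, y) = k).card := by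
  by_contra hcon
  push Not at hcon
  have hne : Nonempty K := ⟨cls (Classical.arbitrary X, Classical.arbitrary Y)⟩
  have h1 : ∑ q : Y × K,
      (Finset.univ.filter fun x => (x, q.1) ∈ Sset ∧ cls (x, q.1) = q.2).card = Sset.card := by
    rw [Finset.card_eq_sum_card_fiberwise (f := fun r : X × Y => (r.2, cls r)) (s := Sset)
      (t := Finset.univ) (by intro _ _; simp)]
    refine Finset.sum_congr rfl fun q _ => ?_
    refine Finset.card_bij (fun x _ => (x, q.1)) ?_ ?_ ?_
    · intro x hx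
      rw [Finset.mem_filter] at hx ⊢
      refine ⟨hx.2.1, ?_⟩
      rw [hx.2.2]
    · intro x _ x' _ h
      exact (Prod.mk.inj h).1
    · rintro ⟨x, y⟩ hr
      rw [Finset.mem_filter] at hr
      obtain ⟨hr1, hr2⟩ := hr
      have hy : y = q.1 := congrArg Prod.fst hr2
      have hk : cls (x, y) = q.2 := congrArg Prod.snd hr2
      subst hy
      refine ⟨x, ?_, rfl⟩
      rw [Finset.mem_filter]
      exact ⟨Finset.mem_univ _, hr1, hk⟩
  have h2 : ∑ q : Y × K, a * b *
      (Finset.univ.filter fun x => (x, q.1) ∈ Sset ∧ cls (x, q.1) = q.2).card <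
      ∑ _q : Y × K, Fintype.card X :=
    Finset.sum_lt_sum_of_nonempty Finset.univ_nonempty fun q _ => hcon q.1 q.2
  rw [← Finset.mul_sum, h1, Finset.sum_const, Finset.card_univ, Fintype.card_prod, smul_eq_mul]
    at h2
  have h3 : Fintype.card Y * Fintype.card K * Fintype.card X ≤ a * b * Sset.card :=
    calc Fintype.card Y * Fintype.card K * Fintype.card X
        = Fintype.card K * (Fintype.card X * Fintype.card Y) := by ring
      _ ≤ b * (a * Sset.card) := Nat.mul_le_mul hK hS
      _ = a * b * Sset.card := by ring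
  omega

lemma top_avg' {X Y : Type*} [Fintype X] [Fintype Y] [Nonempty X]
    [DecidableEq X] [DecidableEq Y] (a : ℕ)
    (Sset : Finset (X × Y)) (hS : Fintype.card X * Fintype.card Y ≤ a * Sset.card) :
    ∃ x : X, Fintype.card Y ≤ a * (Finset.univ.filter fun y => (x, y) ∈ Sset).card := by
  by_contra hcon
  push Not at hcon
  have h1 : ∑ x : X, (Finset.univ.filter fun y => (x, y) ∈ Sset).card = Sset.card := by
    rw [Finset.card_eq_sum_card_fiberwise (f := fun r : X × Y => r.1) (s := Sset)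
      (t := Finset.univ) (by intro _ _; simp)]
    refine Finset.sum_congr rfl fun x _ => ?_
    refine Finset.card_bij (fun y _ => (x, y)) ?_ ?_ ?_
    · intro y hy
      rw [Finset.mem_filter] at hy ⊢
      exact ⟨hy.2, rfl⟩
    · intro x _ x' _ h
      exact (Prod.mk.inj h).2
    · rintro ⟨x', y⟩ hr
      rw [Finset.mem_filter] at hr
      obtain ⟨hr1, hr2⟩ := hr
      have hx : x' = x := hr2
      subst hx
      exact ⟨y, by rw [Finset.mem_filter]; exact ⟨Finset.mem_univ _, hr1⟩, rfl⟩
  have h2 : ∑ x : X, a * (Finset.univ.filter fun y => (x, y) ∈ Sset).card <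
      ∑ _x : X, Fintype.card Y :=
    Finset.sum_lt_sum_of_nonempty Finset.univ_nonempty fun x _ => hcon x
  rw [← Finset.mul_sum, h1, Finset.sum_const, Finset.card_univ, smul_eq_mul] at h2
  omega

lemma top_card_Om (D : ℕ) (q : Fin 2 × ℕ) (ps : List (Fin 2 × ℕ)) :
    Fintype.card (Om p D (q :: ps)) = Fintype.card (XX p D q.2) * Fintype.card (Om p D ps) := by
  rw [← Fintype.card_prod]
  exact Fintype.card_congr (Equiv.refl (XX p D q.2 × Om p D ps))

/-- words of length `< PM` -/
abbrev TopK (p PM : ℕ) : Type := (Σ n : Fin PM, List.Vector (Fin 2) n) → ZMod p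

lemma top_card_K (PM : ℕ) : Fintype.card (TopK p PM) ≤ p ^ (2 ^ PM - 1) := by
  classical
  rw [Fintype.card_fun, ZMod.card, Fintype.card_sigma]
  apply le_of_eq
  congr 1
  have h1 : ∀ n : Fin PM, Fintype.card (List.Vector (Fin 2) n) = 2 ^ (n : ℕ) := by
    intro n
    rw [card_vector, Fintype.card_fin]
  simp_rw [h1]
  rw [Fin.sum_univ_eq_sum_range (fun n => 2 ^ n) PM]
  exact Nat.geomSum_eq (le_refl 2) PM |>.trans (by simp)

section algebra

variable {B H : Type*} [Ring B] [Algebra (ZMod p) B] [Group H]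

lemma Mc_congr (S : Sys p B H) (P : ℕ) (c : List (Fin 2) → ZMod p) (t : Fin 2) {n : ℕ}
    {X X' : Fin 2 → B} (h : ∀ s, X s - X' s ∈ S.J n) :
    Mc P c t X [] - Mc P c t X' [] ∈ S.J n := by
  unfold Mc
  rw [← Finset.sum_sub_distrib]
  refine Submodule.sum_mem _ fun k _ => ?_
  rw [← Finset.sum_sub_distrib]
  refine Submodule.sum_mem _ fun u _ => ?_
  rw [← smul_sub]
  exact Submodule.smul_mem _ _ (S.MM_congr h _)

/-- the Fox derivative of a word of partial class `c` -/
lemma evA_fox (S : Sys p B H) (e N' P : ℕ) (hP : N' + 1 ≤ e * P)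
    (t : Fin 2) (c d : List (Fin 2) → ZMod p) (β : Fin 2 → H) (hβ : ∀ s, β s ∈ S.D e) {w : Fr}
    (hd : Rep (P + 1) d w)
    (hdc : ∀ u : List (Fin 2), u.length < P → d (u ++ [t]) = c (u ++ [t])) :
    S.evA β (foxD p t w) - Mc P c t (fun s => S.of (β s) - 1) [] ∈ S.J (N' + 1) := by
  have h1 := S.J_anti hP (S.evA_JJ hβ (Rep_foxD hd t))
  have h2 : S.evA β (∑ n ∈ Finset.range P, ∑ u : List.Vector (Fin 2) n,
      d (u.toList ++ [t]) • XF p u.toList) = Mc P c t (fun s => S.of (β s) - 1) [] := by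
    rw [map_sum, Mc]
    refine Finset.sum_congr rfl fun n hn => ?_
    rw [map_sum]
    refine Finset.sum_congr rfl fun u _ => ?_
    rw [map_smul, Sys.evA_XF, Sys.MM_nil, hdc u.toList (by
      rw [u.toList_length]
      exact Finset.mem_range.mp hn)]
  rwa [map_sub, h2] at h1

lemma of_conj_sub (S : Sys p B H) {n i : ℕ} {A b : H} (hA : A ∈ S.D n) (hb : b ∈ S.D i) :
    S.of (A * b * A⁻¹) - 1 - (S.of b - 1) ∈ S.J (n + i) := by
  have h1 : S.of (A * b * A⁻¹) - 1 - (S.of b - 1) =
      ((S.of A - 1) * (S.of b - 1) - (S.of b - 1) * (S.of A - 1)) * S.of A⁻¹ := by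
    have h2 : S.of A * S.of A⁻¹ = 1 := S.of_mul_inv A
    have h3 : ((S.of A - 1) * (S.of b - 1) - (S.of b - 1) * (S.of A - 1)) =
      S.of A * S.of b - S.of b * S.of A := by noncomm_ring
    rw [h3, sub_mul, mul_assoc (S.of b), h2, mul_one, map_mul, map_mul]
    abel
  rw [h1]
  apply S.J_mul_right
  apply sub_mem
  · exact S.J_mul _ _ _ _ hA hb
  · rw [add_comm]
    exact S.J_mul _ _ _ _ hb hA

lemma of_div_sub (S : Sys p B H) {i : ℕ} {a b : H} (ha : a ∈ S.D i) (hb : b ∈ S.D i) :
    S.of (a * b⁻¹) - 1 - ((S.of a - 1) - (S.of b - 1)) ∈ S.J (2 * i) := by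
  have h1 : S.of (a * b⁻¹) - 1 - ((S.of a - 1) - (S.of b - 1)) =
      ((S.of a - 1) - (S.of b - 1)) * (S.of b⁻¹ - 1) := by
    have h2 : S.of b * S.of b⁻¹ = 1 := S.of_mul_inv b
    rw [sub_sub_sub_cancel_right, sub_mul, mul_sub, mul_sub, h2, map_mul, mul_one, mul_one]
    abel
  rw [h1, two_mul]
  exact S.J_mul _ _ _ _ (sub_mem ha hb) (inv_mem hb)

/-- the key step of part (a) -/
lemma top_key (S : Sys p B H) {D : ℕ} (g : Fin D → H) (e M N' PM P : ℕ) (he : 1 ≤ e)
    (hPM : M ≤ e * PM) (hP : N' + 1 ≤ e * P) (hPP : P + 1 ≤ PM) (t : Fin 2) (i : ℕ)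
    (hi : N' + e ≤ i) (hiM : i + N' + 1 ≤ M) (α : Fin 2 → H) (hα : ∀ s, α s ∈ S.D e)
    (c : List (Fin 2) → ZMod p) (A : H) (hA : A ∈ S.D (N' + e)) (z z' : XX p D i)
    {w w' : Fr} {d d' : List (Fin 2) → ZMod p} (hd : Rep PM d w) (hd' : Rep PM d' w')
    (hdd : PolyF d PM = PolyF d' PM)
    (hdc : ∀ u : List (Fin 2), u.length < P → d (u ++ [t]) = c (u ++ [t]))
    (hw : FreeGroup.lift (Function.update α t (A * (ge g z * α t))) w ∈ S.D M)
    (hw' : FreeGroup.lift (Function.update α t (A * (ge g z' * α t))) w' ∈ S.D M) :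
    S.Ad (Mc P c t (fun s => S.of (α s) - 1) []) (S.sk g i (z - z')) ∈ S.J (i + N' + 1) := by
  have hgz := S.ge_mem g i z
  have hgz' := S.ge_mem g i z'
  set a := ge g z with ha
  set a' := ge g z' with ha'
  set β' : Fin 2 → H := Function.update α t (A * (a' * α t)) with hβ'
  set ζ : H := A * (a * a'⁻¹) * A⁻¹ with hζd
  have hβt : β' t = A * (a' * α t) := Function.update_self _ _ _
  have hβ : Function.update α t (A * (a * α t)) = Function.update β' t (ζ * β' t) := by
    rw [hβt, hβ', Function.update_idem, hζd]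
    congr 1
    group
  have hAe : A ∈ S.D e := S.D_anti (by omega) hA
  have hae : a' ∈ S.D e := S.D_anti (by omega) hgz'
  have hβe : ∀ s, β' s ∈ S.D e := by
    intro s
    by_cases hs : s = t
    · subst hs
      rw [hβt]
      exact mul_mem hAe (mul_mem hae (hα s))
    · rw [hβ', Function.update_of_ne hs]
      exact hα s
  have hbi : a * a'⁻¹ ∈ S.D i := mul_mem hgz (inv_mem hgz')
  have hζ : ζ ∈ S.D i := (S.D_normal i).conj_mem _ hbi A
  -- the word is trivial at `β'`
  have h1 : FreeGroup.lift β' w ∈ S.D M := by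
    have h2 : MonoidAlgebra.of (ZMod p) Fr w - MonoidAlgebra.of (ZMod p) Fr w' ∈ JF p PM := by
      have h3 := sub_mem hd hd'
      rw [hdd] at h3
      convert h3 using 1
      abel
    have h4 := S.J_anti hPM (S.evA_JJ hβe h2)
    rw [map_sub, Sys.evA_of, Sys.evA_of] at h4
    have h5 := add_mem h4 hw'
    rw [Sys.mem_D]
    convert h5 using 1
    abel
  -- linearisation
  have h6 := S.lin β' t hζ w
  rw [← hβ] at h6
  have h7 : S.of (FreeGroup.lift (Function.update α t (A * (a * α t))) w *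
      (FreeGroup.lift β' w)⁻¹) - 1 ∈ S.J (i + N' + 1) :=
    S.J_anti hiM (mul_mem hw (inv_mem h1))
  have h8 : S.Ad (S.evA β' (foxD p t w)) (S.of ζ - 1) ∈ S.J (i + N' + 1) := by
    have h9 := sub_mem h7 (S.J_anti (by omega : i + N' + 1 ≤ 2 * i) h6)
    rwa [sub_sub_cancel] at h9
  -- the derivative
  have h10 : S.evA β' (foxD p t w) - Mc P c t (fun s => S.of (α s) - 1) [] ∈ S.J (N' + 1) := by
    have h11 := evA_fox S e N' P hP t c d β' hβe (hd.mono hPP) hdc
    have h12 : Mc P c t (fun s => S.of (β' s) - 1) [] -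
        Mc P c t (fun s => S.of (α s) - 1) [] ∈ S.J (N' + 1) := by
      apply Mc_congr
      intro s
      by_cases hs : s = t
      · subst hs
        have h13 : S.of (β' s) - 1 - (S.of (α s) - 1) =
            (S.of (A * a') - 1) * S.of (α s) := by
          rw [hβt, ← mul_assoc, map_mul, sub_mul, one_mul]
          abel
        rw [h13]
        apply S.J_mul_right
        exact S.D_anti (by omega : N' + 1 ≤ N' + e) (mul_mem hA (S.D_anti hi hgz'))
      · rw [hβ', Function.update_of_ne hs, sub_self]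
        exact zero_mem _
    have h14 := add_mem h11 h12
    rwa [sub_add_sub_cancel] at h14
  -- the perturbation
  have h15 : S.of ζ - 1 - S.sk g i (z - z') ∈ S.J (i + N' + 1) := by
    have h16 := S.J_anti (by omega : i + N' + 1 ≤ N' + e + i) (of_conj_sub S hA hbi)
    have h17 := S.J_anti (by omega : i + N' + 1 ≤ 2 * i) (of_div_sub S hgz hgz')
    have h18 := S.J_anti (by omega : i + N' + 1 ≤ 2 * i) (S.ge_sub_sk g (by omega : 1 ≤ i) z)
    have h19 := S.J_anti (by omega : i + N' + 1 ≤ 2 * i) (S.ge_sub_sk g (by omega : 1 ≤ i) z')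
    have h20 := add_mem (add_mem h16 h17) (sub_mem h18 h19)
    rw [map_sub]
    convert h20 using 1
    abel
  have h21 : S.Ad (S.evA β' (foxD p t w) - Mc P c t (fun s => S.of (α s) - 1) [])
      (S.of ζ - 1) ∈ S.J (i + N' + 1) := by
    have := S.Ad_mem _ _ _ _ h10 hζ
    exact S.J_anti (by omega) this
  have h22 : S.Ad (Mc P c t (fun s => S.of (α s) - 1) []) (S.of ζ - 1 - S.sk g i (z - z')) ∈
      S.J (i + N' + 1) := by
    have := S.Ad_mem 0 _ _ _ (S.mem_zero (Mc P c t (fun s => S.of (α s) - 1) [])) h15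
    rwa [zero_add] at this
  have e1 : ∀ (E T y q : B), S.Ad T q = S.Ad E y - S.Ad (E - T) y - S.Ad T (y - q) := by
    intro E T y q
    rw [map_sub S.Ad, LinearMap.sub_apply, map_sub (S.Ad T)]
    abel
  rw [e1 (S.evA β' (foxD p t w)) _ (S.of ζ - 1)]
  exact sub_mem (sub_mem h8 h21) h22

end algebra

theorem top {B H : Type*} [Ring B] [Algebra (ZMod p) B] [Group H] [FiniteDimensional (ZMod p) B]
    (S : Sys p B H) {D : ℕ} (g : Fin D → H) (e M N' PM P τ : ℕ) (he : 1 ≤ e)
    (hPM : M ≤ e * PM) (hP : N' + 1 ≤ e * P) (hPP : P + 1 ≤ PM) (t : Fin 2) (is : List ℕ)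
    (his : ∀ i ∈ is, N' + e ≤ i ∧ i + N' + 1 ≤ M) (α : Fin 2 → H) (hα : ∀ s, α s ∈ S.D e)
    (c : List (Fin 2) → ZMod p) (Sset : Finset (Om p D (is.map fun i => (t, i))))
    (hS : Fintype.card (Om p D (is.map fun i => (t, i))) ≤ p ^ τ * Sset.card)
    (hw : ∀ χ ∈ Sset, HasWord S M PM P c t (pert g _ χ α)) :
    S.RR g N' is (τ + 2 ^ PM) (Mc P c t (fun s => S.of (α s) - 1) []) := by
  classical
  induction is generalizing α with
  | nil =>
    intro j hj
    exact absurd hj (List.not_mem_nil)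
  | cons i is' ih =>
    obtain ⟨hi, hiM⟩ := his i (List.mem_cons_self)
    set ps : List (Fin 2 × ℕ) := is'.map fun i => (t, i) with hps
    obtain ⟨S', hS'⟩ : ∃ S' : Finset (XX p D i × Om p D ps), S' = Sset := ⟨Sset, rfl⟩
    have hcard : Fintype.card (XX p D i) * Fintype.card (Om p D ps) ≤ p ^ τ * S'.card := by
      have h1 := top_card_Om (p := p) D (t, i) ps
      rw [← h1, hS']
      exact hS
    have hw' : ∀ (z : XX p D i) (χ : Om p D ps), (z, χ) ∈ S' →
        HasWord S M PM P c t (pert g ps χ (Function.update α t (ge g z * α t))) := by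
      intro z χ hχ
      rw [hS'] at hχ
      exact hw (z, χ) hχ
    intro j hj
    rcases List.mem_cons.mp hj with rfl | hj
    · -- part (a)
      have hex : ∀ q : XX p D j × Om p D ps, ∃ (w : Fr) (d : List (Fin 2) → ZMod p), q ∈ S' →
          Rep PM d w ∧ (∀ u : List (Fin 2), u.length < P → d (u ++ [t]) = c (u ++ [t])) ∧
            FreeGroup.lift (pert g ps q.2 (Function.update α t (ge g q.1 * α t))) w ∈ S.D M := by
        rintro ⟨z, χ⟩
        by_cases hq : (z, χ) ∈ S'
        · obtain ⟨w, d, h1, h2, h3⟩ := hw' z χ hq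
          exact ⟨w, d, fun _ => ⟨h1, h2, h3⟩⟩
        · exact ⟨1, 0, fun h => absurd h hq⟩
      choose wf df hwd using hex
      obtain ⟨χ, k, hk⟩ := top_avg (p ^ τ) (p ^ (2 ^ PM - 1)) (top_card_K (p := p) PM) S' hcard
        (fun q => (fun v => df q v.2.toList : TopK p PM))
      set F : Finset (XX p D j) := Finset.univ.filter fun x => (x, χ) ∈ S' ∧
        (fun v => df (x, χ) v.2.toList : TopK p PM) = k with hF
      rw [← pow_add] at hk
      have hFne : F.Nonempty := by
        rw [← Finset.card_pos]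
        by_contra h0
        have h0' : F.card = 0 := by omega
        rw [h0', mul_zero] at hk
        have : 0 < Fintype.card (XX p D j) := Fintype.card_pos
        omega
      obtain ⟨z', hz'⟩ := hFne
      obtain ⟨A, hA, hpert⟩ := pert_same S g t is' (N' + e)
        (fun l hl => (his l (List.mem_cons_of_mem _ hl)).1) χ
      have hz'' := (Finset.mem_filter.mp hz').2
      obtain ⟨hd', hdc', hlw'⟩ := hwd (z', χ) hz''.1
      have hup : ∀ z : XX p D j, pert g ps χ (Function.update α t (ge g z * α t)) =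
          Function.update α t (A * (ge g z * α t)) := by
        intro z
        rw [hpert, Function.update_idem, Function.update_self]
      have hkey : ∀ z ∈ F, S.Ad (Mc P c t (fun s => S.of (α s) - 1) []) (S.sk g j (z - z')) ∈
          S.J (j + N' + 1) := by
        intro z hz
        have hzz := (Finset.mem_filter.mp hz).2
        obtain ⟨hd, hdc, hlw⟩ := hwd (z, χ) hzz.1
        dsimp only at hlw hlw'
        rw [hup] at hlw hlw'
        refine top_key S g e M N' PM P he hPM hP hPP t j hi hiM α hα c A hA z z' hd hd' ?_ hdc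
          hlw hlw'
        apply PolyF_congr
        intro v hv
        have h1 := congrFun (hzz.2.trans hz''.2.symm) ⟨⟨v.length, hv⟩, ⟨v, rfl⟩⟩
        exact h1
      -- the rank
      have hcod := span_codim (τ + (2 ^ PM - 1)) F z' hk
      set φ : XX p D j →ₗ[ZMod p] (B ⧸ S.J (j + N' + 1)) :=
        (S.J (j + N' + 1)).mkQ.comp ((S.Ad (Mc P c t (fun s => S.of (α s) - 1) [])).comp
          (S.sk g j)) with hφ
      have hspan : Submodule.span (ZMod p) ((fun v => v - z') '' (F : Set (XX p D j))) ≤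
          LinearMap.ker φ := by
        apply Submodule.span_le.mpr
        rintro _ ⟨z, hz, rfl⟩
        rw [SetLike.mem_coe, LinearMap.mem_ker, hφ, LinearMap.comp_apply, LinearMap.comp_apply,
          Submodule.mkQ_apply, Submodule.Quotient.mk_eq_zero]
        exact hkey z hz
      have hrk : rk (S.J (j + N' + 1)) ((LinearMap.range (S.sk g j)).map
          (S.Ad (Mc P c t (fun s => S.of (α s) - 1) []))) =
          Module.finrank (ZMod p) (LinearMap.range φ) := by
        unfold rk
        rw [hφ, LinearMap.range_comp, LinearMap.range_comp]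
      rw [hrk, ← (LinearMap.quotKerEquivRange φ).finrank_eq]
      have h3 : Module.finrank (ZMod p) (XX p D j ⧸ LinearMap.ker φ) ≤
          Module.finrank (ZMod p) (XX p D j ⧸
            Submodule.span (ZMod p) ((fun v => v - z') '' (F : Set (XX p D j)))) :=
        LinearMap.finrank_le_finrank_of_surjective (f := Submodule.factor hspan)
          (Submodule.factor_surjective hspan)
      have h4 : 2 ^ PM - 1 ≤ 2 ^ PM := Nat.sub_le _ _
      omega
    · -- part (b)
      obtain ⟨z, hz⟩ := top_avg' (p ^ τ) S' hcard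
      have hgz := S.ge_mem g i z
      have hα' : ∀ s, Function.update α t (ge g z * α t) s ∈ S.D e := by
        intro s
        by_cases hs : s = t
        · subst hs
          rw [Function.update_self]
          exact mul_mem (S.D_anti (by omega) hgz) (hα s)
        · rw [Function.update_of_ne hs]
          exact hα s
      have h1 := ih (fun l hl => his l (List.mem_cons_of_mem _ hl))
        (Function.update α t (ge g z * α t)) hα'
        (Finset.univ.filter fun y => (z, y) ∈ S') hz
        (fun χ hχ => hw' z χ (Finset.mem_filter.mp hχ).2)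
      refine Sys.RR.congr ?_ h1 j hj
      apply Mc_congr
      intro s
      by_cases hs : s = t
      · subst hs
        have h13 : S.of (Function.update α s (ge g z * α s) s) - 1 - (S.of (α s) - 1) =
            (S.of (ge g z) - 1) * S.of (α s) := by
          rw [Function.update_self, map_mul, sub_mul, one_mul]
          abel
        rw [h13]
        apply S.J_mul_right
        exact S.D_anti (by omega : N' + 1 ≤ i) hgz
      · rw [Function.update_of_ne hs, sub_self]
        exact zero_mem _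

end Pool.Agent.H11.PP
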