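import Pool.Agent.H11.PP.LemN
import Pool.Agent.H11.PP.LeadT

/-!
# Application of Lemma N to an identity

`IdHyp S K j lam α` : for all `ζ ∈ (D K)^2` there is a word with leading form `lam` (degree `j`)
vanishing at `ζ • α`.

Proof of `tuple_nest` (paper).  `e = 3`, `j = m + 1`, `sks` a list of `m` pairs (type, scale) with
scales `k ≥ max K 3`, each larger than the sum of the previous ones (`Inc 0 sks`).
`kps = kpsOf 0 sks` with precisions `P_l = (m - l) + (N_l)/3 + 1`, `N_l = k_1 + … + k_l`,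
`PM = M/3 + 2`; `Cond 3 PM 0 (m+1) kps` (`cond_kpsOf` : generalise to
`Cond 3 PM N (sks.length + N/3 + 1) (kpsOf N sks)` for `Inc N sks` and `N + ∑ ≤ M`; note
`(sks.length + N/3 + 1 - sks.length) * 3 ≥ N + 1` and `Pin ≤ P` because
`(N+k)/3 ≥ N/3 + 1` for `k ≥ 3`).
Take `c u = if u.length = m + 1 then lam u else 0`, `Sset = univ`, `τ = 0`, `Pin = m + 1`.
For every `χ`, `pert_mem` (all scales `≥ K`, also the layers `i ≥ K`) and `IdHyp` give `w` with
`LeadForm (m+1) lam w` and `lift (pert g _ χ α) w = 1 ∈ D M`; `exists_rep` gives `d` with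
`Rep PM d w` (`m + 1 < PM` : from `Cond`, or because `PM ≥ P_m + 1`; if `PM ≤ m+1`… it is not,
since `M ≥ N'`… see below) and `d (u ++ [t]) = c (u ++ [t])` for `|u| < m + 1`.
(`m + 1 < PM` follows from `Cond`: the precisions are increasing from `Pin = m+1` to `PM - 1`.)
`lemmaN` gives `Nest …` for `Mc (m+1) c t X (zip ts L)`.  For `L` in `InSk`, `hs = zip ts L`,
`Mc (m+1) c t X hs = ∑_{|u| = m} lam (u ++ [t]) • MM X u hs ≡ Tlam lam t hs` modulo `J (N'+1)`
(`MM_MO`); use `Nest.imp`, `RR.congr`.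
-/

namespace Pool.Agent.H11.PP

variable {p : ℕ} [Fact p.Prime]

/-- the identity hypothesis -/
def IdHyp {B H : Type*} [Ring B] [Algebra (ZMod p) B] [Group H] (S : Sys p B H) (K j : ℕ)
    (lam : List (Fin 2) → ZMod p) (α : Fin 2 → H) : Prop :=
  ∀ ζ : Fin 2 → H, (∀ s, ζ s ∈ S.D K) →
    ∃ w : Fr, LeadForm j lam w ∧ FreeGroup.lift (fun s => ζ s * α s) w = 1

/-- precisions -/
def kpsOf : ℕ → List (Fin 2 × ℕ) → List (Fin 2 × ℕ × ℕ)
  | _, [] => []
  | N, x :: l => (x.1, x.2, l.length + (N + x.2) / 3 + 1) :: kpsOf (N + x.2) l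

/-- every scale is `≥ K`, `≥ 3`, and larger than the sum of the previous ones -/
def Inc (K : ℕ) : ℕ → List (Fin 2 × ℕ) → Prop
  | _, [] => True
  | N, x :: l => K ≤ x.2 ∧ 3 ≤ x.2 ∧ N + 1 ≤ x.2 ∧ Inc K (N + x.2) l

lemma kpsOf_length (N : ℕ) (sks : List (Fin 2 × ℕ)) : (kpsOf N sks).length = sks.length := by
  induction sks generalizing N with
  | nil => rfl
  | cons x l ih => simp only [kpsOf, List.length_cons, ih]

lemma kpsOf_fst (N : ℕ) (sks : List (Fin 2 × ℕ)) :
    ((kpsOf N sks).map fun x => x.1) = sks.map Prod.fst := by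
  induction sks generalizing N with
  | nil => rfl
  | cons x l ih => simp only [kpsOf, List.map_cons, ih]

lemma kpsOf_scale (N : ℕ) (sks : List (Fin 2 × ℕ)) :
    ((kpsOf N sks).map fun x => x.2.1) = sks.map Prod.snd := by
  induction sks generalizing N with
  | nil => rfl
  | cons x l ih => simp only [kpsOf, List.map_cons, ih]

lemma kpsOf_pair (N : ℕ) (sks : List (Fin 2 × ℕ)) :
    ((kpsOf N sks).map fun x => (x.1, x.2.1)) = sks := by
  induction sks generalizing N with
  | nil => rfl
  | cons x l ih => simp only [kpsOf, List.map_cons, ih]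

lemma Cond.lt {e PM : ℕ} {kps : List (Fin 2 × ℕ × ℕ)} {N Pin : ℕ} (h : Cond e PM N Pin kps) :
    Pin + 1 ≤ PM := by
  induction kps generalizing N Pin with
  | nil => exact h.2
  | cons x l ih =>
    obtain ⟨_, _, h3, _, h5⟩ := h
    exact le_trans (Nat.add_le_add_right h3 1) (ih h5)

lemma Inc.mem {K N : ℕ} {sks : List (Fin 2 × ℕ)} (h : Inc K N sks) : ∀ q ∈ sks, K ≤ q.2 := by
  induction sks generalizing N with
  | nil => intro q hq; simp at hq
  | cons x l ih =>
    obtain ⟨h1, _, _, h4⟩ := h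
    intro q hq
    rcases List.mem_cons.1 hq with rfl | hq
    · exact h1
    · exact ih h4 q hq

lemma cond_kpsOf {K N M : ℕ} {sks : List (Fin 2 × ℕ)} (h : Inc K N sks)
    (hM : N + (sks.map Prod.snd).sum ≤ M) :
    Cond 3 (M / 3 + 2) N (sks.length + N / 3 + 1) (kpsOf N sks) := by
  induction sks generalizing N with
  | nil =>
    simp only [List.map_nil, List.sum_nil, add_zero] at hM
    simp only [kpsOf, Cond, List.length_nil]
    constructor <;> omega
  | cons x l ih =>
    obtain ⟨_, h2, h3, h4⟩ := h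
    simp only [List.map_cons, List.sum_cons] at hM
    have h5 := ih h4 (by omega)
    simp only [kpsOf, Cond, List.length_cons, kpsOf_length]
    refine ⟨h3, h2, ?_, ?_, h5⟩
    · omega
    · have : l.length + 1 + N / 3 + 1 - (l.length + 1) = N / 3 + 1 := by omega
      rw [this]
      omega

lemma InSk_Wt {B H : Type*} [Ring B] [Algebra (ZMod p) B] [Group H]
    (S : Sys p B H) {D : ℕ} (g : Fin D → H) (sks : List (Fin 2 × ℕ)) :
    ∀ (N τ μ : ℕ) (L : List B), S.InSk g L (qs D τ μ (kpsOf N sks)) →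
      S.Wt (List.zip (sks.map Prod.fst) L) (sks.map Prod.snd) ∧ L.length = sks.length := by
  induction sks with
  | nil =>
    intro N τ μ L h
    simp only [kpsOf, qs, Sys.InSk] at h
    cases h
    exact ⟨List.Forall₂.nil, rfl⟩
  | cons x l ih =>
    intro N τ μ L h
    simp only [kpsOf, qs, Sys.InSk] at h
    rcases h with _ | ⟨h1, h2⟩
    obtain ⟨h3, h4⟩ := ih _ _ _ _ h2
    obtain ⟨ε, rfl⟩ := h1
    refine ⟨List.Forall₂.cons ?_ h3, ?_⟩
    · exact S.sk_mem g x.2 ε
    · simp only [List.length_cons, h4]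

lemma Mc_sub_Tlam {B H : Type*} [Ring B] [Algebra (ZMod p) B] [Group H]
    (S : Sys p B H) {X : Fin 2 → B} (hX : ∀ s, X s ∈ S.J 3) (lam : List (Fin 2) → ZMod p)
    (t : Fin 2) {hs : List (Fin 2 × B)} {ks : List ℕ} (h : S.Wt hs ks) (m : ℕ)
    (hm : m = hs.length) :
    Mc (m + 1) (fun u => if u.length = m + 1 then lam u else 0) t X hs - Tlam lam t hs ∈
      S.J (ks.sum + 1) := by
  subst hm
  have h1 : Mc (hs.length + 1) (fun u => if u.length = hs.length + 1 then lam u else 0) t X hs =
      ∑ u : List.Vector (Fin 2) hs.length, lam (u.toList ++ [t]) • MM X u.toList hs := by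
    rw [Mc, Finset.sum_range_succ]
    have h2 : ∑ n ∈ Finset.range hs.length, ∑ u : List.Vector (Fin 2) n,
        (fun u : List (Fin 2) => if u.length = hs.length + 1 then lam u else 0)
          (u.toList ++ [t]) • MM X u.toList hs = 0 := by
      refine Finset.sum_eq_zero fun n hn => Finset.sum_eq_zero fun u _ => ?_
      have hn' := Finset.mem_range.1 hn
      dsimp only
      rw [if_neg (by
        rw [List.length_append, u.toList_length, List.length_singleton]
        omega), zero_smul]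
    rw [h2, zero_add]
    refine Finset.sum_congr rfl fun u _ => ?_
    rw [if_pos (by rw [List.length_append, u.toList_length, List.length_singleton])]
  rw [h1, Tlam, ← Finset.sum_sub_distrib]
  refine Submodule.sum_mem _ fun u _ => ?_
  rw [← smul_sub]
  exact Submodule.smul_mem _ _ (S.MM_MO (by norm_num) hX u.toList h u.toList_length)

theorem tuple_nest {B H : Type*} [Ring B] [Algebra (ZMod p) B] [Group H]
    [FiniteDimensional (ZMod p) B] (S : Sys p B H) {D : ℕ} (g : Fin D → H) (K M : ℕ)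
    (lam : List (Fin 2) → ZMod p) (t : Fin 2) (α : Fin 2 → H) (hα : ∀ s, α s ∈ S.D 3)
    (sks : List (Fin 2 × ℕ)) (hInc : Inc K 0 sks)
    (hId : IdHyp S K (sks.length + 1) lam α) (is : List ℕ)
    (his : ∀ i ∈ is, K ≤ i ∧ (sks.map Prod.snd).sum + 3 ≤ i ∧
      i + (sks.map Prod.snd).sum + 1 ≤ M) (hM : (sks.map Prod.snd).sum ≤ M) :
    S.Nest g (qs D 0 1 (kpsOf 0 sks)) (fun L =>
      S.RR g (sks.map Prod.snd).sum is (rr D (M / 3 + 2) 0 1 (kpsOf 0 sks))
        (Tlam lam t (List.zip (sks.map Prod.fst) L))) := by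
  have hC := cond_kpsOf hInc (M := M) (by simpa using hM)
  have hC' : Cond 3 (M / 3 + 2) 0 (sks.length + 1) (kpsOf 0 sks) := by simpa using hC
  have hlt : sks.length + 1 < M / 3 + 2 := hC'.lt
  have hN' : (sks.map Prod.snd).sum = 0 + ((kpsOf 0 sks).map fun x => x.2.1).sum := by
    rw [kpsOf_scale, zero_add]
  have key := lemmaN S g 3 M (sks.map Prod.snd).sum (M / 3 + 2) (by norm_num) (by omega) t is
    (fun i hi => (his i hi).2) (kpsOf 0 sks) 0 (sks.length + 1) 0 hN' hC' α hα
    (fun u => if u.length = sks.length + 1 then lam u else 0) Finset.univ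
    (by rw [pow_zero, one_mul, Finset.card_univ]) (by
      intro χ _
      obtain ⟨ζ, hζ, hpert⟩ := pert_mem S g
        ((kpsOf 0 sks).map (fun x => (x.1, x.2.1)) ++ is.map fun i => (t, i)) K (by
          intro q hq
          rcases List.mem_append.1 hq with hq | hq
          · rw [kpsOf_pair] at hq
            exact hInc.mem q hq
          · obtain ⟨i, hi, rfl⟩ := List.mem_map.1 hq
            exact (his i hi).1) χ α
      obtain ⟨w, hw1, hw2⟩ := hId ζ hζ
      obtain ⟨d, hd1, hd2, hd3⟩ := exists_rep hw1 (M / 3 + 2) hlt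
      refine ⟨w, d, hd1, ?_, ?_⟩
      · intro u hu
        dsimp only
        have hlen : (u ++ [t]).length = u.length + 1 := by
          rw [List.length_append, List.length_singleton]
        by_cases h : u.length = sks.length
        · rw [hd3 _ (by rw [hlen, h]), if_pos (by rw [hlen, h])]
        · rw [hd2 _ (by rw [hlen]; omega), if_neg (by rw [hlen]; omega)]
      · rw [hpert, hw2]
        exact one_mem _)
  refine Sys.Nest.imp ?_ key
  intro L hL hR
  rw [kpsOf_fst] at hR
  obtain ⟨hW, hlen⟩ := InSk_Wt S g sks 0 0 1 L hL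
  refine Sys.RR.congr ?_ hR
  exact Mc_sub_Tlam S (fun s => hα s) lam t hW sks.length (by
    rw [List.length_zip, List.length_map, hlen, min_self])

end Pool.Agent.H11.PP
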