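import Pool.Agent.H31.GS.Free
import Pool.Agent.H31.GS.Growth
import Pool.Agent.H11.PP.Tuple
import Pool.Agent.H11.PP.GrowthA

/-!
# The topological part: from the absence of free pro-`p` subgroups to an identity

Proof of `top_part` (paper).
(1) There is an open normal subgroup `E` of `G` such that for all open normal `N` the image of `E`
in `G ⧸ N` is contained in `(groupSys p (G ⧸ N)).D 3`.  Either: `E` = the kernel of the action of
`G` on the finite dimensional space `P p G 3`; or: let `E_N` be the preimage of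
`(groupSys p (G ⧸ N)).D 3`; it is open, `G ⧸ E_N` embeds in the units of
`𝔽_p[G ⧸ N] ⧸ JJ 3`, which has at most `p^(1 + D + D^2)` elements by `gen_groupSys`;
`N ≤ N'` implies `E_N ≤ E_{N'}` (`map_JJ`); so an `E_N` of maximal index is contained in all the
others.
(2) For all `x ∈ E × E` there are `j ≥ 1` and `lam` (only its restriction to the words of length
`j` matters, `LeadForm.congr`), not zero on words of length `j`, such that for all open normal `N`
there is `w` with `LeadForm j lam w` and `lift x w ∈ N`.  Otherwise for all `(j, lam)` there is a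
bad `N_{j,lam}`; given a finite `p`-group `Q` and `a b : Q` let `JJ p Q (n+1) = ⊥`
(`exists_JJ_eq_bot`), `N = ⋂_{j ≤ n, lam} N_{j,lam}` (finitely many); if `lift x w ∈ N` then
`of w - 1 ∈ JF p (n+1)` by `exists_lead`, so `of (lift (a,b) w) - 1 ∈ JJ p Q (n+1) = ⊥` by
`map_JJ`, `lift (a,b) w = 1`; `free_of_criterion` contradicts `hfree`.
(3) Baire category on the compact Hausdorff space `E × E` and the countably many closed sets
`M_{j,lam}` : there are `(j, lam)`, `x₀ ∈ E × E` and an open normal `U ≤ E` such that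
`M_{j,lam}` contains all `x` with `x s ∈ x₀ s U`.
(4) `JJ p (G ⧸ U) K = ⊥` for some `K` (`exists_JJ_eq_bot`; `G ⧸ U` is a finite `p`-group by
`PIndex`).  Take `N₀ = U`.  For `N ≤ U` and `ζ s ∈ D K` in `G ⧸ N` : the image of `ζ s` in
`G ⧸ U` is trivial (`map_JJ`), so `ζ s` is the class of some `z s ∈ U`;
`z s * x₀ s ∈ U x₀ s = x₀ s U`, and `M_{j,lam}` gives a word `w` with `LeadForm j lam w`,
`lift (z * x₀) w ∈ N`, i.e. `lift (ζ * α) w = 1` in `G ⧸ N`.
(5) write the word of length `j = m + 1` with `lam ≠ 0` as `v ++ [t]`.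
-/

namespace Pool.Agent.H11.PP

open Pool.Agent.H31.GS Module Topology

section basics

variable {p : ℕ} [Fact p.Prime]

lemma tp_rk_layer_le {B H : Type*} [Ring B] [Algebra (ZMod p) B] [Group H]
    [FiniteDimensional (ZMod p) B] (S : Sys p B H) {D : ℕ} (g : Fin D → H) (hg : S.Gen g)
    (n : ℕ) : rk (S.J (n + 1)) (S.J n) ≤ D ^ n := by
  classical
  have h1 : rk (S.J (n + 1)) (S.J n) ≤
      rk (S.J (n + 1)) (Submodule.span (ZMod p)
        ((fun w : List.Vector (Fin D) n => S.ev g w.toList) ''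
          (Finset.univ : Finset (List.Vector (Fin D) n)))) := by
    refine rk_le_of_le_sup ((hg n).trans (sup_le_sup_right (Submodule.span_mono ?_) _))
    rintro b ⟨w, hw, rfl⟩
    exact ⟨⟨w, hw⟩, Finset.mem_coe.2 (Finset.mem_univ _), rfl⟩
  refine h1.trans ((rk_span_le _ _ _).trans ?_)
  simp [card_vector]

lemma tp_closure_quot {G : Type*} [Group G] [TopologicalSpace G] [IsTopologicalGroup G]
    {D : ℕ} (g : Fin D → G)
    (hg : closure ((Subgroup.closure (Set.range g) : Subgroup G) : Set G) = Set.univ)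
    (N : Subgroup G) [N.Normal] (hN : IsOpen (N : Set G)) :
    Subgroup.closure (Set.range fun i => (g i : G ⧸ N)) = ⊤ := by
  have h2 : Subgroup.closure (Set.range fun i => (g i : G ⧸ N)) =
      (Subgroup.closure (Set.range g)).map (QuotientGroup.mk' N) := by
    rw [MonoidHom.map_closure, ← Set.range_comp]
    rfl
  rw [h2, eq_top_iff]
  intro z _
  obtain ⟨x, rfl⟩ := QuotientGroup.mk'_surjective N z
  have hx : x ∈ closure ((Subgroup.closure (Set.range g) : Subgroup G) : Set G) := by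
    rw [hg]; trivial
  have ho : IsOpen {y : G | x⁻¹ * y ∈ N} := hN.preimage (continuous_const_mul _)
  obtain ⟨y, hy1, hy2⟩ := mem_closure_iff.1 hx _ ho (by
    change x⁻¹ * x ∈ N
    rw [inv_mul_cancel]; exact N.one_mem)
  exact ⟨y, hy2, (QuotientGroup.eq.2 hy1).symm⟩

/-- functoriality of the dimension subgroups -/
lemma tp_map_D {H H' : Type*} [Group H] [Group H'] (f : H →* H') (n : ℕ) {h : H}
    (hh : h ∈ (groupSys p H).D n) : f h ∈ (groupSys p H').D n := by
  have h1 : MonoidAlgebra.of (ZMod p) H h - 1 ∈ JJ p H n := hh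
  have h2 := map_JJ (p := p) f n h1
  rw [map_sub, map_one, MonoidAlgebra.lift_of] at h2
  exact h2

lemma tp_of_injective (H : Type*) [Group H] :
    Function.Injective (MonoidAlgebra.of (ZMod p) H) := MonoidAlgebra.of_injective

lemma tp_D_bot {H : Type*} [Group H] {K : ℕ} (hK : JJ p H K = ⊥) {h : H}
    (hh : h ∈ (groupSys p H).D K) : h = 1 := by
  have h1 : MonoidAlgebra.of (ZMod p) H h - 1 ∈ JJ p H K := hh
  rw [hK, Submodule.mem_bot, sub_eq_zero, ← map_one (MonoidAlgebra.of (ZMod p) H)] at h1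
  exact tp_of_injective H h1

lemma tp_index_le {H : Type*} [Group H] [Finite H] {D : ℕ} (g : Fin D → H)
    (hg : Subgroup.closure (Set.range g) = ⊤) (n : ℕ) :
    ((groupSys p H).D n).index ≤ p ^ (∑ q ∈ Finset.range n, D ^ q) := by
  classical
  have hfd : FiniteDimensional (ZMod p) (MonoidAlgebra (ZMod p) H) := inferInstance
  have h1 : Module.finrank (ZMod p) (MonoidAlgebra (ZMod p) H ⧸ JJ p H n) ≤
      ∑ q ∈ Finset.range n, D ^ q := by
    rw [← rk_top]
    have h2 := (groupSys p H).sum_rk_J n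
    change _ = rk (JJ p H n) ⊤ at h2
    rw [← h2]
    exact Finset.sum_le_sum fun q _ => tp_rk_layer_le _ g (gen_groupSys g hg) q
  have hfin : Finite (MonoidAlgebra (ZMod p) H ⧸ JJ p H n) :=
    Module.finite_of_finite (ZMod p)
  have h3 : Nat.card (MonoidAlgebra (ZMod p) H ⧸ JJ p H n) ≤
      p ^ (∑ q ∈ Finset.range n, D ^ q) := by
    rw [Module.natCard_eq_pow_finrank (K := ZMod p), Nat.card_zmod]
    exact Nat.pow_le_pow_right (Fact.out (p := p.Prime)).pos h1
  refine le_trans ?_ h3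
  rw [Subgroup.index]
  refine Nat.card_le_card_of_injective
    (fun q : H ⧸ (groupSys p H).D n =>
      (Submodule.Quotient.mk (MonoidAlgebra.of (ZMod p) H q.out) :
        MonoidAlgebra (ZMod p) H ⧸ JJ p H n)) ?_
  intro q q' h
  rw [Submodule.Quotient.eq] at h
  have h4 : (q.out : H)⁻¹ * q'.out ∈ (groupSys p H).D n := by
    change MonoidAlgebra.of (ZMod p) H ((q.out : H)⁻¹ * q'.out) - 1 ∈ (groupSys p H).J n
    have h5 : MonoidAlgebra.of (ZMod p) H ((q.out : H)⁻¹ * q'.out) - 1 =
        - (MonoidAlgebra.of (ZMod p) H (q.out : H)⁻¹ *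
          (MonoidAlgebra.of (ZMod p) H q.out - MonoidAlgebra.of (ZMod p) H q'.out)) := by
      rw [mul_sub, ← map_mul, ← map_mul, inv_mul_cancel, map_one]
      abel
    rw [h5]
    exact neg_mem ((groupSys p H).J_mul_left _ h)
  have h6 : ((q.out : H) : H ⧸ (groupSys p H).D n) = (q'.out : H) := QuotientGroup.eq.2 h4
  rwa [QuotientGroup.out_eq', QuotientGroup.out_eq'] at h6

end basics

section top

variable {p : ℕ} [Fact p.Prime] {G : Type*} [Group G] [TopologicalSpace G]
    [IsTopologicalGroup G] [CompactSpace G]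

/-- Step (1). -/
lemma tp_step1 {D : ℕ} (g : Fin D → G)
    (hg : closure ((Subgroup.closure (Set.range g) : Subgroup G) : Set G) = Set.univ) :
    ∃ E : OpenNormalSubgroup G, ∀ (N : Subgroup G) [N.Normal], IsOpen (N : Set G) →
      ∀ x ∈ E, (x : G ⧸ N) ∈ (groupSys p (G ⧸ N)).D 3 := by
  classical
  let F : OpenNormalSubgroup G → Subgroup G := fun N =>
    ((groupSys p (G ⧸ N.toSubgroup)).D 3).comap (QuotientGroup.mk' N.toSubgroup)
  have hF : ∀ N x, x ∈ F N ↔ (x : G ⧸ N.toSubgroup) ∈ (groupSys p (G ⧸ N.toSubgroup)).D 3 :=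
    fun N x => Iff.rfl
  have hNF : ∀ N : OpenNormalSubgroup G, N.toSubgroup ≤ F N := by
    intro N x hx
    rw [hF, (QuotientGroup.eq_one_iff x).2 hx]
    exact one_mem _
  have hindex : ∀ N, (F N).index ≤ p ^ (∑ q ∈ Finset.range 3, D ^ q) := by
    intro N
    have hfin : Finite (G ⧸ N.toSubgroup) :=
      Subgroup.quotient_finite_of_isOpen N.toSubgroup N.isOpen'
    have h1 := tp_index_le (p := p) (fun i => (g i : G ⧸ N.toSubgroup))
      (tp_closure_quot g hg N.toSubgroup N.isOpen') 3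
    rw [Subgroup.index_comap_of_surjective _ (QuotientGroup.mk'_surjective N.toSubgroup)]
    exact h1
  have hmono : ∀ N N' : OpenNormalSubgroup G, N.toSubgroup ≤ N'.toSubgroup → F N ≤ F N' := by
    intro N N' h x hx
    rw [hF] at hx ⊢
    have h1 := tp_map_D (p := p)
      (QuotientGroup.map N.toSubgroup N'.toSubgroup (MonoidHom.id G) h) 3 hx
    exact h1
  -- maximal index
  obtain ⟨N₁, hN₁⟩ : ∃ N₁ : OpenNormalSubgroup G, ∀ N, (F N).index ≤ (F N₁).index := by
    let T : Set ℕ := Set.range fun N => (F N).index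
    have hT : T.Nonempty := ⟨_, ({ toSubgroup := ⊤, isOpen' := isOpen_univ } : OpenNormalSubgroup G), rfl⟩
    have hTb : BddAbove T := ⟨_, by
      rintro _ ⟨N, rfl⟩
      exact hindex N⟩
    obtain ⟨N₁, h1⟩ := Nat.sSup_mem hT hTb
    refine ⟨N₁, fun N => ?_⟩
    have h2 := le_csSup hTb ⟨N, rfl⟩
    simp only at h1
    rw [h1]
    exact h2
  have hnorm : (F N₁).Normal := Subgroup.Normal.comap inferInstance _
  have hopen : IsOpen ((F N₁ : Subgroup G) : Set G) :=
    Subgroup.isOpen_mono (hNF N₁) N₁.isOpen'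
  refine ⟨{ toSubgroup := F N₁, isOpen' := hopen, isNormal' := hnorm }, ?_⟩
  intro N _ hNo x hx
  let N' : OpenNormalSubgroup G := { toSubgroup := N, isOpen' := hNo }
  let N₂ : OpenNormalSubgroup G := N₁ ⊓ N'
  have hle1 : N₂.toSubgroup ≤ N₁.toSubgroup := inf_le_left
  have hle2 : N₂.toSubgroup ≤ N'.toSubgroup := inf_le_right
  have h1 : F N₂ ≤ F N₁ := hmono _ _ hle1
  have h2 : F N₂ ≤ F N' := hmono _ _ hle2
  have h3 : (F N₂).index = (F N₁).index := by
    apply le_antisymm (hN₁ N₂)
    have hfi : (F N₂).FiniteIndex := by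
      have hfin : Finite (G ⧸ N₂.toSubgroup) :=
        Subgroup.quotient_finite_of_isOpen N₂.toSubgroup N₂.isOpen'
      have : N₂.toSubgroup.FiniteIndex := Subgroup.finiteIndex_of_finite_quotient
      exact Subgroup.finiteIndex_of_le (hNF N₂)
    exact Subgroup.index_antitone h1
  have h4 : F N₂ = F N₁ := by
    have hfi : (F N₁).FiniteIndex := by
      have hfin : Finite (G ⧸ N₁.toSubgroup) :=
        Subgroup.quotient_finite_of_isOpen N₁.toSubgroup N₁.isOpen'
      have : N₁.toSubgroup.FiniteIndex := Subgroup.finiteIndex_of_finite_quotient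
      exact Subgroup.finiteIndex_of_le (hNF N₁)
    have h5 := Subgroup.relIndex_mul_index h1
    rw [h3] at h5
    have h6 : (F N₂).relIndex (F N₁) = 1 := by
      have hpos : 0 < (F N₁).index := Nat.pos_of_ne_zero hfi.index_ne_zero
      exact Nat.eq_of_mul_eq_mul_right hpos (by rw [h5, one_mul])
    exact le_antisymm h1 (Subgroup.relIndex_eq_one.1 h6)
  have h7 : x ∈ F N' := h2 (by rw [h4]; exact hx)
  exact h7

/-- the extension of a function on vectors to lists -/
noncomputable def tpExt {j : ℕ} (lam : List.Vector (Fin 2) j → ZMod p) (v : List (Fin 2)) :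
    ZMod p :=
  if h : v.length = j then lam ⟨v, h⟩ else 0

/-- the words with leading form `lam ≠ 0` of degree `j ≥ 1` -/
def tpW (i : Σ j : ℕ, (List.Vector (Fin 2) j → ZMod p)) : Set Fr :=
  {w | 1 ≤ i.1 ∧ i.2 ≠ 0 ∧ LeadForm i.1 (tpExt i.2) w}

/-- the pairs at which some word of `tpW i` vanishes -/
def tpM (G : Type*) [Group G] [TopologicalSpace G]
    (i : Σ j : ℕ, (List.Vector (Fin 2) j → ZMod p)) : Set (Fin 2 → G) :=
  {x | ∀ N : OpenNormalSubgroup G, ∃ w ∈ tpW i, FreeGroup.lift x w ∈ N}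

lemma tp_finite_inf {α : Type*} [Finite α] (f : α → OpenNormalSubgroup G) :
    ∃ N : OpenNormalSubgroup G, ∀ a, N.toSubgroup ≤ (f a).toSubgroup := by
  classical
  have := Fintype.ofFinite α
  have h : ∀ s : Finset α, ∃ N : OpenNormalSubgroup G, ∀ a ∈ s,
      N.toSubgroup ≤ (f a).toSubgroup := by
    intro s
    induction s using Finset.induction_on with
    | empty => exact ⟨{ toSubgroup := ⊤, isOpen' := isOpen_univ }, fun a ha => by simp at ha⟩
    | insert a s _ ih =>
      obtain ⟨N, hN⟩ := ih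
      refine ⟨N ⊓ f a, fun b hb => ?_⟩
      rw [Finset.mem_insert] at hb
      rcases hb with rfl | hb
      · exact inf_le_right
      · exact le_trans inf_le_left (hN b hb)
  obtain ⟨N, hN⟩ := h Finset.univ
  exact ⟨N, fun a => hN a (Finset.mem_univ a)⟩

/-- transfer from `Bool` to `Fin 2` -/
def tpE : FreeGroup Bool →* Fr := FreeGroup.map fun b => if b then 0 else 1

omit [TopologicalSpace G] [IsTopologicalGroup G] [CompactSpace G] in
lemma tp_he (u v : G) (w : FreeGroup Bool) :
    FreeGroup.lift (fun s : Fin 2 => if s = 0 then u else v) (tpE w) = evw u v w := by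
  have h3 : (FreeGroup.lift (fun s : Fin 2 => if s = 0 then u else v)).comp tpE = evw u v := by
    apply FreeGroup.ext_hom
    intro b
    cases b
    · simp [tpE, evw]
    · simp [tpE, evw]
  exact DFunLike.congr_fun h3 w

/-- Step (2). -/
lemma tp_step2
    (hfree : ¬ ∃ (H : Subgroup G) (x y : G) (hx : x ∈ H) (hy : y ∈ H),
      IsClosed (H : Set G) ∧ IsFreeProP2 p H ⟨x, hx⟩ ⟨y, hy⟩) (x : Fin 2 → G) :
    ∃ i : Σ j : ℕ, (List.Vector (Fin 2) j → ZMod p), x ∈ tpM G i := by
  classical
  by_contra hcon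
  push Not at hcon
  have hcon' : ∀ i : Σ j : ℕ, (List.Vector (Fin 2) j → ZMod p),
      ∃ N : OpenNormalSubgroup G, ∀ w ∈ tpW i, FreeGroup.lift x w ∉ N := by
    intro i
    have h1 := hcon i
    simp only [tpM, Set.mem_ofPred_eq, not_forall, not_exists, not_and] at h1
    exact h1
  choose Nb hNb using hcon'
  apply hfree
  obtain ⟨H, hx, hy, h1, h2⟩ := free_of_criterion (p := p) (x 0) (x 1) (by
    intro Q _ _ hQ a b
    obtain ⟨K, hK⟩ := exists_JJ_eq_bot (p := p) hQ
    have hK' : JJ p Q (K + 1) = ⊥ := by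
      rw [eq_bot_iff, ← hK]
      exact JJ_succ_le K
    obtain ⟨N, hN⟩ := tp_finite_inf (G := G)
      (fun i : Σ j : Fin (K + 1), (List.Vector (Fin 2) j → ZMod p) => Nb ⟨i.1, i.2⟩)
    refine ⟨N.toSubgroup, inferInstance, N.isOpen', fun w hw => ?_⟩
    -- transfer to `Fin 2`
    set e : FreeGroup Bool →* Fr := tpE with hedef
    have hxe : FreeGroup.lift x (e w) = evw (x 0) (x 1) w := by
      have h3 : x = fun s : Fin 2 => if s = 0 then x 0 else x 1 := by
        funext s
        fin_cases s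
        · simp
        · simp
      have h4 := tp_he (x 0) (x 1) w
      rw [← h3] at h4
      exact h4
    have hJF : MonoidAlgebra.of (ZMod p) Fr (e w) - 1 ∈ JF p (K + 1) := by
      by_contra hno
      obtain ⟨j, hj1, hjK, lam, hlam, v, hv, hlv⟩ := exists_lead hno
      have h5 := hNb ⟨j, fun u => lam u.toList⟩ (e w) (by
        refine ⟨hj1, ?_, ?_⟩
        · intro h6
          have h7 := congrFun h6 ⟨v, hv⟩
          exact hlv h7
        · refine hlam.congr fun u hu => ?_
          simp only [tpExt]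
          rw [dif_pos hu]
          rfl)
      apply h5
      have h6 := hN ⟨⟨j, by omega⟩, fun u => lam u.toList⟩
      apply h6
      rw [hxe]
      exact hw
    have h8 := map_JJ (p := p) (FreeGroup.lift (fun s : Fin 2 => if s = 0 then a else b))
      (K + 1) hJF
    rw [map_sub, map_one, MonoidAlgebra.lift_of, hK', Submodule.mem_bot, sub_eq_zero,
      ← map_one (MonoidAlgebra.of (ZMod p) Q)] at h8
    have h9 := tp_of_injective (p := p) Q h8
    rw [hedef, tp_he a b w] at h9
    exact h9)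
  exact ⟨H, x 0, x 1, hx, hy, h1, h2⟩

lemma tp_closed (i : Σ j : ℕ, (List.Vector (Fin 2) j → ZMod p)) : IsClosed (tpM G i) := by
  classical
  have h1 : tpM G i = ⋂ N : OpenNormalSubgroup G,
      {x : Fin 2 → G | ∃ w ∈ tpW i, FreeGroup.lift x w ∈ N} := by
    ext x
    simp only [tpM, Set.mem_ofPred_eq, Set.mem_iInter]
  rw [h1]
  refine isClosed_iInter fun N => ?_
  rw [← isOpen_compl_iff, isOpen_iff_mem_nhds]
  intro x hx
  have hN1 : ∀ s, {g : G | (x s)⁻¹ * g ∈ N} ∈ 𝓝 (x s) := by
    intro s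
    have ho : IsOpen {g : G | (x s)⁻¹ * g ∈ N} := N.isOpen'.preimage (continuous_const_mul _)
    apply ho.mem_nhds
    change (x s)⁻¹ * x s ∈ N
    rw [inv_mul_cancel]
    exact N.one_mem'
  have hN2 : (Set.pi Set.univ fun s => {g : G | (x s)⁻¹ * g ∈ N}) ∈ 𝓝 x :=
    set_pi_mem_nhds Set.finite_univ fun s _ => hN1 s
  refine Filter.mem_of_superset hN2 ?_
  rintro x' hx' ⟨w, hw1, hw2⟩
  apply hx
  refine ⟨w, hw1, ?_⟩
  have h2 : (QuotientGroup.mk' N.toSubgroup).comp (FreeGroup.lift x) =
      (QuotientGroup.mk' N.toSubgroup).comp (FreeGroup.lift x') := by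
    apply FreeGroup.ext_hom
    intro s
    simp only [MonoidHom.comp_apply, FreeGroup.lift_apply_of]
    exact QuotientGroup.eq.2 (hx' s (Set.mem_univ s))
  have h3 := DFunLike.congr_fun h2 w
  have h4 : (QuotientGroup.mk' N.toSubgroup) (FreeGroup.lift x' w) = 1 :=
    (QuotientGroup.eq_one_iff _).2 hw2
  rw [MonoidHom.comp_apply, MonoidHom.comp_apply, h4] at h3
  exact (QuotientGroup.eq_one_iff _).1 h3

end top

theorem top_part {p : ℕ} [Fact p.Prime] {G : Type*} [Group G] [TopologicalSpace G]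
    [IsTopologicalGroup G] [CompactSpace G] [TotallyDisconnectedSpace G] (hG : PIndex p G)
    {D : ℕ} (g : Fin D → G)
    (hg : closure ((Subgroup.closure (Set.range g) : Subgroup G) : Set G) = Set.univ)
    (hfree : ¬ ∃ (H : Subgroup G) (x y : G) (hx : x ∈ H) (hy : y ∈ H),
      IsClosed (H : Set G) ∧ IsFreeProP2 p H ⟨x, hx⟩ ⟨y, hy⟩) :
    ∃ (m K : ℕ) (lam : List (Fin 2) → ZMod p) (v : List (Fin 2)) (t : Fin 2) (x : Fin 2 → G)
      (N₀ : Subgroup G), v.length = m ∧ lam (v ++ [t]) ≠ 0 ∧ N₀.Normal ∧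
      IsOpen (N₀ : Set G) ∧ ∀ (N : Subgroup G) [N.Normal], IsOpen (N : Set G) → N ≤ N₀ →
        (∀ s, (x s : G ⧸ N) ∈ (groupSys p (G ⧸ N)).D 3) ∧
        IdHyp (groupSys p (G ⧸ N)) K (m + 1) lam (fun s => (x s : G ⧸ N)) := by
  classical
  obtain ⟨E, hE⟩ := tp_step1 (p := p) g hg
  -- Baire category
  let f : Option (Σ j : ℕ, (List.Vector (Fin 2) j → ZMod p)) → Set (Fin 2 → G) := fun o =>
    match o with
    | none => {x | ¬ ∀ s, x s ∈ E}
    | some i => tpM G i
  have hEo : IsOpen {x : Fin 2 → G | ∀ s, x s ∈ E} := by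
    have h1 : {x : Fin 2 → G | ∀ s, x s ∈ E} = Set.pi Set.univ fun _ => (E : Set G) := by
      ext x
      simp [Set.mem_pi]
    rw [h1]
    exact isOpen_set_pi Set.finite_univ fun _ _ => E.isOpen'
  have hfc : ∀ o, IsClosed (f o) := by
    intro o
    cases o with
    | none => exact hEo.isClosed_compl
    | some i => exact tp_closed i
  have hcov : (⋃ o, f o) = Set.univ := by
    rw [Set.eq_univ_iff_forall]
    intro x
    obtain ⟨i, hi⟩ := tp_step2 hfree x
    exact Set.mem_iUnion.2 ⟨some i, hi⟩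
  have hdense := dense_iUnion_interior_of_closed hfc hcov
  obtain ⟨x₀, hx₀E, hx₀⟩ := hdense.inter_open_nonempty _ hEo ⟨fun _ => 1, fun _ => E.one_mem'⟩
  obtain ⟨o, ho⟩ := Set.mem_iUnion.1 hx₀
  cases o with
  | none => exact absurd hx₀E (interior_subset ho)
  | some i =>
    -- a neighbourhood
    rw [mem_interior_iff_mem_nhds, nhds_pi, Filter.mem_pi] at ho
    obtain ⟨I, hI, A, hA, hAsub⟩ := ho
    have hA' : ∀ s, {g : G | x₀ s * g ∈ A s} ∈ 𝓝 (1 : G) := by
      intro s
      have : Filter.Tendsto (fun g : G => x₀ s * g) (𝓝 1) (𝓝 (x₀ s * 1)) :=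
        (continuous_const_mul (x₀ s)).tendsto 1
      rw [mul_one] at this
      exact this (hA s)
    have hAll : (⋂ s, {g : G | x₀ s * g ∈ A s}) ∈ 𝓝 (1 : G) := by
      rw [Filter.iInter_mem]
      exact hA'
    obtain ⟨V, hV, hVo, h1V⟩ := mem_nhds_iff.1 hAll
    obtain ⟨U, hU⟩ := ProfiniteGrp.exist_openNormalSubgroup_sub_open_nhds_of_one hVo h1V
    have hUM : ∀ x : Fin 2 → G, (∀ s, (x₀ s)⁻¹ * x s ∈ U) → x ∈ tpM G i := by
      intro x hx
      apply hAsub
      intro s _
      have h1 := Set.mem_iInter.1 (hV (hU (hx s))) s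
      change x₀ s * ((x₀ s)⁻¹ * x s) ∈ A s at h1
      rwa [mul_inv_cancel_left] at h1
    -- the level `K`
    have hfinU : Finite (G ⧸ U.toSubgroup) :=
      Subgroup.quotient_finite_of_isOpen U.toSubgroup U.isOpen'
    obtain ⟨k, hk⟩ := hG U.toSubgroup inferInstance U.isOpen'
    have hpU : IsPGroup p (G ⧸ U.toSubgroup) := IsPGroup.of_card (n := k) hk
    obtain ⟨K, hK⟩ := exists_JJ_eq_bot (p := p) hpU
    -- the word
    obtain ⟨w₁, ⟨hj1, hlam, -⟩, -⟩ := hUM x₀ (fun s => by
      rw [inv_mul_cancel]; exact U.one_mem') U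
    obtain ⟨j, lam⟩ := i
    have hj1' : 1 ≤ j := hj1
    have hlam' : lam ≠ 0 := hlam
    obtain ⟨m, rfl⟩ : ∃ m, j = m + 1 := ⟨j - 1, by omega⟩
    obtain ⟨u, hu⟩ := Function.ne_iff.1 hlam'
    refine ⟨m, K, tpExt lam, u.toList.dropLast, u.toList.getLast (by
      intro h
      have := u.toList_length
      rw [h] at this
      simp at this), x₀, U.toSubgroup, by simp, ?_, inferInstance, U.isOpen', ?_⟩
    · rw [List.dropLast_append_getLast]
      simp only [tpExt]
      rw [dif_pos u.toList_length]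
      exact hu
    · intro N _ hNo hNU
      refine ⟨fun s => hE N hNo _ (hx₀E s), ?_⟩
      intro ζ hζ
      have hz : ∀ s, ∃ z : G, z ∈ U ∧ (z : G ⧸ N) = ζ s := by
        intro s
        obtain ⟨z, hz⟩ := QuotientGroup.mk'_surjective N (ζ s)
        refine ⟨z, ?_, hz⟩
        have h1 := tp_map_D (p := p)
          (QuotientGroup.map N U.toSubgroup (MonoidHom.id G) hNU) K (hζ s)
        have h2 := tp_D_bot hK h1
        rw [← hz] at h2
        exact (QuotientGroup.eq_one_iff z).1 h2
      choose z hzU hzζ using hz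
      have hx' : (fun s => z s * x₀ s) ∈ tpM G ⟨m + 1, lam⟩ := by
        apply hUM
        intro s
        have h1 : (x₀ s)⁻¹ * (z s * x₀ s) = (x₀ s)⁻¹ * z s * (x₀ s)⁻¹⁻¹ := by group
        rw [h1]
        exact U.isNormal'.conj_mem _ (hzU s) _
      let N' : OpenNormalSubgroup G := { toSubgroup := N, isOpen' := hNo }
      obtain ⟨w, ⟨-, -, hw⟩, hwN⟩ := hx' N'
      refine ⟨w, hw, ?_⟩
      have h2 : FreeGroup.lift (fun s => ζ s * (x₀ s : G ⧸ N)) =
          (QuotientGroup.mk' N).comp (FreeGroup.lift fun s => z s * x₀ s) := by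
        apply FreeGroup.ext_hom
        intro s
        simp only [MonoidHom.comp_apply, FreeGroup.lift_apply_of, QuotientGroup.mk'_apply,
          QuotientGroup.mk_mul, hzζ]
      rw [h2]
      exact (QuotientGroup.eq_one_iff _).2 hwN

end Pool.Agent.H11.PP
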