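import Pool.Agent.H11.PP.Bd

/-!
# Words over an ordered alphabet

`SL u v` : strict lexicographic comparison with a mismatch.  `Lyn w` : Lyndon words.
`wl wt W` : weight of a word.
-/

namespace Pool.Agent.H11.PP

variable {α : Type*} [LinearOrder α]

/-- `u` and `v` have a first mismatch, and there `u` has the smaller letter. -/
def SL (u v : List α) : Prop :=
  ∃ (p : List α) (a b : α) (s t : List α), a < b ∧ u = p ++ a :: s ∧ v = p ++ b :: t

/-- Lyndon words: nonempty and smaller than all proper suffixes. -/
def Lyn (w : List α) : Prop :=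
  w ≠ [] ∧ ∀ u v, w = u ++ v → u ≠ [] → v ≠ [] → SL w v

/-- weight of a word -/
def wl {α : Type*} (wt : α → ℕ) (W : List α) : ℕ := (W.map wt).sum

@[simp] lemma wl_nil {α : Type*} (wt : α → ℕ) : wl wt ([] : List α) = 0 := rfl

@[simp] lemma wl_cons {α : Type*} (wt : α → ℕ) (a : α) (W : List α) :
    wl wt (a :: W) = wt a + wl wt W := by simp [wl]

@[simp] lemma wl_append {α : Type*} (wt : α → ℕ) (U V : List α) :
    wl wt (U ++ V) = wl wt U + wl wt V := by simp [wl]

lemma wl_pos {α : Type*} {wt : α → ℕ} (hwt : ∀ a, 1 ≤ wt a) {W : List α} (hW : W ≠ []) :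
    1 ≤ wl wt W := by
  cases W with
  | nil => exact absurd rfl hW
  | cons a W => have := hwt a; simp; omega

lemma length_le_wl {α : Type*} {wt : α → ℕ} (hwt : ∀ a, 1 ≤ wt a) (W : List α) :
    W.length ≤ wl wt W := by
  induction W with
  | nil => simp
  | cons a W ih => have := hwt a; simp; omega

lemma wl_one {α : Type*} (W : List α) : wl (fun _ : α => 1) W = W.length := by
  induction W with
  | nil => simp
  | cons a W ih => simp [ih]; omega

lemma SL.append {u v : List α} (h : SL u v) (x y : List α) : SL (u ++ x) (v ++ y) := by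
  obtain ⟨p, a, b, s, t, hab, rfl, rfl⟩ := h
  exact ⟨p, a, b, s ++ x, t ++ y, hab, by simp, by simp⟩

lemma SL.append_left {u v : List α} (h : SL u v) (q : List α) : SL (q ++ u) (q ++ v) := by
  obtain ⟨p, a, b, s, t, hab, rfl, rfl⟩ := h
  exact ⟨q ++ p, a, b, s, t, hab, by simp, by simp⟩

lemma SL_cons_cons {a b : α} {u v : List α} :
    SL (a :: u) (b :: v) ↔ a < b ∨ (a = b ∧ SL u v) := by
  constructor
  · rintro ⟨p, c, d, s, t, hcd, h1, h2⟩
    cases p with
    | nil =>
      simp only [List.nil_append, List.cons.injEq] at h1 h2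
      left; rw [h1.1, h2.1]; exact hcd
    | cons e p =>
      simp only [List.cons_append, List.cons.injEq] at h1 h2
      right
      exact ⟨h1.1.trans h2.1.symm, p, c, d, s, t, hcd, h1.2, h2.2⟩
  · rintro (h | ⟨rfl, p, c, d, s, t, hcd, rfl, rfl⟩)
    · exact ⟨[], a, b, u, v, h, rfl, rfl⟩
    · exact ⟨a :: p, c, d, s, t, hcd, rfl, rfl⟩

lemma not_SL_nil_left (v : List α) : ¬ SL [] v := by
  rintro ⟨p, a, b, s, t, _, h, _⟩
  simp at h

lemma not_SL_nil_right (v : List α) : ¬ SL v [] := by
  rintro ⟨p, a, b, s, t, _, _, h⟩
  simp at h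

lemma SL_append_left_iff {q u v : List α} : SL (q ++ u) (q ++ v) ↔ SL u v := by
  induction q with
  | nil => rfl
  | cons a q ih =>
    rw [List.cons_append, List.cons_append, SL_cons_cons]
    simp [ih]

lemma SL_irrefl (u : List α) : ¬ SL u u := by
  induction u with
  | nil => exact not_SL_nil_left _
  | cons a u ih => rw [SL_cons_cons]; simp [ih]

lemma SL.trans {u v w : List α} (h1 : SL u v) (h2 : SL v w) : SL u w := by
  induction u generalizing v w with
  | nil => exact absurd h1 (not_SL_nil_left _)
  | cons a u ih =>
    cases v with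
    | nil => exact absurd h2 (not_SL_nil_left _)
    | cons b v =>
      cases w with
      | nil => exact absurd h2 (not_SL_nil_right _)
      | cons c w =>
        rw [SL_cons_cons] at *
        rcases h1 with h1 | ⟨rfl, h1⟩
        · rcases h2 with h2 | ⟨rfl, h2⟩
          · left; exact h1.trans h2
          · left; exact h1
        · rcases h2 with h2 | ⟨rfl, h2⟩
          · left; exact h2
          · right; exact ⟨rfl, ih h1 h2⟩

lemma SL.asymm {u v : List α} (h1 : SL u v) : ¬ SL v u := fun h2 => SL_irrefl u (h1.trans h2)

/-- trichotomy -/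
lemma SL_trichotomy (u v : List α) : u <+: v ∨ v <+: u ∨ SL u v ∨ SL v u := by
  induction u generalizing v with
  | nil => left; exact List.nil_prefix
  | cons a u ih =>
    cases v with
    | nil => right; left; exact List.nil_prefix
    | cons b v =>
      simp only [SL_cons_cons, List.cons_prefix_cons]
      rcases lt_trichotomy a b with h | h | h
      · right; right; left; left; exact h
      · subst h
        rcases ih v with h | h | h | h
        · left; exact ⟨rfl, h⟩
        · right; left; exact ⟨rfl, h⟩
        · right; right; left; right; exact ⟨rfl, h⟩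
        · right; right; right; right; exact ⟨rfl, h⟩
      · right; right; right; left; exact h

/-- words of the same length -/
lemma SL_trichotomy_of_length {u v : List α} (h : u.length = v.length) :
    u = v ∨ SL u v ∨ SL v u := by
  rcases SL_trichotomy u v with h1 | h1 | h1 | h1
  · left; exact h1.eq_of_length h
  · left; exact (h1.eq_of_length h.symm).symm
  · right; left; exact h1
  · right; right; exact h1

/-- If `SL (u ++ x) v` with `u` at least as long as `v`, or more generally the mismatch is
inside `u`: for words `u, v` of equal length, `SL (u ++ x) (v ++ y)` is `SL u v` or `u = v` and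
`SL x y`. -/
lemma SL_append_iff {u v x y : List α} (h : u.length = v.length) :
    SL (u ++ x) (v ++ y) ↔ SL u v ∨ (u = v ∧ SL x y) := by
  induction u generalizing v with
  | nil =>
    have : v = [] := List.eq_nil_of_length_eq_zero (by simpa using h.symm)
    subst this
    simp [not_SL_nil_left]
  | cons a u ih =>
    cases v with
    | nil => simp at h
    | cons b v =>
      simp only [List.cons_append, SL_cons_cons]
      rw [ih (by simpa using h)]
      simp only [List.cons.injEq]
      tauto

lemma SL.not_prefix {u v : List α} (h : SL u v) : ¬ u <+: v := by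
  rintro ⟨t, rfl⟩
  have : SL (u ++ []) (u ++ t) := by simpa using h
  exact not_SL_nil_left _ (SL_append_left_iff.1 this)

lemma SL.not_prefix' {u v : List α} (h : SL u v) : ¬ v <+: u := by
  rintro ⟨t, rfl⟩
  have : SL (v ++ t) (v ++ []) := by simpa using h
  exact not_SL_nil_right _ (SL_append_left_iff.1 this)

lemma SL.ne {u v : List α} (h : SL u v) : u ≠ v := by
  rintro rfl; exact SL_irrefl _ h

lemma Lyn.ne_nil {w : List α} (h : Lyn w) : w ≠ [] := h.1

lemma Lyn_singleton (a : α) : Lyn [a] := by
  refine ⟨by simp, ?_⟩
  intro u v h hu hv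
  have : u.length + v.length = 1 := by
    have := congrArg List.length h
    simpa using this.symm
  have h1 : 1 ≤ u.length := List.length_pos_iff.2 hu
  have h2 : 1 ≤ v.length := List.length_pos_iff.2 hv
  omega

/-- lexicographic order, prefixes being smaller -/
def LexLt (u v : List α) : Prop := (u <+: v ∧ u ≠ v) ∨ SL u v

lemma LexLt_trichotomy (u v : List α) : u = v ∨ LexLt u v ∨ LexLt v u := by
  by_cases h : u = v
  · left; exact h
  · rcases SL_trichotomy u v with h1 | h1 | h1 | h1
    · right; left; left; exact ⟨h1, h⟩
    · right; right; left; exact ⟨h1, fun h' => h h'.symm⟩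
    · right; left; right; exact h1
    · right; right; right; exact h1

lemma LexLt_irrefl (u : List α) : ¬ LexLt u u := by
  rintro (⟨_, h⟩ | h)
  · exact h rfl
  · exact SL_irrefl _ h

lemma LexLt.trans {u v w : List α} (h1 : LexLt u v) (h2 : LexLt v w) : LexLt u w := by
  rcases h1 with ⟨h1, h1'⟩ | h1
  · rcases h2 with ⟨h2, h2'⟩ | h2
    · refine Or.inl ⟨h1.trans h2, ?_⟩
      rintro rfl
      exact h1' (h1.eq_of_length (le_antisymm h1.length_le h2.length_le))
    · obtain ⟨s, rfl⟩ := h1
      rcases SL_trichotomy u w with h3 | h3 | h3 | h3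
      · refine Or.inl ⟨h3, ?_⟩
        rintro rfl
        exact h2.not_prefix' ⟨s, rfl⟩
      · exact absurd (h3.trans ⟨s, rfl⟩) h2.not_prefix'
      · exact Or.inr h3
      · have : SL w (u ++ s) := by simpa using h3.append [] s
        exact absurd this h2.asymm
  · rcases h2 with ⟨h2, h2'⟩ | h2
    · obtain ⟨t, rfl⟩ := h2
      right
      simpa using h1.append [] t
    · right; exact h1.trans h2

end Pool.Agent.H11.PP
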